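import Mathlib

/-!
Localisation of a noncommutative algebra at a central multiplicative set of non-zero-divisors.
-/

namespace CA1492.D8

/-- A localisation of `A` at the central submonoid `S`. -/
structure CLoc (A : Type) [Ring A] [Algebra ℂ A] (S : Submonoid A) where
  B : Type
  [ring : Ring B]
  [alg : Algebra ℂ B]
  ι : A →ₐ[ℂ] B
  inj : Function.Injective ι
  unit : ∀ s ∈ S, IsUnit (ι s)
  frac : ∀ b : B, ∃ s ∈ S, ∃ a : A, ι s * b = ι a
  lift : ∀ (C : Type) [Ring C] [Algebra ℂ C] (f : A →ₐ[ℂ] C), (∀ s ∈ S, IsUnit (f s)) →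
    ∃ g : B →ₐ[ℂ] C, ∀ a, g (ι a) = f a

attribute [instance] CLoc.ring CLoc.alg

/-- PROOF. `OreLocalization S A` with the `OreLocalization.OreSet` instance
oreNum r s = r, oreDenom r s = s (s * r = r * s; cancellation: r₁ * s = r₂ * s implies s * r₁ = s * r₂).
ι = `OreLocalization.numeratorRingHom` as an algebra homomorphism (the algebra structure is
`numeratorRingHom.comp (algebraMap ..)`), injective by `numeratorHom_inj`; units: `numerator_isUnit`
(or `oreDiv_mul..`); fractions: every element is a /ₒ s (`OreLocalization.ind`), ι s * (a /ₒ s) = ι a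
(use that ι s * (a /ₒ s) = (s * a) /ₒ s by centrality of s, or multiply out with `universalHom`);
lift: `OreLocalization.universalHom` with fS s = (hunit s).unit. -/
theorem exists_cloc (A : Type) [Ring A] [Algebra ℂ A] (S : Submonoid A)
    (hc : ∀ s ∈ S, ∀ a, s * a = a * s) (hn : ∀ s ∈ S, ∀ a, s * a = 0 → a = 0) :
    Nonempty (CLoc A S) := by
  let _ : OreLocalization.OreSet S :=
    { ore_right_cancel := fun r₁ r₂ s h => ⟨s, by rw [hc s s.2, hc s s.2]; exact h⟩
      oreNum := fun r _ => r
      oreDenom := fun _ s => s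
      ore_eq := fun r s => hc s s.2 r }
  have hS : S ≤ nonZeroDivisorsLeft A := fun s hs a ha => hn s hs a ha
  refine ⟨{
    B := OreLocalization S A
    ι := { (OreLocalization.numeratorRingHom : A →+* OreLocalization S A) with
      commutes' := fun r => rfl }
    inj := OreLocalization.numeratorHom_inj hS
    unit := fun s hs => OreLocalization.numerator_isUnit (⟨s, hs⟩ : S)
    frac := ?_
    lift := ?_ }⟩
  · intro b
    induction b using OreLocalization.ind with
    | _ a s => exact ⟨s, s.2, a, OreLocalization.mul_cancel (s := s) (t := 1)⟩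
  · intro C _ _ f hf
    let fS : S →* Cˣ := IsUnit.liftRight ((f : A →* C).comp S.subtype) fun s => hf s s.2
    have hfS : ∀ s : S, (f : A →+* C) s = fS s := fun s =>
      (IsUnit.coe_liftRight ((f : A →* C).comp S.subtype) (fun s => hf s s.2) s).symm
    refine ⟨{ (OreLocalization.universalHom (f : A →+* C) fS hfS) with commutes' := ?_ }, ?_⟩
    · intro r
      have h := OreLocalization.universalHom_commutes (f : A →+* C) fS hfS (r := algebraMap ℂ A r)
      exact h.trans (f.commutes r)
    · intro a
      exact OreLocalization.universalHom_commutes (f : A →+* C) fS hfS (r := a)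

variable {A : Type} [Ring A] [Algebra ℂ A] {S : Submonoid A}

/-- The denominators are central in the localisation. PROOF: for b with ι t * b = ι a:
ι t * (ι s * b) = ι s * ι a = ι a * ι s = ι t * (b * ι s), and ι t is a unit. -/
theorem CLoc.central (L : CLoc A S) (hc : ∀ s ∈ S, ∀ a, s * a = a * s) (s : A) (hs : s ∈ S) (b : L.B) :
    L.ι s * b = b * L.ι s := by
  obtain ⟨t, ht, a, hta⟩ := L.frac b
  have h1 : L.ι t * (L.ι s * b) = L.ι t * (b * L.ι s) := by
    rw [← mul_assoc, ← map_mul, hc t ht s, map_mul, mul_assoc, hta, ← mul_assoc, hta, ← map_mul,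
      ← map_mul, hc s hs a]
  exact (L.unit t ht).mul_left_cancel h1

/-- Two homomorphisms out of the localisation that agree on A are equal. PROOF: f b and g b: choose s, a
with ι s * b = ι a; f (ι s) is a unit and f (ι s) * f b = f (ι a). -/
theorem CLoc.hom_ext (L : CLoc A S) {C : Type} [Ring C] [Algebra ℂ C] (f g : L.B →ₐ[ℂ] C)
    (h : ∀ a, f (L.ι a) = g (L.ι a)) : f = g := by
  ext b
  obtain ⟨s, hs, a, hsa⟩ := L.frac b
  have h1 : f (L.ι s) * f b = f (L.ι s) * g b := by
    rw [← map_mul, hsa, h a, h s, ← map_mul, hsa]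
  exact ((L.unit s hs).map f).mul_left_cancel h1

/-- A homomorphism out of the localisation is injective if its restriction to A is injective.
PROOF: g b = 0, ι s * b = ι a: g (ι a) = 0, so a = 0 and ι s * b = 0, b = 0. -/
theorem CLoc.inj_of (L : CLoc A S) {C : Type} [Ring C] [Algebra ℂ C] (g : L.B →ₐ[ℂ] C)
    (h : ∀ a, g (L.ι a) = 0 → a = 0) (b : L.B) (hb : g b = 0) : b = 0 := by
  obtain ⟨s, hs, a, hsa⟩ := L.frac b
  have h1 : a = 0 := h a (by rw [← hsa, map_mul, hb, mul_zero])
  rw [h1, map_zero] at hsa
  exact (L.unit s hs).mul_right_eq_zero.mp hsa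

end CA1492.D8
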