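import Mathlib
import Pool.Agent.Lib.MP_ca1492_al.D8.CLoc

/-!
Restriction of scalars to A from a central localisation of A.
-/

namespace CA1492.D8

open CategoryTheory CategoryTheory.Abelian

variable {A : Type} [Ring A] [Algebra ℂ A] {S : Submonoid A}

/-- Restriction of scalars. -/
noncomputable abbrev CLoc.res (L : CLoc A S) : ModuleCat.{0} L.B ⥤ ModuleCat.{0} A :=
  ModuleCat.restrictScalars L.ι.toRingHom

/-- A-linear maps between modules over the localisation are linear over it.
PROOF: for b with ι s * b = ι a: ι s • f (b • m) = f (ι s • b • m) = f (ι a • m) = ι a • f m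
= ι s • b • f m and ι s is a unit. -/
theorem CLoc.res_full (L : CLoc A S) {X Y : ModuleCat.{0} L.B} (f : L.res.obj X ⟶ L.res.obj Y) :
    ∃ g : X ⟶ Y, L.res.map g = f := by
  let F : X → Y := fun m => f.hom m
  have hadd : ∀ m n : X, F (m + n) = F m + F n := fun m n => f.hom.map_add m n
  have hA : ∀ (a : A) (m : X), F (L.ι a • m) = L.ι a • F m := fun a m => f.hom.map_smul a m
  have hB : ∀ (b : L.B) (m : X), F (b • m) = b • F m := by
    intro b m
    obtain ⟨s, hs, a, h⟩ := L.frac b
    refine (L.unit s hs).smul_left_cancel.mp ?_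
    rw [← hA, smul_smul, smul_smul, h, hA]
  refine ⟨ModuleCat.ofHom { toFun := F, map_add' := hadd, map_smul' := hB }, ?_⟩
  ext m
  rfl

/-- Modules on which the denominators act invertibly are modules over the localisation.
PROOF: `lift` for f = `Algebra.lsmul ℂ ℂ V` : A →ₐ[ℂ] End ℂ V. -/
theorem CLoc.exists_module (L : CLoc A S) (V : Type) [AddCommGroup V] [Module ℂ V] [Module A V]
    [IsScalarTower ℂ A V] (h : ∀ s ∈ S, Function.Bijective (fun v : V => s • v)) :
    ∃ (inst : Module L.B V), IsScalarTower ℂ L.B V ∧ ∀ (a : A) (v : V), L.ι a • v = a • v := by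
  obtain ⟨g, hg⟩ := L.lift (Module.End ℂ V) (Algebra.lsmul ℂ ℂ V) (by
    intro s hs
    rw [Module.End.isUnit_iff]
    exact h s hs)
  let inst : Module L.B V := Module.compHom V g.toRingHom
  have hsm : ∀ (b : L.B) (v : V), b • v = g b v := fun b v => rfl
  refine ⟨inst, ⟨fun c b v => ?_⟩, fun a v => ?_⟩
  · rw [hsm, hsm, map_smul]
    rfl
  · rw [hsm, hg]
    rfl

end CA1492.D8
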