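import Mathlib
import Pool.Agent.Lib.MP_ca1492_al.D8.CRes

/-!
Injective modules over the localisation are injective over A.
-/

namespace CA1492.D8

open CategoryTheory CategoryTheory.Abelian

variable {A : Type} [Ring A] [Algebra ℂ A] {S : Submonoid A}

theorem CInj_cancel (L : CLoc A S) {X : Type} [AddCommGroup X] [Module L.B X] {s : A} (hs : s ∈ S)
    {x y : X} (h : L.ι s • x = L.ι s • y) : x = y := by
  obtain ⟨u, hu⟩ := L.unit s hs
  rw [← hu] at h
  have h1 := congrArg (fun z => ((u⁻¹ : L.Bˣ) : L.B) • z) h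
  simpa only [smul_smul, Units.inv_mul, one_smul] using h1

/-- The ideal generated in the localisation. -/
def CInj_ideal (L : CLoc A S) (hc : ∀ s ∈ S, ∀ a, s * a = a * s) (J : Ideal A) : Ideal L.B where
  carrier := {b | ∃ s ∈ S, ∃ r ∈ J, L.ι s * b = L.ι r}
  add_mem' := by
    rintro b b' ⟨s, hs, r, hr, h⟩ ⟨s', hs', r', hr', h'⟩
    refine ⟨s * s', S.mul_mem hs hs', s' * r + s * r',
      J.add_mem (J.mul_mem_left _ hr) (J.mul_mem_left _ hr'), ?_⟩
    have e1 : L.ι (s * s') = L.ι s' * L.ι s := by rw [hc s hs, map_mul]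
    rw [mul_add, map_add, map_mul L.ι s' r, map_mul L.ι s r', ← h, ← h', ← mul_assoc,
      ← mul_assoc, ← e1, ← map_mul]
  zero_mem' := ⟨1, S.one_mem, 0, J.zero_mem, by rw [mul_zero, map_zero]⟩
  smul_mem' := by
    rintro b' b ⟨s, hs, r, hr, h⟩
    obtain ⟨t, ht, a, ha⟩ := L.frac b'
    refine ⟨t * s, S.mul_mem ht hs, a * r, J.mul_mem_left _ hr, ?_⟩
    rw [smul_eq_mul, map_mul, map_mul, ← ha, ← h, mul_assoc, mul_assoc, ← mul_assoc (L.ι s) b' b,
      L.central hc s hs b', mul_assoc]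

theorem CInj_mem (L : CLoc A S) (hc : ∀ s ∈ S, ∀ a, s * a = a * s) {J : Ideal A}
    (b : CInj_ideal L hc J) : ∃ s ∈ S, ∃ r ∈ J, L.ι s * (b : L.B) = L.ι r := b.2

theorem CInj_ext (L : CLoc A S) (hc : ∀ s ∈ S, ∀ a, s * a = a * s) {X : Type} [AddCommGroup X]
    [Module L.B X] (J : Ideal A) (g : J → X)
    (hadd : ∀ x y : J, g (x + y) = g x + g y) (hsmul : ∀ (a : A) (x : J), g (a • x) = L.ι a • g x) :
    ∃ G : CInj_ideal L hc J →ₗ[L.B] X, ∀ (b : CInj_ideal L hc J) (s : A) (_ : s ∈ S) (r : J),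
      L.ι s * (b : L.B) = L.ι r → L.ι s • G b = g r := by
  classical
  have hex : ∀ b : CInj_ideal L hc J, ∃ y : X, ∀ (s : A) (_ : s ∈ S) (r : J),
      L.ι s * (b : L.B) = L.ι r → L.ι s • y = g r := by
    intro b
    obtain ⟨s₀, hs₀, r₀, hr₀, h₀⟩ := CInj_mem L hc b
    obtain ⟨u, hu⟩ := L.unit s₀ hs₀
    refine ⟨((u⁻¹ : L.Bˣ) : L.B) • g ⟨r₀, hr₀⟩, fun s hs r h => ?_⟩
    have hy : L.ι s₀ • (((u⁻¹ : L.Bˣ) : L.B) • g ⟨r₀, hr₀⟩) = g ⟨r₀, hr₀⟩ := by
      rw [← hu, smul_smul, Units.mul_inv, one_smul]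
    refine CInj_cancel L hs₀ ?_
    have e1 : s * r₀ = s₀ * (r : A) := by
      apply L.inj
      rw [map_mul, map_mul, ← h, ← h₀, ← mul_assoc, ← mul_assoc, ← map_mul, ← map_mul, hc s hs]
    have e2 : s • (⟨r₀, hr₀⟩ : J) = s₀ • r := Subtype.ext e1
    rw [smul_smul, ← map_mul, ← hc s hs, map_mul, ← smul_smul, hy, ← hsmul, ← hsmul, e2]
  choose G hG using hex
  have huniq : ∀ (b : CInj_ideal L hc J) (y : X) (s : A) (_ : s ∈ S) (r : J),
      L.ι s * (b : L.B) = L.ι r → L.ι s • y = g r → G b = y := by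
    intro b y s hs r h h'
    exact CInj_cancel L hs ((hG b s hs r h).trans h'.symm)
  refine ⟨{ toFun := G, map_add' := fun b b' => ?_, map_smul' := fun c b => ?_ }, hG⟩
  · obtain ⟨s, hs, r, hr, h⟩ := CInj_mem L hc b
    obtain ⟨s', hs', r', hr', h'⟩ := CInj_mem L hc b'
    have e1 : L.ι (s * s') = L.ι s' * L.ι s := by rw [hc s hs, map_mul]
    refine huniq _ _ (s * s') (S.mul_mem hs hs') (s' • (⟨r, hr⟩ : J) + s • (⟨r', hr'⟩ : J)) ?_ ?_
    · have e2 : ((s' • (⟨r, hr⟩ : J) + s • (⟨r', hr'⟩ : J) : J) : A) = s' * r + s * r' := rfl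
      have e3 : ((b + b' : CInj_ideal L hc J) : L.B) = (b : L.B) + b' := rfl
      rw [e2, e3, mul_add, map_add, map_mul L.ι s' r, map_mul L.ι s r', ← h, ← h', ← mul_assoc,
        ← mul_assoc, ← e1, ← map_mul]
    · rw [hadd, hsmul, hsmul, ← hG b s hs ⟨r, hr⟩ h, ← hG b' s' hs' ⟨r', hr'⟩ h', smul_add,
        smul_smul, smul_smul, ← e1, ← map_mul]
  · obtain ⟨s, hs, r, hr, h⟩ := CInj_mem L hc b
    obtain ⟨t, ht, a, ha⟩ := L.frac c
    refine huniq _ _ (t * s) (S.mul_mem ht hs) (a • (⟨r, hr⟩ : J)) ?_ ?_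
    · have e2 : ((a • (⟨r, hr⟩ : J) : J) : A) = a * r := rfl
      have e3 : ((c • b : CInj_ideal L hc J) : L.B) = c * (b : L.B) := rfl
      rw [e2, e3, map_mul, map_mul, ← ha, ← h, mul_assoc, mul_assoc, ← mul_assoc (L.ι s) c (b : L.B),
        L.central hc s hs c, mul_assoc]
    · rw [hsmul, ← hG b s hs ⟨r, hr⟩ h, ← ha, RingHom.id_apply, smul_smul, smul_smul, map_mul,
        mul_assoc, mul_assoc, L.central hc s hs c]

/-- Injective modules over the localisation are injective over A.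
PROOF. Baer's criterion (`Module.Baer.injective`, `Module.injective_iff_injective_object` or
`Module.injective_object_of_injective_module`). Let J be a left ideal of A and g : J → I A-linear. Put
J' = {b : L.B | ∃ s ∈ S, ∃ r ∈ J, ι s * b = ι r}, a left ideal of L.B (sum: multiply by the other
denominator; b' * b: if ι t * b' = ι a then ι (t * s) * (b' * b) = ι (a * r), by centrality). For b ∈ J'
choose s, r and put g' b = (ι s)⁻¹ • g r. This does not depend on the choice: if ι s' * b = ι r' then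
s' * r = s * r' (injectivity and centrality), so s' • g r = s • g r'. g' is L.B-linear (same computations),
and g' (ι r) = g r. As I is an injective L.B-module, g' extends to L.B → I, b ↦ b • c; then r ↦ ι r • c
extends g. -/
theorem CLoc.res_injective (L : CLoc A S) (hc : ∀ s ∈ S, ∀ a, s * a = a * s)
    (X : ModuleCat.{0} L.B) [Injective X] : Injective (L.res.obj X) := by
  have hX : Module.Injective L.B X := Module.injective_module_of_injective_object L.B X
  have hB : Module.Baer L.B X := Module.Baer.of_injective hX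
  have hmain : Module.Baer A (L.res.obj X) := by
    intro J g
    have hs : ∀ (a : A) (x : X), (a • (show L.res.obj X from x) : L.res.obj X) = L.ι a • x :=
      fun a x => rfl
    obtain ⟨G, hG⟩ := CInj_ext L hc (X := X) J (fun r => (show X from g r))
      (fun x y => map_add g x y) (fun a x => map_smul g a x)
    obtain ⟨G', hG'⟩ := hB (CInj_ideal L hc J) G
    refine ⟨{ toFun := fun a => (show L.res.obj X from G' (L.ι a))
              map_add' := fun x y => ?_
              map_smul' := fun a x => ?_ }, fun r hr => ?_⟩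
    · change G' (L.ι (x + y)) = G' (L.ι x) + G' (L.ι y)
      rw [map_add, map_add]
    · change G' (L.ι (a * x)) = L.ι a • G' (L.ι x)
      rw [map_mul, ← smul_eq_mul, map_smul]
    · change G' (L.ι r) = (show X from g ⟨r, hr⟩)
      have hm : L.ι r ∈ CInj_ideal L hc J := ⟨1, S.one_mem, r, hr, by rw [map_one, one_mul]⟩
      rw [hG' (L.ι r) hm]
      have h1 := hG ⟨L.ι r, hm⟩ 1 S.one_mem ⟨r, hr⟩ (by rw [map_one, one_mul])
      rw [map_one, one_smul] at h1
      exact h1
  have hI : Module.Injective A (L.res.obj X) := hmain.injective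
  exact Module.injective_object_of_injective_module A (L.res.obj X)

end CA1492.D8
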