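import Mathlib
import Pool.Agent.Lib.MP_ca1492_al.D8.CInj

/-!
Transfer of the vanishing of Ext.
-/

namespace CA1492.D8

open CategoryTheory CategoryTheory.Abelian

variable {A : Type} [Ring A] [Algebra ℂ A] {S : Submonoid A}

/-- Transfer of the vanishing of Ext. PROOF. Induction on k, for all X, Y. Choose a short exact sequence
0 → Y → I → C → 0 of L.B-modules with I injective (`EnoughInjectives (ModuleCat L.B)`,
`Injective.under`, cokernel); res is exact, so 0 → res Y → res I → res C → 0 is short exact
(`ShortComplex.ShortExact.map_of_exact`), and res I is injective (`res_injective`). Use the covariant long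
exact sequence (`Ext.covariant_sequence_exact₁`, `₂`, `₃`) and `Ext.eq_zero_of_injective`.
k = 0: Ext¹(X, Y) = 0, so every X ⟶ C lifts to X ⟶ I; by `res_full` every res X ⟶ res C lifts to
res X ⟶ res I, and Ext¹(res X, res Y) = 0 since Ext¹(res X, res I) = 0.
k + 1: Ext^{k+1}(X, C) is a quotient... precisely: Ext^{k+1}(X, C) → Ext^{k+2}(X, Y) is injective because
Ext^{k+1}(X, I) = 0, so Ext^{k+1}(X, C) = 0; by induction Ext^{k+1}(res X, res C) = 0, and
Ext^{k+1}(res X, res C) → Ext^{k+2}(res X, res Y) is surjective because Ext^{k+2}(res X, res I) = 0. -/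
theorem CLoc.ext_vanish (L : CLoc A S) (hc : ∀ s ∈ S, ∀ a, s * a = a * s) (k : ℕ)
    (X Y : ModuleCat.{0} L.B) (h : Subsingleton (Ext.{0} X Y (k + 1))) :
    Subsingleton (Ext.{0} (L.res.obj X) (L.res.obj Y) (k + 1)) := by
  have : L.res.Full := ⟨fun {X Y} f => L.res_full f⟩
  have : L.res.PreservesInjectiveObjects := ⟨fun {X} _ => L.res_injective hc X⟩
  have : Limits.PreservesFiniteLimits L.res := ⟨fun J _ _ => ⟨fun {F} => inferInstance⟩⟩
  have : Limits.PreservesFiniteColimits L.res := ⟨fun J _ _ => ⟨fun {F} => inferInstance⟩⟩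
  have hb := Functor.mapExt_bijective_of_preservesInjectiveObjects L.res X Y (k + 1)
  exact hb.surjective.subsingleton

end CA1492.D8
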