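import Mathlib
import Pool.Agent.Lib.MP_ca1492_al.Alg.PBW

/-!
The Coxeter presentation of Perm (Fin n).
-/

namespace CA1492.D8

section Cox_aux

variable {M : Type} [Monoid M] (g : ℕ → M)

/-- the product `g p * g (p+1) * ... * g (p+k-1)` -/
def Cox_C : ℕ → ℕ → M
  | _, 0 => 1
  | p, (k + 1) => g p * Cox_C (p + 1) k

/-- the product of the `Cox_C` over `j < s` -/
def Cox_G : ℕ → (ℕ → ℕ) → M
  | 0, _ => 1
  | (s + 1), p => Cox_C g (p s) (s - p s) * Cox_G s p

theorem Cox_G_congr (s : ℕ) (p p' : ℕ → ℕ) (h : ∀ j < s, p j = p' j) :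
    Cox_G g s p = Cox_G g s p' := by
  induction s with
  | zero => rfl
  | succ s ih =>
    show Cox_C g (p s) (s - p s) * Cox_G g s p = Cox_C g (p' s) (s - p' s) * Cox_G g s p'
    rw [h s (Nat.lt_succ_self s), ih (fun j hj => h j (Nat.lt_succ_of_lt hj))]

variable {g} {n : ℕ}

theorem Cox_comm (h3 : ∀ r s, r + 1 < s → s + 1 < n → g r * g s = g s * g r) (r k : ℕ) :
    ∀ p, r + 1 < p → p + k < n + 1 → (k = 0 ∨ p + k < n) →
      g r * Cox_C g p k = Cox_C g p k * g r := by
  induction k with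
  | zero =>
    intro p _ _ _
    show g r * 1 = 1 * g r
    rw [mul_one, one_mul]
  | succ k ih =>
    intro p hp hk hk'
    have hlt : p + (k + 1) < n := by
      rcases hk' with h | h
      · exact absurd h (Nat.succ_ne_zero k)
      · exact h
    show g r * (g p * Cox_C g (p + 1) k) = g p * Cox_C g (p + 1) k * g r
    rw [← mul_assoc, h3 r p hp (by omega), mul_assoc, ih (p + 1) (by omega) (by omega)
      (Or.inr (by omega)), mul_assoc]

theorem Cox_shift (h2 : ∀ r, r + 2 < n → g (r + 1) * g r * g (r + 1) = g r * g (r + 1) * g r)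
    (h3 : ∀ r s, r + 1 < s → s + 1 < n → g r * g s = g s * g r) (i : ℕ) :
    ∀ p k, i + 1 < k → p + k < n →
      g (p + 1 + i) * Cox_C g p k = Cox_C g p k * g (p + i) := by
  induction i with
  | zero =>
    intro p k hk hn
    obtain ⟨k', rfl⟩ : ∃ k', k = k' + 1 + 1 := ⟨k - 2, by omega⟩
    show g (p + 1 + 0) * (g p * (g (p + 1) * Cox_C g (p + 1 + 1) k')) =
      g p * (g (p + 1) * Cox_C g (p + 1 + 1) k') * g (p + 0)
    rw [Nat.add_zero, Nat.add_zero]
    have h4 : g p * Cox_C g (p + 1 + 1) k' = Cox_C g (p + 1 + 1) k' * g p :=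
      Cox_comm h3 p k' (p + 1 + 1) (by omega) (by omega) (by omega)
    calc g (p + 1) * (g p * (g (p + 1) * Cox_C g (p + 1 + 1) k'))
        = (g (p + 1) * g p * g (p + 1)) * Cox_C g (p + 1 + 1) k' := by
          simp only [mul_assoc]
      _ = (g p * g (p + 1) * g p) * Cox_C g (p + 1 + 1) k' := by rw [h2 p (by omega)]
      _ = g p * g (p + 1) * (g p * Cox_C g (p + 1 + 1) k') := by simp only [mul_assoc]
      _ = g p * (g (p + 1) * Cox_C g (p + 1 + 1) k') * g p := by
          rw [h4]
          simp only [mul_assoc]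
  | succ i ih =>
    intro p k hk hn
    obtain ⟨k', rfl⟩ : ∃ k', k = k' + 1 := ⟨k - 1, by omega⟩
    show g (p + 1 + (i + 1)) * (g p * Cox_C g (p + 1) k') =
      g p * Cox_C g (p + 1) k' * g (p + (i + 1))
    have h4 : g (p + 1 + (i + 1)) * g p = g p * g (p + 1 + (i + 1)) :=
      (h3 p (p + 1 + (i + 1)) (by omega) (by omega)).symm
    have h5 := ih (p + 1) k' (by omega) (by omega)
    have e1 : p + 1 + 1 + i = p + 1 + (i + 1) := by omega
    have e2 : p + 1 + i = p + (i + 1) := by omega
    rw [e1, e2] at h5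
    rw [← mul_assoc, h4, mul_assoc, h5, mul_assoc]

/-- the set of the products -/
def Cox_Gam (g : ℕ → M) (s : ℕ) : Set M :=
  {x | ∃ p : ℕ → ℕ, (∀ j < s, p j ≤ j) ∧ x = Cox_G g s p}

theorem Cox_one (g : ℕ → M) (s : ℕ) : (1 : M) ∈ Cox_Gam g s := by
  refine ⟨fun j => j, fun j _ => le_refl j, ?_⟩
  induction s with
  | zero => rfl
  | succ s ih =>
    show 1 = Cox_C g s (s - s) * Cox_G g s (fun j => j)
    rw [← ih, Nat.sub_self]
    show 1 = 1 * 1
    rw [mul_one]

theorem Cox_mk (g : ℕ → M) (s p : ℕ) (hp : p ≤ s) (y : M) (hy : y ∈ Cox_Gam g s) :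
    Cox_C g p (s - p) * y ∈ Cox_Gam g (s + 1) := by
  obtain ⟨p', hp', rfl⟩ := hy
  refine ⟨Function.update p' s p, ?_, ?_⟩
  · intro j hj
    by_cases hjs : j = s
    · subst hjs
      rw [Function.update_self]
      exact hp
    · rw [Function.update_of_ne hjs]
      exact hp' j (by omega)
  · show _ = Cox_C g (Function.update p' s p s) (s - Function.update p' s p s) *
      Cox_G g s (Function.update p' s p)
    rw [Function.update_self]
    congr 1
    apply Cox_G_congr
    intro j hj
    rw [Function.update_of_ne (Nat.ne_of_lt hj)]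

theorem Cox_mul (h1 : ∀ r, r + 1 < n → g r * g r = 1)
    (h2 : ∀ r, r + 2 < n → g (r + 1) * g r * g (r + 1) = g r * g (r + 1) * g r)
    (h3 : ∀ r s, r + 1 < s → s + 1 < n → g r * g s = g s * g r) (s : ℕ) :
    s ≤ n → ∀ r, r + 1 < s → ∀ x ∈ Cox_Gam g s, g r * x ∈ Cox_Gam g s := by
  induction s with
  | zero =>
    intro _ r hr
    omega
  | succ s ih =>
    intro hs r hr x hx
    obtain ⟨p, hp, rfl⟩ := hx
    show g r * (Cox_C g (p s) (s - p s) * Cox_G g s p) ∈ _
    have hps : p s ≤ s := hp s (Nat.lt_succ_self s)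
    have hy : Cox_G g s p ∈ Cox_Gam g s := ⟨p, fun j hj => hp j (by omega), rfl⟩
    generalize Cox_G g s p = y at hy
    generalize p s = q at hps
    rcases lt_trichotomy r q with hrq | hrq | hrq
    · rcases Nat.lt_or_ge (r + 1) q with h | h
      · rw [← mul_assoc, Cox_comm h3 r (s - q) q h (by omega) (by omega), mul_assoc]
        exact Cox_mk g s q hps _ (ih (by omega) r (by omega) y hy)
      · have e : q = r + 1 := by omega
        subst e
        rw [← mul_assoc]
        have e2 : g r * Cox_C g (r + 1) (s - (r + 1)) = Cox_C g r (s - r) := by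
          have e3 : s - r = (s - (r + 1)) + 1 := by omega
          rw [e3]
          rfl
        rw [e2]
        exact Cox_mk g s r (by omega) y hy
    · subst hrq
      have e3 : s - r = (s - (r + 1)) + 1 := by omega
      have e2 : g r * (Cox_C g r (s - r) * y) = Cox_C g (r + 1) (s - (r + 1)) * y := by
        rw [e3]
        show g r * (g r * Cox_C g (r + 1) (s - (r + 1)) * y) = _
        rw [← mul_assoc, ← mul_assoc, h1 r (by omega), one_mul]
      rw [e2]
      exact Cox_mk g s (r + 1) (by omega) y hy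
    · obtain ⟨i, rfl⟩ : ∃ i, r = q + 1 + i := ⟨r - (q + 1), by omega⟩
      rw [← mul_assoc, Cox_shift h2 h3 i q (s - q) (by omega) (by omega), mul_assoc]
      exact Cox_mk g s q hps _ (ih (by omega) (q + i) (by omega) y hy)

theorem Cox_sub (S : Submonoid M) (hS : ∀ r, r + 1 < n → g r ∈ S) (s : ℕ) (hs : s ≤ n)
    (p : ℕ → ℕ) (hp : ∀ j < s, p j ≤ j) : Cox_G g s p ∈ S := by
  have hC : ∀ k p, p + k < n + 1 → (k = 0 ∨ p + k < n) → Cox_C g p k ∈ S := by
    intro k
    induction k with
    | zero =>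
      intro p _ _
      exact S.one_mem
    | succ k ih =>
      intro p h h'
      exact S.mul_mem (hS p (by omega)) (ih (p + 1) (by omega) (by omega))
  induction s with
  | zero => exact S.one_mem
  | succ s ih =>
    have h := hp s (Nat.lt_succ_self s)
    exact S.mul_mem (hC _ _ (by omega) (by omega))
      (ih (by omega) (fun j hj => hp j (by omega)))

end Cox_aux

theorem Cox_sw_braid {n : ℕ} (r : ℕ) (h : r + 2 < n) :
    sw n (r + 1) * sw n r * sw n (r + 1) = sw n r * sw n (r + 1) * sw n r := by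
  unfold sw
  rw [dif_pos (show r + 1 + 1 < n by omega), dif_pos (show r + 1 < n by omega)]
  have h1 : (⟨r, by omega⟩ : Fin n) ≠ ⟨r + 1, by omega⟩ := by
    intro h'
    have := congrArg Fin.val h'
    simp at this
  have h2 : (⟨r, by omega⟩ : Fin n) ≠ ⟨r + 1 + 1, by omega⟩ := by
    intro h'
    have := congrArg Fin.val h'
    simp only at this
    omega
  have h3 : (⟨r + 1, by omega⟩ : Fin n) ≠ ⟨r + 1 + 1, by omega⟩ := by
    intro h'
    have := congrArg Fin.val h'
    simp only at this
    omega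
  rw [Equiv.swap_mul_swap_mul_swap h1 h2]
  rw [Equiv.swap_comm (⟨r, by omega⟩ : Fin n) ⟨r + 1, by omega⟩,
    Equiv.swap_comm (⟨r + 1, by omega⟩ : Fin n) ⟨r + 1 + 1, by omega⟩,
    Equiv.swap_mul_swap_mul_swap h3.symm h2.symm, Equiv.swap_comm]

theorem Cox_sw_far {n : ℕ} (r s : ℕ) (h : r + 1 < s) (hs : s + 1 < n) :
    sw n r * sw n s = sw n s * sw n r := by
  unfold sw
  rw [dif_pos (show r + 1 < n by omega), dif_pos hs]
  refine (Equiv.Perm.disjoint_swap_swap ?_).commute
  simp only [List.nodup_cons, List.mem_cons, List.not_mem_nil, or_false, not_or, Fin.ext_iff,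
    List.nodup_nil, and_true, not_false_eq_true]
  omega

/-- PROOF. If n = 0 or n = 1 take the trivial homomorphism. Let G = Perm (Fin n) × A (a monoid),
g r = (sw n r, t r) and γ(p) = ∏ over j = n-1, n-2, ..., 0 of C (p j) j, where C p q = g p * g (p+1) * ... *
g (q-1) and p : Sq n (p j ≤ j), as `CS 0 n` in Alg/Defs. Let Γ = range of γ. Claim: 1 ∈ Γ (p j = j) and
g r * Γ ⊆ Γ for r + 1 < n. More generally for s ≤ n let Γ s be the set of products over j < s; show
g r * Γ s ⊆ Γ s for r + 1 < s, by induction on s. Let x = C p q * y, q = s - 1, y ∈ Γ (s-1), r < q.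
r + 1 < p: g r commutes with C p q, and g r * y ∈ Γ (s-1) since r + 1 < p ≤ q.
r + 1 = p: g r * C p q = C (p-1) q. r = p: g p * g p = 1, so g r * C p q = C (p+1) q (here p < q).
p < r (< q): g r * C p q = C p q * g (r-1): g r commutes with g p, ..., g (r-2);
g r * g (r-1) * g r = g (r-1) * g r * g (r-1) (braid relation for r - 1), and g (r-1) commutes with
g (r+1), ..., g (q-1); then use g (r-1) * y ∈ Γ (s-1), (r-1) + 1 < s - 1.
Here the relations of the g r hold in both components (for the permutations sw n r they are elementary,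
see `sw` lemmas in Alg/RepXa).
So Γ is a submonoid generated by the g r (every element of the submonoid closure of the g r lies in Γ and
conversely). The first projection Γ → Perm (Fin n) is surjective (`perm` generated by adjacent
transpositions, `Equiv.Perm.mclosure_swap_castSucc_succ`), so fst ∘ γ : Sq n → Perm (Fin n) is a
surjection between finite sets of the same cardinality (`card_Sq`, `Fintype.card_perm`), hence injective.
So for every σ there is exactly one a with (σ, a) ∈ Γ; f σ := a is a monoid homomorphism since Γ is closed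
under products. -/
theorem exists_permHom {n : ℕ} {A : Type} [Monoid A] (t : ℕ → A)
    (h1 : ∀ r, r + 1 < n → t r * t r = 1)
    (h2 : ∀ r, r + 2 < n → t (r + 1) * t r * t (r + 1) = t r * t (r + 1) * t r)
    (h3 : ∀ r s, r + 1 < s → s + 1 < n → t r * t s = t s * t r) :
    ∃ f : Equiv.Perm (Fin n) →* A, ∀ r, r + 1 < n → f (sw n r) = t r := by
  classical
  let g : ℕ → Equiv.Perm (Fin n) × A := fun r => (sw n r, t r)
  have g1 : ∀ r, r + 1 < n → g r * g r = 1 := fun r hr =>
    Prod.ext (repXa_sw_mul n r) (h1 r hr)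
  have g2 : ∀ r, r + 2 < n → g (r + 1) * g r * g (r + 1) = g r * g (r + 1) * g r := fun r hr =>
    Prod.ext (Cox_sw_braid r hr) (h2 r hr)
  have g3 : ∀ r s, r + 1 < s → s + 1 < n → g r * g s = g s * g r := fun r s hrs hs =>
    Prod.ext (Cox_sw_far r s hrs hs) (h3 r s hrs hs)
  let S : Submonoid (Equiv.Perm (Fin n) × A) := Submonoid.closure {x | ∃ r, r + 1 < n ∧ x = g r}
  have hgS : ∀ r, r + 1 < n → g r ∈ S := fun r hr => Submonoid.subset_closure ⟨r, hr, rfl⟩
  have hSG : ∀ x ∈ S, x ∈ Cox_Gam g n := by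
    intro x hx
    refine Submonoid.closure_induction_left (motive := fun x _ => x ∈ Cox_Gam g n) ?_ ?_ hx
    · exact Cox_one g n
    · rintro _ ⟨r, hr, rfl⟩ y _ hy
      exact Cox_mul g1 g2 g3 n le_rfl r hr y hy
  -- surjectivity of the first projection
  have hsurj : ∀ σ : Equiv.Perm (Fin n), ∃ a : A, (σ, a) ∈ S := by
    intro σ
    have htop : Submonoid.closure {τ : Equiv.Perm (Fin n) | ∃ r, r + 1 < n ∧ τ = sw n r} = ⊤ := by
      rcases n with _ | n
      · exact Subsingleton.elim _ _
      · rw [← Equiv.Perm.mclosure_swap_castSucc_succ n]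
        congr 1
        ext τ
        constructor
        · rintro ⟨r, hr, rfl⟩
          refine ⟨⟨r, by omega⟩, ?_⟩
          unfold sw
          rw [dif_pos hr]
          rfl
        · rintro ⟨i, rfl⟩
          refine ⟨i.val, by omega, ?_⟩
          unfold sw
          rw [dif_pos (show i.val + 1 < n + 1 by omega)]
          rfl
    have hσ : σ ∈ Submonoid.closure {τ : Equiv.Perm (Fin n) | ∃ r, r + 1 < n ∧ τ = sw n r} := by
      rw [htop]
      trivial
    refine Submonoid.closure_induction (motive := fun τ _ => ∃ a : A, (τ, a) ∈ S) ?_ ?_ ?_ hσ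
    · rintro _ ⟨r, hr, rfl⟩
      exact ⟨t r, hgS r hr⟩
    · exact ⟨1, S.one_mem⟩
    · rintro x y _ _ ⟨a, ha⟩ ⟨b, hb⟩
      exact ⟨a * b, S.mul_mem ha hb⟩
  -- the parametrisation is injective
  let γ : Sq n → Equiv.Perm (Fin n) × A := fun p => Cox_G g n (sqFun p)
  have hγS : ∀ p, γ p ∈ S := by
    intro p
    refine Cox_sub S hgS n le_rfl _ ?_
    intro j hj
    show (if h : j < n then (p ⟨j, h⟩).val else 0) ≤ j
    rw [dif_pos hj]
    exact Nat.lt_succ_iff.1 (p ⟨j, hj⟩).isLt
  have hγ : ∀ x ∈ S, ∃ p : Sq n, γ p = x := by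
    intro x hx
    obtain ⟨p, hp, rfl⟩ := hSG x hx
    refine ⟨fun j => ⟨p j.val, Nat.lt_succ_of_le (hp j.val j.isLt)⟩, ?_⟩
    apply Cox_G_congr
    intro j hj
    show (if h : j < n then p j else 0) = p j
    rw [dif_pos hj]
  have hbij : Function.Bijective (fun p : Sq n => (γ p).1) := by
    rw [Fintype.bijective_iff_surjective_and_card]
    refine ⟨?_, ?_⟩
    · intro σ
      obtain ⟨a, ha⟩ := hsurj σ
      obtain ⟨p, hp⟩ := hγ _ ha
      exact ⟨p, congrArg Prod.fst hp⟩
    · rw [card_Sq, Fintype.card_perm, Fintype.card_fin]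
  have huniq : ∀ (σ : Equiv.Perm (Fin n)) (a b : A), (σ, a) ∈ S → (σ, b) ∈ S → a = b := by
    intro σ a b ha hb
    obtain ⟨p, hp⟩ := hγ _ ha
    obtain ⟨p', hp'⟩ := hγ _ hb
    have h : p = p' := hbij.1 (by
      show (γ p).1 = (γ p').1
      rw [hp, hp'])
    rw [h, hp'] at hp
    exact (congrArg Prod.snd hp).symm
  choose f hf using hsurj
  refine ⟨{ toFun := f, map_one' := ?_, map_mul' := ?_ }, ?_⟩
  · exact huniq 1 _ _ (hf 1) S.one_mem
  · intro σ τ
    exact huniq (σ * τ) _ _ (hf _) (S.mul_mem (hf σ) (hf τ))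
  · intro r hr
    exact huniq (sw n r) _ _ (hf _) (hgS r hr)

end CA1492.D8
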