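import Mathlib

/-!
Exactness of perturbed Koszul complexes over the polynomial ring, by the Euler homotopy.
-/

namespace CA1492.D8

open MvPolynomial TensorProduct

variable {n : ℕ} {W : Type} [AddCommGroup W] [Module ℂ W]

/-- The operator ∑ X k ⊗ c k + 1 ⊗ δ. -/
noncomputable def dU (c : Fin n → Module.End ℂ W) (δ : Module.End ℂ W) :
    MvPolynomial (Fin n) ℂ ⊗[ℂ] W →ₗ[ℂ] MvPolynomial (Fin n) ℂ ⊗[ℂ] W :=
  ∑ k, TensorProduct.map (LinearMap.mulLeft ℂ (X k)) (c k) + TensorProduct.map LinearMap.id δ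

/-- The filtration by the polynomial degree. -/
noncomputable def Euler_F (n : ℕ) (W : Type) [AddCommGroup W] [Module ℂ W] (a : ℕ) :
    Submodule ℂ (MvPolynomial (Fin n) ℂ ⊗[ℂ] W) :=
  Submodule.span ℂ {t | ∃ (b : ℕ) (p : MvPolynomial (Fin n) ℂ) (x : W),
    b < a ∧ p.IsHomogeneous b ∧ t = p ⊗ₜ[ℂ] x}

theorem Euler_mono {a b : ℕ} (h : a ≤ b) : Euler_F n W a ≤ Euler_F n W b := by
  refine Submodule.span_mono ?_
  rintro t ⟨c, p, x, hc, hp, rfl⟩
  exact ⟨c, p, x, lt_of_lt_of_le hc h, hp, rfl⟩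

theorem Euler_exists (u : MvPolynomial (Fin n) ℂ ⊗[ℂ] W) : ∃ a, u ∈ Euler_F n W a := by
  induction u using TensorProduct.induction_on with
  | zero => exact ⟨0, Submodule.zero_mem _⟩
  | tmul p x =>
    refine ⟨p.totalDegree + 1, ?_⟩
    rw [← sum_homogeneousComponent p, TensorProduct.sum_tmul]
    refine Submodule.sum_mem _ fun i hi => Submodule.subset_span ?_
    rw [sum_homogeneousComponent p]
    exact ⟨i, homogeneousComponent i p, x, Finset.mem_range.mp hi,
      homogeneousComponent_isHomogeneous i p, rfl⟩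
  | add x y hx hy =>
    obtain ⟨a, ha⟩ := hx
    obtain ⟨b, hb⟩ := hy
    exact ⟨max a b, Submodule.add_mem _ (Euler_mono (le_max_left _ _) ha)
      (Euler_mono (le_max_right _ _) hb)⟩

/-- The homotopy. -/
noncomputable def Euler_h (w : Fin n → Module.End ℂ W) :
    MvPolynomial (Fin n) ℂ ⊗[ℂ] W →ₗ[ℂ] MvPolynomial (Fin n) ℂ ⊗[ℂ] W :=
  ∑ k, TensorProduct.map (pderiv k : Derivation ℂ _ _).toLinearMap (w k)

theorem Euler_h_tmul (w : Fin n → Module.End ℂ W) (p : MvPolynomial (Fin n) ℂ) (x : W) :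
    Euler_h w (p ⊗ₜ[ℂ] x) = ∑ k, pderiv k p ⊗ₜ[ℂ] w k x := by
  unfold Euler_h
  rw [LinearMap.sum_apply]
  rfl

theorem Euler_dU_tmul (c : Fin n → Module.End ℂ W) (δ : Module.End ℂ W)
    (p : MvPolynomial (Fin n) ℂ) (x : W) :
    dU c δ (p ⊗ₜ[ℂ] x) = ∑ k, (X k * p) ⊗ₜ[ℂ] c k x + p ⊗ₜ[ℂ] δ x := by
  unfold dU
  rw [LinearMap.add_apply, LinearMap.sum_apply]
  rfl

/-- The Euler operator. -/
noncomputable def Euler_E (n : ℕ) (W : Type) [AddCommGroup W] [Module ℂ W] :
    MvPolynomial (Fin n) ℂ ⊗[ℂ] W →ₗ[ℂ] MvPolynomial (Fin n) ℂ ⊗[ℂ] W :=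
  ∑ k, TensorProduct.map (LinearMap.mulLeft ℂ (X k) ∘ₗ (pderiv k : Derivation ℂ _ _).toLinearMap)
    LinearMap.id

theorem Euler_E_tmul (p : MvPolynomial (Fin n) ℂ) (x : W) :
    Euler_E n W (p ⊗ₜ[ℂ] x) = ∑ k, (X k * pderiv k p) ⊗ₜ[ℂ] x := by
  unfold Euler_E
  rw [LinearMap.sum_apply]
  rfl

/-- The remainder. -/
noncomputable def Euler_R (w : Fin n → Module.End ℂ W) (δ : Module.End ℂ W) :
    MvPolynomial (Fin n) ℂ ⊗[ℂ] W →ₗ[ℂ] MvPolynomial (Fin n) ℂ ⊗[ℂ] W :=
  Euler_h fun k => δ * w k + w k * δ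

theorem Euler_one (c w : Fin n → Module.End ℂ W) (δ N : Module.End ℂ W)
    (hN : N = ∑ k, w k * c k)
    (hcw : ∀ k l, c k * w l + w l * c k = if k = l then 1 else 0)
    (u : MvPolynomial (Fin n) ℂ ⊗[ℂ] W) :
    dU c δ (Euler_h w u) + Euler_h w (dU c δ u) =
      Euler_E n W u + TensorProduct.map LinearMap.id N u + Euler_R w δ u := by
  induction u using TensorProduct.induction_on with
  | zero => simp only [map_zero, add_zero]
  | add x y hx hy =>
    simp only [map_add]
    have h1 : dU c δ (Euler_h w x) + dU c δ (Euler_h w y) +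
        (Euler_h w (dU c δ x) + Euler_h w (dU c δ y)) =
        (dU c δ (Euler_h w x) + Euler_h w (dU c δ x)) +
        (dU c δ (Euler_h w y) + Euler_h w (dU c δ y)) := by abel
    rw [h1, hx, hy]
    abel
  | tmul p x =>
    unfold Euler_R
    rw [Euler_h_tmul, Euler_dU_tmul, Euler_h_tmul, Euler_E_tmul, TensorProduct.map_tmul,
      map_sum, map_add, map_sum]
    simp only [Euler_dU_tmul, Euler_h_tmul, LinearMap.id_apply, Derivation.leibniz, smul_eq_mul,
      pderiv_X]
    have h1 : ∀ k l : Fin n, (X k * pderiv l p + p * (Pi.single l 1 : Fin n → MvPolynomial (Fin n) ℂ) k) ⊗ₜ[ℂ] w l (c k x) =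
        (X k * pderiv l p) ⊗ₜ[ℂ] w l (c k x) + if k = l then p ⊗ₜ[ℂ] w l (c k x) else 0 := by
      intro k l
      rw [TensorProduct.add_tmul]
      congr 1
      by_cases hkl : k = l
      · subst hkl
        rw [if_pos rfl, Pi.single_eq_same, mul_one]
      · rw [if_neg hkl, Pi.single_eq_of_ne hkl, mul_zero, TensorProduct.zero_tmul]
    have h2 : ∀ k l : Fin n, (X k * pderiv l p) ⊗ₜ[ℂ] c k (w l x) +
        (X k * pderiv l p) ⊗ₜ[ℂ] w l (c k x) =
        if k = l then (X k * pderiv l p) ⊗ₜ[ℂ] x else 0 := by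
      intro k l
      rw [← TensorProduct.tmul_add]
      have h3 : c k (w l x) + w l (c k x) = (c k * w l + w l * c k) x := rfl
      rw [h3, hcw]
      by_cases hkl : k = l
      · rw [if_pos hkl, if_pos hkl, Module.End.one_apply]
      · rw [if_neg hkl, if_neg hkl, LinearMap.zero_apply, TensorProduct.tmul_zero]
    have h4 : p ⊗ₜ[ℂ] N x = ∑ k, p ⊗ₜ[ℂ] w k (c k x) := by
      rw [hN, LinearMap.sum_apply, TensorProduct.tmul_sum]
      rfl
    have h5 : ∀ k : Fin n, pderiv k p ⊗ₜ[ℂ] (δ * w k + w k * δ) x =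
        pderiv k p ⊗ₜ[ℂ] δ (w k x) + pderiv k p ⊗ₜ[ℂ] w k (δ x) := by
      intro k
      rw [← TensorProduct.tmul_add]
      rfl
    rw [h4]
    simp only [h5, Finset.sum_add_distrib]
    have h6 : ∑ l, ∑ k, (X k * pderiv l p) ⊗ₜ[ℂ] c k (w l x) +
        ∑ k, ∑ l, (X k * pderiv l p + p * (Pi.single l 1 : Fin n → MvPolynomial (Fin n) ℂ) k) ⊗ₜ[ℂ]
          w l (c k x) = ∑ k, (X k * pderiv k p) ⊗ₜ[ℂ] x + ∑ k, p ⊗ₜ[ℂ] w k (c k x) := by
      rw [Finset.sum_comm, ← Finset.sum_add_distrib, ← Finset.sum_add_distrib]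
      refine Finset.sum_congr rfl fun k _ => ?_
      rw [← Finset.sum_add_distrib]
      have h7 : ∀ l, (X k * pderiv l p) ⊗ₜ[ℂ] c k (w l x) +
          (X k * pderiv l p + p * (Pi.single l 1 : Fin n → MvPolynomial (Fin n) ℂ) k) ⊗ₜ[ℂ]
            w l (c k x) = if k = l then ((X k * pderiv l p) ⊗ₜ[ℂ] x + p ⊗ₜ[ℂ] w l (c k x)) else 0 := by
        intro l
        rw [h1, ← add_assoc, h2]
        by_cases hkl : k = l
        · rw [if_pos hkl, if_pos hkl, if_pos hkl]
        · rw [if_neg hkl, if_neg hkl, if_neg hkl, add_zero]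
      simp only [h7]
      rw [Finset.sum_ite_eq, if_pos (Finset.mem_univ k)]
    rw [← h6]
    abel

/-- pderiv lowers the filtration. -/
theorem Euler_low (w : Fin n → Module.End ℂ W) (a : ℕ) (u : MvPolynomial (Fin n) ℂ ⊗[ℂ] W)
    (hu : u ∈ Euler_F n W (a + 1)) : Euler_h w u ∈ Euler_F n W a := by
  have h1 : Euler_F n W (a + 1) ≤ (Euler_F n W a).comap (Euler_h w) := by
    unfold Euler_F
    rw [Submodule.span_le]
    rintro t ⟨b, p, x, hb, hp, rfl⟩
    rw [SetLike.mem_coe, Submodule.mem_comap, Euler_h_tmul]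
    refine Submodule.sum_mem _ fun k _ => ?_
    rcases Nat.eq_zero_or_pos b with hb0 | hb0
    · have h2 : pderiv k p = 0 := by
        subst hb0
        rw [← totalDegree_zero_iff_isHomogeneous, totalDegree_eq_zero_iff_eq_C] at hp
        rw [hp, pderiv_C]
      rw [h2, TensorProduct.zero_tmul]
      exact Submodule.zero_mem _
    · exact Submodule.subset_span ⟨b - 1, pderiv k p, w k x, by omega, hp.pderiv, rfl⟩
  exact h1 hu

theorem Euler_E_low (a : ℕ) (u : MvPolynomial (Fin n) ℂ ⊗[ℂ] W)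
    (hu : u ∈ Euler_F n W (a + 1)) : Euler_E n W u - (a : ℂ) • u ∈ Euler_F n W a := by
  have h1 : Euler_F n W (a + 1) ≤
      (Euler_F n W a).comap (Euler_E n W - (a : ℂ) • LinearMap.id) := by
    conv_lhs => unfold Euler_F
    rw [Submodule.span_le]
    rintro t ⟨b, p, x, hb, hp, rfl⟩
    rw [SetLike.mem_coe, Submodule.mem_comap, LinearMap.sub_apply, LinearMap.smul_apply,
      LinearMap.id_apply, Euler_E_tmul, ← TensorProduct.sum_tmul, hp.sum_X_mul_pderiv]
    have h2 : (b • p) ⊗ₜ[ℂ] x - (a : ℂ) • p ⊗ₜ[ℂ] x = ((b : ℂ) - a) • p ⊗ₜ[ℂ] x := by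
      rw [TensorProduct.smul_tmul', TensorProduct.smul_tmul', ← TensorProduct.sub_tmul, sub_smul,
        Nat.cast_smul_eq_nsmul ℂ b p]
    rw [h2]
    rcases Nat.lt_succ_iff_lt_or_eq.mp hb with h3 | h3
    · exact Submodule.smul_mem _ _ (Submodule.subset_span ⟨b, p, x, h3, hp, rfl⟩)
    · rw [h3, sub_self, zero_smul]
      exact Submodule.zero_mem _
  exact h1 hu

theorem Euler_N_dU (c : Fin n → Module.End ℂ W) (δ N : Module.End ℂ W)
    (hNc : ∀ k, N * c k = c k * N - c k) (hNδ : N * δ = δ * N - δ)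
    (u : MvPolynomial (Fin n) ℂ ⊗[ℂ] W) :
    TensorProduct.map LinearMap.id N (dU c δ u) =
      dU c δ (TensorProduct.map LinearMap.id N u) - dU c δ u := by
  induction u using TensorProduct.induction_on with
  | zero => simp only [map_zero, sub_zero]
  | add x y hx hy =>
    simp only [map_add]
    rw [hx, hy]
    abel
  | tmul p x =>
    rw [Euler_dU_tmul, TensorProduct.map_tmul, Euler_dU_tmul, map_add, map_sum]
    simp only [TensorProduct.map_tmul, LinearMap.id_apply]
    have h1 : ∀ k, N (c k x) = c k (N x) - c k x := fun k => by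
      have := congrArg (fun f : Module.End ℂ W => f x) (hNc k)
      exact this
    have h2 : N (δ x) = δ (N x) - δ x := by
      have := congrArg (fun f : Module.End ℂ W => f x) hNδ
      exact this
    simp only [h1, h2, TensorProduct.tmul_sub, Finset.sum_sub_distrib]
    abel

theorem Euler_N_h (w : Fin n → Module.End ℂ W) (N : Module.End ℂ W)
    (hNw : ∀ k, N * w k = w k * N + w k) (u : MvPolynomial (Fin n) ℂ ⊗[ℂ] W) :
    TensorProduct.map LinearMap.id N (Euler_h w u) =
      Euler_h w (TensorProduct.map LinearMap.id N u) + Euler_h w u := by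
  induction u using TensorProduct.induction_on with
  | zero => simp only [map_zero, add_zero]
  | add x y hx hy =>
    simp only [map_add]
    rw [hx, hy]
    abel
  | tmul p x =>
    rw [Euler_h_tmul, TensorProduct.map_tmul, Euler_h_tmul, map_sum]
    simp only [TensorProduct.map_tmul, LinearMap.id_apply]
    have h1 : ∀ k, N (w k x) = w k (N x) + w k x := fun k => by
      have := congrArg (fun f : Module.End ℂ W => f x) (hNw k)
      exact this
    simp only [h1, TensorProduct.tmul_add, Finset.sum_add_distrib]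

/-- PROOF. Write ι k := `pderiv k` as a linear map, h := ∑ k, map (pderiv k) (w k), and
F a := the span of the p ⊗ x with p homogeneous of some degree < a.
(0) Every u lies in some F a (every polynomial is the finite sum of its homogeneous components,
`MvPolynomial.sum_homogeneousComponent`; `TensorProduct.induction_on`; F is monotone).
(1) For all u: dU (h u) + h (dU u) = ∑_k map (X k * pderiv k) id u + map id N u
 + ∑_k map (pderiv k) (δ * w k + w k * δ) u, with N = ∑ w k * c k: check on p ⊗ x: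
dU h: ∑_{k,l} X k * ∂_l p ⊗ c k (w l x) + ∑_l ∂_l p ⊗ δ (w l x);
h dU: ∑_{k,l} ∂_l (X k * p) ⊗ w l (c k x) + ∑_l ∂_l p ⊗ w l (δ x), ∂_l (X k p) = δ_{kl} p + X k ∂_l p,
and c k w l + w l c k = δ_{kl}.
(2) For u ∈ F (a+1): ∑_k map (X k * pderiv k) id u - a • u ∈ F a (for p homogeneous of degree b < a + 1
Euler's identity `IsHomogeneous.sum_X_mul_pderiv` gives (b - a) • (p ⊗ x), which is 0 if b = a), and
map (pderiv k) A u ∈ F a (`IsHomogeneous.pderiv`: degree b - 1; if b = 0 the derivative is 0).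
(3) Claim by induction on a: if u ∈ F a, N u = i u and dU u = 0, then u = dU u' with N u' = (i+1) u'.
a = 0: u = 0. Step: by (1), (2), v := ((a : ℂ) + i) • u - dU (h u) ∈ F a; dU v = 0 by hdd, and
N v = i v: N (h u) = (i + 1) h u by hNw, N (dU y) = dU (N y) - dU y by hNc, hNδ. By induction v = dU v',
so u = dU ((a + i)⁻¹ • (v' + h u)), as a + i ≠ 0. -/
theorem euler_exact (c w : Fin n → Module.End ℂ W) (δ N : Module.End ℂ W)
    (hN : N = ∑ k, w k * c k)
    (hcw : ∀ k l, c k * w l + w l * c k = if k = l then 1 else 0)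
    (hNc : ∀ k, N * c k = c k * N - c k) (hNw : ∀ k, N * w k = w k * N + w k)
    (hNδ : N * δ = δ * N - δ) (hdd : ∀ u, dU c δ (dU c δ u) = 0) (i : ℕ) (hi : 0 < i)
    (u : MvPolynomial (Fin n) ℂ ⊗[ℂ] W)
    (hu : TensorProduct.map LinearMap.id N u = (i : ℂ) • u) (hdu : dU c δ u = 0) :
    ∃ u' : MvPolynomial (Fin n) ℂ ⊗[ℂ] W,
      TensorProduct.map LinearMap.id N u' = ((i + 1 : ℕ) : ℂ) • u' ∧ dU c δ u' = u := by
  have key : ∀ a : ℕ, ∀ u : MvPolynomial (Fin n) ℂ ⊗[ℂ] W, u ∈ Euler_F n W a →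
      TensorProduct.map LinearMap.id N u = (i : ℂ) • u → dU c δ u = 0 →
      ∃ u' : MvPolynomial (Fin n) ℂ ⊗[ℂ] W,
        TensorProduct.map LinearMap.id N u' = ((i + 1 : ℕ) : ℂ) • u' ∧ dU c δ u' = u := by
    intro a
    induction a with
    | zero =>
      intro u hu _ _
      have h0 : u = 0 := by
        have h1 : Euler_F n W 0 ≤ ⊥ := by
          unfold Euler_F
          rw [Submodule.span_le]
          rintro t ⟨b, p, x, hb, _⟩
          exact absurd hb (Nat.not_lt_zero b)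
        exact (Submodule.mem_bot ℂ).1 (h1 hu)
      exact ⟨0, by rw [map_zero, smul_zero], by rw [map_zero, h0]⟩
    | succ a ih =>
      intro u hF hNu hdu
      have e1 := Euler_one c w δ N hN hcw u
      rw [hdu, map_zero, add_zero, hNu] at e1
      have hv : ((a : ℂ) + i) • u - dU c δ (Euler_h w u) ∈ Euler_F n W a := by
        rw [e1]
        have e2 : ((a : ℂ) + i) • u - (Euler_E n W u + (i : ℂ) • u + Euler_R w δ u) =
            -(Euler_E n W u - (a : ℂ) • u) - Euler_R w δ u := by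
          rw [add_smul]
          abel
        rw [e2]
        exact Submodule.sub_mem _ (Submodule.neg_mem _ (Euler_E_low a u hF))
          (Euler_low _ a u hF)
      have hNh : TensorProduct.map LinearMap.id N (Euler_h w u) =
          ((i + 1 : ℕ) : ℂ) • Euler_h w u := by
        rw [Euler_N_h w N hNw, hNu, map_smul, Nat.cast_add, Nat.cast_one, add_smul, one_smul]
      have hNv : TensorProduct.map LinearMap.id N (((a : ℂ) + i) • u - dU c δ (Euler_h w u)) =
          (i : ℂ) • (((a : ℂ) + i) • u - dU c δ (Euler_h w u)) := by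
        rw [map_sub, map_smul, hNu, Euler_N_dU c δ N hNc hNδ, hNh, map_smul, smul_sub,
          Nat.cast_add, Nat.cast_one, add_smul (i : ℂ) 1, one_smul, smul_comm]
        abel
      obtain ⟨v', hv1, hv2⟩ := ih _ hv hNv (by rw [map_sub, map_smul, hdu, smul_zero, hdd,
        sub_zero])
      have hne : (a : ℂ) + i ≠ 0 := by
        have h2 : ((a + i : ℕ) : ℂ) ≠ 0 := Nat.cast_ne_zero.2 (by omega)
        rwa [Nat.cast_add] at h2
      refine ⟨((a : ℂ) + i)⁻¹ • (v' + Euler_h w u), ?_, ?_⟩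
      · rw [map_smul, map_add, hv1, hNh, ← smul_add, smul_comm]
      · rw [map_smul, map_add, hv2, sub_add_cancel, smul_smul, inv_mul_cancel₀ hne, one_smul]
  obtain ⟨a, ha⟩ := Euler_exists u
  exact key a u ha hu hdu

end CA1492.D8
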