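import Mathlib
import Pool.Agent.Lib.MP_ca1492_al.Ext.EPadd

/-!
Ext groups from a finitely generated module to a finite dimensional module are finite dimensional.
-/

namespace CA1492.D8

open CategoryTheory CategoryTheory.Abelian

open scoped ModuleCat in
/-- homomorphisms from a finitely generated module to a finite dimensional one -/
theorem ExtFin_hom {A : Type} [Ring A] [Algebra ℂ A]
    (X Y : ModuleCat.{0} A) [Module.Finite A X]
    (hY : letI := Module.compHom Y (algebraMap ℂ A); Module.Finite ℂ Y) :
    Module.Finite ℂ (X ⟶ Y) := by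
  have hY' : Module.Finite ℂ Y := hY
  obtain ⟨n, f, hf⟩ := Module.Finite.exists_fin' A X
  let e : (X ⟶ Y) →ₗ[ℂ] (Fin n → Y) :=
    { toFun := fun g i => g (f (Pi.single i 1))
      map_add' := fun g h => rfl
      map_smul' := fun c g => rfl }
  refine Module.Finite.of_injective e ?_
  intro g h hgh
  have h1 : g.hom ∘ₗ f = h.hom ∘ₗ f := by
    refine LinearMap.pi_ext' fun i => LinearMap.ext_ring ?_
    exact congrFun hgh i
  refine ModuleCat.hom_ext (LinearMap.ext fun x => ?_)
  obtain ⟨y, rfl⟩ := hf x
  exact LinearMap.congr_fun h1 y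

/-- PROOF. Induction on i, for all finitely generated X. Choose a surjection A^k → X with kernel X'
(finitely generated, as A is noetherian): a short exact sequence 0 → X' → A^k → X → 0 in ModuleCat A.
i = 0: Ext⁰(X, Y) = Hom(X, Y) (`Ext.linearEquiv₀`/`Ext.homEquiv₀`, as ℂ-vector spaces), which embeds in
Hom(A^k, Y) = Y^k, finite dimensional. i + 1: in the contravariant long exact sequence
Ext^i(X', Y) → Ext^{i+1}(X, Y) → Ext^{i+1}(A^k, Y) = 0 (`Ext.contravariant_sequence_exact₃`,
`Ext.eq_zero_of_projective`) the first map is surjective and ℂ-linear (`Ext.precompOfLinear`), so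
Ext^{i+1}(X, Y) is finite dimensional. See `EPadd_finite`, `EPadd_e1`, `EPadd_e3` in Ext/EPadd for the linear
form of the exact sequences. -/
theorem ext_finite {A : Type} [Ring A] [Algebra ℂ A] [IsNoetherianRing A] (i : ℕ)
    (X Y : ModuleCat.{0} A) [Module.Finite A X]
    (hY : letI := Module.compHom Y (algebraMap ℂ A); Module.Finite ℂ Y) :
    Module.Finite ℂ (Ext.{0} X Y i) := by
  induction i generalizing X with
  | zero =>
    have := ExtFin_hom X Y hY
    exact Module.Finite.equiv (Ext.linearEquiv₀ (R := ℂ) (X := X) (Y := Y)).symm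
  | succ i ih =>
    obtain ⟨n, f, hf⟩ := Module.Finite.exists_fin' A X
    have hS := LinearMap.shortExact_shortComplexKer hf
    have hfin : Module.Finite A (LinearMap.ker f) := inferInstance
    have h1 : Module.Finite ℂ (Ext.{0} f.shortComplexKer.X₁ Y i) :=
      ih f.shortComplexKer.X₁
    have hproj : Projective f.shortComplexKer.X₂ :=
      (IsProjective.iff_projective (Fin n → A)).1 inferInstance
    have h2 : Subsingleton (Ext.{0} f.shortComplexKer.X₂ Y (i + 1)) :=
      subsingleton_of_forall_eq 0 Ext.eq_zero_of_projective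
    have h3 : Module.Finite ℂ (Ext.{0} f.shortComplexKer.X₂ Y (i + 1)) := inferInstance
    exact ExtT.EPadd_finite (Ext.precompOfLinear hS.extClass ℂ Y (add_comm 1 i))
      (Ext.precompOfLinear (Ext.mk₀.{0} f.shortComplexKer.g) ℂ Y (zero_add (i + 1)))
      (fun x hx => (ExtT.EPadd_e3 hS Y i).ge hx)

end CA1492.D8
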