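import Mathlib

/-!
MP_ca1492_al, part D8. The exterior algebra of ℂⁿ with contractions `c k`, exterior products `w k`
and the action `g` of the permutations (Fock space).
-/

namespace CA1492.D8

/-- A Fock space: the operators satisfy the canonical anticommutation relations and are compatible with
the permutations. -/
structure Fock (n : ℕ) where
  E : Type
  [acg : AddCommGroup E]
  [mod : Module ℂ E]
  c : Fin n → Module.End ℂ E
  w : Fin n → Module.End ℂ E
  g : Equiv.Perm (Fin n) →* Module.End ℂ E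
  Om : E
  vac : E →ₗ[ℂ] ℂ
  cc : ∀ k l, c k * c l = -(c l * c k)
  ww : ∀ k l, w k * w l = -(w l * w k)
  cw : ∀ k l, c k * w l + w l * c k = if k = l then 1 else 0
  gc : ∀ s k, g s * c k = c (s k) * g s
  gw : ∀ s k, g s * w k = w (s k) * g s
  cg : ∀ a b, a ≠ b → (c a - c b) * g (Equiv.swap a b) = -(c a - c b)
  c_Om : ∀ k, c k Om = 0
  g_Om : ∀ s, g s Om = Om
  vac_g : ∀ s x, vac (g s x) = vac x
  vac_Om : vac Om = 1

attribute [instance] Fock.acg Fock.mod

/-- Contraction by the functional `d`, on the exterior algebra. -/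
noncomputable def Fock_ctr {n : ℕ} (d : Module.Dual ℂ (Fin n → ℂ)) :
    Module.End ℂ (ExteriorAlgebra ℂ (Fin n → ℂ)) :=
  CliffordAlgebra.contractLeft (Q := (0 : QuadraticForm ℂ (Fin n → ℂ))) d

theorem Fock_ctr_mul {n : ℕ} (d : Module.Dual ℂ (Fin n → ℂ)) (v : Fin n → ℂ)
    (x : ExteriorAlgebra ℂ (Fin n → ℂ)) :
    Fock_ctr d (ExteriorAlgebra.ι ℂ v * x) = d v • x - ExteriorAlgebra.ι ℂ v * Fock_ctr d x :=
  CliffordAlgebra.contractLeft_ι_mul d v x

theorem Fock_ctr_algebraMap {n : ℕ} (d : Module.Dual ℂ (Fin n → ℂ)) (r : ℂ) :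
    Fock_ctr d (algebraMap ℂ (ExteriorAlgebra ℂ (Fin n → ℂ)) r) = 0 :=
  CliffordAlgebra.contractLeft_algebraMap _ d r

theorem Fock_ctr_one {n : ℕ} (d : Module.Dual ℂ (Fin n → ℂ)) :
    Fock_ctr d (1 : ExteriorAlgebra ℂ (Fin n → ℂ)) = 0 :=
  CliffordAlgebra.contractLeft_one (0 : QuadraticForm ℂ (Fin n → ℂ)) d

theorem Fock_ctr_comm {n : ℕ} (d d' : Module.Dual ℂ (Fin n → ℂ))
    (x : ExteriorAlgebra ℂ (Fin n → ℂ)) :
    Fock_ctr d (Fock_ctr d' x) = -(Fock_ctr d' (Fock_ctr d x)) :=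
  CliffordAlgebra.contractLeft_comm d d' x

theorem Fock_ctr_ctr {n : ℕ} (d : Module.Dual ℂ (Fin n → ℂ))
    (x : ExteriorAlgebra ℂ (Fin n → ℂ)) : Fock_ctr d (Fock_ctr d x) = 0 :=
  CliffordAlgebra.contractLeft_contractLeft d x

theorem Fock_ctr_sub {n : ℕ} (d d' : Module.Dual ℂ (Fin n → ℂ)) :
    Fock_ctr (d - d') = Fock_ctr d - Fock_ctr d' :=
  map_sub (CliffordAlgebra.contractLeft (Q := (0 : QuadraticForm ℂ (Fin n → ℂ)))) d d'

theorem Fock_ind {n : ℕ} {P : ExteriorAlgebra ℂ (Fin n → ℂ) → Prop}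
    (h1 : ∀ r : ℂ, P (algebraMap ℂ _ r)) (h2 : ∀ x y, P x → P y → P (x + y))
    (h3 : ∀ x v, P x → P (ExteriorAlgebra.ι ℂ v * x)) (x : ExteriorAlgebra ℂ (Fin n → ℂ)) : P x :=
  CliffordAlgebra.left_induction (Q := (0 : QuadraticForm ℂ (Fin n → ℂ))) h1 h2 h3 x

/-- The coordinate functional. -/
noncomputable def Fock_pr {n : ℕ} (k : Fin n) : Module.Dual ℂ (Fin n → ℂ) :=
  LinearMap.proj (R := ℂ) (φ := fun _ : Fin n => ℂ) k

theorem Fock_pr_apply {n : ℕ} (k : Fin n) (v : Fin n → ℂ) : Fock_pr k v = v k := rfl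

/-- The linear map permuting the coordinates. -/
noncomputable def Fock_p {n : ℕ} (s : Equiv.Perm (Fin n)) : (Fin n → ℂ) →ₗ[ℂ] (Fin n → ℂ) :=
  LinearMap.funLeft ℂ ℂ s.symm

theorem Fock_p_apply {n : ℕ} (s : Equiv.Perm (Fin n)) (v : Fin n → ℂ) (k : Fin n) :
    Fock_p s v k = v (s.symm k) := rfl

theorem Fock_p_single {n : ℕ} (s : Equiv.Perm (Fin n)) (k : Fin n) :
    Fock_p s (Pi.single k (1 : ℂ)) = Pi.single (s k) (1 : ℂ) := by
  funext j
  rw [Fock_p_apply]
  by_cases h : s.symm j = k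
  · have h' : j = s k := by rw [← h]; simp
    rw [h, h']
    simp
  · have h' : j ≠ s k := by
      intro hj
      apply h
      rw [hj]
      simp
    rw [Pi.single_eq_of_ne h, Pi.single_eq_of_ne h']

/-- The action of the permutations. -/
noncomputable def Fock_g (n : ℕ) :
    Equiv.Perm (Fin n) →* Module.End ℂ (ExteriorAlgebra ℂ (Fin n → ℂ)) where
  toFun s := (ExteriorAlgebra.map (Fock_p s)).toLinearMap
  map_one' := by
    have h : Fock_p (1 : Equiv.Perm (Fin n)) = LinearMap.id := by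
      apply LinearMap.ext
      intro v
      funext k
      rfl
    rw [h, ExteriorAlgebra.map_id]
    rfl
  map_mul' s t := by
    have h : Fock_p (s * t) = (Fock_p s) ∘ₗ (Fock_p t) := by
      apply LinearMap.ext
      intro v
      funext k
      rfl
    rw [h, ← ExteriorAlgebra.map_comp_map]
    rfl

theorem Fock_g_mul {n : ℕ} (s : Equiv.Perm (Fin n)) (v : Fin n → ℂ)
    (x : ExteriorAlgebra ℂ (Fin n → ℂ)) :
    Fock_g n s (ExteriorAlgebra.ι ℂ v * x) =
      ExteriorAlgebra.ι ℂ (Fock_p s v) * Fock_g n s x := by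
  change ExteriorAlgebra.map (Fock_p s) (ExteriorAlgebra.ι ℂ v * x) = _
  rw [map_mul, ExteriorAlgebra.map_apply_ι]
  rfl

theorem Fock_g_algebraMap {n : ℕ} (s : Equiv.Perm (Fin n)) (r : ℂ) :
    Fock_g n s (algebraMap ℂ _ r) = algebraMap ℂ _ r :=
  AlgHom.commutes (ExteriorAlgebra.map (Fock_p s)) r

theorem Fock_gc {n : ℕ} (s : Equiv.Perm (Fin n)) (k : Fin n)
    (x : ExteriorAlgebra ℂ (Fin n → ℂ)) :
    Fock_g n s (Fock_ctr (Fock_pr k) x) =
      Fock_ctr (Fock_pr (s k)) (Fock_g n s x) := by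
  induction x using Fock_ind with
  | h1 r => rw [Fock_ctr_algebraMap, Fock_g_algebraMap, Fock_ctr_algebraMap, map_zero]
  | h2 x y hx hy => rw [map_add, map_add, map_add, map_add, hx, hy]
  | h3 x v hx =>
    rw [Fock_ctr_mul, map_sub, map_smul, Fock_g_mul, hx, Fock_g_mul, Fock_ctr_mul]
    have h : Fock_pr (s k) (Fock_p s v) = Fock_pr k v := by
      rw [Fock_pr_apply, Fock_pr_apply, Fock_p_apply, Equiv.symm_apply_apply]
    rw [h]

/-- The functional `v ↦ v a - v b`. -/
noncomputable def Fock_dd {n : ℕ} (a b : Fin n) : Module.Dual ℂ (Fin n → ℂ) :=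
  Fock_pr a - Fock_pr b

theorem Fock_dd_apply {n : ℕ} (a b : Fin n) (v : Fin n → ℂ) : Fock_dd a b v = v a - v b := rfl

theorem Fock_swap {n : ℕ} (a b : Fin n) (hab : a ≠ b) (x : ExteriorAlgebra ℂ (Fin n → ℂ)) :
    Fock_g n (Equiv.swap a b) x = x - ExteriorAlgebra.ι ℂ (Pi.single a (1 : ℂ) - Pi.single b 1) *
      Fock_ctr (Fock_dd a b) x := by
  induction x using Fock_ind with
  | h1 r => rw [Fock_ctr_algebraMap, Fock_g_algebraMap, mul_zero, sub_zero]
  | h2 x y hx hy => rw [map_add, map_add, hx, hy, mul_add]; abel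
  | h3 x v hx =>
    rw [Fock_g_mul, hx, Fock_ctr_mul]
    have hp : Fock_p (Equiv.swap a b) v =
        v - (v a - v b) • (Pi.single a (1 : ℂ) - Pi.single b 1) := by
      funext k
      rw [Fock_p_apply, Equiv.symm_swap]
      by_cases hka : k = a
      · subst hka
        rw [Equiv.swap_apply_left]
        simp [hab]
      · by_cases hkb : k = b
        · subst hkb
          rw [Equiv.swap_apply_right]
          simp [hab.symm]
        · rw [Equiv.swap_apply_of_ne_of_ne hka hkb]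
          simp [hka, hkb]
    rw [hp, Fock_dd_apply, map_sub, map_smul]
    set e := ExteriorAlgebra.ι ℂ (Pi.single a (1 : ℂ) - Pi.single b 1 : Fin n → ℂ) with he
    set y := Fock_ctr (Fock_dd a b) x with hy
    set m := ExteriorAlgebra.ι ℂ v with hm
    have h1 : e * e = 0 := ExteriorAlgebra.ι_sq_zero _
    have h2 : m * e = -(e * m) := by
      rw [eq_neg_iff_add_eq_zero]
      exact ExteriorAlgebra.ι_add_mul_swap _ _
    have h3 : e * (e * y) = 0 := by rw [← mul_assoc, h1, zero_mul]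
    have h4 : m * (e * y) = -(e * (m * y)) := by
      rw [← mul_assoc, h2, neg_mul, mul_assoc]
    rw [sub_mul, mul_sub, mul_sub, mul_sub, smul_mul_assoc, smul_mul_assoc, h3, h4, smul_zero,
      mul_smul_comm]
    abel

theorem Fock_cg {n : ℕ} (a b : Fin n) (hab : a ≠ b) (x : ExteriorAlgebra ℂ (Fin n → ℂ)) :
    Fock_ctr (Fock_dd a b)
        (Fock_g n (Equiv.swap a b) x) =
      -Fock_ctr (Fock_dd a b) x := by
  rw [Fock_swap a b hab, map_sub, Fock_ctr_mul, Fock_ctr_ctr, mul_zero, sub_zero]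
  have h : Fock_dd a b (Pi.single a (1 : ℂ) - Pi.single b 1) = 2 := by
    rw [Fock_dd_apply]
    simp [hab, hab.symm]
    norm_num
  rw [h, two_smul]
  abel

/-- Existence. PROOF. E = `ExteriorAlgebra ℂ (Fin n → ℂ)` (= `CliffordAlgebra 0`),
c k = `CliffordAlgebra.contractLeft (LinearMap.proj k)`, w k = left multiplication by
ι (Pi.single k 1), g s = (`ExteriorAlgebra.map` of the linear map v ↦ v ∘ s.symm, which maps Pi.single k 1
to Pi.single (s k) 1) as a linear map, Om = 1, vac = `ExteriorAlgebra.algebraMapInv`.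
cc: `contractLeft_comm`. ww: `ExteriorAlgebra.ι_add_mul_swap`. cw: `contractLeft_ι_mul`.
gw: `map_mul`, `map_apply_ι`. gc: by `ExteriorAlgebra.induction`-like induction (for x = algebraMap both
sides are 0; for ι v * x: c k (ι v * x) = v k • x - ι v * c k x, g s (..) = v k • g s x - ι (g v) * g s (c k x)
and c (s k) (ι (g v) * g s x) = (g v)(s k) • g s x - ι (g v) * c (s k) (g s x), (g v)(s k) = v k; use
`CliffordAlgebra.left_induction`). cg: put e = Pi.single a 1 - Pi.single b 1, γ = c a - c b,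
A x = x - ι e * γ x. Then A = g (swap a b): by left induction, A 1 = 1, and
A (ι v * x) = ι (v - (v a - v b) • e) * A x for all x: both sides are equal to
ι v * x - (v a - v b) • ι e * x + ι e * ι v * γ x (use ι e * ι e = 0, ι v * ι e = - ι e * ι v,
γ (ι v * x) = (v a - v b) • x - ι v * γ x), and the permuted vector v ∘ swap a b is
v - (v a - v b) • e. Then γ (A x) = γ x - γ (ι e * γ x) = γ x - (2 • γ x - ι e * γ (γ x)) = - γ x,
as γ e = 2 and γ (γ x) = 0 (`contractLeft_contractLeft` for the functional proj a - proj b).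
c_Om: `contractLeft_one`. g_Om: `map_one`. vac_g: `algebraMapInv ∘ map f = algebraMapInv` by
`ExteriorAlgebra.hom_ext`. vac_Om: `map_one`. -/
theorem exists_fock (n : ℕ) : Nonempty (Fock n) := by
  classical
  refine ⟨{
    E := ExteriorAlgebra ℂ (Fin n → ℂ)
    c := fun k => Fock_ctr (Fock_pr k)
    w := fun k => LinearMap.mulLeft ℂ (ExteriorAlgebra.ι ℂ (Pi.single k (1 : ℂ)))
    g := Fock_g n
    Om := 1
    vac := (ExteriorAlgebra.algebraMapInv : ExteriorAlgebra ℂ (Fin n → ℂ) →ₐ[ℂ] ℂ).toLinearMap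
    cc := ?_
    ww := ?_
    cw := ?_
    gc := ?_
    gw := ?_
    cg := ?_
    c_Om := ?_
    g_Om := ?_
    vac_g := ?_
    vac_Om := ?_ }⟩
  · intro k l
    apply LinearMap.ext
    intro x
    exact Fock_ctr_comm _ _ x
  · intro k l
    apply LinearMap.ext
    intro x
    change ExteriorAlgebra.ι ℂ (Pi.single k (1 : ℂ)) * (ExteriorAlgebra.ι ℂ (Pi.single l (1 : ℂ)) * x)
      = -(ExteriorAlgebra.ι ℂ (Pi.single l (1 : ℂ)) * (ExteriorAlgebra.ι ℂ (Pi.single k (1 : ℂ)) * x))
    rw [← mul_assoc, ← mul_assoc, ← neg_mul]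
    congr 1
    rw [eq_neg_iff_add_eq_zero]
    exact ExteriorAlgebra.ι_add_mul_swap _ _
  · intro k l
    apply LinearMap.ext
    intro x
    change Fock_ctr (Fock_pr k) (ExteriorAlgebra.ι ℂ (Pi.single l (1 : ℂ)) * x) +
      ExteriorAlgebra.ι ℂ (Pi.single l (1 : ℂ)) * Fock_ctr (Fock_pr k) x = _
    rw [Fock_ctr_mul, sub_add_cancel, Fock_pr_apply]
    by_cases h : k = l
    · subst h
      rw [if_pos rfl, Pi.single_eq_same, one_smul]
      rfl
    · rw [if_neg h, Pi.single_eq_of_ne h, zero_smul]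
      rfl
  · intro s k
    apply LinearMap.ext
    intro x
    exact Fock_gc s k x
  · intro s k
    apply LinearMap.ext
    intro x
    change Fock_g n s (ExteriorAlgebra.ι ℂ (Pi.single k (1 : ℂ)) * x) =
      ExteriorAlgebra.ι ℂ (Pi.single (s k) (1 : ℂ)) * Fock_g n s x
    rw [Fock_g_mul, Fock_p_single]
  · intro a b hab
    apply LinearMap.ext
    intro x
    have h := Fock_cg a b hab x
    unfold Fock_dd at h
    rw [Fock_ctr_sub] at h
    exact h
  · intro k
    exact Fock_ctr_one _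
  · intro s
    have h := Fock_g_algebraMap s 1
    rwa [map_one] at h
  · intro s x
    have h : (ExteriorAlgebra.algebraMapInv : ExteriorAlgebra ℂ (Fin n → ℂ) →ₐ[ℂ] ℂ).comp
        (ExteriorAlgebra.map (Fock_p s)) = ExteriorAlgebra.algebraMapInv := by
      apply ExteriorAlgebra.hom_ext
      apply LinearMap.ext
      intro v
      change ExteriorAlgebra.algebraMapInv (ExteriorAlgebra.map (Fock_p s) (ExteriorAlgebra.ι ℂ v)) =
        ExteriorAlgebra.algebraMapInv (ExteriorAlgebra.ι ℂ v)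
      rw [ExteriorAlgebra.map_apply_ι]
      simp [ExteriorAlgebra.algebraMapInv]
    exact DFunLike.congr_fun h x
  · exact map_one (ExteriorAlgebra.algebraMapInv : ExteriorAlgebra ℂ (Fin n → ℂ) →ₐ[ℂ] ℂ)

/-- A Fock space. -/
noncomputable def fock (n : ℕ) : Fock n := (exists_fock n).some

end CA1492.D8
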