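import Mathlib
import Pool.Agent.Lib.MP_ca1492_al.D8.Fock

/-!
The number operator of a Fock space, and the three-cycle identity.
-/

namespace CA1492.D8

variable {n : ℕ}

/-- The number operator. -/
noncomputable def Fock.N (F : Fock n) : Module.End ℂ F.E := ∑ k, F.w k * F.c k

/-- PROOF: c k * w l = δ - w l * c k and c k * c l = - c l * c k:
N c_l = ∑ w_k c_k c_l = -∑ w_k c_l c_k = -∑ (δ_{kl} - c_l w_k) c_k = c_l N - c_l. -/
theorem Fock.N_c (F : Fock n) (l : Fin n) : F.N * F.c l = F.c l * F.N - F.c l := by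
  have h : ∀ k, F.w k * F.c k * F.c l =
      F.c l * (F.w k * F.c k) - (if l = k then F.c k else 0) := by
    intro k
    have h1 := F.cc k l
    have h2 : F.w k * F.c l = (if l = k then 1 else 0) - F.c l * F.w k := by
      rw [← F.cw l k]
      abel
    rw [mul_assoc, h1, mul_neg, ← mul_assoc, h2, sub_mul, mul_assoc]
    split_ifs
    · rw [one_mul]
      abel
    · rw [zero_mul]
      abel
  unfold Fock.N
  rw [Finset.sum_mul, Finset.mul_sum, Finset.sum_congr rfl fun k _ => h k, Finset.sum_sub_distrib,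
    Finset.sum_ite_eq, if_pos (Finset.mem_univ _)]

/-- PROOF: N w_l = ∑ w_k (δ_{kl} - w_l c_k) = w_l + ∑ w_l w_k c_k. -/
theorem Fock.N_w (F : Fock n) (l : Fin n) : F.N * F.w l = F.w l * F.N + F.w l := by
  have h : ∀ k, F.w k * F.c k * F.w l =
      F.w l * (F.w k * F.c k) + (if k = l then F.w k else 0) := by
    intro k
    have h1 : F.w k * F.w l = -(F.w l * F.w k) := F.ww k l
    have h2 : F.c k * F.w l = (if k = l then 1 else 0) - F.w l * F.c k := by
      rw [← F.cw k l]
      abel
    rw [mul_assoc, h2, mul_sub, ← mul_assoc (F.w k) (F.w l), h1, neg_mul, mul_assoc, sub_neg_eq_add]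
    split_ifs
    · rw [mul_one]
      abel
    · rw [mul_zero]
      abel
  unfold Fock.N
  rw [Finset.sum_mul, Finset.mul_sum, Finset.sum_congr rfl fun k _ => h k, Finset.sum_add_distrib,
    Finset.sum_ite_eq', if_pos (Finset.mem_univ _)]

/-- PROOF: `gc`, `gw` and reindexing of the sum. -/
theorem Fock.N_g (F : Fock n) (s : Equiv.Perm (Fin n)) : F.g s * F.N = F.N * F.g s := by
  unfold Fock.N
  rw [Finset.mul_sum, Finset.sum_mul, ← Equiv.sum_comp s fun k => F.w k * F.c k * F.g s]
  refine Finset.sum_congr rfl fun k _ => ?_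
  rw [← mul_assoc, F.gw, mul_assoc, F.gc, mul_assoc]

/-- PROOF: `c_Om`. -/
theorem Fock.N_Om (F : Fock n) : F.N F.Om = 0 := by
  unfold Fock.N
  rw [LinearMap.sum_apply]
  refine Finset.sum_eq_zero fun k _ => ?_
  rw [Module.End.mul_apply, F.c_Om, map_zero]

theorem FockN_cc0 (F : Fock n) (k : Fin n) : F.c k * F.c k = 0 := by
  have h := F.cc k k
  have h2 : (2 : ℂ) • (F.c k * F.c k) = 0 := by
    rw [two_smul]
    nth_rewrite 1 [h]
    exact neg_add_cancel _
  rcases smul_eq_zero.1 h2 with h3 | h3
  · norm_num at h3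
  · exact h3

theorem FockN_ww0 (F : Fock n) (k : Fin n) : F.w k * F.w k = 0 := by
  have h := F.ww k k
  have h2 : (2 : ℂ) • (F.w k * F.w k) = 0 := by
    rw [two_smul]
    nth_rewrite 1 [h]
    exact neg_add_cancel _
  rcases smul_eq_zero.1 h2 with h3 | h3
  · norm_num at h3
  · exact h3

theorem FockN_idem (F : Fock n) (k : Fin n) : F.w k * F.c k * (F.w k * F.c k) = F.w k * F.c k := by
  have h2 : F.c k * F.w k = 1 - F.w k * F.c k := by
    have := F.cw k k
    rw [if_pos rfl] at this
    rw [← this]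
    abel
  calc F.w k * F.c k * (F.w k * F.c k) = F.w k * (F.c k * F.w k) * F.c k := by
        simp only [mul_assoc]
    _ = F.w k * F.c k - F.w k * F.w k * (F.c k * F.c k) := by
        rw [h2]
        simp only [mul_sub, sub_mul, mul_one, mul_assoc]
    _ = F.w k * F.c k := by
        rw [FockN_cc0, mul_zero, sub_zero]

theorem FockN_comm (F : Fock n) (k l : Fin n) :
    F.w k * F.c k * (F.w l * F.c l) = F.w l * F.c l * (F.w k * F.c k) := by
  by_cases h : k = l
  · rw [h]
  · have h1 : F.c k * F.w l = -(F.w l * F.c k) := by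
      have := F.cw k l
      rw [if_neg h] at this
      exact eq_neg_of_add_eq_zero_left this
    have h2 : F.c l * F.w k = -(F.w k * F.c l) := by
      have := F.cw l k
      rw [if_neg (Ne.symm h)] at this
      exact eq_neg_of_add_eq_zero_left this
    calc F.w k * F.c k * (F.w l * F.c l) = F.w k * (F.c k * F.w l) * F.c l := by
          simp only [mul_assoc]
      _ = -(F.w k * F.w l * (F.c k * F.c l)) := by
          rw [h1]
          simp only [mul_neg, neg_mul, mul_assoc]
      _ = -(F.w l * F.w k * (F.c l * F.c k)) := by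
          rw [F.ww k l, F.cc k l]
          simp only [mul_neg, neg_mul, neg_neg]
      _ = F.w l * (F.c l * F.w k) * F.c k := by
          rw [h2]
          simp only [mul_neg, neg_mul, mul_assoc]
      _ = F.w l * F.c l * (F.w k * F.c k) := by
          simp only [mul_assoc]

section
open Polynomial

variable {A : Type*} [Ring A] [Algebra ℂ A]

theorem FockN_pow {M p : A} (hp : p * p = p) (hc : M * p = p * M) (m : ℕ) :
    (M + p) ^ m = M ^ m * (1 - p) + (M + 1) ^ m * p := by
  induction m with
  | zero => simp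
  | succ m ih =>
    have e1 : (1 - p) * (M + p) = M * (1 - p) := by
      rw [sub_mul, one_mul, mul_add, hp, mul_sub, mul_one, hc]
      abel
    have e2 : p * (M + p) = (M + 1) * p := by
      rw [mul_add, hp, add_mul, one_mul, hc]
    rw [pow_succ, ih, add_mul, mul_assoc, mul_assoc, e1, e2, ← mul_assoc, ← mul_assoc, ← pow_succ,
      ← pow_succ]

theorem FockN_aeval {M p : A} (hp : p * p = p) (hc : M * p = p * M) (f : ℂ[X]) :
    aeval (M + p) f = aeval M f * (1 - p) + aeval (M + 1) f * p := by
  induction f using Polynomial.induction_on' with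
  | add f g hf hg =>
    simp only [map_add, hf, hg, add_mul]
    abel
  | monomial m a =>
    simp only [aeval_monomial, FockN_pow hp hc]
    simp only [mul_add, mul_assoc]

theorem FockN_shift (M : A) (m : ℕ) :
    aeval (M + 1) (∏ j ∈ Finset.range (m + 1), ((X : ℂ[X]) - C (j : ℂ))) =
      (M + 1) * aeval M (∏ j ∈ Finset.range m, ((X : ℂ[X]) - C (j : ℂ))) := by
  have h1 : (∏ j ∈ Finset.range (m + 1), ((X : ℂ[X]) - C (j : ℂ))).comp (X + 1) =
      (X + 1) * ∏ j ∈ Finset.range m, ((X : ℂ[X]) - C (j : ℂ)) := by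
    rw [Polynomial.prod_comp, Finset.prod_range_succ', mul_comm]
    congr 1
    · simp
    · refine Finset.prod_congr rfl fun j _ => ?_
      rw [sub_comp, X_comp, C_comp, Nat.cast_add, Nat.cast_one, map_add, map_one]
      ring
  have h2 : aeval M ((∏ j ∈ Finset.range (m + 1), ((X : ℂ[X]) - C (j : ℂ))).comp (X + 1)) =
      aeval (M + 1) (∏ j ∈ Finset.range (m + 1), ((X : ℂ[X]) - C (j : ℂ))) := by
    rw [aeval_comp]
    simp
  rw [← h2, h1, map_mul]
  simp

theorem FockN_sum {ι : Type*} [DecidableEq ι] (p : ι → A) (hp : ∀ i, p i * p i = p i)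
    (hc : ∀ i j, p i * p j = p j * p i) (s : Finset ι) :
    aeval (∑ i ∈ s, p i) (∏ j ∈ Finset.range (s.card + 1), ((X : ℂ[X]) - C (j : ℂ))) = 0 := by
  induction s using Finset.induction_on with
  | empty => simp
  | insert a s ha ih =>
    have hcom : (∑ i ∈ s, p i) * p a = p a * ∑ i ∈ s, p i := by
      rw [Finset.sum_mul, Finset.mul_sum]
      exact Finset.sum_congr rfl fun i _ => hc i a
    rw [Finset.sum_insert ha, add_comm, FockN_aeval (hp a) hcom, Finset.card_insert_of_notMem ha,
      FockN_shift, ih, Finset.prod_range_succ, map_mul, ih]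
    simp

end

/-- PROOF: the operators p_k = w_k * c_k are idempotent (c_k * c_k = 0 by `cc`, ℂ has characteristic 0)
and commute pairwise. For a finset A put N_A = ∑_{k ∈ A} p_k; claim: ∏_{j < |A|+1} (N_A - j) = 0,
by induction on A: for A ∪ {k}: N' - j = (N_A - j) (1 - p_k) + (N_A - (j - 1)) p_k, hence
∏_{j < |A|+2} (N' - j) = ∏_{j<|A|+2} (N_A - j) (1 - p_k) + ∏_{j<|A|+2} (N_A - (j-1)) p_k, and both
products contain ∏_{j<|A|+1} (N_A - j) as a factor. (Everything happens in the commutative subalgebra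
generated by the p_k; alternatively evaluate polynomials: the polynomial ∏ (X - j) at N_A.) -/
theorem Fock.N_prod (F : Fock n) :
    Polynomial.aeval F.N (∏ j ∈ Finset.range (n + 1), (Polynomial.X - Polynomial.C (j : ℂ))) = 0 := by
  have h := FockN_sum (fun k => F.w k * F.c k) (FockN_idem F) (FockN_comm F) Finset.univ
  rw [Finset.card_univ, Fintype.card_fin] at h
  exact h

/-- The three-cycle identity. PROOF: write Φ = c l * c k + c j * c l + c k * c j. As c k * c k = 0 one has
Φ = (c l - c k) * (c k - c j) = -(c k - c j) * (c l - c k). By `cg`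
(for the pair (j,k), up to signs): (c k - c j) * g (swap j k) = -(c k - c j), so
Φ * g (swap j k) = -Φ, and (c l - c k) * g (swap k l) = -(c l - c k), so Φ * g (swap k l) = -Φ. -/
theorem Fock.three (F : Fock n) (j k l : Fin n) (hjk : j ≠ k) (hkl : k ≠ l) (hjl : j ≠ l) :
    (F.c l * F.c k + F.c j * F.c l + F.c k * F.c j) * F.g (Equiv.swap j k * Equiv.swap k l) =
      F.c l * F.c k + F.c j * F.c l + F.c k * F.c j := by
  have e1 : F.c l * F.c k + F.c j * F.c l + F.c k * F.c j =
      (F.c l - F.c k) * (F.c k - F.c j) := by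
    rw [sub_mul, mul_sub, mul_sub, FockN_cc0, F.cc l j]
    abel
  have e2 : F.c l * F.c k + F.c j * F.c l + F.c k * F.c j =
      -((F.c k - F.c j) * (F.c l - F.c k)) := by
    rw [sub_mul, mul_sub, mul_sub, FockN_cc0, F.cc l k, F.cc k j]
    abel
  have g1 : (F.c k - F.c j) * F.g (Equiv.swap j k) = -(F.c k - F.c j) := by
    have h := F.cg j k hjk
    have h' : F.c k - F.c j = -(F.c j - F.c k) := by abel
    rw [h', neg_mul, h]
  have g2 : (F.c l - F.c k) * F.g (Equiv.swap k l) = -(F.c l - F.c k) := by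
    have h := F.cg k l hkl
    have h' : F.c l - F.c k = -(F.c k - F.c l) := by abel
    rw [h', neg_mul, h]
  have s1 : (F.c l * F.c k + F.c j * F.c l + F.c k * F.c j) * F.g (Equiv.swap j k) =
      -(F.c l * F.c k + F.c j * F.c l + F.c k * F.c j) := by
    rw [e1, mul_assoc, g1, mul_neg]
  have s2 : (F.c l * F.c k + F.c j * F.c l + F.c k * F.c j) * F.g (Equiv.swap k l) =
      -(F.c l * F.c k + F.c j * F.c l + F.c k * F.c j) := by
    rw [e2, neg_mul, mul_assoc, g2, mul_neg]
  rw [map_mul, ← mul_assoc, s1, neg_mul, s2, neg_neg]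

end CA1492.D8
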