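import Mathlib
import Pool.Agent.Lib.MP_ca1492_al.Alg.Defs
import Pool.Agent.Lib.MP_ca1492_al.D8.FockN

/-!
MP_ca1492_al, part D8. Abstract data: an algebra `B` which is a localisation of (several copies of) the
degenerate affine Hecke algebra, and the Koszul complex of a `B`-module.

Main theorem (`HMain.lean`): every B-module has projective dimension at most n.
-/

namespace CA1492.D8

open MvPolynomial TensorProduct

/-- Polynomials in the variables x_k. -/
abbrev PP (n : ℕ) : Type := MvPolynomial (Fin n) ℂ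

/-- The abstract data. `rho` = group elements, `px` = polynomials in the commuting elements x_k,
`e i` = orthogonal idempotents commuting with the x_k, `S` = central units (the denominators). -/
structure HD (n : ℕ) (B : Type) [Ring B] [Algebra ℂ B] (I : Type) [Fintype I] [DecidableEq I] where
  rho : Equiv.Perm (Fin n) →* B
  px : PP n →ₐ[ℂ] B
  e : I → B
  S : Submonoid B
  rho_x : ∀ (r : ℕ) (h : r + 1 < n) (k : Fin n),
    rho (sw n r) * px (X k) = px (X (sw n r k)) * rho (sw n r) +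
      (if k = ⟨r, by omega⟩ then (-1 : ℂ) else if k = ⟨r + 1, h⟩ then 1 else 0) • 1
  e_mul : ∀ i j, e i * e j = if i = j then e i else 0
  e_sum : ∑ i, e i = 1
  e_x : ∀ i k, e i * px (X k) = px (X k) * e i
  S_comm : ∀ s ∈ S, ∀ b, s * b = b * s
  S_unit : ∀ s ∈ S, IsUnit s
  S_lat : ∀ s ∈ S, ∀ i, ∃ q, s * e i = px q * e i
  span : ∀ b : B, ∃ s ∈ S, ∃ f : Equiv.Perm (Fin n) → I → PP n,
    s * b = ∑ σ, ∑ i, px (f σ i) * e i * rho σ
  uniq : ∀ f : Equiv.Perm (Fin n) → I → PP n, ∑ σ, ∑ i, px (f σ i) * e i * rho σ = 0 → f = 0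
  sep : ∀ (r : ℕ) (h : r + 1 < n) (i : I),
    (rho (sw n r) * e i = e i * rho (sw n r)) ∨
    ∃ (i' : I) (z z' : B), i' ≠ i ∧
      e i * z = z ∧ z * e i = z ∧
      (px (X ⟨r, by omega⟩) - px (X ⟨r + 1, h⟩)) * z = e i ∧
      z * (px (X ⟨r, by omega⟩) - px (X ⟨r + 1, h⟩)) = e i ∧
      e i' * z' = z' ∧ z' * e i' = z' ∧
      (px (X ⟨r, by omega⟩) - px (X ⟨r + 1, h⟩)) * z' = e i' ∧
      z' * (px (X ⟨r, by omega⟩) - px (X ⟨r + 1, h⟩)) = e i' ∧
      rho (sw n r) * e i = -z + e i' * rho (sw n r) * e i ∧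
      e i' * rho (sw n r) * e i = e i' * rho (sw n r) + z'

variable {n : ℕ} {B : Type} [Ring B] [Algebra ℂ B] {I : Type} [Fintype I] [DecidableEq I]

/-- The equivariant elements x_k + (1/2) (∑_{j > k} (j k) - ∑_{j < k} (j k)). -/
noncomputable def HD.xt (H : HD n B I) (k : Fin n) : B :=
  H.px (X k) + (1 / 2 : ℂ) • (∑ j ∈ Finset.univ.filter (fun j => k < j), H.rho (Equiv.swap j k) -
    ∑ j ∈ Finset.univ.filter (fun j => j < k), H.rho (Equiv.swap j k))

/-- The space B ⊗ (E ⊗ M), as a B-module (B acts on the first factor). It is a definition (not an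
abbreviation) with its own instances; its elements are sums of the pure tensors `tt b ξ`. -/
def TT (F : Fock n) (B : Type) [Ring B] [Algebra ℂ B] (M : Type) [AddCommGroup M] [Module ℂ M] :
    Type := B ⊗[ℂ] (F.E ⊗[ℂ] M)

section
variable (F : Fock n) (M : Type) [AddCommGroup M] [Module ℂ M]

noncomputable instance instAddTT : AddCommGroup (TT F B M) :=
  inferInstanceAs (AddCommGroup (B ⊗[ℂ] (F.E ⊗[ℂ] M)))

noncomputable instance instModTT : Module B (TT F B M) :=
  inferInstanceAs (Module B (B ⊗[ℂ] (F.E ⊗[ℂ] M)))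

noncomputable instance instModCTT : Module ℂ (TT F B M) :=
  inferInstanceAs (Module ℂ (B ⊗[ℂ] (F.E ⊗[ℂ] M)))

instance instTowerTT : IsScalarTower ℂ B (TT F B M) :=
  inferInstanceAs (IsScalarTower ℂ B (B ⊗[ℂ] (F.E ⊗[ℂ] M)))

/-- Pure tensors, bilinear over ℂ. -/
noncomputable def tt : B →ₗ[ℂ] (F.E ⊗[ℂ] M) →ₗ[ℂ] TT F B M := TensorProduct.mk ℂ B (F.E ⊗[ℂ] M)

/-- The ℂ-linear identification of B ⊗ W with TT (the identity). -/
noncomputable def ttE : (B ⊗[ℂ] (F.E ⊗[ℂ] M)) ≃ₗ[ℂ] TT F B M :=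
  LinearEquiv.refl ℂ (B ⊗[ℂ] (F.E ⊗[ℂ] M))

@[simp] theorem ttE_tmul (b : B) (ξ : F.E ⊗[ℂ] M) : ttE F M (b ⊗ₜ[ℂ] ξ) = tt F M b ξ := rfl

@[simp] theorem smul_tt (b' b : B) (ξ : F.E ⊗[ℂ] M) : b' • tt F M b ξ = tt F M (b' * b) ξ := rfl

theorem tt_eq (b : B) (ξ : F.E ⊗[ℂ] M) : tt F M b ξ = b • tt F M (1 : B) ξ := by
  rw [smul_tt, mul_one]

/-- Induction on elements of TT. -/
theorem TT_ind {p : TT F B M → Prop} (h0 : p 0) (ht : ∀ b ξ, p (tt F M b ξ))
    (ha : ∀ x y, p x → p y → p (x + y)) (z : TT F B M) : p z := by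
  induction z using TensorProduct.induction_on with
  | zero => exact h0
  | tmul b ξ => exact ht b ξ
  | add x y hx hy => exact ha x y hx hy

/-- Two B-linear maps out of TT agree if they agree on the tt 1 ξ. -/
theorem TT_ext {N : Type} [AddCommGroup N] [Module B N] {f g : TT F B M →ₗ[B] N}
    (h : ∀ ξ : F.E ⊗[ℂ] M, f (tt F M 1 ξ) = g (tt F M 1 ξ)) : f = g := by
  refine LinearMap.ext fun z => ?_
  induction z using TT_ind with
  | h0 => rw [map_zero, map_zero]
  | ht b ξ => rw [tt_eq, map_smul, map_smul, h]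
  | ha x y hx hy => rw [map_add, map_add, hx, hy]

/-- Construction of ℂ-linear maps out of TT. -/
noncomputable def TT_liftC {N : Type} [AddCommGroup N] [Module B N] [Module ℂ N]
    [IsScalarTower ℂ B N] (φ : (F.E ⊗[ℂ] M) →ₗ[ℂ] N) : TT F B M →ₗ[ℂ] N :=
  (TensorProduct.lift (LinearMap.flip ((Algebra.lsmul ℂ ℂ N).toLinearMap.flip.comp φ))) ∘ₗ
    (ttE F M).symm.toLinearMap

/-- Construction of B-linear maps out of TT. -/
noncomputable def TT_lift {N : Type} [AddCommGroup N] [Module B N] [Module ℂ N]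
    [IsScalarTower ℂ B N] (φ : (F.E ⊗[ℂ] M) →ₗ[ℂ] N) : TT F B M →ₗ[B] N where
  toFun := TT_liftC F M φ
  map_add' x y := map_add _ _ _
  map_smul' b z := by
    induction z using TT_ind with
    | h0 => rw [smul_zero, map_zero, RingHom.id_apply, smul_zero]
    | ht b' ξ =>
      change (b * b') • φ ξ = b • b' • φ ξ
      rw [mul_smul]
    | ha x y hx hy =>
      rw [smul_add, map_add, map_add, hx, hy, smul_add]

@[simp] theorem TT_lift_tt {N : Type} [AddCommGroup N] [Module B N] [Module ℂ N]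
    [IsScalarTower ℂ B N] (φ : (F.E ⊗[ℂ] M) →ₗ[ℂ] N) (b : B) (ξ : F.E ⊗[ℂ] M) :
    TT_lift F M φ (tt F M b ξ) = b • φ ξ := rfl

/-- TT is a free B-module. -/
theorem TT_free : Module.Free B (TT F B M) := by
  let bs := Module.Free.chooseBasis ℂ (F.E ⊗[ℂ] M)
  exact inferInstanceAs (Module.Free B (B ⊗[ℂ] (F.E ⊗[ℂ] M)))

/-- The operator tt b' ξ ↦ tt (b' * b) (A ξ). -/
noncomputable def opW (b : B) (A : Module.End ℂ (F.E ⊗[ℂ] M)) : TT F B M →ₗ[B] TT F B M :=
  TT_lift F M ((tt F M b) ∘ₗ A)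

@[simp] theorem opW_tt (b b' : B) (A : Module.End ℂ (F.E ⊗[ℂ] M)) (ξ : F.E ⊗[ℂ] M) :
    opW F M b A (tt F M b' ξ) = tt F M (b' * b) (A ξ) := by
  rw [opW, TT_lift_tt, LinearMap.comp_apply, smul_tt]

/-- Composition and linearity of `opW`. -/
theorem opW_mul (b b' : B) (A A' : Module.End ℂ (F.E ⊗[ℂ] M)) :
    opW F M b A ∘ₗ opW F M b' A' = opW F M (b' * b) (A * A') := by
  refine TT_ext F M fun ξ => ?_
  rw [LinearMap.comp_apply, opW_tt, opW_tt, opW_tt, one_mul, one_mul]
  rfl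

theorem opW_add (b b' : B) (A : Module.End ℂ (F.E ⊗[ℂ] M)) :
    opW F M (b + b') A = opW F M b A + opW F M b' A := by
  refine TT_ext F M fun ξ => ?_
  rw [LinearMap.add_apply, opW_tt, opW_tt, opW_tt, mul_add, map_add, LinearMap.add_apply]

theorem opW_add' (b : B) (A A' : Module.End ℂ (F.E ⊗[ℂ] M)) :
    opW F M b (A + A') = opW F M b A + opW F M b A' := by
  refine TT_ext F M fun ξ => ?_
  rw [LinearMap.add_apply, opW_tt, opW_tt, opW_tt, LinearMap.add_apply, map_add]

theorem opW_zero (A : Module.End ℂ (F.E ⊗[ℂ] M)) : opW F M (0 : B) A = 0 := by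
  refine TT_ext F M fun ξ => ?_
  rw [opW_tt, mul_zero, map_zero, LinearMap.zero_apply, LinearMap.zero_apply]

theorem opW_zero' (b : B) : opW F M b (0 : Module.End ℂ (F.E ⊗[ℂ] M)) = 0 := by
  refine TT_ext F M fun ξ => ?_
  rw [opW_tt, LinearMap.zero_apply, map_zero, LinearMap.zero_apply]

theorem opW_one : opW F M (1 : B) (1 : Module.End ℂ (F.E ⊗[ℂ] M)) = LinearMap.id := by
  refine TT_ext F M fun ξ => ?_
  rw [opW_tt, one_mul]
  rfl

theorem opW_neg (b : B) (A : Module.End ℂ (F.E ⊗[ℂ] M)) : opW F M (-b) A = -opW F M b A := by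
  refine TT_ext F M fun ξ => ?_
  rw [LinearMap.neg_apply, opW_tt, opW_tt, mul_neg, map_neg, LinearMap.neg_apply]

theorem opW_neg' (b : B) (A : Module.End ℂ (F.E ⊗[ℂ] M)) : opW F M b (-A) = -opW F M b A := by
  refine TT_ext F M fun ξ => ?_
  rw [LinearMap.neg_apply, opW_tt, opW_tt, LinearMap.neg_apply, map_neg]

theorem opW_sub (b b' : B) (A : Module.End ℂ (F.E ⊗[ℂ] M)) :
    opW F M (b - b') A = opW F M b A - opW F M b' A := by
  rw [sub_eq_add_neg, opW_add, opW_neg, sub_eq_add_neg]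

theorem opW_sub' (b : B) (A A' : Module.End ℂ (F.E ⊗[ℂ] M)) :
    opW F M b (A - A') = opW F M b A - opW F M b A' := by
  rw [sub_eq_add_neg, opW_add', opW_neg', sub_eq_add_neg]

theorem opW_sum {ι : Type} (s : Finset ι) (b : ι → B) (A : Module.End ℂ (F.E ⊗[ℂ] M)) :
    opW F M (∑ i ∈ s, b i) A = ∑ i ∈ s, opW F M (b i) A := by
  classical
  induction s using Finset.induction_on with
  | empty => rw [Finset.sum_empty, Finset.sum_empty, opW_zero]
  | insert a s ha ih => rw [Finset.sum_insert ha, Finset.sum_insert ha, opW_add, ih]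

theorem opW_sum' {ι : Type} (s : Finset ι) (b : B) (A : ι → Module.End ℂ (F.E ⊗[ℂ] M)) :
    opW F M b (∑ i ∈ s, A i) = ∑ i ∈ s, opW F M b (A i) := by
  classical
  induction s using Finset.induction_on with
  | empty => rw [Finset.sum_empty, Finset.sum_empty, opW_zero']
  | insert a s ha ih => rw [Finset.sum_insert ha, Finset.sum_insert ha, opW_add', ih]

theorem opW_smul (c : ℂ) (b : B) (A : Module.End ℂ (F.E ⊗[ℂ] M)) :
    opW F M (c • b) A = opW F M b (c • A) := by
  refine TT_ext F M fun ξ => ?_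
  rw [opW_tt, opW_tt, mul_smul_comm, map_smul, LinearMap.smul_apply, LinearMap.smul_apply, map_smul]

theorem opW_smul_apply (c : ℂ) (b : B) (A : Module.End ℂ (F.E ⊗[ℂ] M)) (z : TT F B M) :
    opW F M (c • b) A z = c • opW F M b A z := by
  induction z using TT_ind with
  | h0 => rw [map_zero, map_zero, smul_zero]
  | ht b' ξ => rw [opW_tt, opW_tt, mul_smul_comm, map_smul, LinearMap.smul_apply]
  | ha x y hx hy => rw [map_add, map_add, hx, hy, smul_add]

end

section
variable (F : Fock n) (M : Type) [AddCommGroup M] [Module ℂ M] [Module B M] [IsScalarTower ℂ B M]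

/-- The operator λ ⊗ m ↦ g λ ⊗ a • m on E ⊗ M. -/
noncomputable def wop (g : Module.End ℂ F.E) (a : B) : Module.End ℂ (F.E ⊗[ℂ] M) :=
  TensorProduct.map g (Algebra.lsmul ℂ ℂ M a)

@[simp] theorem wop_tmul (g : Module.End ℂ F.E) (a : B) (x : F.E) (m : M) :
    wop F M g a (x ⊗ₜ[ℂ] m) = g x ⊗ₜ[ℂ] (a • m) := rfl

theorem wop_mul (g g' : Module.End ℂ F.E) (a a' : B) :
    wop F M g a * wop F M g' a' = wop F M (g * g') (a * a') := by
  refine TensorProduct.ext' fun x m => ?_
  rw [Module.End.mul_apply, wop_tmul, wop_tmul, wop_tmul, mul_smul]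
  rfl

theorem wop_one : wop F M 1 (1 : B) = 1 := by
  refine TensorProduct.ext' fun x m => ?_
  rw [wop_tmul, one_smul]
  rfl

theorem wop_add (g g' : Module.End ℂ F.E) (a : B) :
    wop F M (g + g') a = wop F M g a + wop F M g' a := by
  refine TensorProduct.ext' fun x m => ?_
  rw [LinearMap.add_apply, wop_tmul, wop_tmul, wop_tmul, LinearMap.add_apply, add_tmul]

theorem wop_add' (g : Module.End ℂ F.E) (a a' : B) :
    wop F M g (a + a') = wop F M g a + wop F M g a' := by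
  refine TensorProduct.ext' fun x m => ?_
  rw [LinearMap.add_apply, wop_tmul, wop_tmul, wop_tmul, add_smul, tmul_add]

theorem wop_neg (g : Module.End ℂ F.E) (a : B) : wop F M (-g) a = -wop F M g a := by
  refine TensorProduct.ext' fun x m => ?_
  rw [LinearMap.neg_apply, wop_tmul, wop_tmul, LinearMap.neg_apply, neg_tmul]

theorem wop_neg' (g : Module.End ℂ F.E) (a : B) : wop F M g (-a) = -wop F M g a := by
  refine TensorProduct.ext' fun x m => ?_
  rw [LinearMap.neg_apply, wop_tmul, wop_tmul, neg_smul, tmul_neg]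

theorem wop_sub (g g' : Module.End ℂ F.E) (a : B) :
    wop F M (g - g') a = wop F M g a - wop F M g' a := by
  rw [sub_eq_add_neg, wop_add, wop_neg, sub_eq_add_neg]

theorem wop_sub' (g : Module.End ℂ F.E) (a a' : B) :
    wop F M g (a - a') = wop F M g a - wop F M g a' := by
  rw [sub_eq_add_neg, wop_add', wop_neg', sub_eq_add_neg]

theorem wop_smul (c : ℂ) (g : Module.End ℂ F.E) (a : B) :
    wop F M (c • g) a = c • wop F M g a := by
  refine TensorProduct.ext' fun x m => ?_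
  rw [LinearMap.smul_apply, wop_tmul, wop_tmul, LinearMap.smul_apply, smul_tmul']

theorem wop_smul' (c : ℂ) (g : Module.End ℂ F.E) (a : B) :
    wop F M g (c • a) = c • wop F M g a := by
  refine TensorProduct.ext' fun x m => ?_
  rw [LinearMap.smul_apply, wop_tmul, wop_tmul, smul_assoc, tmul_smul]

/-- The operator b' ⊗ (λ ⊗ m) ↦ (b' * b) ⊗ (g λ ⊗ a • m). -/
noncomputable def op (b : B) (g : Module.End ℂ F.E) (a : B) : TT F B M →ₗ[B] TT F B M :=
  opW F M b (wop F M g a)

@[simp] theorem op_tt (b : B) (g : Module.End ℂ F.E) (a b' : B) (x : F.E) (m : M) :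
    op F M b g a (tt F M b' (x ⊗ₜ[ℂ] m)) = tt F M (b' * b) (g x ⊗ₜ[ℂ] (a • m)) := by
  rw [op, opW_tt, wop_tmul]

/-- The action of a permutation on B ⊗ (E ⊗ M). -/
noncomputable def HD.act (H : HD n B I) (s : Equiv.Perm (Fin n)) : TT F B M →ₗ[B] TT F B M :=
  op F M (H.rho s⁻¹) (F.g s) (H.rho s)

/-- The sum over the group. -/
noncomputable def HD.Av (H : HD n B I) : TT F B M →ₗ[B] TT F B M := ∑ s, H.act F M s

/-- The number operator on B ⊗ (E ⊗ M). -/
noncomputable def NN : TT F B M →ₗ[B] TT F B M := op F M 1 F.N 1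

/-- The Koszul differential. -/
noncomputable def HD.dd (H : HD n B I) : TT F B M →ₗ[B] TT F B M :=
  ∑ k, (op F M (H.xt k) (F.c k) 1 - op F M 1 (F.c k) (H.xt k))

/-- The terms of the Koszul complex: invariants of degree i. -/
noncomputable def HD.KK (H : HD n B I) (i : ℕ) : Submodule B (TT F B M) where
  carrier := {z | (∀ s, H.act F M s z = z) ∧ NN F M z = (i : ℂ) • z}
  add_mem' := by
    rintro x y ⟨h1, h2⟩ ⟨h3, h4⟩
    exact ⟨fun s => by rw [map_add, h1, h3], by rw [map_add, h2, h4, smul_add]⟩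
  zero_mem' := ⟨fun s => map_zero _, by rw [map_zero, smul_zero]⟩
  smul_mem' := by
    rintro b x ⟨h1, h2⟩
    refine ⟨fun s => by rw [map_smul, h1], ?_⟩
    rw [map_smul, h2, ← algebraMap_smul B (i : ℂ) x, ← algebraMap_smul B (i : ℂ) (b • x), smul_smul,
      smul_smul, Algebra.commutes]

theorem HD.mem_KK (H : HD n B I) (i : ℕ) (z : TT F B M) :
    z ∈ H.KK F M i ↔ (∀ s, H.act F M s z = z) ∧ NN F M z = (i : ℂ) • z := Iff.rfl

end

end CA1492.D8
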