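import Mathlib
import Pool.Agent.Lib.MP_ca1492_al.D8.HD

/-!
Equivariance of the elements `xt k`.
-/

namespace CA1492.D8

open MvPolynomial

variable {n : ℕ} {B : Type} [Ring B] [Algebra ℂ B] {I : Type} [Fintype I] [DecidableEq I]

/-- Induction over the adjacent transpositions `sw n r`, r + 1 < n.
PROOF: as in `span_dl` (Alg/XSpan.lean): n = 0: Perm (Fin 0) is a subsingleton; n = m + 1:
`Equiv.Perm.mclosure_swap_castSucc_succ` and `Submonoid.closure_induction_left`. -/
theorem perm_ind {p : Equiv.Perm (Fin n) → Prop} (h1 : p 1)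
    (hs : ∀ (r : ℕ) (_ : r + 1 < n) (u : Equiv.Perm (Fin n)), p u → p (sw n r * u))
    (u : Equiv.Perm (Fin n)) : p u := by
  rcases n with _ | m
  · rw [Subsingleton.elim u 1]
    exact h1
  · have hmem : u ∈ Submonoid.closure
        (Set.range fun i : Fin m => Equiv.swap i.castSucc i.succ) := by
      rw [Equiv.Perm.mclosure_swap_castSucc_succ]
      trivial
    induction hmem using Submonoid.closure_induction_left with
    | one => exact h1
    | mul_left x hx y _ ih =>
      obtain ⟨i, rfl⟩ := hx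
      have hsw : Equiv.swap i.castSucc i.succ = sw (m + 1) (i : ℕ) := by
        unfold sw
        rw [dif_pos (by have := i.2; omega)]
        rfl
      change p (Equiv.swap i.castSucc i.succ * y)
      rw [hsw]
      exact hs _ (by have := i.2; omega) y ih

/-- the sign of `j - k` -/
def HXt_sg (j k : Fin n) : ℤ := if k < j then 1 else if j < k then -1 else 0

/-- the change of the sign under an adjacent transposition -/
def HXt_co (a b j k : Fin n) : ℤ :=
  if j = a ∧ k = b then 2 else if j = b ∧ k = a then -2 else 0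

theorem HXt_sg_swap (a b j k : Fin n) (hab : (b : ℕ) = a + 1) :
    HXt_sg (Equiv.swap a b j) (Equiv.swap a b k) = HXt_sg j k + HXt_co a b j k := by
  unfold HXt_sg HXt_co
  simp only [Equiv.swap_apply_def, Fin.lt_def, Fin.ext_iff]
  split_ifs <;> omega

theorem HXt_xt_eq (H : HD n B I) (k : Fin n) :
    H.xt k = H.px (X k) + (1 / 2 : ℂ) • ∑ j, HXt_sg j k • H.rho (Equiv.swap j k) := by
  unfold HD.xt
  congr 2
  rw [Finset.sum_filter, Finset.sum_filter, ← Finset.sum_sub_distrib]
  refine Finset.sum_congr rfl fun j _ => ?_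
  unfold HXt_sg
  by_cases h1 : k < j
  · rw [if_pos h1, if_neg (not_lt.2 h1.le), if_pos h1, one_smul, sub_zero]
  · rw [if_neg h1, if_neg h1]
    by_cases h2 : j < k
    · rw [if_pos h2, if_pos h2, neg_smul, one_smul, zero_sub]
    · rw [if_neg h2, if_neg h2, zero_smul, sub_zero]

theorem HXt_M (H : HD n B I) (a b k : Fin n) (hab : (b : ℕ) = a + 1) :
    H.rho (Equiv.swap a b) * ∑ j, HXt_sg j k • H.rho (Equiv.swap j k) =
      (∑ j, HXt_sg j (Equiv.swap a b k) • H.rho (Equiv.swap j (Equiv.swap a b k))) *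
        H.rho (Equiv.swap a b) +
      ∑ j, HXt_co a b j (Equiv.swap a b k) •
        (H.rho (Equiv.swap j (Equiv.swap a b k)) * H.rho (Equiv.swap a b)) := by
  set s : Equiv.Perm (Fin n) := Equiv.swap a b with hs
  have hss : ∀ x, s (s x) = x := fun x => by
    rw [hs, ← Equiv.Perm.mul_apply, Equiv.swap_mul_self, Equiv.Perm.one_apply]
  have h1 : ∀ j, H.rho s * H.rho (Equiv.swap j k) = H.rho (Equiv.swap (s j) (s k)) * H.rho s := by
    intro j
    rw [← map_mul, ← map_mul]
    congr 1
    exact Equiv.mul_swap_eq_swap_mul s j k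
  rw [Finset.mul_sum, Finset.sum_mul, ← Finset.sum_add_distrib,
    ← Equiv.sum_comp s (fun j => HXt_sg j (s k) • H.rho (Equiv.swap j (s k)) * H.rho s +
      HXt_co a b j (s k) • (H.rho (Equiv.swap j (s k)) * H.rho s))]
  refine Finset.sum_congr rfl fun j _ => ?_
  rw [mul_smul_comm, h1, smul_mul_assoc, ← add_smul]
  congr 1
  have h2 := HXt_sg_swap a b (s j) (s k) hab
  rw [← hs, hss, hss] at h2
  exact h2

theorem HXt_adj (H : HD n B I) (r : ℕ) (h : r + 1 < n) (k : Fin n) :
    H.rho (sw n r) * H.xt k = H.xt (sw n r k) * H.rho (sw n r) := by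
  have hsw : sw n r = Equiv.swap (⟨r, by omega⟩ : Fin n) ⟨r + 1, h⟩ := by
    unfold sw
    rw [dif_pos h]
  have hx := H.rho_x r h k
  rw [HXt_xt_eq, HXt_xt_eq, mul_add, add_mul, hx, mul_smul_comm, smul_mul_assoc, hsw]
  rw [HXt_M H ⟨r, by omega⟩ ⟨r + 1, h⟩ k rfl, smul_add]
  have hne : (⟨r, by omega⟩ : Fin n) ≠ ⟨r + 1, h⟩ := by
    intro he
    rw [Fin.ext_iff] at he
    simp at he
  have hinv : H.rho (Equiv.swap (⟨r, by omega⟩ : Fin n) ⟨r + 1, h⟩) *
      H.rho (Equiv.swap (⟨r, by omega⟩ : Fin n) ⟨r + 1, h⟩) = 1 := by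
    rw [← map_mul, Equiv.swap_mul_self, map_one]
  have hco : (if k = ⟨r, by omega⟩ then (-1 : ℂ) else if k = ⟨r + 1, h⟩ then 1 else 0) • (1 : B) +
      (1 / 2 : ℂ) • ∑ j, HXt_co ⟨r, by omega⟩ ⟨r + 1, h⟩ j
        (Equiv.swap (⟨r, by omega⟩ : Fin n) ⟨r + 1, h⟩ k) •
        (H.rho (Equiv.swap j (Equiv.swap (⟨r, by omega⟩ : Fin n) ⟨r + 1, h⟩ k)) *
          H.rho (Equiv.swap (⟨r, by omega⟩ : Fin n) ⟨r + 1, h⟩)) = 0 := by
    by_cases hka : k = ⟨r, by omega⟩
    · rw [if_pos hka, hka, Equiv.swap_apply_left]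
      rw [Finset.sum_eq_single (⟨r, by omega⟩ : Fin n)]
      · unfold HXt_co
        rw [if_pos ⟨rfl, rfl⟩, hinv, ← Int.cast_smul_eq_zsmul ℂ, smul_smul, ← add_smul]
        norm_num
      · intro j _ hj
        unfold HXt_co
        rw [if_neg (fun hc => hj hc.1), if_neg (fun hc => hne hc.2.symm), zero_smul]
      · intro hc
        exact absurd (Finset.mem_univ _) hc
    · rw [if_neg hka]
      by_cases hkb : k = ⟨r + 1, h⟩
      · rw [if_pos hkb, hkb, Equiv.swap_apply_right]
        rw [Finset.sum_eq_single (⟨r + 1, h⟩ : Fin n)]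
        · unfold HXt_co
          rw [if_neg (fun hc => hne hc.2), if_pos ⟨rfl, rfl⟩,
            Equiv.swap_comm (⟨r + 1, h⟩ : Fin n) ⟨r, by omega⟩, hinv,
            ← Int.cast_smul_eq_zsmul ℂ, smul_smul, ← add_smul]
          norm_num
        · intro j _ hj
          unfold HXt_co
          rw [if_neg (fun hc => hne hc.2), if_neg (fun hc => hj hc.1), zero_smul]
        · intro hc
          exact absurd (Finset.mem_univ _) hc
      · rw [if_neg hkb, zero_smul, zero_add, Equiv.swap_apply_of_ne_of_ne hka hkb]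
        rw [Finset.sum_eq_zero, smul_zero]
        intro j _
        unfold HXt_co
        rw [if_neg (fun hc => hkb hc.2), if_neg (fun hc => hka hc.2), zero_smul]
  rw [add_add_add_comm, hco, add_zero]

/-- Equivariance. PROOF. By `perm_ind` it is enough to treat σ = sw n r =: s (for a product use the two
cases). Let a = ⟨r, _⟩, b = ⟨r + 1, _⟩, s = swap a b (`sw` with the hypothesis h). One has
rho s * rho (swap j k) = rho (swap (s j) (s k)) * rho s (`Equiv.swap_apply`-conjugation:
s * swap j k = swap (s j) (s k) * s, Mathlib `Equiv.Perm.mul_swap_eq_swap_mul`) and `rho_x`.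
k = a: rho s * (∑_{j > a} rho (swap j a) - ∑_{j < a} rho (swap j a))
  = (∑_{j > a} rho (swap (s j) b) - ∑_{j < a} rho (swap j b)) * rho s, and the map s is a bijection from
{j > a} to {j | j = a or j > b}; so it is (rho (swap a b) + ∑_{j > b} rho (swap j b)
  - ∑_{j < a} rho (swap j b)) * rho s = (∑_{j>b} - ∑_{j<b}) rho (swap j b) * rho s + 2 • rho s * rho s
(here {j < b} = {j < a} ∪ {a}, rho (swap a b) = rho s) and rho s * rho s = 1: with the factor 1/2 the
extra term is + 1 and cancels the -1 of `rho_x`. k = b: symmetric (or: multiply the case k = a by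
rho s on both sides). Other k: s permutes {j > k} and {j < k}, as a and b are on the same side of k. -/
theorem HD.rho_xt (H : HD n B I) (σ : Equiv.Perm (Fin n)) (k : Fin n) :
    H.rho σ * H.xt k = H.xt (σ k) * H.rho σ := by
  have key : ∀ k, H.rho σ * H.xt k = H.xt (σ k) * H.rho σ := by
    refine perm_ind (p := fun σ => ∀ k, H.rho σ * H.xt k = H.xt (σ k) * H.rho σ) ?_ ?_ σ
    · intro k
      rw [map_one, one_mul, mul_one]
      rfl
    · intro r h u ih k
      rw [map_mul, mul_assoc, ih, ← mul_assoc, HXt_adj H r h, mul_assoc]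
      rfl
  exact key k

/-- The sum of all transpositions moving k. -/
noncomputable def HD.Mk (H : HD n B I) (k : Fin n) : B :=
  ∑ j ∈ Finset.univ.filter (fun j => j ≠ k), H.rho (Equiv.swap j k)

end CA1492.D8
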