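import Mathlib
import Pool.Agent.Lib.MP_ca1492_al.D8.HXt

/-!
Rules for the operators `op`, `act`, `Av`, `dd`, `NN`.
-/

namespace CA1492.D8

open MvPolynomial TensorProduct

variable {n : ℕ} {B : Type} [Ring B] [Algebra ℂ B] {I : Type} [Fintype I] [DecidableEq I]
variable (F : Fock n) (M : Type) [AddCommGroup M] [Module ℂ M] [Module B M] [IsScalarTower ℂ B M]

/-- Composition. -/
theorem op_mul (b b' a a' : B) (g g' : Module.End ℂ F.E) :
    op F M b g a ∘ₗ op F M b' g' a' = op F M (b' * b) (g * g') (a * a') := by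
  rw [op, op, op, opW_mul, wop_mul]

theorem op_one : op F M (1 : B) (1 : Module.End ℂ F.E) (1 : B) = LinearMap.id := by
  rw [op, wop_one, opW_one]

theorem op_sub_g (b a : B) (g g' : Module.End ℂ F.E) :
    op F M b (g - g') a = op F M b g a - op F M b g' a := by
  rw [op, op, op, wop_sub, opW_sub']

theorem op_sub_b (b b' a : B) (g : Module.End ℂ F.E) :
    op F M (b - b') g a = op F M b g a - op F M b' g a := by
  rw [op, op, op, opW_sub]

theorem op_sub_a (b a a' : B) (g : Module.End ℂ F.E) :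
    op F M b g (a - a') = op F M b g a - op F M b g a' := by
  rw [op, op, op, wop_sub', opW_sub']

theorem op_neg_g (b a : B) (g : Module.End ℂ F.E) : op F M b (-g) a = -op F M b g a := by
  rw [op, op, wop_neg, opW_neg']

theorem op_add_g (b a : B) (g g' : Module.End ℂ F.E) :
    op F M b (g + g') a = op F M b g a + op F M b g' a := by
  rw [op, op, op, wop_add, opW_add']

theorem op_zero_g (b a : B) : op F M b 0 a = 0 := by
  have h := op_sub_g F M b a 0 0
  rwa [sub_self, sub_self] at h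

theorem op_zero_b (g : Module.End ℂ F.E) (a : B) : op F M 0 g a = 0 := by
  have h := op_sub_b F M 0 0 a g
  rwa [sub_self, sub_self] at h

theorem op_zero_a (b : B) (g : Module.End ℂ F.E) : op F M b g 0 = 0 := by
  have h := op_sub_a F M b 0 0 g
  rwa [sub_self, sub_self] at h

/-- The action is a group action. PROOF: `op_mul`, `map_mul`, and s⁻¹: act s ∘ act t =
op (rho t⁻¹ * rho s⁻¹) (g s * g t) (rho s * rho t) = act (s * t). -/
theorem HD.act_mul (H : HD n B I) (s t : Equiv.Perm (Fin n)) :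
    H.act F M s ∘ₗ H.act F M t = H.act F M (s * t) ∧ H.act F M 1 = LinearMap.id := by
  constructor
  · unfold HD.act
    rw [op_mul, ← map_mul, ← map_mul, ← map_mul, mul_inv_rev]
  · unfold HD.act
    rw [inv_one, map_one, map_one]
    exact op_one F M

/-- The differential is equivariant. PROOF: act s ∘ op (xt k) (c k) 1 = op (xt k * rho s⁻¹) (g s * c k) (rho s)
and op (xt (s k)) (c (s k)) 1 ∘ act s = op (rho s⁻¹ * xt (s k)) (c (s k) * g s) (rho s); these agree by
`gc` and `rho_xt` (for s⁻¹: rho s⁻¹ * xt (s k) = xt k * rho s⁻¹). Similarly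
act s ∘ op 1 (c k) (xt k) = op (rho s⁻¹) (g s * c k) (rho s * xt k) and
op 1 (c (s k)) (xt (s k)) ∘ act s = op (rho s⁻¹) (c (s k) * g s) (xt (s k) * rho s). Reindex the sum by s. -/
theorem HD.act_dd (H : HD n B I) (s : Equiv.Perm (Fin n)) :
    H.act F M s ∘ₗ H.dd F M = H.dd F M ∘ₗ H.act F M s := by
  have h1 : ∀ k, H.act F M s ∘ₗ (op F M (H.xt k) (F.c k) 1 - op F M 1 (F.c k) (H.xt k)) =
      (op F M (H.xt (s k)) (F.c (s k)) 1 - op F M 1 (F.c (s k)) (H.xt (s k))) ∘ₗ H.act F M s := by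
    intro k
    have h2 := H.rho_xt s⁻¹ (s k)
    rw [show s⁻¹ (s k) = k from s.symm_apply_apply k] at h2
    unfold HD.act
    rw [LinearMap.comp_sub, LinearMap.sub_comp, op_mul, op_mul, op_mul, op_mul, F.gc, h2,
      H.rho_xt s k]
    simp only [one_mul, mul_one]
  unfold HD.dd
  have h3 : H.act F M s ∘ₗ (∑ k, (op F M (H.xt k) (F.c k) 1 - op F M 1 (F.c k) (H.xt k))) =
      ∑ k, H.act F M s ∘ₗ (op F M (H.xt k) (F.c k) 1 - op F M 1 (F.c k) (H.xt k)) := by
    refine LinearMap.ext fun x => ?_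
    simp only [LinearMap.comp_apply, LinearMap.sum_apply, map_sum]
  have h4 : (∑ k, (op F M (H.xt k) (F.c k) 1 - op F M 1 (F.c k) (H.xt k))) ∘ₗ H.act F M s =
      ∑ k, (op F M (H.xt k) (F.c k) 1 - op F M 1 (F.c k) (H.xt k)) ∘ₗ H.act F M s := by
    refine LinearMap.ext fun x => ?_
    simp only [LinearMap.comp_apply, LinearMap.sum_apply]
  rw [h3, h4, Finset.sum_congr rfl fun k _ => h1 k]
  exact Equiv.sum_comp s (fun k =>
    (op F M (H.xt k) (F.c k) 1 - op F M 1 (F.c k) (H.xt k)) ∘ₗ H.act F M s)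

/-- PROOF: `op_mul`, `N_g`. -/
theorem HD.act_NN (H : HD n B I) (s : Equiv.Perm (Fin n)) :
    H.act F M s ∘ₗ NN F M = NN F M ∘ₗ H.act F M s := by
  unfold HD.act NN
  rw [op_mul, op_mul, F.N_g]
  simp only [one_mul, mul_one]

/-- PROOF: `op_mul`, `N_c`, `op_lin`. -/
theorem HD.NN_dd (H : HD n B I) : NN F M ∘ₗ H.dd F M = H.dd F M ∘ₗ NN F M - H.dd F M := by
  have h1 : ∀ k, NN F M ∘ₗ (op F M (H.xt k) (F.c k) 1 - op F M 1 (F.c k) (H.xt k)) =
      (op F M (H.xt k) (F.c k) 1 - op F M 1 (F.c k) (H.xt k)) ∘ₗ NN F M -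
        (op F M (H.xt k) (F.c k) 1 - op F M 1 (F.c k) (H.xt k)) := by
    intro k
    unfold NN
    rw [LinearMap.comp_sub, LinearMap.sub_comp, op_mul, op_mul, op_mul, op_mul, F.N_c, op_sub_g,
      op_sub_g]
    simp only [one_mul, mul_one]
    abel
  unfold HD.dd
  have h3 : NN F M ∘ₗ (∑ k, (op F M (H.xt k) (F.c k) 1 - op F M 1 (F.c k) (H.xt k))) =
      ∑ k, NN F M ∘ₗ (op F M (H.xt k) (F.c k) 1 - op F M 1 (F.c k) (H.xt k)) := by
    refine LinearMap.ext fun x => ?_
    simp only [LinearMap.comp_apply, LinearMap.sum_apply, map_sum]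
  have h4 : (∑ k, (op F M (H.xt k) (F.c k) 1 - op F M 1 (F.c k) (H.xt k))) ∘ₗ NN F M =
      ∑ k, (op F M (H.xt k) (F.c k) 1 - op F M 1 (F.c k) (H.xt k)) ∘ₗ NN F M := by
    refine LinearMap.ext fun x => ?_
    simp only [LinearMap.comp_apply, LinearMap.sum_apply]
  rw [h3, h4, Finset.sum_congr rfl fun k _ => h1 k, Finset.sum_sub_distrib]

/-- PROOF: `act_dd` and `NN_dd`: N d z = d (N z) - d z = (i + 1) d z - d z. -/
theorem HD.dd_mem (H : HD n B I) (i : ℕ) {z : TT F B M} (hz : z ∈ H.KK F M (i + 1)) :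
    H.dd F M z ∈ H.KK F M i := by
  rw [HD.mem_KK] at hz ⊢
  refine ⟨fun s => ?_, ?_⟩
  · have h := LinearMap.congr_fun (H.act_dd F M s) z
    rw [LinearMap.comp_apply, LinearMap.comp_apply, hz.1 s] at h
    exact h
  · have h := LinearMap.congr_fun (H.NN_dd F M) z
    rw [LinearMap.comp_apply, LinearMap.sub_apply, LinearMap.comp_apply, hz.2] at h
    rw [h]
    have h5 : H.dd F M (((i + 1 : ℕ) : ℂ) • z) = ((i + 1 : ℕ) : ℂ) • H.dd F M z := by
      rw [← algebraMap_smul B ((i + 1 : ℕ) : ℂ) z, map_smul, algebraMap_smul]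
    rw [h5]
    push_cast
    rw [add_smul, one_smul]
    abel

/-- Properties of Av: act s ∘ Av = Av = Av ∘ act s; it commutes with dd and NN; on invariant elements
it is multiplication by n!. PROOF: reindexing; `act_mul`, `act_dd`, `act_NN`. -/
theorem HD.Av_props (H : HD n B I) :
    (∀ s, H.act F M s ∘ₗ H.Av F M = H.Av F M) ∧ (∀ s, H.Av F M ∘ₗ H.act F M s = H.Av F M) ∧
    H.Av F M ∘ₗ H.dd F M = H.dd F M ∘ₗ H.Av F M ∧ H.Av F M ∘ₗ NN F M = NN F M ∘ₗ H.Av F M ∧
    (∀ z, (∀ s, H.act F M s z = z) → H.Av F M z = (n.factorial : ℂ) • z) := by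
  have hl : ∀ f : TT F B M →ₗ[B] TT F B M, f ∘ₗ H.Av F M = ∑ s, f ∘ₗ H.act F M s := by
    intro f
    refine LinearMap.ext fun x => ?_
    simp only [HD.Av, LinearMap.comp_apply, LinearMap.sum_apply, map_sum]
  have hr : ∀ f : TT F B M →ₗ[B] TT F B M, H.Av F M ∘ₗ f = ∑ s, H.act F M s ∘ₗ f := by
    intro f
    refine LinearMap.ext fun x => ?_
    simp only [HD.Av, LinearMap.comp_apply, LinearMap.sum_apply]
  refine ⟨fun s => ?_, fun s => ?_, ?_, ?_, ?_⟩
  · rw [hl, Finset.sum_congr rfl fun t _ => (H.act_mul F M s t).1]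
    exact Equiv.sum_comp (Equiv.mulLeft s) (fun t => H.act F M t)
  · rw [hr, Finset.sum_congr rfl fun t _ => (H.act_mul F M t s).1]
    exact Equiv.sum_comp (Equiv.mulRight s) (fun t => H.act F M t)
  · rw [hl, hr, Finset.sum_congr rfl fun t _ => H.act_dd F M t]
  · rw [hl, hr, Finset.sum_congr rfl fun t _ => H.act_NN F M t]
  · intro z hz
    unfold HD.Av
    rw [LinearMap.sum_apply, Finset.sum_congr rfl fun t _ => hz t, Finset.sum_const,
      Finset.card_univ, Fintype.card_perm, Fintype.card_fin, ← Nat.cast_smul_eq_nsmul ℂ]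

/-- PROOF: op (rho t) g 1 followed by act t is op (rho t⁻¹ ... ): for the left side insert act t:
Av ∘ op (rho t) 1 1 = Av ∘ act t ∘ op (rho t) 1 1 = Av ∘ op (rho t * rho t⁻¹) (g t) (rho t). -/
theorem HD.Av_rho (H : HD n B I) (t : Equiv.Perm (Fin n)) :
    H.Av F M ∘ₗ op F M (H.rho t) 1 1 = H.Av F M ∘ₗ op F M 1 (F.g t) (H.rho t) := by
  rw [← (H.Av_props F M).2.1 t, LinearMap.comp_assoc, LinearMap.comp_assoc]
  have h1 : H.act F M t ∘ₗ op F M (H.rho t) 1 1 = op F M 1 (F.g t) (H.rho t) := by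
    unfold HD.act
    rw [op_mul, ← map_mul, mul_inv_cancel, map_one, mul_one, mul_one]
  rw [h1, ← LinearMap.comp_assoc, (H.Av_props F M).2.1 t]

/-- On invariant elements right multiplication by rho t is the diagonal action.
PROOF: z = act t z, so op (rho t) 1 1 z = op (rho t) 1 1 (op (rho t⁻¹) (g t) (rho t) z) =
op (rho t⁻¹ * rho t) (g t) (rho t) z. -/
theorem HD.inv_rho (H : HD n B I) (t : Equiv.Perm (Fin n)) {z : TT F B M}
    (hz : ∀ s, H.act F M s z = z) : op F M (H.rho t) 1 1 z = op F M 1 (F.g t) (H.rho t) z := by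
  have h1 : op F M (H.rho t) 1 1 ∘ₗ H.act F M t = op F M 1 (F.g t) (H.rho t) := by
    unfold HD.act
    rw [op_mul, ← map_mul, inv_mul_cancel, map_one, one_mul, one_mul]
  have h2 := LinearMap.congr_fun h1 z
  rw [LinearMap.comp_apply, hz t] at h2
  exact h2

end CA1492.D8
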