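import Mathlib
import Pool.Agent.Lib.MP_ca1492_al.D8.HXt

/-!
Commutators of the elements `xt k`.
-/

namespace CA1492.D8

open MvPolynomial

variable {n : ℕ} {B : Type} [Ring B] [Algebra ℂ B] {I : Type} [Fintype I] [DecidableEq I]

theorem HXtb_conj (H : HD n B I) (σ : Equiv.Perm (Fin n)) (j k : Fin n) :
    H.rho σ * H.rho (Equiv.swap j k) = H.rho (Equiv.swap (σ j) (σ k)) * H.rho σ := by
  rw [← map_mul, ← map_mul, Equiv.mul_swap_eq_swap_mul]

/-- The sum of the transpositions (j k) with j < k. -/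
noncomputable def HXtb_J (H : HD n B I) (k : Fin n) : B :=
  ∑ j ∈ Finset.univ.filter (fun j => j < k), H.rho (Equiv.swap j k)

/-- The elements v k. -/
noncomputable def HXtb_v (H : HD n B I) (k : Fin n) : B := H.px (X k) - HXtb_J H k

theorem HXtb_Mk (H : HD n B I) (σ : Equiv.Perm (Fin n)) (k : Fin n) :
    H.rho σ * H.Mk k = H.Mk (σ k) * H.rho σ := by
  unfold HD.Mk
  rw [Finset.mul_sum, Finset.sum_mul]
  refine Finset.sum_equiv σ (fun j => ?_) (fun j _ => HXtb_conj H σ j k)
  simp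

theorem HXtb_xt (H : HD n B I) (k : Fin n) :
    H.xt k = HXtb_v H k + (1 / 2 : ℂ) • H.Mk k := by
  have h : H.Mk k = ∑ j ∈ Finset.univ.filter (fun j => k < j), H.rho (Equiv.swap j k) +
      HXtb_J H k := by
    unfold HD.Mk HXtb_J
    rw [← Finset.sum_union]
    · refine Finset.sum_congr ?_ fun _ _ => rfl
      ext j
      simp only [Finset.mem_filter, Finset.mem_univ, true_and, Finset.mem_union]
      constructor
      · intro h
        rcases lt_or_gt_of_ne h with h1 | h1
        · exact Or.inr h1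
        · exact Or.inl h1
      · rintro (h | h)
        · exact h.ne'
        · exact h.ne
    · rw [Finset.disjoint_left]
      intro j hj hj'
      simp only [Finset.mem_filter, Finset.mem_univ, true_and] at hj hj'
      exact lt_asymm hj hj'
  rw [h]
  unfold HD.xt HXtb_v
  have h2 : ∑ j ∈ Finset.univ.filter (fun j => j < k), H.rho (Equiv.swap j k) = HXtb_J H k := rfl
  rw [h2]
  module

theorem HXtb_rho_v (H : HD n B I) (σ : Equiv.Perm (Fin n)) (k : Fin n) :
    H.rho σ * HXtb_v H k = HXtb_v H (σ k) * H.rho σ := by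
  have h1 : HXtb_v H k = H.xt k - (1 / 2 : ℂ) • H.Mk k := by
    rw [HXtb_xt, add_sub_cancel_right]
  have h2 : HXtb_v H (σ k) = H.xt (σ k) - (1 / 2 : ℂ) • H.Mk (σ k) := by
    rw [HXtb_xt, add_sub_cancel_right]
  rw [h1, h2, mul_sub, sub_mul, H.rho_xt, mul_smul_comm, smul_mul_assoc, HXtb_Mk]

/-- commuting a v past a transposition -/
theorem HXtb_v_swap (H : HD n B I) (j l k : Fin n) :
    HXtb_v H k * H.rho (Equiv.swap j l) =
      H.rho (Equiv.swap j l) * HXtb_v H (Equiv.swap j l k) := by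
  rw [HXtb_rho_v, Equiv.swap_apply_self]

theorem HXtb_swap_J (H : HD n B I) {j k l : Fin n} (hj : j < l) (hk : k < l) :
    Commute (H.rho (Equiv.swap j k)) (HXtb_J H l) := by
  show _ * _ = _ * _
  have hl : Equiv.swap j k l = l := Equiv.swap_apply_of_ne_of_ne hj.ne' hk.ne'
  have hlt : ∀ m : Fin n, m < l ↔ Equiv.swap j k m < l := by
    intro m
    rcases eq_or_ne m j with rfl | h1
    · rw [Equiv.swap_apply_left]
      exact ⟨fun _ => hk, fun _ => hj⟩
    · rcases eq_or_ne m k with rfl | h2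
      · rw [Equiv.swap_apply_right]
        exact ⟨fun _ => hj, fun _ => hk⟩
      · rw [Equiv.swap_apply_of_ne_of_ne h1 h2]
  unfold HXtb_J
  rw [Finset.mul_sum, Finset.sum_mul]
  refine Finset.sum_equiv (Equiv.swap j k) (fun m => ?_) (fun m _ => ?_)
  · simp only [Finset.mem_filter, Finset.mem_univ, true_and]
    exact hlt m
  · rw [HXtb_conj, hl]

theorem HXtb_swap_v (H : HD n B I) {j k l : Fin n} (hj : j < l) (hk : k < l) :
    Commute (H.rho (Equiv.swap j k)) (HXtb_v H l) := by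
  show _ * _ = _ * _
  rw [HXtb_rho_v, Equiv.swap_apply_of_ne_of_ne hj.ne' hk.ne']

theorem HXtb_swap_x (H : HD n B I) {j k l : Fin n} (hj : j < l) (hk : k < l) :
    Commute (H.rho (Equiv.swap j k)) (H.px (X l)) := by
  have h : H.px (X l) = HXtb_v H l + HXtb_J H l := by
    unfold HXtb_v
    rw [sub_add_cancel]
  rw [h]
  exact (HXtb_swap_v H hj hk).add_right (HXtb_swap_J H hj hk)

theorem HXtb_J_J (H : HD n B I) {k l : Fin n} (hk : k < l) :
    Commute (HXtb_J H k) (HXtb_J H l) := by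
  unfold HXtb_J
  refine Commute.sum_left _ _ _ fun j hj => ?_
  simp only [Finset.mem_filter, Finset.mem_univ, true_and] at hj
  exact HXtb_swap_J H (hj.trans hk) hk

theorem HXtb_J_x (H : HD n B I) {k l : Fin n} (hk : k < l) :
    Commute (HXtb_J H k) (H.px (X l)) := by
  unfold HXtb_J
  refine Commute.sum_left _ _ _ fun j hj => ?_
  simp only [Finset.mem_filter, Finset.mem_univ, true_and] at hj
  exact HXtb_swap_x H (hj.trans hk) hk

/-- sums of transpositions (j l) over a set of j containing k -/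
theorem HXtb_v_sum (H : HD n B I) {k l : Fin n} (hkl : k ≠ l) (s : Finset (Fin n)) (hk : k ∈ s) :
    HXtb_v H k * (∑ j ∈ s, H.rho (Equiv.swap j l)) - (∑ j ∈ s, H.rho (Equiv.swap j l)) * HXtb_v H k
      = H.rho (Equiv.swap k l) * (HXtb_v H l - HXtb_v H k) := by
  rw [Finset.mul_sum, Finset.sum_mul, ← Finset.sum_sub_distrib, Finset.sum_eq_single k]
  · rw [HXtb_v_swap, Equiv.swap_apply_left, mul_sub]
  · intro j _ hj
    rw [HXtb_v_swap, Equiv.swap_apply_of_ne_of_ne hj.symm hkl, sub_self]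
  · intro h
    exact absurd hk h

theorem HXtb_v_v_lt (H : HD n B I) {k l : Fin n} (hk : k < l) :
    HXtb_v H k * HXtb_v H l - HXtb_v H l * HXtb_v H k =
      H.rho (Equiv.swap k l) * (HXtb_v H k - HXtb_v H l) := by
  have h1 : HXtb_v H k * HXtb_J H l - HXtb_J H l * HXtb_v H k =
      H.rho (Equiv.swap k l) * (HXtb_v H l - HXtb_v H k) :=
    HXtb_v_sum H hk.ne (Finset.univ.filter (fun j => j < l))
      (Finset.mem_filter.2 ⟨Finset.mem_univ _, hk⟩)
  have h2 : H.px (X k) * H.px (X l) = H.px (X l) * H.px (X k) := by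
    rw [← map_mul, mul_comm, map_mul]
  have h3 : HXtb_J H k * HXtb_J H l = HXtb_J H l * HXtb_J H k := HXtb_J_J H hk
  have h4 : HXtb_J H k * H.px (X l) = H.px (X l) * HXtb_J H k := HXtb_J_x H hk
  have e1 : HXtb_v H k = H.px (X k) - HXtb_J H k := rfl
  have e2 : HXtb_v H l = H.px (X l) - HXtb_J H l := rfl
  have h5 : HXtb_v H k * HXtb_v H l - HXtb_v H l * HXtb_v H k =
      -(HXtb_v H k * HXtb_J H l - HXtb_J H l * HXtb_v H k) := by
    have h6 : HXtb_v H k * HXtb_v H l - HXtb_v H l * HXtb_v H k =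
        (HXtb_v H k * H.px (X l) - H.px (X l) * HXtb_v H k) -
        (HXtb_v H k * HXtb_J H l - HXtb_J H l * HXtb_v H k) := by
      rw [e2]
      noncomm_ring
    have h7 : HXtb_v H k * H.px (X l) - H.px (X l) * HXtb_v H k = 0 := by
      rw [e1, sub_mul, mul_sub, h2, h4, sub_self]
    rw [h6, h7, zero_sub]
  rw [h5, h1, ← mul_neg, neg_sub]

theorem HXtb_v_v (H : HD n B I) {k l : Fin n} (hk : k ≠ l) :
    HXtb_v H k * HXtb_v H l - HXtb_v H l * HXtb_v H k =
      H.rho (Equiv.swap k l) * (HXtb_v H k - HXtb_v H l) := by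
  rcases lt_or_gt_of_ne hk with h | h
  · exact HXtb_v_v_lt H h
  · have h1 := HXtb_v_v_lt H h
    rw [← neg_sub, h1, Equiv.swap_comm, ← mul_neg, neg_sub]

theorem HXtb_v_M (H : HD n B I) {k l : Fin n} (hk : k ≠ l) :
    HXtb_v H k * H.Mk l - H.Mk l * HXtb_v H k =
      H.rho (Equiv.swap k l) * (HXtb_v H l - HXtb_v H k) :=
  HXtb_v_sum H hk (Finset.univ.filter (fun j => j ≠ l))
    (Finset.mem_filter.2 ⟨Finset.mem_univ _, hk⟩)

/-- The commutator of the xt k is 1/4 of the commutator of the Mk k.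
PROOF. Put JM k = ∑_{j < k} rho (swap j k) and v k = px (X k) - JM k, so xt k = v k + (1/2) • Mk k.
(1) rho σ * v k = v (σ k) * rho σ: from `rho_xt` and rho σ * Mk k = Mk (σ k) * rho σ
(reindex j by σ). (2) For j, k < l: rho (swap j k) commutes with v l (by (1)) and with JM l
(conjugation permutes the terms), hence with px (X l) = v l + JM l; so JM k commutes with px (X l) and
with JM l for k < l. (3) For k < l: v k * JM l - JM l * v k = ∑_{j<l} rho (swap j l) * (v (swap j l k) - v k)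
= rho (swap k l) * (v l - v k) (only j = k contributes, since k ≠ l). (4) For k < l, using that the
px (X k) commute: v k * v l - v l * v k = -(px (X k) * JM l - JM l * px (X k)) = -(v k * JM l - JM l * v k)
(as JM k, JM l commute) = rho (swap k l) * (v k - v l). By antisymmetry (rho (swap k l) * (v k - v l) is
antisymmetric in k, l) (4) holds for all k, l. (5) v k * Mk l - Mk l * v k =
∑_{j ≠ l} rho (swap j l) * (v (swap j l k) - v k) = rho (swap k l) * (v l - v k) for k ≠ l. Expand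
xt k * xt l - xt l * xt k: the terms with exactly one Mk give
(1/2) (rho (swap k l) (v l - v k) - rho (swap k l) (v k - v l)) = - rho (swap k l) (v k - v l), which
cancels (4). -/
theorem HD.xt_comm (H : HD n B I) (k l : Fin n) :
    H.xt k * H.xt l - H.xt l * H.xt k = (1 / 4 : ℂ) • (H.Mk k * H.Mk l - H.Mk l * H.Mk k) := by
  rcases eq_or_ne k l with rfl | hkl
  · rw [sub_self, sub_self, smul_zero]
  have h1 := HXtb_v_v H hkl
  have h2 := HXtb_v_M H hkl
  have h3 := HXtb_v_M H hkl.symm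
  rw [Equiv.swap_comm] at h3
  have h4 : H.xt k * H.xt l - H.xt l * H.xt k =
      (HXtb_v H k * HXtb_v H l - HXtb_v H l * HXtb_v H k) +
      (1 / 2 : ℂ) • (HXtb_v H k * H.Mk l - H.Mk l * HXtb_v H k) -
      (1 / 2 : ℂ) • (HXtb_v H l * H.Mk k - H.Mk k * HXtb_v H l) +
      (1 / 4 : ℂ) • (H.Mk k * H.Mk l - H.Mk l * H.Mk k) := by
    rw [HXtb_xt, HXtb_xt]
    simp only [mul_add, add_mul, smul_mul_assoc, mul_smul_comm, smul_smul]
    module
  rw [h4, h1, h2, h3]
  have h5 : H.rho (Equiv.swap k l) * (HXtb_v H k - HXtb_v H l) +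
      (1 / 2 : ℂ) • (H.rho (Equiv.swap k l) * (HXtb_v H l - HXtb_v H k)) -
      (1 / 2 : ℂ) • (H.rho (Equiv.swap k l) * (HXtb_v H k - HXtb_v H l)) = 0 := by
    rw [mul_sub, mul_sub]
    module
  rw [h5, zero_add]

end CA1492.D8
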