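import Mathlib
import Pool.Agent.Lib.MP_ca1492_al.D8.HXt

/-!
Commutators of the elements `Mk k`.
-/

namespace CA1492.D8

open MvPolynomial

variable {n : ℕ} {B : Type} [Ring B] [Algebra ℂ B] {I : Type} [Fintype I] [DecidableEq I]

theorem HXtc_split (H : HD n B I) (k l : Fin n) (h : k ≠ l) :
    H.Mk k = H.rho (Equiv.swap k l) +
      ∑ j ∈ Finset.univ.filter (fun j => j ≠ k ∧ j ≠ l), H.rho (Equiv.swap j k) := by
  unfold HD.Mk
  have h1 : Finset.univ.filter (fun j => j ≠ k) =
      insert l (Finset.univ.filter (fun j => j ≠ k ∧ j ≠ l)) := by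
    ext j
    simp only [Finset.mem_filter, Finset.mem_univ, true_and, Finset.mem_insert]
    constructor
    · intro h2
      by_cases h3 : j = l
      · exact Or.inl h3
      · exact Or.inr ⟨h2, h3⟩
    · rintro (rfl | h2)
      · exact h.symm
      · exact h2.1
  rw [h1, Finset.sum_insert (by simp), Equiv.swap_comm l k]

theorem HXtc_term (H : HD n B I) (k l j : Fin n) (h : k ≠ l) (hk : j ≠ k) (hl : j ≠ l) :
    (H.rho (Equiv.swap k l) * H.rho (Equiv.swap j l) -
      H.rho (Equiv.swap j l) * H.rho (Equiv.swap k l)) +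
    (H.rho (Equiv.swap j k) * H.rho (Equiv.swap k l) -
      H.rho (Equiv.swap k l) * H.rho (Equiv.swap j k)) +
    (H.rho (Equiv.swap j k) * H.rho (Equiv.swap j l) -
      H.rho (Equiv.swap j l) * H.rho (Equiv.swap j k)) =
    H.rho (Equiv.swap j k * Equiv.swap k l) - H.rho (Equiv.swap j l * Equiv.swap l k) := by
  have e1 : Equiv.swap k l * Equiv.swap j l = Equiv.swap j k * Equiv.swap k l := by
    rw [Equiv.mul_swap_eq_swap_mul, Equiv.swap_apply_of_ne_of_ne hk hl, Equiv.swap_apply_right]
  have e2 : Equiv.swap k l * Equiv.swap j k = Equiv.swap j l * Equiv.swap k l := by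
    rw [Equiv.mul_swap_eq_swap_mul, Equiv.swap_apply_of_ne_of_ne hk hl, Equiv.swap_apply_left]
  have e3 : Equiv.swap j k * Equiv.swap j l = Equiv.swap k l * Equiv.swap j k := by
    rw [Equiv.mul_swap_eq_swap_mul, Equiv.swap_apply_left,
      Equiv.swap_apply_of_ne_of_ne hl.symm h.symm]
  have e4 : Equiv.swap j l * Equiv.swap j k = Equiv.swap k l * Equiv.swap j l := by
    rw [Equiv.mul_swap_eq_swap_mul, Equiv.swap_apply_left,
      Equiv.swap_apply_of_ne_of_ne hk.symm h, Equiv.swap_comm l k]
  rw [← map_mul, ← map_mul, ← map_mul, ← map_mul, ← map_mul, ← map_mul, e4, e3, e1, e2,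
    Equiv.swap_comm l k]
  abel

/-- The commutator of the Mk k. PROOF. k = l: trivial (both sides 0; on the right all j give
swap j k * swap k k - swap j k * swap k k = 0). k ≠ l: expand, sums over i ≠ k, j ≠ l of
rho (swap i k * swap j l) - rho (swap j l * swap i k). If i, k, j, l are pairwise different, or
(i, j) = (l, k), the term is 0 (the transpositions commute). The rest: for every j ∉ {k, l} the three
terms (i = l, j), (i = j, k), (i = j, j). With c = swap j k * swap k l one has
swap k l * swap j l = c, swap j l * swap k l = c⁻¹ = swap k l * swap j k, swap j k * swap j l = c⁻¹,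
swap j l * swap j k = c, and c⁻¹ = swap j l * swap l k. So the three terms give (c - c⁻¹) + (c - c⁻¹)
+ (c⁻¹ - c). -/
theorem HD.Mk_comm (H : HD n B I) (k l : Fin n) :
    H.Mk k * H.Mk l - H.Mk l * H.Mk k =
      ∑ j ∈ Finset.univ.filter (fun j => j ≠ k ∧ j ≠ l),
        (H.rho (Equiv.swap j k * Equiv.swap k l) - H.rho (Equiv.swap j l * Equiv.swap l k)) := by
  by_cases h : k = l
  · subst h
    rw [sub_self]
    refine (Finset.sum_eq_zero fun j _ => ?_).symm
    rw [sub_self]
  have hs : Finset.univ.filter (fun j : Fin n => j ≠ l ∧ j ≠ k) =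
      Finset.univ.filter (fun j => j ≠ k ∧ j ≠ l) :=
    Finset.filter_congr fun j _ => and_comm
  rw [HXtc_split H k l h, HXtc_split H l k (Ne.symm h), hs, Equiv.swap_comm l k]
  have hc : (∑ i ∈ Finset.univ.filter (fun j => j ≠ k ∧ j ≠ l), H.rho (Equiv.swap i k)) *
      (∑ j ∈ Finset.univ.filter (fun j => j ≠ k ∧ j ≠ l), H.rho (Equiv.swap j l)) -
      (∑ j ∈ Finset.univ.filter (fun j => j ≠ k ∧ j ≠ l), H.rho (Equiv.swap j l)) *
      (∑ i ∈ Finset.univ.filter (fun j => j ≠ k ∧ j ≠ l), H.rho (Equiv.swap i k)) =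
      ∑ j ∈ Finset.univ.filter (fun j => j ≠ k ∧ j ≠ l),
        (H.rho (Equiv.swap j k) * H.rho (Equiv.swap j l) -
          H.rho (Equiv.swap j l) * H.rho (Equiv.swap j k)) := by
    rw [Finset.sum_mul_sum, Finset.sum_mul_sum, Finset.sum_comm (s := Finset.univ.filter _)
      (t := Finset.univ.filter _) (f := fun j i => H.rho (Equiv.swap j l) *
        H.rho (Equiv.swap i k)), ← Finset.sum_sub_distrib]
    refine Finset.sum_congr rfl fun i hi => ?_
    rw [← Finset.sum_sub_distrib, Finset.sum_eq_single i]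
    · intro j hj hji
      rw [Finset.mem_filter] at hi hj
      have h3 : Equiv.swap i k * Equiv.swap j l = Equiv.swap j l * Equiv.swap i k := by
        rw [Equiv.mul_swap_eq_swap_mul, Equiv.swap_apply_of_ne_of_ne hji hj.2.1,
          Equiv.swap_apply_of_ne_of_ne hi.2.2.symm (Ne.symm h)]
      rw [← map_mul, ← map_mul, h3, sub_self]
    · intro h2
      exact absurd hi h2
  have ht : ∀ a x y : B, (a + x) * (a + y) - (a + y) * (a + x) =
      (a * y - y * a) + (x * a - a * x) + (x * y - y * x) := by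
    intro a x y
    noncomm_ring
  rw [ht, hc, Finset.mul_sum, Finset.sum_mul, ← Finset.sum_sub_distrib, Finset.mul_sum,
    Finset.sum_mul, ← Finset.sum_sub_distrib, ← Finset.sum_add_distrib, ← Finset.sum_add_distrib]
  refine Finset.sum_congr rfl fun j hj => ?_
  rw [Finset.mem_filter] at hj
  rw [HXtc_term H k l j h hj.2.1 hj.2.2, Equiv.swap_comm l k]

end CA1492.D8
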