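import Mathlib
import Pool.Agent.Lib.MP_ca1492_al.D8.HOp
import Pool.Agent.Lib.MP_ca1492_al.D8.HXtb
import Pool.Agent.Lib.MP_ca1492_al.D8.HXtc

/-!
The square of the Koszul differential vanishes on invariant elements.
-/

namespace CA1492.D8

open MvPolynomial TensorProduct

variable {n : ℕ} {B : Type} [Ring B] [Algebra ℂ B] {I : Type} [Fintype I] [DecidableEq I]
variable (F : Fock n) (M : Type) [AddCommGroup M] [Module ℂ M] [Module B M] [IsScalarTower ℂ B M]

/-- Formula for the square. PROOF: dd = ∑_k (op (xt k) (c k) 1 - op 1 (c k) (xt k)); by `op_mul`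
dd ∘ dd = ∑_{k,l} (op (xt l * xt k) (c k c l) 1 - op (xt k) (c k c l) (xt l) - op (xt l) (c k c l) (xt k)
 + op 1 (c k c l) (xt k * xt l)). The two middle sums cancel (exchange k and l in one of them and use
c k c l = - c l c k). The first sum: by the same exchange, 2 • ∑ op (xt l * xt k) (c k c l) 1 =
∑ op (xt l * xt k - xt k * xt l) (c k c l) 1 = ∑ op (xt k * xt l - xt l * xt k) (c l c k) 1, and
2 • ∑ op 1 (c k c l) (xt k * xt l) = - ∑ op 1 (c l c k) (xt k * xt l - xt l * xt k). -/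
theorem HD.dd_dd (H : HD n B I) : (2 : ℂ) • (H.dd F M ∘ₗ H.dd F M) =
    ∑ k, ∑ l, (op F M (H.xt k * H.xt l - H.xt l * H.xt k) (F.c l * F.c k) 1 -
      op F M 1 (F.c l * F.c k) (H.xt k * H.xt l - H.xt l * H.xt k)) := by
  have h1 : H.dd F M ∘ₗ H.dd F M = ∑ k, ∑ l,
      (op F M (H.xt l * H.xt k) (F.c k * F.c l) 1 - op F M (H.xt k) (F.c k * F.c l) (H.xt l) -
        op F M (H.xt l) (F.c k * F.c l) (H.xt k) +
        op F M 1 (F.c k * F.c l) (H.xt k * H.xt l)) := by
    have h2 : ∀ k l, (op F M (H.xt k) (F.c k) 1 - op F M 1 (F.c k) (H.xt k)) ∘ₗ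
        (op F M (H.xt l) (F.c l) 1 - op F M 1 (F.c l) (H.xt l)) =
        (op F M (H.xt l * H.xt k) (F.c k * F.c l) 1 - op F M (H.xt k) (F.c k * F.c l) (H.xt l) -
        op F M (H.xt l) (F.c k * F.c l) (H.xt k) +
        op F M 1 (F.c k * F.c l) (H.xt k * H.xt l)) := by
      intro k l
      rw [LinearMap.comp_sub, LinearMap.sub_comp, LinearMap.sub_comp, op_mul, op_mul, op_mul,
        op_mul]
      simp only [one_mul, mul_one]
      abel
    rw [← Finset.sum_congr rfl fun k _ => Finset.sum_congr rfl fun l _ => h2 k l]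
    refine LinearMap.ext fun x => ?_
    simp only [HD.dd, LinearMap.comp_apply, LinearMap.sum_apply, map_sum]
    rw [Finset.sum_comm]
  have h3 : H.dd F M ∘ₗ H.dd F M = ∑ k, ∑ l,
      (op F M (H.xt l * H.xt k) (F.c k * F.c l) 1 +
        op F M 1 (F.c k * F.c l) (H.xt k * H.xt l)) := by
    have h4 : ∑ k, ∑ l, (op F M (H.xt k) (F.c k * F.c l) (H.xt l) +
        op F M (H.xt l) (F.c k * F.c l) (H.xt k)) = 0 := by
      simp only [Finset.sum_add_distrib]
      have h5 : ∑ k, ∑ l, op F M (H.xt l) (F.c k * F.c l) (H.xt k) =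
          -∑ k, ∑ l, op F M (H.xt k) (F.c k * F.c l) (H.xt l) := by
        rw [Finset.sum_comm, ← Finset.sum_neg_distrib]
        refine Finset.sum_congr rfl fun k _ => ?_
        rw [← Finset.sum_neg_distrib]
        refine Finset.sum_congr rfl fun l _ => ?_
        rw [F.cc l k, op_neg_g]
      rw [h5, add_neg_cancel]
    rw [h1, ← add_zero (∑ k, ∑ l, (op F M (H.xt l * H.xt k) (F.c k * F.c l) 1 -
      op F M (H.xt k) (F.c k * F.c l) (H.xt l) - op F M (H.xt l) (F.c k * F.c l) (H.xt k) +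
        op F M 1 (F.c k * F.c l) (H.xt k * H.xt l))), ← h4, ← Finset.sum_add_distrib]
    refine Finset.sum_congr rfl fun k _ => ?_
    rw [← Finset.sum_add_distrib]
    refine Finset.sum_congr rfl fun l _ => ?_
    abel
  have h6 : H.dd F M ∘ₗ H.dd F M = ∑ k, ∑ l,
      (op F M (H.xt k * H.xt l) (F.c l * F.c k) 1 +
        op F M 1 (F.c l * F.c k) (H.xt l * H.xt k)) := by
    rw [h3, Finset.sum_comm]
  have h7 : (2 : ℂ) • (H.dd F M ∘ₗ H.dd F M) =
      H.dd F M ∘ₗ H.dd F M + H.dd F M ∘ₗ H.dd F M := two_smul _ _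
  rw [h7]
  nth_rewrite 1 [h3]
  rw [h6, ← Finset.sum_add_distrib]
  refine Finset.sum_congr rfl fun k _ => ?_
  rw [← Finset.sum_add_distrib]
  refine Finset.sum_congr rfl fun l _ => ?_
  rw [F.cc k l, op_neg_g, op_neg_g, op_sub_b, op_sub_a]
  abel

/-- The difference of the left and the right action on a fixed vector. -/
noncomputable def HDD_L (z : TT F B M) (Ψ : Module.End ℂ F.E) : B →ₗ[ℂ] TT F B M where
  toFun C := op F M C Ψ 1 z - op F M 1 Ψ C z
  map_add' x y := by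
    have h1 : op F M (x + y) Ψ 1 = op F M x Ψ 1 + op F M y Ψ 1 := opW_add F M _ _ _
    have h2 : op F M 1 Ψ (x + y) = op F M 1 Ψ x + op F M 1 Ψ y := by
      rw [op, op, op, wop_add', opW_add']
    rw [h1, h2, LinearMap.add_apply, LinearMap.add_apply]
    abel
  map_smul' c x := by
    have h1 : op F M (c • x) Ψ 1 z = c • op F M x Ψ 1 z := opW_smul_apply F M _ _ _ _
    have h2 : op F M 1 Ψ (c • x) z = c • op F M 1 Ψ x z := by
      rw [op, op, wop_smul', ← opW_smul, opW_smul_apply]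
    rw [h1, h2, RingHom.id_apply, smul_sub]

theorem HDD_L_apply (z : TT F B M) (Ψ : Module.End ℂ F.E) (C : B) :
    HDD_L F M z Ψ C = op F M C Ψ 1 z - op F M 1 Ψ C z := rfl

theorem HDD_L_neg (z : TT F B M) (Ψ : Module.End ℂ F.E) (C : B) :
    HDD_L F M z (-Ψ) C = -HDD_L F M z Ψ C := by
  rw [HDD_L_apply, HDD_L_apply, op_neg_g, op_neg_g, LinearMap.neg_apply, LinearMap.neg_apply]
  abel

theorem HDD_L_zero (z : TT F B M) (C : B) : HDD_L F M z 0 C = 0 := by
  rw [HDD_L_apply, op_zero_g, op_zero_g, LinearMap.zero_apply, sub_zero]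

theorem HDD_L_add (z : TT F B M) (Ψ Ψ' : Module.End ℂ F.E) (C : B) :
    HDD_L F M z (Ψ + Ψ') C = HDD_L F M z Ψ C + HDD_L F M z Ψ' C := by
  rw [HDD_L_apply, HDD_L_apply, HDD_L_apply, op_add_g, op_add_g, LinearMap.add_apply,
    LinearMap.add_apply]
  abel

theorem HDD_L_rho (H : HD n B I) {z : TT F B M} (hz : ∀ s, H.act F M s z = z)
    (Ψ : Module.End ℂ F.E) (s : Equiv.Perm (Fin n)) (h : Ψ * F.g s = Ψ) :
    HDD_L F M z Ψ (H.rho s) = 0 := by
  have h1 : op F M (H.rho s) Ψ 1 = op F M 1 Ψ 1 ∘ₗ op F M (H.rho s) 1 1 := by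
    rw [op_mul]
    simp only [mul_one]
  have h2 : op F M 1 Ψ 1 ∘ₗ op F M 1 (F.g s) (H.rho s) = op F M 1 Ψ (H.rho s) := by
    rw [op_mul, h]
    simp only [one_mul]
  rw [HDD_L_apply, h1, LinearMap.comp_apply, H.inv_rho F M s hz, ← LinearMap.comp_apply, h2,
    sub_self]

theorem HDD_cyc {j k l : Fin n} (hjk : j ≠ k) (hjl : j ≠ l) :
    Equiv.swap k l * Equiv.swap l j = Equiv.swap j k * Equiv.swap k l := by
  rw [Equiv.mul_swap_eq_swap_mul, Equiv.swap_apply_right,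
    Equiv.swap_apply_of_ne_of_ne hjk hjl, Equiv.swap_comm k j]

theorem HDD_ck (k : Fin n) : F.c k * F.c k = 0 := by
  have h1 : (2 : ℂ) • (F.c k * F.c k) = 0 := by
    rw [two_smul]
    nth_rewrite 1 [F.cc k k]
    exact neg_add_cancel _
  have h2 : F.c k * F.c k = (1 / 2 : ℂ) • ((2 : ℂ) • (F.c k * F.c k)) := by
    rw [smul_smul]
    norm_num
  rw [h2, h1, smul_zero]

/-- The terms of the triple sum. -/
noncomputable def HDD_T (H : HD n B I) (z : TT F B M) (j k l : Fin n) : TT F B M :=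
  if j ≠ k ∧ j ≠ l then
    HDD_L F M z (F.c l * F.c k) (H.rho (Equiv.swap j k * Equiv.swap k l)) else 0

theorem HDD_T_eq (H : HD n B I) (z : TT F B M) (j k : Fin n) : HDD_T F M H z j k k = 0 := by
  unfold HDD_T
  rw [HDD_ck, HDD_L_zero, ite_self]

theorem HDD_T_zero {H : HD n B I} {z : TT F B M} (hz : ∀ s, H.act F M s z = z)
    (j k l : Fin n) : HDD_T F M H z j k l + HDD_T F M H z k l j + HDD_T F M H z l j k = 0 := by
  by_cases hjk : j = k
  · subst hjk
    rw [HDD_T_eq]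
    unfold HDD_T
    rw [if_neg (fun h => h.1 rfl), if_neg (fun h => h.2 rfl)]
    simp
  by_cases hjl : j = l
  · subst hjl
    rw [HDD_T_eq]
    unfold HDD_T
    rw [if_neg (fun h => h.2 rfl), if_neg (fun h => h.1 rfl)]
    simp
  by_cases hkl : k = l
  · subst hkl
    rw [HDD_T_eq]
    unfold HDD_T
    rw [if_neg (fun h => h.1 rfl), if_neg (fun h => h.2 rfl)]
    simp
  unfold HDD_T
  rw [if_pos ⟨hjk, hjl⟩, if_pos ⟨hkl, Ne.symm hjk⟩, if_pos ⟨Ne.symm hjl, Ne.symm hkl⟩,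
    ← HDD_cyc (Ne.symm hjl) (Ne.symm hkl), HDD_cyc hjk hjl, ← HDD_L_add,
    ← HDD_L_add]
  exact HDD_L_rho F M H hz _ _ (F.three j k l hjk hkl hjl)

theorem HDD_rot1 (f : Fin n → Fin n → Fin n → TT F B M) :
    ∑ j, ∑ k, ∑ l, f k l j = ∑ j, ∑ k, ∑ l, f j k l := by
  rw [Finset.sum_comm]
  refine Finset.sum_congr rfl fun k _ => ?_
  rw [Finset.sum_comm]

theorem HDD_T_sum {H : HD n B I} {z : TT F B M} (hz : ∀ s, H.act F M s z = z) :
    ∑ j, ∑ k, ∑ l, HDD_T F M H z j k l = 0 := by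
  have h1 := HDD_rot1 F M (fun j k l => HDD_T F M H z j k l)
  have h2 := HDD_rot1 F M (fun j k l => HDD_T F M H z k l j)
  have h3 : ∑ j, ∑ k, ∑ l, (HDD_T F M H z j k l + HDD_T F M H z k l j + HDD_T F M H z l j k) =
      0 := by
    refine Finset.sum_eq_zero fun j _ => Finset.sum_eq_zero fun k _ =>
      Finset.sum_eq_zero fun l _ => HDD_T_zero F M hz j k l
  simp only [Finset.sum_add_distrib] at h3
  rw [h2, h1] at h3
  have h4 : (3 : ℂ) • (∑ j, ∑ k, ∑ l, HDD_T F M H z j k l) = 0 := by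
    rw [← h3]
    module
  have h5 : ∑ j, ∑ k, ∑ l, HDD_T F M H z j k l =
      (1 / 3 : ℂ) • ((3 : ℂ) • (∑ j, ∑ k, ∑ l, HDD_T F M H z j k l)) := by
    rw [smul_smul]
    norm_num
  rw [h5, h4, smul_zero]

/-- PROOF. Insert `xt_comm` and `Mk_comm` in `dd_dd`. Exchanging k and l in the part with
swap j l * swap l k (and c l c k = - c k c l) one gets (up to the factor 1/4 * 2)
∑_{(j,k,l) pairwise different} (op (rho g) (c l c k) 1 - op 1 (c l c k) (rho g)) with
g = g(j,k,l) = swap j k * swap k l (for k = l the term is 0 because c k c k = 0). As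
g(j,k,l) = g(k,l,j) = g(l,j,k), three times this sum is ∑ (op (rho g) Φ 1 - op 1 Φ (rho g)) with
Φ = c l c k + c j c l + c k c j. On the invariant element z:
op (rho g) Φ 1 z = op 1 Φ 1 (op (rho g) 1 1 z) = op 1 Φ 1 (op 1 (g g) (rho g) z) (`inv_rho`)
= op 1 (Φ * F.g g) (rho g) z = op 1 Φ (rho g) z by `Fock.three`. So every term vanishes. -/
theorem HD.dd_zero (H : HD n B I) {z : TT F B M} (hz : ∀ s, H.act F M s z = z) :
    H.dd F M (H.dd F M z) = 0 := by
  have h1 : ∀ k l, op F M (H.xt k * H.xt l - H.xt l * H.xt k) (F.c l * F.c k) 1 z -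
      op F M 1 (F.c l * F.c k) (H.xt k * H.xt l - H.xt l * H.xt k) z =
      (1 / 4 : ℂ) • ∑ j, (HDD_T F M H z j k l + HDD_T F M H z j l k) := by
    intro k l
    rw [← HDD_L_apply, H.xt_comm, H.Mk_comm, map_smul, map_sum, Finset.sum_filter]
    congr 1
    refine Finset.sum_congr rfl fun j _ => ?_
    unfold HDD_T
    by_cases hj : j ≠ k ∧ j ≠ l
    · rw [if_pos hj, if_pos hj, if_pos hj.symm, map_sub, F.cc k l, HDD_L_neg, sub_eq_add_neg]
    · rw [if_neg hj, if_neg hj, if_neg (fun h => hj h.symm), add_zero]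
  have h2 : (2 : ℂ) • H.dd F M (H.dd F M z) = 0 := by
    have h3 := LinearMap.congr_fun (H.dd_dd F M) z
    rw [LinearMap.smul_apply, LinearMap.comp_apply] at h3
    rw [h3, LinearMap.sum_apply]
    simp only [LinearMap.sum_apply, LinearMap.sub_apply, h1, Finset.sum_add_distrib, smul_add]
    have h4 : ∑ k, ∑ l, (1 / 4 : ℂ) • ∑ j, HDD_T F M H z j k l = 0 := by
      simp only [← Finset.smul_sum]
      have h5 : ∑ k, ∑ l, ∑ j, HDD_T F M H z j k l = 0 :=
        (HDD_rot1 F M (fun a b c => HDD_T F M H z c a b)).symm.trans (HDD_T_sum F M hz)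
      rw [h5, smul_zero]
    have h6 : ∑ k, ∑ l, (1 / 4 : ℂ) • ∑ j, HDD_T F M H z j l k = 0 := by
      rw [Finset.sum_comm]
      exact h4
    rw [h4, h6, add_zero]
  have h7 : H.dd F M (H.dd F M z) = (1 / 2 : ℂ) • ((2 : ℂ) • H.dd F M (H.dd F M z)) := by
    rw [smul_smul]
    norm_num
  rw [h7, h2, smul_zero]

end CA1492.D8
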