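import Mathlib
import Pool.Agent.Lib.MP_ca1492_al.D8.HD

/-!
The description of the invariants of B ⊗ (E ⊗ M) by polynomials: the map `Th`.
-/

namespace CA1492.D8

open MvPolynomial TensorProduct

variable {n : ℕ} {B : Type} [Ring B] [Algebra ℂ B] {I : Type} [Fintype I] [DecidableEq I]
variable (F : Fock n) (M : Type) [AddCommGroup M] [Module ℂ M] [Module B M] [IsScalarTower ℂ B M]

/-- The map p ⊗ ξ ↦ tt (px p * e i) ξ. -/
noncomputable def HD.jT (H : HD n B I) (i : I) : PP n ⊗[ℂ] (F.E ⊗[ℂ] M) →ₗ[ℂ] TT F B M :=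
  TensorProduct.lift ((tt F M) ∘ₗ (LinearMap.mulRight ℂ (H.e i)) ∘ₗ H.px.toLinearMap)

omit [Module B M] [IsScalarTower ℂ B M] in
@[simp] theorem HD.jT_tmul (H : HD n B I) (i : I) (p : PP n) (ξ : F.E ⊗[ℂ] M) :
    H.jT F M i (p ⊗ₜ[ℂ] ξ) = tt F M (H.px p * H.e i) ξ := rfl

/-- The map Θ. -/
noncomputable def HD.Th (H : HD n B I) : (I → PP n ⊗[ℂ] (F.E ⊗[ℂ] M)) →ₗ[ℂ] TT F B M :=
  ((H.Av F M).restrictScalars ℂ) ∘ₗ (∑ i, (H.jT F M i) ∘ₗ (LinearMap.proj i))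

theorem HD.Th_apply (H : HD n B I) (u : I → PP n ⊗[ℂ] (F.E ⊗[ℂ] M)) :
    H.Th F M u = H.Av F M (∑ i, H.jT F M i (u i)) := by
  unfold HD.Th
  rw [LinearMap.comp_apply, LinearMap.sum_apply]
  rfl

/-- The perturbation. -/
noncomputable def HD.dlt (H : HD n B I) : Module.End ℂ (F.E ⊗[ℂ] M) :=
  ∑ k, ((1 / 2 : ℂ) • (∑ j ∈ Finset.univ.filter (fun j => k < j),
      wop F M (F.g (Equiv.swap j k) * F.c k) (H.rho (Equiv.swap j k)) -
    ∑ j ∈ Finset.univ.filter (fun j => j < k),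
      wop F M (F.g (Equiv.swap j k) * F.c k) (H.rho (Equiv.swap j k))) -
    wop F M (F.c k) (H.xt k))

/-- The operators on E ⊗ M that act on the first factor. -/
noncomputable def eW (A : Module.End ℂ F.E) : Module.End ℂ (F.E ⊗[ℂ] M) :=
  TensorProduct.map A LinearMap.id

/-- PROOF: `TensorProduct.ext'`. -/
theorem eW_eq (B : Type) [Ring B] [Algebra ℂ B] [Module B M] [IsScalarTower ℂ B M]
    (A : Module.End ℂ F.E) : eW F M A = wop F M A (1 : B) := by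
  refine TensorProduct.ext' fun x m => ?_
  rw [wop_tmul, one_smul]
  rfl

end CA1492.D8
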