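import Mathlib
import Pool.Agent.Lib.MP_ca1492_al.D8.Euler
import Pool.Agent.Lib.MP_ca1492_al.D8.HOp
import Pool.Agent.Lib.MP_ca1492_al.D8.HTh

/-!
Compatibilities of the map `Th`.
-/

namespace CA1492.D8

open MvPolynomial TensorProduct

variable {n : ℕ} {B : Type} [Ring B] [Algebra ℂ B] {I : Type} [Fintype I] [DecidableEq I]
variable (F : Fock n) (M : Type) [AddCommGroup M] [Module ℂ M] [Module B M] [IsScalarTower ℂ B M]

/-- The ℂ-bilinear map Av (tt b ξ). -/
noncomputable def HTha_A (H : HD n B I) : B →ₗ[ℂ] (F.E ⊗[ℂ] M) →ₗ[ℂ] TT F B M :=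
  (tt F M).compr₂ ((H.Av F M).restrictScalars ℂ)

theorem HTha_A_apply (H : HD n B I) (b : B) (ξ : F.E ⊗[ℂ] M) :
    HTha_A F M H b ξ = H.Av F M (tt F M b ξ) := rfl

theorem HTha_A_rho (H : HD n B I) (b : B) (t : Equiv.Perm (Fin n)) (ξ : F.E ⊗[ℂ] M) :
    HTha_A F M H (b * H.rho t) ξ = HTha_A F M H b (wop F M (F.g t) (H.rho t) ξ) := by
  have h := LinearMap.congr_fun (H.Av_rho F M t) (tt F M b ξ)
  rw [LinearMap.comp_apply, LinearMap.comp_apply, op, op, opW_tt, opW_tt, wop_one, mul_one] at h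
  rw [HTha_A_apply, HTha_A_apply]
  exact h

theorem HTha_A_xt (H : HD n B I) (i : I) (p : PP n) (k : Fin n) (ξ : F.E ⊗[ℂ] M) :
    HTha_A F M H (H.px p * H.e i * H.xt k) (wop F M (F.c k) (1 : B) ξ) =
      HTha_A F M H (H.px (X k * p) * H.e i) (wop F M (F.c k) (1 : B) ξ) +
      HTha_A F M H (H.px p * H.e i)
        (((1 / 2 : ℂ) • (∑ j ∈ Finset.univ.filter (fun j => k < j),
          wop F M (F.g (Equiv.swap j k) * F.c k) (H.rho (Equiv.swap j k)) -
        ∑ j ∈ Finset.univ.filter (fun j => j < k),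
          wop F M (F.g (Equiv.swap j k) * F.c k) (H.rho (Equiv.swap j k)))) ξ) := by
  have h0 : H.px p * H.e i * H.px (X k) = H.px (X k * p) * H.e i := by
    rw [mul_assoc, H.e_x, ← mul_assoc, ← map_mul, mul_comm p]
  have h1 : ∀ j : Fin n, HTha_A F M H (H.px p * H.e i * H.rho (Equiv.swap j k))
      (wop F M (F.c k) (1 : B) ξ) = HTha_A F M H (H.px p * H.e i)
        (wop F M (F.g (Equiv.swap j k) * F.c k) (H.rho (Equiv.swap j k)) ξ) := by
    intro j
    rw [HTha_A_rho]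
    congr 1
    rw [← Module.End.mul_apply, wop_mul, mul_one]
  unfold HD.xt
  rw [mul_add, h0, map_add, LinearMap.add_apply]
  congr 1
  rw [mul_smul_comm, map_smul, LinearMap.smul_apply, LinearMap.smul_apply, map_smul]
  congr 1
  rw [mul_sub, map_sub, LinearMap.sub_apply, LinearMap.sub_apply, map_sub, Finset.mul_sum,
    Finset.mul_sum, map_sum, map_sum, LinearMap.sum_apply, LinearMap.sum_apply,
    LinearMap.sum_apply, LinearMap.sum_apply, map_sum, map_sum]
  congr 1
  · exact Finset.sum_congr rfl fun j _ => h1 j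
  · exact Finset.sum_congr rfl fun j _ => h1 j

theorem HTha_dd (H : HD n B I) (b : B) (ξ : F.E ⊗[ℂ] M) :
    H.Av F M (H.dd F M (tt F M b ξ)) =
      ∑ k, (HTha_A F M H (b * H.xt k) (wop F M (F.c k) (1 : B) ξ) -
        HTha_A F M H b (wop F M (F.c k) (H.xt k) ξ)) := by
  unfold HD.dd
  rw [LinearMap.sum_apply, map_sum]
  refine Finset.sum_congr rfl fun k _ => ?_
  rw [LinearMap.sub_apply, map_sub, op, op, opW_tt, opW_tt, mul_one]
  rfl

theorem HTha_key (H : HD n B I) (i : I) (v : PP n ⊗[ℂ] (F.E ⊗[ℂ] M)) :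
    H.Av F M (H.dd F M (H.jT F M i v)) =
      H.Av F M (H.jT F M i (dU (fun k => eW F M (F.c k)) (H.dlt F M) v)) := by
  induction v using TensorProduct.induction_on with
  | zero => simp only [map_zero]
  | add x y hx hy => simp only [map_add, hx, hy]
  | tmul p ξ =>
    rw [HD.jT_tmul, HTha_dd]
    have h2 : H.jT F M i (dU (fun k => eW F M (F.c k)) (H.dlt F M) (p ⊗ₜ[ℂ] ξ)) =
        ∑ k, tt F M (H.px (X k * p) * H.e i) (wop F M (F.c k) (1 : B) ξ) +
          tt F M (H.px p * H.e i) (H.dlt F M ξ) := by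
      unfold dU
      rw [LinearMap.add_apply, LinearMap.sum_apply, map_add, map_sum, TensorProduct.map_tmul,
        HD.jT_tmul]
      congr 1
      refine Finset.sum_congr rfl fun k _ => ?_
      rw [TensorProduct.map_tmul, HD.jT_tmul, LinearMap.mulLeft_apply, ← eW_eq F M B]
    rw [h2, map_add, map_sum]
    change _ = ∑ k, HTha_A F M H (H.px (X k * p) * H.e i) (wop F M (F.c k) (1 : B) ξ) +
      HTha_A F M H (H.px p * H.e i) (H.dlt F M ξ)
    unfold HD.dlt
    rw [LinearMap.sum_apply, map_sum, ← Finset.sum_add_distrib]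
    refine Finset.sum_congr rfl fun k _ => ?_
    rw [HTha_A_xt, LinearMap.sub_apply, map_sub, add_sub_assoc]

/-- Compatibility with the differential. PROOF. `Av` commutes with `dd` (`Av_props`), so
dd (Th u) = Av (dd (∑_i jT i (u i))). On p ⊗ ξ: dd (tt (px p * e i) ξ) =
∑_k tt (px p * e i * xt k) (wop (c k) 1 ξ) - tt (px p * e i) (wop (c k) (xt k) ξ) (`opW_tt`), and
px p * e i * xt k = px (X k * p) * e i + (1/2) • ∑ ± px p * e i * rho (swap j k) (`e_x`: e i commutes with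
px (X k); definition of `xt`). By `Av_rho`: Av (tt (b * rho t) ξ') = Av (tt b (wop (g t) (rho t) ξ'))
(op (rho t) 1 1 (tt b ξ') = tt (b * rho t) ξ'). Hence Av (dd (jT i (p ⊗ ξ))) =
Av (jT i (∑_k (X k * p) ⊗ eW (c k) ξ + p ⊗ dlt ξ)). -/
theorem HD.dd_Th (H : HD n B I) (u : I → PP n ⊗[ℂ] (F.E ⊗[ℂ] M)) :
    H.dd F M (H.Th F M u) = H.Th F M (fun i => dU (fun k => eW F M (F.c k)) (H.dlt F M) (u i)) := by
  rw [HD.Th_apply, HD.Th_apply]
  have h := LinearMap.congr_fun (H.Av_props F M).2.2.1 (∑ i, H.jT F M i (u i))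
  rw [LinearMap.comp_apply, LinearMap.comp_apply] at h
  rw [← h, map_sum, map_sum, map_sum]
  exact Finset.sum_congr rfl fun i _ => HTha_key F M H i (u i)

/-- Compatibility with the number operator. PROOF: `Av_props`; on p ⊗ ξ: NN (tt b ξ) = tt b (eW N ξ). -/
theorem HD.NN_Th (H : HD n B I) (u : I → PP n ⊗[ℂ] (F.E ⊗[ℂ] M)) :
    NN F M (H.Th F M u) = H.Th F M (fun i =>
      TensorProduct.map LinearMap.id (eW F M F.N) (u i)) := by
  rw [HD.Th_apply, HD.Th_apply]
  have h := LinearMap.congr_fun (H.Av_props F M).2.2.2.1 (∑ i, H.jT F M i (u i))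
  rw [LinearMap.comp_apply, LinearMap.comp_apply] at h
  rw [← h, map_sum]
  congr 1
  refine Finset.sum_congr rfl fun i _ => ?_
  generalize u i = v
  induction v using TensorProduct.induction_on with
  | zero => simp only [map_zero]
  | add x y hx hy => simp only [map_add, hx, hy]
  | tmul p ξ =>
    rw [TensorProduct.map_tmul, HD.jT_tmul, HD.jT_tmul, NN, op, opW_tt, mul_one, eW_eq F M B,
      LinearMap.id_apply]

/-- The values are invariant. PROOF: `Av_props`. -/
theorem HD.act_Th (H : HD n B I) (u : I → PP n ⊗[ℂ] (F.E ⊗[ℂ] M)) (s : Equiv.Perm (Fin n)) :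
    H.act F M s (H.Th F M u) = H.Th F M u := by
  rw [HD.Th_apply]
  exact LinearMap.congr_fun ((H.Av_props F M).1 s) _

end CA1492.D8
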