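import Mathlib
import Pool.Agent.Lib.MP_ca1492_al.D8.HOp
import Pool.Agent.Lib.MP_ca1492_al.D8.HTh

/-!
Surjectivity of `Th` up to denominators.
-/

namespace CA1492.D8

open MvPolynomial TensorProduct

variable {n : ℕ} {B : Type} [Ring B] [Algebra ℂ B] {I : Type} [Fintype I] [DecidableEq I]
variable (F : Fock n) (M : Type) [AddCommGroup M] [Module ℂ M] [Module B M] [IsScalarTower ℂ B M]

/-- The elements of the form ∑_σ ∑_i op (rho σ) 1 1 (jT i (v σ i)). -/
def HThb_P (H : HD n B I) (y : TT F B M) : Prop :=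
  ∃ v : Equiv.Perm (Fin n) → I → PP n ⊗[ℂ] (F.E ⊗[ℂ] M),
    y = ∑ σ, ∑ i, op F M (H.rho σ) 1 1 (H.jT F M i (v σ i))

theorem HThb_zero (H : HD n B I) : HThb_P F M H 0 := by
  refine ⟨fun _ _ => 0, ?_⟩
  simp only [map_zero, Finset.sum_const_zero]

theorem HThb_add (H : HD n B I) {x y : TT F B M} (hx : HThb_P F M H x) (hy : HThb_P F M H y) :
    HThb_P F M H (x + y) := by
  obtain ⟨v, hv⟩ := hx
  obtain ⟨w, hw⟩ := hy
  refine ⟨fun σ i => v σ i + w σ i, ?_⟩
  rw [hv, hw, ← Finset.sum_add_distrib]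
  refine Finset.sum_congr rfl fun σ _ => ?_
  rw [← Finset.sum_add_distrib]
  refine Finset.sum_congr rfl fun i _ => ?_
  rw [map_add, map_add]

theorem HThb_j (H : HD n B I) {s : B} (hs : s ∈ H.S) (i : I) :
    ∃ q : PP n, ∀ w : PP n ⊗[ℂ] (F.E ⊗[ℂ] M), s • H.jT F M i w =
      H.jT F M i (TensorProduct.map (LinearMap.mulRight ℂ q) LinearMap.id w) := by
  obtain ⟨q, hq⟩ := H.S_lat s hs i
  refine ⟨q, fun w => ?_⟩
  induction w using TensorProduct.induction_on with
  | zero => rw [map_zero, smul_zero, map_zero, map_zero]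
  | tmul p ξ =>
    have h1 : s * (H.px p * H.e i) = H.px (p * q) * H.e i := by
      rw [map_mul, mul_assoc (H.px p), ← hq, ← mul_assoc, H.S_comm s hs (H.px p), mul_assoc]
    rw [TensorProduct.map_tmul, HD.jT_tmul, HD.jT_tmul, smul_tt, LinearMap.mulRight_apply, h1]
    rfl
  | add x y hx hy => rw [map_add, smul_add, hx, hy, map_add, map_add]

theorem HThb_smul (H : HD n B I) {s : B} (hs : s ∈ H.S) {y : TT F B M} (hy : HThb_P F M H y) :
    HThb_P F M H (s • y) := by
  obtain ⟨v, hv⟩ := hy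
  choose q hq using fun i => HThb_j F M H hs i
  refine ⟨fun σ i => TensorProduct.map (LinearMap.mulRight ℂ (q i)) LinearMap.id (v σ i), ?_⟩
  rw [hv, Finset.smul_sum]
  refine Finset.sum_congr rfl fun σ _ => ?_
  rw [Finset.smul_sum]
  refine Finset.sum_congr rfl fun i _ => ?_
  rw [← map_smul, hq]

theorem HThb_ex (H : HD n B I) (z : TT F B M) : ∃ s ∈ H.S, HThb_P F M H (s • z) := by
  induction z using TT_ind with
  | h0 =>
    refine ⟨1, H.S.one_mem, ?_⟩
    rw [smul_zero]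
    exact HThb_zero F M H
  | ht b ξ =>
    obtain ⟨s, hs, f, hf⟩ := H.span b
    refine ⟨s, hs, fun σ i => f σ i ⊗ₜ[ℂ] ξ, ?_⟩
    rw [smul_tt, hf, map_sum, LinearMap.sum_apply]
    refine Finset.sum_congr rfl fun σ _ => ?_
    rw [map_sum, LinearMap.sum_apply]
    refine Finset.sum_congr rfl fun i _ => ?_
    rw [HD.jT_tmul, op, opW_tt, wop_one]
    rfl
  | ha x y hx hy =>
    obtain ⟨s, hs, h1⟩ := hx
    obtain ⟨t, ht, h2⟩ := hy
    refine ⟨s * t, H.S.mul_mem hs ht, ?_⟩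
    rw [smul_add]
    refine HThb_add F M H ?_ ?_
    · rw [H.S_comm s hs t, mul_smul]
      exact HThb_smul F M H ht h1
    · rw [mul_smul]
      exact HThb_smul F M H hs h2

theorem HThb_T (H : HD n B I) (g : Module.End ℂ F.E) (a : B) (i : I)
    (w : PP n ⊗[ℂ] (F.E ⊗[ℂ] M)) : op F M 1 g a (H.jT F M i w) =
      H.jT F M i (TensorProduct.map LinearMap.id (wop F M g a) w) := by
  induction w using TensorProduct.induction_on with
  | zero => rw [map_zero, map_zero, map_zero, map_zero]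
  | tmul p ξ =>
    rw [TensorProduct.map_tmul, HD.jT_tmul, HD.jT_tmul, op, opW_tt, mul_one]
    rfl
  | add x y hx hy => rw [map_add, map_add, hx, hy, map_add, map_add]

/-- Surjectivity up to denominators. PROOF. Step 1: for every z ∈ TT there are s ∈ S and
v : Perm → I → PP ⊗ (E ⊗ M) with s • z = ∑_σ ∑_i op (rho σ) 1 1 (jT i (v σ i)). For z = tt b ξ it is `span`:
s * b = ∑ px (f σ i) * e i * rho σ. Sums (`TT_ind`): if s z = J v and s' z' = J v' then s s' (z + z') =
s' J v + s J v', and s * (px p * e i) = px p * (s * e i) = px (p * q_i) * e i by `S_comm`, `S_lat`, so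
s • J v' is again of the form J v''. Step 2: let z be invariant; then n! • s • z = Av (s • z) =
∑ Av (op (rho σ) 1 1 (jT i (v σ i))) = ∑ Av (op 1 (g σ) (rho σ) (jT i (v σ i))) (`Av_rho`) =
Av (∑_i jT i (∑_σ (id ⊗ wop (g σ) (rho σ)) (v σ i))); divide by n! (`Th_apply`). -/
theorem HD.Th_surj (H : HD n B I) {z : TT F B M} (hz : ∀ s, H.act F M s z = z) :
    ∃ s ∈ H.S, ∃ u : I → PP n ⊗[ℂ] (F.E ⊗[ℂ] M), s • z = H.Th F M u := by
  obtain ⟨s, hs, v, hv⟩ := HThb_ex F M H z
  have h1 : H.Av F M (s • z) = (n.factorial : ℂ) • (s • z) := by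
    refine (H.Av_props F M).2.2.2.2 (s • z) fun t => ?_
    rw [map_smul, hz t]
  have h2 : H.Av F M (s • z) = H.Av F M (∑ i, H.jT F M i
      (∑ σ, TensorProduct.map LinearMap.id (wop F M (F.g σ) (H.rho σ)) (v σ i))) := by
    rw [hv, Finset.sum_comm, map_sum, map_sum]
    refine Finset.sum_congr rfl fun i _ => ?_
    rw [map_sum, map_sum, map_sum]
    refine Finset.sum_congr rfl fun σ _ => ?_
    have h3 := LinearMap.congr_fun (H.Av_rho F M σ) (H.jT F M i (v σ i))
    rw [LinearMap.comp_apply, LinearMap.comp_apply] at h3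
    rw [h3, HThb_T]
  refine ⟨s, hs, (n.factorial : ℂ)⁻¹ • fun i => ∑ σ, TensorProduct.map LinearMap.id
    (wop F M (F.g σ) (H.rho σ)) (v σ i), ?_⟩
  have h4 : (n.factorial : ℂ) ≠ 0 := Nat.cast_ne_zero.2 (Nat.factorial_ne_zero n)
  rw [map_smul, HD.Th_apply, ← h2, h1, smul_smul, inv_mul_cancel₀ h4, one_smul]

end CA1492.D8
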