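import Mathlib
import Pool.Agent.Lib.MP_ca1492_al.D8.HTh

/-!
Injectivity of `Th`.
-/

namespace CA1492.D8

open MvPolynomial TensorProduct

variable {n : ℕ} {B : Type} [Ring B] [Algebra ℂ B] {I : Type} [Fintype I] [DecidableEq I]
variable (F : Fock n) (M : Type) [AddCommGroup M] [Module ℂ M] [Module B M] [IsScalarTower ℂ B M]

/-- A tensor killed by all functionals on the second factor is zero.
PROOF: choose a basis of W (`Module.Free.chooseBasis`/`Basis.ofVectorSpace`) and use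
`TensorProduct.equivFinsuppOfBasisRight`; the functionals are the coordinate functionals. -/
theorem tensor_eq_zero {A W : Type} [AddCommGroup A] [Module ℂ A] [AddCommGroup W] [Module ℂ W]
    (u : A ⊗[ℂ] W) (h : ∀ φ : W →ₗ[ℂ] ℂ, TensorProduct.rid ℂ A (LinearMap.lTensor A φ u) = 0) :
    u = 0 := by
  classical
  let bs := Module.Free.chooseBasis ℂ W
  apply (TensorProduct.equivFinsuppOfBasisRight bs).injective
  rw [map_zero]
  refine Finsupp.ext fun i => ?_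
  rw [TensorProduct.equivFinsuppOfBasisRight_apply, h]
  rfl

/-- Contraction of the second factor with a functional. -/
noncomputable def HThc_R (A : Type) {W : Type} [AddCommGroup A] [Module ℂ A] [AddCommGroup W]
    [Module ℂ W] (φ : W →ₗ[ℂ] ℂ) : A ⊗[ℂ] W →ₗ[ℂ] A :=
  (TensorProduct.rid ℂ A).toLinearMap ∘ₗ (LinearMap.lTensor A φ)

theorem HThc_R_tmul {A W : Type} [AddCommGroup A] [Module ℂ A] [AddCommGroup W] [Module ℂ W]
    (φ : W →ₗ[ℂ] ℂ) (a : A) (w : W) : HThc_R A φ (a ⊗ₜ[ℂ] w) = φ w • a := by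
  unfold HThc_R
  rw [LinearMap.comp_apply, LinearMap.lTensor_tmul]
  exact TensorProduct.rid_tmul _ _

/-- The contraction on TT. -/
noncomputable def HThc_T (B : Type) [Ring B] [Algebra ℂ B] (φ : (F.E ⊗[ℂ] M) →ₗ[ℂ] ℂ) :
    TT F B M →ₗ[ℂ] B :=
  (HThc_R B φ) ∘ₗ (ttE F M).symm.toLinearMap

omit [Module B M] [IsScalarTower ℂ B M] in
theorem HThc_T_tt (φ : (F.E ⊗[ℂ] M) →ₗ[ℂ] ℂ) (b : B) (ξ : F.E ⊗[ℂ] M) :
    HThc_T F M B φ (tt F M b ξ) = φ ξ • b := HThc_R_tmul φ b ξ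

theorem HThc_act (H : HD n B I) (φ : (F.E ⊗[ℂ] M) →ₗ[ℂ] ℂ) (s : Equiv.Perm (Fin n)) (i : I)
    (v : PP n ⊗[ℂ] (F.E ⊗[ℂ] M)) :
    HThc_T F M B φ (H.act F M s (H.jT F M i v)) =
      H.px (HThc_R (PP n) (φ ∘ₗ wop F M (F.g s) (H.rho s)) v) * H.e i * H.rho s⁻¹ := by
  induction v using TensorProduct.induction_on with
  | zero => simp only [map_zero, zero_mul]
  | tmul p ξ =>
    rw [HD.jT_tmul, HD.act, op, opW_tt, HThc_T_tt, HThc_R_tmul, map_smul, smul_mul_assoc,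
      smul_mul_assoc, LinearMap.comp_apply]
  | add x y hx hy =>
    rw [map_add, map_add, map_add, hx, hy, map_add, map_add, add_mul, add_mul]

/-- Injectivity. PROOF. Let Th u = 0. Th u = ∑_σ ∑_i act σ (jT i (u i)), and act σ (jT i (p ⊗ ξ)) =
tt (px p * e i * rho σ⁻¹) (wop (g σ) (rho σ) ξ). Let φ be a functional on E ⊗ M and apply the ℂ-linear map
rid ∘ (id_B ⊗ φ) ∘ ttE.symm : TT → B: for all u one gets (check on pure tensors)
0 = ∑_σ ∑_i px (rid ((id ⊗ φ ∘ wop (g σ) (rho σ)) (u i))) * e i * rho σ⁻¹. Reindex by σ⁻¹ and use `uniq`;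
the coefficient at σ = 1 gives rid ((id ⊗ φ) (u i)) = 0 for all i (g 1 = 1, rho 1 = 1). By
`tensor_eq_zero`, u i = 0. -/
theorem HD.Th_inj (H : HD n B I) (u : I → PP n ⊗[ℂ] (F.E ⊗[ℂ] M)) (hu : H.Th F M u = 0) : u = 0 := by
  funext i
  refine tensor_eq_zero (u i) fun φ => ?_
  have h1 : HThc_T F M B φ (H.Th F M u) = 0 := by rw [hu, map_zero]
  rw [HD.Th_apply, HD.Av, LinearMap.sum_apply, map_sum] at h1
  have h2 : ∀ s : Equiv.Perm (Fin n), HThc_T F M B φ (H.act F M s (∑ i, H.jT F M i (u i))) =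
      ∑ i, H.px (HThc_R (PP n) (φ ∘ₗ wop F M (F.g s) (H.rho s)) (u i)) * H.e i * H.rho s⁻¹ := by
    intro s
    rw [map_sum, map_sum]
    exact Finset.sum_congr rfl fun i _ => HThc_act F M H φ s i (u i)
  rw [Finset.sum_congr rfl fun s _ => h2 s] at h1
  rw [← Equiv.sum_comp (Equiv.inv (Equiv.Perm (Fin n)))] at h1
  simp only [Equiv.inv_apply, inv_inv] at h1
  have h3 := H.uniq (fun σ i => HThc_R (PP n) (φ ∘ₗ wop F M (F.g σ⁻¹) (H.rho σ⁻¹)) (u i)) h1
  have h4 : HThc_R (PP n) (φ ∘ₗ wop F M (F.g (1 : Equiv.Perm (Fin n))⁻¹)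
      (H.rho (1 : Equiv.Perm (Fin n))⁻¹)) (u i) = 0 := congrFun (congrFun h3 1) i
  rw [inv_one, map_one, map_one, wop_one] at h4
  exact h4

end CA1492.D8
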