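import Mathlib
import Pool.Agent.Lib.MP_ca1492_al.D8.HDD
import Pool.Agent.Lib.MP_ca1492_al.D8.HTha
import Pool.Agent.Lib.MP_ca1492_al.D8.HThb
import Pool.Agent.Lib.MP_ca1492_al.D8.HThc

/-!
Exactness of the Koszul complex in positive degrees.
-/

namespace CA1492.D8

open MvPolynomial TensorProduct

variable {n : ℕ} {B : Type} [Ring B] [Algebra ℂ B] {I : Type} [Fintype I] [DecidableEq I]
variable (F : Fock n) (M : Type) [AddCommGroup M] [Module ℂ M] [Module B M] [IsScalarTower ℂ B M]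

/-- PROOF. Let a ∈ I and v ∈ PP ⊗ (E ⊗ M), and u = Pi.single a v. By `dd_Th` twice
Th (dU dU u) = dd (dd (Th u)) = 0 (`dd_zero`, `act_Th`), so dU (dU v) = 0 by `Th_inj`. -/
theorem HD.dU_dU (H : HD n B I) (a : I) (v : PP n ⊗[ℂ] (F.E ⊗[ℂ] M)) :
    dU (fun k => eW F M (F.c k)) (H.dlt F M) (dU (fun k => eW F M (F.c k)) (H.dlt F M) v) = 0 := by
  have h1 := H.dd_Th F M (Pi.single a v)
  have h2 := H.dd_Th F M (fun i => dU (fun k => eW F M (F.c k)) (H.dlt F M)
    ((Pi.single a v : I → PP n ⊗[ℂ] (F.E ⊗[ℂ] M)) i))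
  have h3 : H.dd F M (H.dd F M (H.Th F M (Pi.single a v))) = 0 :=
    H.dd_zero F M (fun s => H.act_Th F M _ s)
  rw [h1, h2] at h3
  have h4 := H.Th_inj F M _ h3
  have h5 := congrFun h4 a
  simp only [Pi.single_eq_same, Pi.zero_apply] at h5
  exact h5

theorem HEx_eW_mul (A A' : Module.End ℂ F.E) : eW F M (A * A') = eW F M A * eW F M A' := by
  refine TensorProduct.ext' fun x m => ?_
  rfl

theorem HEx_eW_add (A A' : Module.End ℂ F.E) : eW F M (A + A') = eW F M A + eW F M A' := by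
  refine TensorProduct.ext' fun x m => ?_
  rw [LinearMap.add_apply]
  simp only [eW, TensorProduct.map_tmul, LinearMap.add_apply, add_tmul]

theorem HEx_eW_zero : eW F M (0 : Module.End ℂ F.E) = 0 := by
  refine TensorProduct.ext' fun x m => ?_
  simp only [eW, TensorProduct.map_tmul, LinearMap.zero_apply, zero_tmul]

theorem HEx_eW_one : eW F M (1 : Module.End ℂ F.E) = 1 := by
  refine TensorProduct.ext' fun x m => ?_
  rfl

theorem HEx_eW_sub (A A' : Module.End ℂ F.E) : eW F M (A - A') = eW F M A - eW F M A' := by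
  have h := HEx_eW_add F M (A - A') A'
  rw [sub_add_cancel] at h
  rw [h, add_sub_cancel_right]

theorem HEx_eW_sum {ι : Type} (s : Finset ι) (A : ι → Module.End ℂ F.E) :
    eW F M (∑ i ∈ s, A i) = ∑ i ∈ s, eW F M (A i) := by
  classical
  induction s using Finset.induction_on with
  | empty => rw [Finset.sum_empty, Finset.sum_empty, HEx_eW_zero]
  | insert a s ha ih => rw [Finset.sum_insert ha, Finset.sum_insert ha, HEx_eW_add, ih]

/-- the operators of degree -1 -/
def HEx_low (E : Module.End ℂ (F.E ⊗[ℂ] M)) : Submodule ℂ (Module.End ℂ (F.E ⊗[ℂ] M)) where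
  carrier := {T | E * T = T * E - T}
  add_mem' := by
    intro x y hx hy
    change E * (x + y) = (x + y) * E - (x + y)
    rw [mul_add, add_mul, show E * x = x * E - x from hx, show E * y = y * E - y from hy]
    abel
  zero_mem' := by
    change E * 0 = 0 * E - 0
    rw [mul_zero, zero_mul, sub_zero]
  smul_mem' := by
    intro c x hx
    change E * (c • x) = (c • x) * E - c • x
    rw [mul_smul_comm, smul_mul_assoc, show E * x = x * E - x from hx, smul_sub]

theorem HEx_low_wop (g : Equiv.Perm (Fin n)) (k : Fin n) (b : B) :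
    wop F M (F.g g * F.c k) b ∈ HEx_low F M (eW F M F.N) := by
  change eW F M F.N * wop F M (F.g g * F.c k) b =
    wop F M (F.g g * F.c k) b * eW F M F.N - wop F M (F.g g * F.c k) b
  rw [eW_eq F M B, wop_mul, wop_mul, one_mul, mul_one, ← wop_sub]
  congr 1
  rw [← mul_assoc, ← F.N_g, mul_assoc, F.N_c, mul_sub, mul_assoc]

/-- The hypotheses of `euler_exact` for W = E ⊗ M, c k = eW (c k), w k = eW (w k), N = eW N.
PROOF: `Fock.cw`, `N_c`, `N_w`, `N_g` (eW is additive and multiplicative; the terms of dlt are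
wop (g t * c k) _ and wop (c k) _, and N commutes with g t). -/
theorem HD.W_rel (H : HD n B I) :
    eW F M F.N = ∑ k, eW F M (F.w k) * eW F M (F.c k) ∧
    (∀ k l, eW F M (F.c k) * eW F M (F.w l) + eW F M (F.w l) * eW F M (F.c k) =
        if k = l then 1 else 0) ∧
    (∀ k, eW F M F.N * eW F M (F.c k) = eW F M (F.c k) * eW F M F.N - eW F M (F.c k)) ∧
    (∀ k, eW F M F.N * eW F M (F.w k) = eW F M (F.w k) * eW F M F.N + eW F M (F.w k)) ∧
    eW F M F.N * H.dlt F M = H.dlt F M * eW F M F.N - H.dlt F M := by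
  refine ⟨?_, ?_, ?_, ?_, ?_⟩
  · rw [Fock.N, HEx_eW_sum]
    exact Finset.sum_congr rfl fun k _ => HEx_eW_mul F M _ _
  · intro k l
    rw [← HEx_eW_mul, ← HEx_eW_mul, ← HEx_eW_add, F.cw]
    split_ifs
    · exact HEx_eW_one F M
    · exact HEx_eW_zero F M
  · intro k
    rw [← HEx_eW_mul, ← HEx_eW_mul, ← HEx_eW_sub, F.N_c]
  · intro k
    rw [← HEx_eW_mul, ← HEx_eW_mul, ← HEx_eW_add, F.N_w]
  · have h : H.dlt F M ∈ HEx_low F M (eW F M F.N) := by
      unfold HD.dlt
      refine Submodule.sum_mem _ fun k _ => Submodule.sub_mem _ (Submodule.smul_mem _ _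
        (Submodule.sub_mem _ (Submodule.sum_mem _ fun j _ => HEx_low_wop F M _ _ _)
          (Submodule.sum_mem _ fun j _ => HEx_low_wop F M _ _ _))) ?_
      have h1 := HEx_low_wop F M 1 k (H.xt k)
      rw [map_one, one_mul] at h1
      exact h1
    exact h

/-- Exactness. PROOF. z is invariant; choose s ∈ S and u with s • z = Th u (`Th_surj`). Then
Th (dU u) = dd (s • z) = s • dd z = 0, so dU (u i) = 0 for all i; and Th (N u - k u) = NN (s z) - k s z = 0,
so N (u i) = k • u i (`Th_inj`, `NN_Th`). By `euler_exact` (with `W_rel`, `dU_dU`) u i = dU (u' i) with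
N (u' i) = (k+1) • u' i. So s • z = dd (Th u'). Let s' be the inverse of the unit s; y = s' • Th u' is
invariant of degree k + 1 and dd y = z. -/
theorem HD.exact (H : HD n B I) (k : ℕ) (hk : 0 < k) {z : TT F B M} (hz : z ∈ H.KK F M k)
    (hd : H.dd F M z = 0) : ∃ y ∈ H.KK F M (k + 1), H.dd F M y = z := by
  rw [HD.mem_KK] at hz
  obtain ⟨s, hs, u, hu⟩ := H.Th_surj F M hz.1
  obtain ⟨hN, hcw, hNc, hNw, hNd⟩ := H.W_rel F M
  have h1 : ∀ i, dU (fun k => eW F M (F.c k)) (H.dlt F M) (u i) = 0 := by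
    have h2 : H.Th F M (fun i => dU (fun k => eW F M (F.c k)) (H.dlt F M) (u i)) = 0 := by
      rw [← H.dd_Th F M, ← hu, map_smul, hd, smul_zero]
    exact fun i => congrFun (H.Th_inj F M _ h2) i
  have h3 : ∀ i, TensorProduct.map LinearMap.id (eW F M F.N) (u i) = (k : ℂ) • u i := by
    have h4 : H.Th F M ((fun i => TensorProduct.map LinearMap.id (eW F M F.N) (u i)) -
        (k : ℂ) • u) = 0 := by
      rw [map_sub, map_smul, ← H.NN_Th F M, ← hu, map_smul, hz.2, smul_comm, sub_self]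
    have h5 := H.Th_inj F M _ h4
    intro i
    have h6 := congrFun h5 i
    rw [Pi.sub_apply, Pi.smul_apply, Pi.zero_apply, sub_eq_zero] at h6
    exact h6
  have h7 : ∀ i, ∃ u' : PP n ⊗[ℂ] (F.E ⊗[ℂ] M),
      TensorProduct.map LinearMap.id (eW F M F.N) u' = ((k + 1 : ℕ) : ℂ) • u' ∧
        dU (fun k => eW F M (F.c k)) (H.dlt F M) u' = u i := fun i =>
    euler_exact (fun k => eW F M (F.c k)) (fun k => eW F M (F.w k)) (H.dlt F M) (eW F M F.N)
      hN hcw hNc hNw hNd (fun v => H.dU_dU F M i v) k hk (u i) (h3 i) (h1 i)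
  choose u' hu1 hu2 using h7
  obtain ⟨t, rfl⟩ := H.S_unit s hs
  have hact : ∀ σ, H.act F M σ (H.Th F M u') = H.Th F M u' := fun σ => H.act_Th F M u' σ
  refine ⟨((t⁻¹ : Bˣ) : B) • H.Th F M u', ?_, ?_⟩
  · rw [HD.mem_KK]
    refine ⟨fun σ => ?_, ?_⟩
    · rw [map_smul, hact]
    · have h8 : (fun i => TensorProduct.map LinearMap.id (eW F M F.N) (u' i)) =
          ((k + 1 : ℕ) : ℂ) • u' := by
        funext i
        rw [hu1 i]
        rfl
      rw [map_smul, H.NN_Th F M, h8, map_smul, smul_comm]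
  · rw [map_smul, H.dd_Th F M]
    have h9 : (fun i => dU (fun k => eW F M (F.c k)) (H.dlt F M) (u' i)) = u := by
      funext i
      exact hu2 i
    rw [h9, ← hu, smul_smul, Units.inv_mul, one_smul]

end CA1492.D8
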