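import Mathlib
import Pool.Agent.Lib.MP_ca1492_al.D8.HXt

/-!
Balanced maps.
-/

namespace CA1492.D8

open MvPolynomial

variable {n : ℕ} {B : Type} [Ring B] [Algebra ℂ B] {I : Type} [Fintype I] [DecidableEq I]

section HBal_aux
variable {M : Type} [AddCommGroup M] [Module B M] {C : Type} [AddCommGroup C] [Module B C]

/-- the sum of the values at the idempotents -/
def HD.HBal_J (H : HD n B I) (β : B → M → C) (m : M) : C := ∑ i, β (H.e i) (H.e i • m)

omit [Algebra ℂ B] in
theorem HBal_zero_left {β : B → M → C} (hl : ∀ b' b m, β (b' * b) m = b' • β b m) (m : M) :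
    β 0 m = 0 := by
  have h := hl 0 0 m
  rwa [zero_mul, zero_smul] at h

omit [Algebra ℂ B] [Module B C] in
theorem HBal_zero_right {β : B → M → C} (hadd' : ∀ b m m', β b (m + m') = β b m + β b m')
    (b : B) : β b 0 = 0 := by
  have h := hadd' b 0 0
  rw [add_zero] at h
  exact left_eq_add.1 h

omit [Algebra ℂ B] [Module B C] in
theorem HBal_neg_right {β : B → M → C} (hadd' : ∀ b m m', β b (m + m') = β b m + β b m')
    (b : B) (m : M) : β b (-m) = - β b m := by
  have h := hadd' b m (-m)
  rw [add_neg_cancel, HBal_zero_right hadd'] at h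
  exact (neg_eq_of_add_eq_zero_right h.symm).symm

omit [Algebra ℂ B] in
theorem HBal_neg_left {β : B → M → C} (hadd : ∀ b b' m, β (b + b') m = β b m + β b' m)
    (hl : ∀ b' b m, β (b' * b) m = b' • β b m)
    (b : B) (m : M) : β (-b) m = - β b m := by
  have h := hadd b (-b) m
  rw [add_neg_cancel, HBal_zero_left hl] at h
  exact (neg_eq_of_add_eq_zero_right h.symm).symm

/-- the set of elements compatible with `J` -/
def HD.HBal_G (H : HD n B I) (β : B → M → C)
    (hadd' : ∀ b m m', β b (m + m') = β b m + β b m') : Subring B where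
  carrier := {b | ∀ m, H.HBal_J β (b • m) = b • H.HBal_J β m}
  mul_mem' := by
    intro a b ha hb m
    rw [mul_smul, ha, hb, mul_smul]
  one_mem' := by
    intro m
    rw [one_smul, one_smul]
  add_mem' := by
    intro a b ha hb m
    rw [add_smul, add_smul, ← ha, ← hb]
    unfold HD.HBal_J
    rw [← Finset.sum_add_distrib]
    refine Finset.sum_congr rfl fun i _ => ?_
    rw [smul_add, hadd']
  zero_mem' := by
    intro m
    rw [zero_smul, zero_smul]
    unfold HD.HBal_J
    refine Finset.sum_eq_zero fun i _ => ?_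
    rw [smul_zero, HBal_zero_right hadd']
  neg_mem' := by
    intro a ha m
    rw [neg_smul, neg_smul, ← ha]
    unfold HD.HBal_J
    rw [← Finset.sum_neg_distrib]
    refine Finset.sum_congr rfl fun i _ => ?_
    rw [smul_neg, HBal_neg_right hadd']

theorem HD.HBal_mem (H : HD n B I) (β : B → M → C)
    (hadd' : ∀ b m m', β b (m + m') = β b m + β b m') (b : B) :
    b ∈ H.HBal_G β hadd' ↔ ∀ m, H.HBal_J β (b • m) = b • H.HBal_J β m := Iff.rfl

theorem HD.HBal_e (H : HD n B I) (β : B → M → C)
    (hadd' : ∀ b m m', β b (m + m') = β b m + β b m')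
    (hl : ∀ b' b m, β (b' * b) m = b' • β b m) (j : I) : H.e j ∈ H.HBal_G β hadd' := by
  intro m
  unfold HD.HBal_J
  rw [Finset.smul_sum]
  rw [Finset.sum_eq_single j, Finset.sum_eq_single j]
  · rw [← hl, H.e_mul, if_pos rfl, smul_smul, H.e_mul, if_pos rfl]
  · intro i _ hij
    rw [← hl, H.e_mul, if_neg (Ne.symm hij), HBal_zero_left hl]
  · intro h
    exact absurd (Finset.mem_univ j) h
  · intro i _ hij
    rw [smul_smul, H.e_mul, if_neg hij, zero_smul, HBal_zero_right hadd']
  · intro h
    exact absurd (Finset.mem_univ j) h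

theorem HD.HBal_central (H : HD n B I) (β : B → M → C)
    (hadd' : ∀ b m m', β b (m + m') = β b m + β b m')
    (hl : ∀ b' b m, β (b' * b) m = b' • β b m) (a : B)
    (ha : ∀ i, H.e i * a = a * H.e i) (hb : ∀ b m, β (b * a) m = β b (a • m)) :
    a ∈ H.HBal_G β hadd' := by
  intro m
  unfold HD.HBal_J
  rw [Finset.smul_sum]
  refine Finset.sum_congr rfl fun i _ => ?_
  rw [smul_smul, ha, mul_smul, ← hb, ha, hl]

theorem HD.HBal_px (H : HD n B I) (β : B → M → C)
    (hadd' : ∀ b m m', β b (m + m') = β b m + β b m')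
    (hl : ∀ b' b m, β (b' * b) m = b' • β b m)
    (hc : ∀ (b : B) (c : ℂ) (m : M), β (b * algebraMap ℂ B c) m = β b (algebraMap ℂ B c • m))
    (hx : ∀ b k m, β (b * H.px (X k)) m = β b (H.px (X k) • m)) (f : PP n) :
    H.px f ∈ H.HBal_G β hadd' := by
  induction f using MvPolynomial.induction_on with
  | C a =>
    rw [← MvPolynomial.algebraMap_eq, AlgHom.commutes]
    exact H.HBal_central β hadd' hl _ (fun i => (Algebra.commutes a (H.e i)).symm)
      fun b m => hc b a m
  | add p q hp hq =>
    rw [map_add]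
    exact add_mem hp hq
  | mul_X p k hp =>
    rw [map_mul]
    exact mul_mem hp (H.HBal_central β hadd' hl _ (fun i => H.e_x i k) fun b m => hx b k m)

/-- the main step -/
theorem HD.HBal_step (H : HD n B I) (β : B → M → C)
    (hadd : ∀ b b' m, β (b + b') m = β b m + β b' m)
    (hadd' : ∀ b m m', β b (m + m') = β b m + β b m')
    (hl : ∀ b' b m, β (b' * b) m = b' • β b m)
    (hx : ∀ b k m, β (b * H.px (X k)) m = β b (H.px (X k) • m))
    (hr : ∀ b σ m, β (b * H.rho σ) m = β b (H.rho σ • m))
    (r : ℕ) (h : r + 1 < n) (i : I) (m : M) :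
    β (H.rho (sw n r) * H.e i) (H.e i • m) =
      ∑ v, β (H.e v) ((H.e v * (H.rho (sw n r) * H.e i)) • m) := by
  have hn := HBal_neg_right hadd'
  have hnl := HBal_neg_left hadd hl
  rcases H.sep r h i with h0 | ⟨i', z, z', hi, h1, h2, h3, h4, h5, h6, h7, h8, h9, h10⟩
  · rw [Finset.sum_eq_single i]
    · rw [h0, hr, smul_smul, ← mul_assoc, H.e_mul, if_pos rfl, h0]
    · intro v _ hv
      rw [h0, ← mul_assoc, H.e_mul, if_neg hv, zero_mul, zero_smul, HBal_zero_right hadd']
    · intro h'
      exact absurd (Finset.mem_univ i) h'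
  · have hx' : ∀ b m, β (b * (H.px (X ⟨r, by omega⟩) - H.px (X ⟨r + 1, h⟩))) m =
        β b ((H.px (X ⟨r, by omega⟩) - H.px (X ⟨r + 1, h⟩)) • m) := by
      intro b m
      rw [mul_sub, sub_eq_add_neg, hadd, hnl, hx, hx, sub_smul, sub_eq_add_neg, hadd', hn]
    have a1 : β (H.e i' * H.rho (sw n r)) (H.e i • m) =
        -β (H.e i') (z • m) + β (H.e i') ((H.e i' * H.rho (sw n r) * H.e i) • m) := by
      rw [hr, smul_smul, h9, add_smul, neg_smul, hadd', hn]
    have a2 : β (H.e i') (z • m) = β z' (H.e i • m) := by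
      conv_lhs => rw [← h8]
      rw [hx', smul_smul, h3]
    have a3 : β z (H.e i • m) = β (H.e i) (z • m) := by
      conv_lhs => rw [← h3]
      rw [← smul_smul, ← hx', h4]
    have a4 : β (H.rho (sw n r) * H.e i) (H.e i • m) =
        -β (H.e i) (z • m) + β (H.e i') ((H.e i' * H.rho (sw n r) * H.e i) • m) := by
      conv_lhs => rw [h9, hadd, hnl, h10, hadd, a1, a2, a3]
      abel
    have a5 : ∀ v, β (H.e v) ((H.e v * (H.rho (sw n r) * H.e i)) • m) =
        (if v = i then -β (H.e i) (z • m) else 0) +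
        (if v = i' then β (H.e i') ((H.e i' * H.rho (sw n r) * H.e i) • m) else 0) := by
      intro v
      have b1 : H.e v * (H.rho (sw n r) * H.e i) =
          -(H.e v * H.e i * z) + H.e v * H.e i' * (H.rho (sw n r) * H.e i) := by
        conv_lhs => rw [h9]
        conv_lhs => rw [← h1]
        rw [mul_add, mul_neg]
        simp only [mul_assoc]
      rw [b1, H.e_mul, H.e_mul]
      by_cases hv : v = i
      · subst hv
        rw [if_pos rfl, if_neg (Ne.symm hi), if_pos rfl, if_neg (Ne.symm hi), h1, zero_mul,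
          add_zero, add_zero, neg_smul, hn]
      · by_cases hv' : v = i'
        · subst hv'
          rw [if_neg hv, if_pos rfl, if_neg hv, if_pos rfl, zero_mul, neg_zero, zero_add,
            zero_add, ← mul_assoc]
        · rw [if_neg hv, if_neg hv', if_neg hv, if_neg hv', zero_mul, zero_mul, neg_zero,
            zero_add, zero_add, zero_smul, HBal_zero_right hadd']
    rw [a4, Finset.sum_congr rfl fun v _ => a5 v, Finset.sum_add_distrib, Finset.sum_ite_eq',
      Finset.sum_ite_eq', if_pos (Finset.mem_univ _), if_pos (Finset.mem_univ _)]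

theorem HD.HBal_sw (H : HD n B I) (β : B → M → C)
    (hadd : ∀ b b' m, β (b + b') m = β b m + β b' m)
    (hadd' : ∀ b m m', β b (m + m') = β b m + β b m')
    (hl : ∀ b' b m, β (b' * b) m = b' • β b m)
    (hx : ∀ b k m, β (b * H.px (X k)) m = β b (H.px (X k) • m))
    (hr : ∀ b σ m, β (b * H.rho σ) m = β b (H.rho σ • m))
    (r : ℕ) (h : r + 1 < n) : H.rho (sw n r) ∈ H.HBal_G β hadd' := by
  intro m
  unfold HD.HBal_J
  have h1 : H.rho (sw n r) • ∑ i, β (H.e i) (H.e i • m) =
      ∑ i, ∑ v, β (H.e v) ((H.e v * (H.rho (sw n r) * H.e i)) • m) := by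
    rw [Finset.smul_sum]
    refine Finset.sum_congr rfl fun i _ => ?_
    rw [← hl, H.HBal_step β hadd hadd' hl hx hr r h i m]
  rw [h1, Finset.sum_comm]
  refine Finset.sum_congr rfl fun v _ => ?_
  have h2 : ∀ (s : Finset I) (g : I → M), β (H.e v) (∑ i ∈ s, g i) = ∑ i ∈ s, β (H.e v) (g i) := by
    intro s g
    induction s using Finset.induction_on with
    | empty => rw [Finset.sum_empty, Finset.sum_empty, HBal_zero_right hadd']
    | insert i s hi ih => rw [Finset.sum_insert hi, Finset.sum_insert hi, hadd', ih]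
  rw [← h2, ← Finset.sum_smul, ← Finset.mul_sum, ← Finset.mul_sum, H.e_sum, mul_one, mul_smul]

end HBal_aux

/-- Balanced maps. PROOF. Write x = px (X r) - px (X (r+1)), s = rho (sw n r), J m = ∑ i, β (e i) (e i • m).
The set of b with J (b • m) = b • J m for all m is closed under sums and products and contains:
(a) e j: b • J m = ∑ β (e j * e i) (e i • m) = β (e j) (e j • m) = J (e j • m).
(b) px f: closed under products and sums, so px (X k) (and scalars C a: β (a • b) m = a • β b m by hl
 with b' = algebraMap a; and J (a • m) = a • J m because β b (a • m) = β b (px (C a) • m); scalars: use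
 that β (b * px p) m = β b (px p • m) for every polynomial p needs the case of constants: hc).
 px (X k) • J m = ∑ β (px (X k) * e i) (e i • m) = ∑ β (e i * px (X k)) (e i • m) =
 ∑ β (e i) (px (X k) • e i • m) = ∑ β (e i) (e i • px (X k) • m).
(c) s = rho (sw n r), r + 1 < n: claim for every i: β (s * e i) (e i • m) = ∑ v, β (e v) (e v • s • e i • m)
 (*); summing over i gives s • J m = J (s • m). First alternative of `sep`: s e_i = e_i s:
 β (e_i s) (e_i m) = β e_i (s e_i m) and e_v s e_i m = e_v e_i s m. Second alternative: with the letters of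
 `sep`, s e_i = -z + e_i' s e_i and e_i' s e_i = e_i' s + z', so
 β (s e_i) (e_i m) = - β z (e_i m) + β (e_i' s) (e_i m) + β z' (e_i m);
 β (e_i' s) (e_i m) = β e_i' (s e_i m) = - β e_i' (z m) + β e_i' (e_i' s e_i m)   (s e_i m = -z m + e_i' s e_i m,
 z e_i = z);
 β e_i' (z m) = β (z' x) (z m) = β z' (x z m) = β z' (e_i m);
 β z (e_i m) = β z (x z m) = β (z x) (z m) = β e_i (z m). Sum: β (s e_i) (e_i m) = - β e_i (z m) +
 β e_i' (e_i' s e_i m). On the other side of (*): e_v s e_i = 0 for v ≠ i, i'; e_i s e_i = - z (multiply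
 s e_i = -z + e_i' s e_i by e_i on the left), so the terms v = i and v = i' are - β e_i (z m) and
 β e_i' (e_i' s e_i m).
(d) rho σ for all σ (`perm_ind`), (e) inverses: if b is a unit of B and b is in the set then so is its
 inverse b' : J (b' • m) = b' • b • J (b' • m) = b' • J (m). So all elements of H.S: s = ∑ s * e i =
 ∑ px q_i * e i (`S_lat`) is in the set, hence its inverse too. (f) By `span` every b is
 s⁻¹ * ∑ px (f σ i) * e i * rho σ. -/
theorem HD.balanced (H : HD n B I) {M : Type} [AddCommGroup M] [Module B M]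
    {C : Type} [AddCommGroup C] [Module B C] (β : B → M → C)
    (hadd : ∀ b b' m, β (b + b') m = β b m + β b' m)
    (hadd' : ∀ b m m', β b (m + m') = β b m + β b m')
    (hl : ∀ b' b m, β (b' * b) m = b' • β b m)
    (hc : ∀ (b : B) (c : ℂ) (m : M), β (b * algebraMap ℂ B c) m = β b (algebraMap ℂ B c • m))
    (hx : ∀ b k m, β (b * H.px (X k)) m = β b (H.px (X k) • m))
    (hr : ∀ b σ m, β (b * H.rho σ) m = β b (H.rho σ • m)) (b : B) (m : M) :
    ∑ i, β (H.e i) (H.e i • (b • m)) = b • ∑ i, β (H.e i) (H.e i • m) := by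
  have hpx := H.HBal_px β hadd' hl hc hx
  have he := H.HBal_e β hadd' hl
  have hrho : ∀ σ, H.rho σ ∈ H.HBal_G β hadd' := by
    intro σ
    refine perm_ind (p := fun σ => H.rho σ ∈ H.HBal_G β hadd') ?_ ?_ σ
    · rw [map_one]
      exact one_mem _
    · intro r hr' u hu
      rw [map_mul]
      exact mul_mem (H.HBal_sw β hadd hadd' hl hx hr r hr') hu
  have hS : ∀ s ∈ H.S, s ∈ H.HBal_G β hadd' := by
    intro s hs
    have h1 : s = ∑ i, s * H.e i := by rw [← Finset.mul_sum, H.e_sum, mul_one]
    rw [h1]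
    refine sum_mem fun i _ => ?_
    obtain ⟨q, hq⟩ := H.S_lat s hs i
    rw [hq]
    exact mul_mem (hpx q) (he i)
  obtain ⟨s, hs, f, hf⟩ := H.span b
  obtain ⟨u, hu⟩ := H.S_unit s hs
  have h2 : s * b ∈ H.HBal_G β hadd' := by
    rw [hf]
    exact sum_mem fun σ _ => sum_mem fun i _ => mul_mem (mul_mem (hpx _) (he i)) (hrho σ)
  have h3 : (u⁻¹ : Bˣ).val ∈ H.HBal_G β hadd' := by
    intro m
    have h4 := hS s hs ((u⁻¹ : Bˣ).val • m)
    rw [smul_smul, ← hu, Units.mul_inv, one_smul] at h4
    rw [h4, smul_smul, Units.inv_mul, one_smul]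
  have h5 : b ∈ H.HBal_G β hadd' := by
    have h6 : b = (u⁻¹ : Bˣ).val * (s * b) := by
      rw [← hu, ← mul_assoc, Units.inv_mul, one_mul]
    rw [h6]
    exact mul_mem h3 h2
  exact h5 m

end CA1492.D8
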