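import Mathlib
import Pool.Agent.Lib.MP_ca1492_al.D8.HOp

/-!
The terms of the Koszul complex are projective, and vanish in degrees > n.
-/

namespace CA1492.D8

open MvPolynomial TensorProduct

variable {n : ℕ} {B : Type} [Ring B] [Algebra ℂ B] {I : Type} [Fintype I] [DecidableEq I]
variable (F : Fock n) (M : Type) [AddCommGroup M] [Module ℂ M] [Module B M] [IsScalarTower ℂ B M]

theorem HProj_smul_g (b a : B) (c : ℂ) (g : Module.End ℂ F.E) (z : TT F B M) :
    op F M b (c • g) a z = c • op F M b g a z := by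
  unfold op
  rw [wop_smul, ← opW_smul, opW_smul_apply]

omit [Module B M] [IsScalarTower ℂ B M] in
theorem HProj_lin (f : TT F B M →ₗ[B] TT F B M) (c : ℂ) (z : TT F B M) :
    f (c • z) = c • f z := by
  rw [← algebraMap_smul B c z, map_smul, algebraMap_smul]

theorem HProj_comp (g g' : Module.End ℂ F.E) (z : TT F B M) :
    op F M (1 : B) g 1 (op F M 1 g' 1 z) = op F M 1 (g * g') 1 z := by
  have h := LinearMap.congr_fun (op_mul F M (1 : B) 1 1 1 g g') z
  rw [LinearMap.comp_apply, one_mul] at h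
  exact h

/-- polynomials in the number operator on eigenvectors -/
theorem HProj_eval (P : Polynomial ℂ) (k : ℂ) (z : TT F B M) (hz : NN F M z = k • z) :
    op F M (1 : B) (Polynomial.aeval F.N P) 1 z = P.eval k • z := by
  induction P using Polynomial.induction_on with
  | C a =>
    rw [Polynomial.aeval_C, Polynomial.eval_C, Algebra.algebraMap_eq_smul_one, HProj_smul_g, op_one]
    rfl
  | add p q hp hq =>
    rw [map_add, op_add_g, LinearMap.add_apply, hp, hq, Polynomial.eval_add, add_smul]
  | monomial m a h =>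
    rw [pow_succ, ← mul_assoc, map_mul, Polynomial.aeval_X, ← HProj_comp]
    have h1 : op F M (1 : B) F.N 1 z = k • z := hz
    rw [h1, HProj_lin, h, Polynomial.eval_mul (p := Polynomial.C a * Polynomial.X ^ m),
      Polynomial.eval_X, smul_smul, mul_comm k]

theorem HProj_comm (s : Equiv.Perm (Fin n)) (P : Polynomial ℂ) :
    F.g s * Polynomial.aeval F.N P = Polynomial.aeval F.N P * F.g s := by
  induction P using Polynomial.induction_on with
  | C a =>
    rw [Polynomial.aeval_C]
    exact (Algebra.commutes a (F.g s)).symm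
  | add p q hp hq =>
    rw [map_add, mul_add, add_mul, hp, hq]
  | monomial m a h =>
    rw [pow_succ, ← mul_assoc, map_mul, Polynomial.aeval_X, ← mul_assoc, h, mul_assoc, F.N_g,
      mul_assoc]

theorem HProj_act (H : HD n B I) (s : Equiv.Perm (Fin n)) (P : Polynomial ℂ) (z : TT F B M) :
    H.act F M s (op F M 1 (Polynomial.aeval F.N P) 1 z) =
      op F M 1 (Polynomial.aeval F.N P) 1 (H.act F M s z) := by
  have h : H.act F M s ∘ₗ op F M 1 (Polynomial.aeval F.N P) 1 =
      op F M 1 (Polynomial.aeval F.N P) 1 ∘ₗ H.act F M s := by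
    unfold HD.act
    rw [op_mul, op_mul, HProj_comm]
    simp only [one_mul, mul_one]
  exact LinearMap.congr_fun h z

/-- PROOF. `Fock.N_prod`: the polynomial P = ∏_{j ≤ n} (X - j) kills F.N, hence it kills NN F M
(NN^j = op 1 N^j 1). For z with NN z = k z one gets P(k) z = 0 and P(k) = ∏ (k - j) ≠ 0 for k > n. -/
theorem HD.KK_eq_bot (H : HD n B I) (k : ℕ) (hk : n < k) : H.KK F M k = ⊥ := by
  rw [eq_bot_iff]
  intro z hz
  rw [HD.mem_KK] at hz
  rw [Submodule.mem_bot]
  have h1 := HProj_eval F M (∏ j ∈ Finset.range (n + 1), (Polynomial.X - Polynomial.C (j : ℂ)))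
    (k : ℂ) z hz.2
  rw [F.N_prod, op_zero_g, LinearMap.zero_apply, Polynomial.eval_prod] at h1
  rcases smul_eq_zero.1 h1.symm with h2 | h2
  · exfalso
    rw [Finset.prod_eq_zero_iff] at h2
    obtain ⟨j, hj, h3⟩ := h2
    rw [Polynomial.eval_sub, Polynomial.eval_X, Polynomial.eval_C, sub_eq_zero] at h3
    have h4 : k = j := by exact_mod_cast h3
    have := Finset.mem_range.1 hj
    omega
  · exact h2

/-- PROOF. TT F B M is a free B-module (`TT_free`), hence projective. KK k
is a direct summand: let Q k = ∏_{j ≤ n, j ≠ k} (X - j) / (k - j) (a polynomial over ℂ), π = op 1 (aeval N (Q k)) 1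
and a = (1/n!) • Av. They commute (`Av_props`: Av commutes with NN, hence with polynomials in NN).
π ∘ a maps TT to KK k: the image is invariant, and (NN - k) π = 0 because (X - k) * Q k is a multiple of
the polynomial of `Fock.N_prod`. On KK k it is the identity: Av z = n! z, and Q k (k) = 1 with NN z = k z.
Conclude by `Module.Projective.of_split`. -/
theorem HD.KK_proj (H : HD n B I) (k : ℕ) (hk : k ≤ n) : Module.Projective B (H.KK F M k) := by
  set R : Polynomial ℂ := ∏ j ∈ (Finset.range (n + 1)).erase k,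
    (Polynomial.X - Polynomial.C (j : ℂ)) with hR
  set c₀ : ℂ := (n.factorial : ℂ) * R.eval (k : ℂ) with hc₀
  have hc0 : c₀ ≠ 0 := by
    rw [hc₀]
    refine mul_ne_zero (by exact_mod_cast n.factorial_ne_zero) ?_
    rw [hR, Polynomial.eval_prod, Finset.prod_ne_zero_iff]
    intro j hj
    rw [Polynomial.eval_sub, Polynomial.eval_X, Polynomial.eval_C, sub_ne_zero]
    intro h
    have h1 : k = j := by exact_mod_cast h
    exact (Finset.ne_of_mem_erase hj) h1.symm
  set Q : Polynomial ℂ := Polynomial.C c₀⁻¹ * R with hQ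
  have hXQ : Polynomial.aeval F.N ((Polynomial.X - Polynomial.C (k : ℂ)) * Q) = 0 := by
    have h1 : (Polynomial.X - Polynomial.C (k : ℂ)) * Q = Polynomial.C c₀⁻¹ *
        ∏ j ∈ Finset.range (n + 1), (Polynomial.X - Polynomial.C (j : ℂ)) := by
      rw [hQ, hR, ← Finset.mul_prod_erase (Finset.range (n + 1))
        (fun j : ℕ => (Polynomial.X - Polynomial.C (j : ℂ))) (Finset.mem_range.2 (by omega : k < n + 1))]
      ring
    rw [h1, map_mul, F.N_prod, mul_zero]
  have hNQ : F.N * Polynomial.aeval F.N Q = (k : ℂ) • Polynomial.aeval F.N Q := by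
    rw [map_mul, map_sub, Polynomial.aeval_X, Polynomial.aeval_C, sub_mul, sub_eq_zero] at hXQ
    rw [hXQ, Algebra.algebraMap_eq_smul_one, smul_mul_assoc, one_mul]
  have hmem : ∀ z : TT F B M, op F M 1 (Polynomial.aeval F.N Q) 1 (H.Av F M z) ∈ H.KK F M k := by
    intro z
    rw [HD.mem_KK]
    refine ⟨fun s => ?_, ?_⟩
    · rw [HProj_act]
      have h1 := LinearMap.congr_fun ((H.Av_props F M).1 s) z
      rw [LinearMap.comp_apply] at h1
      rw [h1]
    · have h1 : NN F M (op F M 1 (Polynomial.aeval F.N Q) 1 (H.Av F M z)) =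
          op F M 1 (F.N * Polynomial.aeval F.N Q) 1 (H.Av F M z) := HProj_comp F M _ _ _
      rw [h1, hNQ, HProj_smul_g]
  have hid : ∀ z ∈ H.KK F M k, op F M 1 (Polynomial.aeval F.N Q) 1 (H.Av F M z) = z := by
    intro z hz
    rw [HD.mem_KK] at hz
    rw [(H.Av_props F M).2.2.2.2 z hz.1, HProj_lin, HProj_eval F M Q (k : ℂ) z hz.2, smul_smul,
      hQ, Polynomial.eval_mul, Polynomial.eval_C]
    have h1 : (n.factorial : ℂ) * (c₀⁻¹ * R.eval (k : ℂ)) = 1 := by
      rw [mul_left_comm, ← hc₀, inv_mul_cancel₀ hc0]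
    rw [h1, one_smul]
  have : Module.Free B (TT F B M) := TT_free F M
  refine Module.Projective.of_split (H.KK F M k).subtype
    (((op F M 1 (Polynomial.aeval F.N Q) 1) ∘ₗ H.Av F M).codRestrict (H.KK F M k) hmem) ?_
  refine LinearMap.ext fun z => Subtype.ext ?_
  exact hid z.1 z.2

/-- The differentials between the terms. -/
noncomputable def HD.dK (H : HD n B I) (i : ℕ) :
    ↥(H.KK F M (i + 1)) →ₗ[B] ↥(H.KK F M i) :=
  (H.dd F M).restrict (fun _ hz => H.dd_mem F M i hz)

theorem HD.dK_coe (H : HD n B I) (i : ℕ) (z : ↥(H.KK F M (i + 1))) :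
    (H.dK F M i z).1 = H.dd F M z.1 := rfl

end CA1492.D8
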