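import Mathlib
import Pool.Agent.Lib.MP_ca1492_al.D8.HBal
import Pool.Agent.Lib.MP_ca1492_al.D8.HProj

/-!
M is a direct summand of the cokernel of the last differential.
-/

namespace CA1492.D8

open MvPolynomial TensorProduct

variable {n : ℕ} {B : Type} [Ring B] [Algebra ℂ B] {I : Type} [Fintype I] [DecidableEq I]

variable (F : Fock n) (M : Type) [AddCommGroup M] [Module ℂ M] [Module B M] [IsScalarTower ℂ B M]

/-- The element Av (b ⊗ (Om ⊗ m)) of KK 0. PROOF: `Av_props`, `N_Om`. -/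
theorem HD.bet_mem (H : HD n B I) (b : B) (m : M) :
    H.Av F M (tt F M b (F.Om ⊗ₜ[ℂ] m)) ∈ H.KK F M 0 := by
  rw [HD.mem_KK]
  refine ⟨fun s => LinearMap.congr_fun ((H.Av_props F M).1 s) _, ?_⟩
  have h1 := LinearMap.congr_fun (H.Av_props F M).2.2.2.1 (tt F M b (F.Om ⊗ₜ[ℂ] m))
  rw [LinearMap.comp_apply, LinearMap.comp_apply] at h1
  rw [← h1]
  unfold NN
  rw [op_tt, F.N_Om, zero_tmul, map_zero, map_zero, Nat.cast_zero, zero_smul]

/-- The element Av (b ⊗ (w k Om ⊗ m)) of KK 1. -/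
theorem HSep_w_mem (H : HD n B I) (k : Fin n) (b : B) (m : M) :
    H.Av F M (tt F M b (F.w k F.Om ⊗ₜ[ℂ] m)) ∈ H.KK F M (0 + 1) := by
  rw [HD.mem_KK]
  refine ⟨fun s => LinearMap.congr_fun ((H.Av_props F M).1 s) _, ?_⟩
  have h1 := LinearMap.congr_fun (H.Av_props F M).2.2.2.1 (tt F M b (F.w k F.Om ⊗ₜ[ℂ] m))
  rw [LinearMap.comp_apply, LinearMap.comp_apply] at h1
  rw [← h1]
  have h2 : F.N (F.w k F.Om) = F.w k F.Om := by
    have h3 := LinearMap.congr_fun (F.N_w k) F.Om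
    rw [LinearMap.add_apply, Module.End.mul_apply, Module.End.mul_apply, F.N_Om, map_zero,
      zero_add] at h3
    exact h3
  unfold NN
  rw [op_tt, h2, mul_one, one_smul, zero_add, Nat.cast_one, one_smul]

theorem HSep_dd (H : HD n B I) (k : Fin n) (b : B) (m : M) :
    H.dd F M (tt F M b (F.w k F.Om ⊗ₜ[ℂ] m)) =
      tt F M (b * H.xt k) (F.Om ⊗ₜ[ℂ] m) - tt F M b (F.Om ⊗ₜ[ℂ] (H.xt k • m)) := by
  have hcw : ∀ l, F.c l (F.w k F.Om) = if l = k then F.Om else 0 := by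
    intro l
    have h := LinearMap.congr_fun (F.cw l k) F.Om
    rw [LinearMap.add_apply, Module.End.mul_apply, Module.End.mul_apply, F.c_Om, map_zero,
      add_zero] at h
    rw [h]
    split_ifs
    · rfl
    · rfl
  unfold HD.dd
  rw [LinearMap.sum_apply, Finset.sum_eq_single k]
  · rw [LinearMap.sub_apply, op_tt, op_tt, hcw, if_pos rfl, mul_one, one_smul]
  · intro l _ hl
    rw [LinearMap.sub_apply, op_tt, op_tt, hcw, if_neg hl, zero_tmul, zero_tmul, map_zero,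
      map_zero, sub_zero]
  · intro h
    exact absurd (Finset.mem_univ _) h

/-- The element of KK 0. -/
noncomputable def HSep_bk (H : HD n B I) (b : B) (m : M) : ↥(H.KK F M 0) :=
  ⟨H.Av F M (tt F M b (F.Om ⊗ₜ[ℂ] m)), H.bet_mem F M b m⟩

/-- Its class. -/
noncomputable def HSep_be (H : HD n B I) (b : B) (m : M) :
    ↥(H.KK F M 0) ⧸ LinearMap.range (H.dK F M 0) :=
  (LinearMap.range (H.dK F M 0)).mkQ (HSep_bk F M H b m)

theorem HSep_add (H : HD n B I) (b b' : B) (m : M) :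
    HSep_be F M H (b + b') m = HSep_be F M H b m + HSep_be F M H b' m := by
  unfold HSep_be
  rw [← map_add]
  congr 1
  refine Subtype.ext ?_
  change H.Av F M (tt F M (b + b') (F.Om ⊗ₜ[ℂ] m)) =
    H.Av F M (tt F M b (F.Om ⊗ₜ[ℂ] m)) + H.Av F M (tt F M b' (F.Om ⊗ₜ[ℂ] m))
  rw [map_add, LinearMap.add_apply, map_add]

theorem HSep_add' (H : HD n B I) (b : B) (m m' : M) :
    HSep_be F M H b (m + m') = HSep_be F M H b m + HSep_be F M H b m' := by
  unfold HSep_be
  rw [← map_add]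
  congr 1
  refine Subtype.ext ?_
  change H.Av F M (tt F M b (F.Om ⊗ₜ[ℂ] (m + m'))) =
    H.Av F M (tt F M b (F.Om ⊗ₜ[ℂ] m)) + H.Av F M (tt F M b (F.Om ⊗ₜ[ℂ] m'))
  rw [tmul_add, map_add, map_add]

theorem HSep_l (H : HD n B I) (b' b : B) (m : M) :
    HSep_be F M H (b' * b) m = b' • HSep_be F M H b m := by
  unfold HSep_be
  rw [← map_smul]
  congr 1
  refine Subtype.ext ?_
  change H.Av F M (tt F M (b' * b) (F.Om ⊗ₜ[ℂ] m)) = b' • H.Av F M (tt F M b (F.Om ⊗ₜ[ℂ] m))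
  rw [← map_smul, smul_tt]

theorem HSep_c (H : HD n B I) (b : B) (c : ℂ) (m : M) :
    HSep_be F M H (b * algebraMap ℂ B c) m = HSep_be F M H b (algebraMap ℂ B c • m) := by
  unfold HSep_be
  congr 1
  refine Subtype.ext ?_
  change H.Av F M (tt F M (b * algebraMap ℂ B c) (F.Om ⊗ₜ[ℂ] m)) =
    H.Av F M (tt F M b (F.Om ⊗ₜ[ℂ] (algebraMap ℂ B c • m)))
  rw [← Algebra.commutes, ← Algebra.smul_def, algebraMap_smul, tmul_smul, map_smul, map_smul,
    LinearMap.smul_apply]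

theorem HSep_r (H : HD n B I) (b : B) (t : Equiv.Perm (Fin n)) (m : M) :
    HSep_be F M H (b * H.rho t) m = HSep_be F M H b (H.rho t • m) := by
  unfold HSep_be
  congr 1
  refine Subtype.ext ?_
  change H.Av F M (tt F M (b * H.rho t) (F.Om ⊗ₜ[ℂ] m)) =
    H.Av F M (tt F M b (F.Om ⊗ₜ[ℂ] (H.rho t • m)))
  have h := LinearMap.congr_fun (H.Av_rho F M t) (tt F M b (F.Om ⊗ₜ[ℂ] m))
  rw [LinearMap.comp_apply, LinearMap.comp_apply, op_tt, op_tt, F.g_Om, one_smul, mul_one] at h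
  exact h

theorem HSep_t (H : HD n B I) (b : B) (k : Fin n) (m : M) :
    HSep_be F M H (b * H.xt k) m = HSep_be F M H b (H.xt k • m) := by
  rw [← sub_eq_zero]
  unfold HSep_be
  rw [← map_sub]
  refine (Submodule.Quotient.mk_eq_zero _).2 ?_
  refine ⟨⟨_, HSep_w_mem F M H k b m⟩, Subtype.ext ?_⟩
  rw [HD.dK_coe]
  have h := LinearMap.congr_fun (H.Av_props F M).2.2.1 (tt F M b (F.w k F.Om ⊗ₜ[ℂ] m))
  rw [LinearMap.comp_apply, LinearMap.comp_apply, HSep_dd, map_sub] at h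
  exact h.symm

/-- The elements a with β (b * a) m = β b (a • m). -/
noncomputable def HSep_P (H : HD n B I) : Subalgebra ℂ B where
  carrier := {a | ∀ b m, HSep_be F M H (b * a) m = HSep_be F M H b (a • m)}
  mul_mem' := by
    intro a a' ha ha' b m
    rw [← mul_assoc, ha', ha, mul_smul]
  add_mem' := by
    intro a a' ha ha' b m
    rw [mul_add, HSep_add, ha, ha', add_smul, HSep_add']
  algebraMap_mem' := fun c b m => HSep_c F M H b c m

theorem HSep_x (H : HD n B I) (b : B) (k : Fin n) (m : M) :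
    HSep_be F M H (b * H.px (X k)) m = HSep_be F M H b (H.px (X k) • m) := by
  have h1 : H.px (X k) ∈ HSep_P F M H := by
    have h2 : H.px (X k) = H.xt k - (1 / 2 : ℂ) • (∑ j ∈ Finset.univ.filter (fun j => k < j),
        H.rho (Equiv.swap j k) - ∑ j ∈ Finset.univ.filter (fun j => j < k),
          H.rho (Equiv.swap j k)) := by
      rw [HD.xt, add_sub_cancel_right]
    rw [h2]
    have h3 : H.xt k ∈ HSep_P F M H := fun b m => HSep_t F M H b k m
    have h4 : ∀ t, H.rho t ∈ HSep_P F M H := fun t b m => HSep_r F M H b t m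
    exact sub_mem h3 (Subalgebra.smul_mem _ (sub_mem (sum_mem fun j _ => h4 _)
      (sum_mem fun j _ => h4 _)) _)
  exact h1 b m

/-- The map b ⊗ (x ⊗ m) ↦ vac x • b • m. -/
noncomputable def HSep_mu : TT F B M →ₗ[B] M :=
  TT_lift F M ((TensorProduct.lid ℂ M).toLinearMap ∘ₗ F.vac.rTensor M)

theorem HSep_mu_tt (b : B) (x : F.E) (m : M) :
    HSep_mu F M (tt F M b (x ⊗ₜ[ℂ] m)) = b • (F.vac x • m) := by
  unfold HSep_mu
  rw [TT_lift_tt, LinearMap.comp_apply, LinearMap.rTensor_tmul]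
  rfl

theorem HSep_mu_dd (H : HD n B I) : HSep_mu F M ∘ₗ H.dd F M = 0 := by
  refine TT_ext F M fun ξ => ?_
  rw [LinearMap.comp_apply, LinearMap.zero_apply]
  induction ξ using TensorProduct.induction_on with
  | zero => rw [map_zero, map_zero, map_zero]
  | add x y hx hy => rw [map_add, map_add, map_add, hx, hy, add_zero]
  | tmul x m =>
    unfold HD.dd
    rw [LinearMap.sum_apply, map_sum]
    refine Finset.sum_eq_zero fun k _ => ?_
    rw [LinearMap.sub_apply, op_tt, op_tt, map_sub, HSep_mu_tt, HSep_mu_tt, one_mul, mul_one,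
      one_smul, one_smul, smul_comm, sub_self]

theorem HSep_mu_Av (H : HD n B I) (b : B) (m : M) :
    HSep_mu F M (H.Av F M (tt F M b (F.Om ⊗ₜ[ℂ] m))) = (n.factorial : ℂ) • (b • m) := by
  unfold HD.Av
  rw [LinearMap.sum_apply, map_sum]
  have h : ∀ s : Equiv.Perm (Fin n), HSep_mu F M (H.act F M s (tt F M b (F.Om ⊗ₜ[ℂ] m))) =
      b • m := by
    intro s
    unfold HD.act
    rw [op_tt, HSep_mu_tt, F.vac_g, F.vac_Om, one_smul, smul_smul, mul_assoc, ← map_mul,
      inv_mul_cancel, map_one, mul_one]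
  rw [Finset.sum_congr rfl fun s _ => h s, Finset.sum_const, Finset.card_univ, Fintype.card_perm,
    Fintype.card_fin, ← Nat.cast_smul_eq_nsmul ℂ]

/-- The splitting. PROOF. Let C = KK 0 ⧸ range (dK 0) and β b m = class of Av (b ⊗ (Om ⊗ m)) in C.
β is additive in both arguments and β (b' * b) m = b' • β b m (Av is B-linear).
β (b * rho t) m = β b (rho t • m): `Av_rho` and g t Om = Om.
β (b * xt k) m = β b (xt k • m): the element y = Av (b ⊗ (w k Om ⊗ m)) lies in KK 1 (N (w k Om) = w k Om by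
`N_w`, `N_Om`) and dd y = Av (dd (b ⊗ (w k Om ⊗ m))) = Av ((b * xt k) ⊗ (Om ⊗ m)) - Av (b ⊗ (Om ⊗ xt k • m)),
because c l (w k Om) = δ_{kl} Om (`cw`, `c_Om`). As px (X k) = xt k - (1/2)(sum of ± rho), also
β (b * px (X k)) m = β b (px (X k) • m). Scalars: clear (algebraMap c * b = b * algebraMap c and
⊗ over ℂ). So by `balanced` J m = ∑ β (e i) (e i • m) is B-linear M → C. Define μ₀ : TT → M as the
B-linear map b ⊗ (x ⊗ m) ↦ vac x • b • m (`TT_lift`). μ₀ ∘ dd = 0 (both parts give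
vac (c k x) • b • xt k • m), so μ₀ restricted to KK 0 descends to μ : C → M. And μ₀ (Av (b ⊗ (Om ⊗ m))) =
∑_σ vac (g σ Om) • (b * rho σ⁻¹) • rho σ • m = n! • b • m. Hence μ (J m) = n! • ∑ e i • e i • m = n! • m.
Take j = J and (n!)⁻¹ • μ. -/
theorem HD.split (H : HD n B I) :
    ∃ (j : M →ₗ[B] (↥(H.KK F M 0) ⧸ LinearMap.range (H.dK F M 0)))
      (μ : (↥(H.KK F M 0) ⧸ LinearMap.range (H.dK F M 0)) →ₗ[B] M), μ ∘ₗ j = LinearMap.id := by
  let J : M →ₗ[B] (↥(H.KK F M 0) ⧸ LinearMap.range (H.dK F M 0)) :=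
    { toFun := fun m => ∑ i, HSep_be F M H (H.e i) (H.e i • m)
      map_add' := fun m m' => by
        rw [← Finset.sum_add_distrib]
        refine Finset.sum_congr rfl fun i _ => ?_
        rw [smul_add, HSep_add']
      map_smul' := fun b m => H.balanced (HSep_be F M H) (HSep_add F M H) (HSep_add' F M H)
        (HSep_l F M H) (HSep_c F M H) (HSep_x F M H) (HSep_r F M H) b m }
  let μ : (↥(H.KK F M 0) ⧸ LinearMap.range (H.dK F M 0)) →ₗ[B] M :=
    Submodule.liftQ (LinearMap.range (H.dK F M 0)) (HSep_mu F M ∘ₗ (H.KK F M 0).subtype) (by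
      rintro _ ⟨z, rfl⟩
      rw [LinearMap.mem_ker, LinearMap.comp_apply, Submodule.subtype_apply, HD.dK_coe]
      exact LinearMap.congr_fun (HSep_mu_dd F M H) z.1)
  have hμ : ∀ b m, μ (HSep_be F M H b m) = (n.factorial : ℂ) • (b • m) := by
    intro b m
    exact HSep_mu_Av F M H b m
  have hJ : ∀ m, μ (J m) = (n.factorial : ℂ) • m := by
    intro m
    change μ (∑ i, HSep_be F M H (H.e i) (H.e i • m)) = _
    rw [map_sum, Finset.sum_congr rfl fun i _ => hμ (H.e i) (H.e i • m), ← Finset.smul_sum]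
    congr 1
    have h1 : ∀ i, H.e i • H.e i • m = H.e i • m := by
      intro i
      rw [smul_smul, H.e_mul, if_pos rfl]
    rw [Finset.sum_congr rfl fun i _ => h1 i, ← Finset.sum_smul, H.e_sum, one_smul]
  refine ⟨J, ((n.factorial : ℂ)⁻¹) • μ, LinearMap.ext fun m => ?_⟩
  rw [LinearMap.comp_apply, LinearMap.smul_apply, hJ, smul_smul, inv_mul_cancel₀, one_smul,
    LinearMap.id_apply]
  exact_mod_cast n.factorial_ne_zero

end CA1492.D8
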