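import Mathlib

/-!
A resolution of length n by projective modules gives projective dimension at most n.
-/

namespace CA1492.D8

open CategoryTheory

theorem ResDim_step {B : Type} [Ring B] {M N : Type} [AddCommGroup M] [Module B M]
    [AddCommGroup N] [Module B N] (hM : Module.Projective B M) (f : M →ₗ[B] N)
    (hf : Function.Surjective f) (U : Submodule B M) (hU : LinearMap.ker f = U) (m : ℕ)
    (h : HasProjectiveDimensionLT (ModuleCat.of B U) m) :
    HasProjectiveDimensionLT (ModuleCat.of B N) (m + 1) := by
  subst hU
  have h1 : Projective (ModuleCat.of B M) := (IsProjective.iff_projective M).1 hM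
  have h2 : HasProjectiveDimensionLT (ModuleCat.of B M) (m + 1) :=
    hasProjectiveDimensionLT_of_ge (ModuleCat.of B M) 1 (m + 1) (by omega)
  exact (LinearMap.shortExact_shortComplexKer hf).hasProjectiveDimensionLT_X₃ m h h2

/-- PROOF. Z i := range (d i) ⊆ K i. There are short exact sequences
0 → Z (i+1) → K (i+1) → Z i → 0 (kernel of d i = range (d (i+1)) by hdd, hex) and
0 → Z 0 → K 0 → K 0 ⧸ Z 0 → 0 in ModuleCat B (`ModuleCat.shortComplex_shortExact` or
`ShortComplex.ShortExact` from injective/surjective/exact). Claim: for i ≤ n,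
HasProjectiveDimensionLT (Z i) (n - i). i = n: Z n = 0 as K (n+1) = 0
(`Limits.IsZero.hasProjectiveDimensionLT_zero`). Step from i + 1 to i:
`ShortComplex.ShortExact.hasProjectiveDimensionLT_X₃` with K (i+1) projective
(`Module.Projective` gives `Projective (ModuleCat.of B _)`: `IsProjective.iff_projective`;
`Projective X → HasProjectiveDimensionLT X 1` is an instance; monotonicity
`hasProjectiveDimensionLT_of_ge`). -/
theorem resdim {B : Type} [Ring B] (n : ℕ) (K : ℕ → Type) [∀ i, AddCommGroup (K i)]
    [∀ i, Module B (K i)] (d : ∀ i, K (i + 1) →ₗ[B] K i)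
    (hp : ∀ i, i ≤ n → Module.Projective B (K i)) (h0 : ∀ z : K (n + 1), z = 0)
    (hdd : ∀ i z, d i (d (i + 1) z) = 0) (hex : ∀ i z, d i z = 0 → ∃ y, d (i + 1) y = z) :
    HasProjectiveDimensionLT (ModuleCat.of B (K 0 ⧸ LinearMap.range (d 0))) (n + 1) := by
  have key : ∀ (j i : ℕ), i + j = n →
      HasProjectiveDimensionLT (ModuleCat.of B (LinearMap.range (d i))) j := by
    intro j
    induction j with
    | zero =>
      intro i hi
      obtain rfl : i = n := hi
      have hs : Subsingleton (LinearMap.range (d i)) := by
        refine ⟨fun a b => Subtype.ext ?_⟩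
        obtain ⟨x, hx⟩ := a.2
        obtain ⟨y, hy⟩ := b.2
        rw [← hx, ← hy, h0 x, h0 y]
      exact (ModuleCat.isZero_of_subsingleton
        (ModuleCat.of B (LinearMap.range (d i)))).hasProjectiveDimensionLT_zero
    | succ j ih =>
      intro i hi
      refine ResDim_step (hp (i + 1) (by omega)) (d i).rangeRestrict
        (LinearMap.surjective_rangeRestrict (d i)) (LinearMap.range (d (i + 1))) ?_ j
        (ih (i + 1) (by omega))
      rw [LinearMap.ker_rangeRestrict]
      ext z
      constructor
      · intro hz
        exact hex i z hz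
      · rintro ⟨y, rfl⟩
        exact hdd i y
  exact ResDim_step (hp 0 (Nat.zero_le n)) (LinearMap.range (d 0)).mkQ
    (Submodule.mkQ_surjective _) (LinearMap.range (d 0)) (Submodule.ker_mkQ _) n (key n 0 (by omega))

end CA1492.D8
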