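import Mathlib
import Pool.Agent.Lib.MP_ca1492_al.D8.HEx
import Pool.Agent.Lib.MP_ca1492_al.D8.HSep
import Pool.Agent.Lib.MP_ca1492_al.D8.ResDim

/-!
Every B-module has projective dimension at most n.
-/

namespace CA1492.D8

open CategoryTheory

variable {n : ℕ} {B : Type} [Ring B] [Algebra ℂ B] {I : Type} [Fintype I] [DecidableEq I]

/-- PROOF. F = `fock n`. `resdim` with K i = KK F M i, d = dK (`KK_proj`, `KK_eq_bot`, `dd_zero`, `exact`)
gives the bound for the cokernel; M is a retract of it (`split`), `Retract.hasProjectiveDimensionLT`. -/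
theorem HD.pd (H : HD n B I) (M : Type) [AddCommGroup M] [Module ℂ M] [Module B M]
    [IsScalarTower ℂ B M] : HasProjectiveDimensionLT (ModuleCat.of B M) (n + 1) := by
  have h1 := resdim (B := B) n (fun i => ↥(H.KK (fock n) M i)) (H.dK (fock n) M)
    (fun i hi => H.KK_proj (fock n) M i hi)
    (fun z => Subtype.ext ((Submodule.mem_bot B).1
      ((H.KK_eq_bot (fock n) M (n + 1) (Nat.lt_succ_self n)).le z.2)))
    (fun i z => Subtype.ext (H.dd_zero (fock n) M (H.mem_KK (fock n) M _ _ |>.1 z.2).1))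
    (fun i z hz => by
      obtain ⟨y, hy, hy'⟩ := H.exact (fock n) M (i + 1) (Nat.succ_pos i) z.2
        (congrArg Subtype.val hz)
      exact ⟨⟨y, hy⟩, Subtype.ext hy'⟩)
  obtain ⟨j, μ, hjμ⟩ := H.split (fock n) M
  have r : Retract (ModuleCat.of B M)
      (ModuleCat.of B (↥(H.KK (fock n) M 0) ⧸ LinearMap.range (H.dK (fock n) M 0))) :=
    { i := ModuleCat.ofHom j
      r := ModuleCat.ofHom μ
      retract := by
        rw [← ModuleCat.ofHom_comp, hjμ]
        rfl }
  exact r.hasProjectiveDimensionLT (n + 1)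

end CA1492.D8
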