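import Mathlib
import Pool.Agent.Lib.MP_ca1492_al.Alg.PBW
import Pool.Agent.Lib.MP_ca1492_al.D8.HD

/-!
Symmetric polynomials with non-zero constant term: central non-zero-divisors of `R D n`.
-/

namespace CA1492.D8

open MvPolynomial

variable {D : Dat} {n : ℕ}

/-- Symmetric polynomials with non-zero constant term. -/
noncomputable def SymS (D : Dat) (n : ℕ) : Submonoid (R D n) where
  carrier := {x | ∃ f : PP n, f.IsSymmetric ∧ constantCoeff f ≠ 0 ∧ x = pol f}
  mul_mem' := by
    rintro a b ⟨f, hf, hf0, rfl⟩ ⟨g, hg, hg0, rfl⟩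
    refine ⟨f * g, hf.mul hg, ?_, (map_mul _ _ _).symm⟩
    rw [map_mul]
    exact mul_ne_zero hf0 hg0
  one_mem' := ⟨1, IsSymmetric.one, by simp, (map_one _).symm⟩

/-- Symmetric polynomials are central. PROOF. `R_induction` for a. Scalars: `Algebra.commutes`. ew: `pol_ew`.
yk: yk k = pol (X k), PP n is commutative. ps r: if r + 1 < n is false then ps r = 0 (`isRep_R`, S_out).
Otherwise `ps_pol`: as rename (sw n r) f = f, (X r - X (r+1)) * f' = 0, so f' = 0 (X r ≠ X (r+1), domain), and
ps r * pol f * ew w = pol f * ps r * ew w for all w; sum over w (`ew_facts`). Sums and products clear. -/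
theorem pol_comm (f : PP n) (hf : f.IsSymmetric) (a : R D n) : pol f * a = a * pol f := by
  induction a using R_induction with
  | hc c => exact (Algebra.commutes c _).symm
  | he w => exact pol_ew f w
  | hy k => rw [← pol_X, ← map_mul, ← map_mul, mul_comm]
  | hs r =>
    by_cases hr : r + 1 < n
    · obtain ⟨f', h1, h2⟩ := ps_pol (D := D) r hr f
      have hren : rename (sw n r) f = f := hf (sw n r)
      rw [hren, sub_self, mul_eq_zero] at h1
      have hf' : f' = 0 := by
        rcases h1 with h1 | h1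
        · exfalso
          have h3 : (X ⟨r, by omega⟩ : PP n) = X ⟨r + 1, hr⟩ := sub_eq_zero.mp h1
          have h4 := X_injective h3
          simp only [Fin.mk.injEq] at h4
          omega
        · exact h1
      rw [(ew_facts (D := D) (n := n)).2.2.1 (pol f * ps r),
        (ew_facts (D := D) (n := n)).2.2.1 (ps r * pol f)]
      refine Finset.sum_congr rfl fun w _ => ?_
      rw [h2, hren, hf', map_zero, zero_mul, ite_self, add_zero]
    · rw [(isRep_R D n).S_out r hr, mul_zero, zero_mul]
  | ha x y hx hy => rw [mul_add, add_mul, hx, hy]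
  | hm x y hx hy => rw [← mul_assoc, hx, mul_assoc, hy, mul_assoc]

theorem SymS_comm (s : R D n) (hs : s ∈ SymS D n) (a : R D n) : s * a = a * s := by
  obtain ⟨f, hf, _, rfl⟩ := hs
  exact pol_comm f hf a

/-- PROOF. s = pol g, g ≠ 0. a = ∑ CQ p * pol (f p w) * ew w (`pbw_span`); s * a = a * s =
∑ CQ p * pol (f p w * g) * ew w (ew w commutes with pol g), which equals the same sum with 0 coefficients;
`pbw_unique`: f p w * g = 0, so f p w = 0. -/
theorem SymS_nzd (s : R D n) (hs : s ∈ SymS D n) (a : R D n) (h : s * a = 0) : a = 0 := by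
  obtain ⟨g, hg, hg0, rfl⟩ := hs
  have hgne : g ≠ 0 := by
    rintro rfl
    exact hg0 (map_zero _)
  obtain ⟨f, hf⟩ := pbw_span a
  rw [pol_comm g hg a, hf] at h
  have h1 : (∑ p, ∑ w, CQ p * pol (f p w * g) * ew w : R D n) =
      ∑ p, ∑ w, CQ p * pol ((fun (_ : Sq n) (_ : Wd D n) => (0 : PP n)) p w) * ew w := by
    have h2 : (∑ p : Sq n, ∑ w : Wd D n,
        CQ p * pol ((fun (_ : Sq n) (_ : Wd D n) => (0 : PP n)) p w) * ew w : R D n) = 0 := by
      refine Finset.sum_eq_zero fun p _ => Finset.sum_eq_zero fun w _ => ?_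
      rw [map_zero, mul_zero, zero_mul]
    rw [h2, ← h, Finset.sum_mul]
    refine Finset.sum_congr rfl fun p _ => ?_
    rw [Finset.sum_mul]
    refine Finset.sum_congr rfl fun w _ => ?_
    rw [map_mul, ← mul_assoc, mul_assoc _ (pol g) (ew w), pol_ew, ← mul_assoc]
  have h3 := pbw_unique (fun p w => f p w * g) _ h1
  rw [hf]
  refine Finset.sum_eq_zero fun p _ => Finset.sum_eq_zero fun w _ => ?_
  have h4 : f p w * g = 0 := congrFun (congrFun h3 p) w
  rw [(mul_eq_zero.mp h4).resolve_right hgne, map_zero, mul_zero, zero_mul]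

end CA1492.D8
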