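import Mathlib
import Pool.Agent.Lib.MP_ca1492_al.D8.RCen

/-!
Finite dimensional modules with nilpotent y: the denominators act invertibly.
-/

namespace CA1492.D8

open MvPolynomial

variable {D : Dat} {n : ℕ}

/-- The action of the polynomials on a module. -/
noncomputable def RMod_act (D : Dat) (n : ℕ) (V : Type) [AddCommGroup V] [Module ℂ V]
    [Module (R D n) V] [IsScalarTower ℂ (R D n) V] : PP n →ₐ[ℂ] Module.End ℂ V :=
  (Algebra.lsmul ℂ ℂ V : R D n →ₐ[ℂ] Module.End ℂ V).comp pol

theorem RMod_comm (V : Type) [AddCommGroup V] [Module ℂ V]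
    [Module (R D n) V] [IsScalarTower ℂ (R D n) V] (p q : PP n) :
    Commute (RMod_act D n V p) (RMod_act D n V q) :=
  (Commute.all p q).map (RMod_act D n V)

theorem RMod_nil (V : Type) [AddCommGroup V] [Module ℂ V]
    [Module (R D n) V] [IsScalarTower ℂ (R D n) V]
    (hnil : ∀ k : Fin n, ∃ N : ℕ, ∀ v : V, ((yk k : R D n) ^ N) • v = 0)
    (p : PP n) (hp : constantCoeff p = 0) : IsNilpotent (RMod_act D n V p) := by
  have hX : ∀ k : Fin n, IsNilpotent (RMod_act D n V (X k)) := by
    intro k
    obtain ⟨N, hN⟩ := hnil k
    refine ⟨N, ?_⟩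
    ext v
    rw [← map_pow]
    change (pol (X k ^ N) : R D n) • v = 0
    rw [map_pow, pol_X]
    exact hN v
  rw [p.as_sum, map_sum]
  refine Commute.isNilpotent_sum ?_ ?_
  · intro m hm
    have hm0 : m ≠ 0 := by
      rintro rfl
      exact (mem_support_iff.mp hm) hp
    obtain ⟨k, hk⟩ : ∃ k, m k ≠ 0 := by
      by_contra h
      push Not at h
      exact hm0 (Finsupp.ext h)
    have h0 : Finsupp.single k 1 + (m - Finsupp.single k 1) = m := by
      refine add_tsub_cancel_of_le (Finsupp.single_le_iff.mpr ?_)
      exact Nat.one_le_iff_ne_zero.mpr hk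
    have h1 : monomial m (coeff m p) = X k * monomial (m - Finsupp.single k 1) (coeff m p) := by
      have h2 := monomial_single_add (s := m - Finsupp.single k 1) (n := k) (e := 1)
        (a := coeff m p)
      rw [h0, pow_one] at h2
      exact h2
    rw [h1, map_mul]
    exact (RMod_comm V _ _).isNilpotent_mul_right (hX k)
  · intro a b _ _
    exact RMod_comm V _ _

/-- PROOF. Let s = pol f, c = constantCoeff f ≠ 0. The operators of the yk k on V commute and are nilpotent, so
the operator of pol p is nilpotent for every p with constantCoeff p = 0 (p is in the ideal generated by the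
X k: induction, sums of commuting nilpotents are nilpotent, a product with one nilpotent factor among
commuting operators is nilpotent). So the operator of s is c + nilpotent, which is bijective. -/
theorem SymS_bij (V : Type) [AddCommGroup V] [Module ℂ V] [Module (R D n) V] [IsScalarTower ℂ (R D n) V]
    (hnil : ∀ k : Fin n, ∃ N : ℕ, ∀ v : V, ((yk k : R D n) ^ N) • v = 0)
    (s : R D n) (hs : s ∈ SymS D n) : Function.Bijective (fun v : V => s • v) := by
  obtain ⟨f, _, hf0, rfl⟩ := hs
  have h1 : IsNilpotent (RMod_act D n V (f - C (constantCoeff f))) :=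
    RMod_nil V hnil _ (by rw [map_sub, constantCoeff_C, sub_self])
  have h2 : IsUnit (RMod_act D n V (C (constantCoeff f))) :=
    ((isUnit_iff_ne_zero.mpr hf0).map C).map (RMod_act D n V)
  have h3 : IsUnit (RMod_act D n V f) := by
    have h4 := h1.isUnit_add_left_of_commute h2 (RMod_comm V _ _)
    rwa [← map_add, add_sub_cancel] at h4
  exact (Module.End.isUnit_iff _).mp h3

end CA1492.D8
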