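import Mathlib
import Pool.Agent.Lib.MP_ca1492_al.D8.RCen

/-!
`R D n` is noetherian.
-/

namespace CA1492.D8

open MvPolynomial

variable {D : Dat} {n : ℕ}

/-- The ring of symmetric polynomials. -/
abbrev RNoeth_Z (n : ℕ) : Subalgebra ℂ (PP n) := symmetricSubalgebra (Fin n) ℂ

theorem RNoeth_Z_noeth (n : ℕ) : IsNoetherianRing (RNoeth_Z n) :=
  isNoetherianRing_of_ringEquiv (MvPolynomial (Fin n) ℂ)
    (esymmAlgEquiv (Fin n) ℂ (Fintype.card_fin n)).toRingEquiv

/-- The monic polynomial with the roots - X k. -/
noncomputable def RNoeth_P (n : ℕ) : Polynomial (RNoeth_Z n) :=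
  ∑ j ∈ Finset.range (Fintype.card (Fin n) + 1),
    Polynomial.C (⟨esymm (Fin n) ℂ j, esymm_isSymmetric (Fin n) ℂ j⟩ : RNoeth_Z n) *
      Polynomial.X ^ (Fintype.card (Fin n) - j)

theorem RNoeth_P_map (n : ℕ) : (RNoeth_P n).map (algebraMap (RNoeth_Z n) (PP n)) =
    ∏ i : Fin n, (Polynomial.X + Polynomial.C (X i)) := by
  rw [prod_C_add_X_eq_sum_esymm, RNoeth_P, Polynomial.map_sum]
  refine Finset.sum_congr rfl fun j _ => ?_
  rw [Polynomial.map_mul, Polynomial.map_C, Polynomial.map_pow, Polynomial.map_X]
  rfl

theorem RNoeth_int (k : Fin n) : IsIntegral (RNoeth_Z n) (X k : PP n) := by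
  have h1 : IsIntegral (RNoeth_Z n) (-X k : PP n) := by
    refine ⟨RNoeth_P n, ?_, ?_⟩
    · have hinj : Function.Injective (algebraMap (RNoeth_Z n) (PP n)) := Subtype.val_injective
      rw [hinj.monic_map_iff, RNoeth_P_map]
      exact Polynomial.monic_prod_of_monic _ _ fun i _ => Polynomial.monic_X_add_C _
    · rw [← Polynomial.eval_map, RNoeth_P_map, Polynomial.eval_prod]
      refine Finset.prod_eq_zero (Finset.mem_univ k) ?_
      rw [Polynomial.eval_add, Polynomial.eval_X, Polynomial.eval_C, neg_add_cancel]
  have h2 := h1.neg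
  rwa [neg_neg] at h2

theorem RNoeth_fin (n : ℕ) : Module.Finite (RNoeth_Z n) (PP n) := by
  have h1 : Algebra.IsIntegral (RNoeth_Z n) (PP n) := by
    refine ⟨fun x => ?_⟩
    induction x using MvPolynomial.induction_on with
    | C a =>
      exact isIntegral_algebraMap (R := RNoeth_Z n) (A := PP n)
        (x := (⟨C a, IsSymmetric.C a⟩ : RNoeth_Z n))
    | add p q hp hq => exact hp.add hq
    | mul_X p k hp => exact hp.mul (RNoeth_int k)
  have h2 : Algebra.FiniteType (RNoeth_Z n) (PP n) :=
    Algebra.FiniteType.of_restrictScalars_finiteType ℂ (RNoeth_Z n) (PP n)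
  exact Algebra.IsIntegral.finite

/-- The action of the symmetric polynomials on the KLR algebra. -/
@[reducible] noncomputable def RNoeth_mod (D : Dat) (n : ℕ) : Module (RNoeth_Z n) (R D n) :=
  Module.compHom (R D n) ((pol : PP n →ₐ[ℂ] R D n).toRingHom.comp (RNoeth_Z n).val.toRingHom)

/-- PROOF. Let Z = `symmetricSubalgebra (Fin n) ℂ`, a noetherian ring (`MvPolynomial.esymmAlgEquiv`: isomorphic
to a polynomial ring in n variables), acting on R D n through pol, centrally (`pol_comm`). PP n is a finite Z-module: every X k is integral over Z (root of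
∏_i (T - X i), whose coefficients are symmetric), and PP n is generated by the X k as an algebra
(`Algebra.IsIntegral.finite`-type lemma for finite type algebras; or monomials with exponents < n span).
By `pbw_span`, R D n is a finite Z-module, generated by the CQ p * pol m * ew w, m in a finite generating set
of PP n. So R D n is a noetherian Z-module, and left ideals are Z-submodules. -/
theorem R_noeth (D : Dat) (n : ℕ) : IsNoetherianRing (R D n) := by
  have hZ := RNoeth_Z_noeth n
  have hP := RNoeth_fin n
  let _ : Module (RNoeth_Z n) (R D n) := RNoeth_mod D n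
  have hsm : ∀ (z : RNoeth_Z n) (a : R D n), z • a = pol (z : PP n) * a := fun z a => rfl
  have htow : IsScalarTower (RNoeth_Z n) (R D n) (R D n) := by
    refine ⟨fun z a b => ?_⟩
    rw [hsm, hsm, smul_eq_mul, smul_eq_mul, mul_assoc]
  let F : (Sq n → Wd D n → PP n) →ₗ[RNoeth_Z n] R D n :=
    { toFun := fun f => ∑ p, ∑ w, CQ p * pol (f p w) * ew w
      map_add' := fun f g => by
        rw [← Finset.sum_add_distrib]
        refine Finset.sum_congr rfl fun p _ => ?_
        rw [← Finset.sum_add_distrib]
        refine Finset.sum_congr rfl fun w _ => ?_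
        rw [Pi.add_apply, Pi.add_apply, map_add, mul_add, add_mul]
      map_smul' := fun z f => by
        rw [RingHom.id_apply, hsm, Finset.mul_sum]
        refine Finset.sum_congr rfl fun p _ => ?_
        rw [Finset.mul_sum]
        refine Finset.sum_congr rfl fun w _ => ?_
        have h1 : (z • f) p w = (z : PP n) * f p w := rfl
        rw [h1, map_mul, ← mul_assoc, ← mul_assoc, ← mul_assoc,
          pol_comm (z : PP n) z.2 (CQ p)] }
  have hF : Function.Surjective F := fun x => by
    obtain ⟨f, hf⟩ := pbw_span x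
    exact ⟨f, hf.symm⟩
  have h1 : Module.Finite (RNoeth_Z n) (R D n) := Module.Finite.of_surjective F hF
  have h2 : IsNoetherian (RNoeth_Z n) (R D n) := inferInstance
  exact isNoetherian_of_tower (RNoeth_Z n) h2

end CA1492.D8
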