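import Mathlib
import Pool.Agent.Lib.MP_ca1492_al.Alg.PBW

/-!
Joint faithfulness of the representations `repX w0`.
-/

namespace CA1492.D8

open MvPolynomial

variable {D : Dat} {n : ℕ}

/-- Joint faithfulness. PROOF. a = ∑ CQ p * pol (f p w) * ew w. By `XSpan_apply`,
0 = repX w0 a (dl n) = ∑_p (algebraMap (f p w0)) • repX w0 (CQ p) (dl n), and the vectors
repX w0 (CQ p) (dl n) are linearly independent over KX n (see the proof of `count`, with `pbw_span` and
`card_Sq`). So f p w0 = 0 for all p, w0. -/
theorem repX_faithful (a : R D n) (h : ∀ w0 : Wd D n, repX w0 a = 0) : a = 0 := by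
  obtain ⟨f, hf⟩ := pbw_span a
  have hf0 : ∀ p w0, f p w0 = 0 := by
    intro p w0
    have htop : ⊤ ≤ Submodule.span (KX n)
        (Set.range fun p : Sq n => repX w0 (CQ p : R D n) (dl n)) := by
      rw [← span_dl w0, Submodule.span_le]
      rintro F ⟨z, rfl⟩
      obtain ⟨c, hc⟩ := pbw_span z
      rw [hc, XSpan_apply]
      exact Submodule.sum_mem _ fun a _ => Submodule.smul_mem _ _ (Submodule.subset_span ⟨a, rfl⟩)
    have hli : LinearIndependent (KX n) (fun p : Sq n => repX w0 (CQ p : R D n) (dl n)) := by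
      refine linearIndependent_of_top_le_span_of_card_eq_finrank htop ?_
      rw [Module.finrank_fintype_fun_eq_card, Fintype.card_perm, Fintype.card_fin, card_Sq]
    have h1 : repX w0 a (dl n) = 0 := by
      rw [h w0, LinearMap.zero_apply]
    rw [hf, XSpan_apply] at h1
    have h3 := (Fintype.linearIndependent_iff.1 hli) _ h1 p
    exact IsFractionRing.injective (MvPolynomial (Fin n) ℂ) (KX n) (h3.trans (map_zero _).symm)
  rw [hf]
  refine Finset.sum_eq_zero fun p _ => Finset.sum_eq_zero fun w _ => ?_
  rw [hf0 p w, map_zero, mul_zero, zero_mul]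

end CA1492.D8
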