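import Mathlib
import Pool.Agent.Lib.MP_ca1492_al.D8.CLoc
import Pool.Agent.Lib.MP_ca1492_al.D8.RCen
import Pool.Agent.Lib.MP_ca1492_al.D8.RFaith

/-!
The localisation of `R D n` and its representations.
-/

namespace CA1492.D8

open MvPolynomial

variable {D : Dat} {n : ℕ}

/-- The localisation. -/
noncomputable def LB (D : Dat) (n : ℕ) : CLoc (R D n) (SymS D n) :=
  (exists_cloc (R D n) (SymS D n) SymS_comm SymS_nzd).some

/-- Action of polynomials. PROOF: induction on f (`XSpan_yk`; (XY k F) u = yv (u.symm k) * F u). -/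
theorem repX_pol (w0 : Wd D n) (f : PP n) (F : Equiv.Perm (Fin n) → KX n) (u : Equiv.Perm (Fin n)) :
    repX w0 (pol f) F u =
      algebraMap (PP n) (KX n) (rename u.symm f) * F u := by
  induction f using MvPolynomial.induction_on generalizing F with
  | C a =>
    rw [rename_C, ← MvPolynomial.algebraMap_eq, AlgHom.commutes, AlgHom.commutes,
      ← IsScalarTower.algebraMap_apply ℂ (MvPolynomial (Fin n) ℂ) (KX n), ← Algebra.smul_def]
    rfl
  | add p q hp hq =>
    rw [map_add, map_add, LinearMap.add_apply, Pi.add_apply, hp, hq, map_add, map_add, add_mul]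
  | mul_X p k hp =>
    rw [map_mul, pol_X, map_mul, Module.End.mul_apply, XSpan_yk, hp, map_mul, rename_X, map_mul,
      mul_assoc]
    rfl

theorem RLoc_smul (w0 : Wd D n) (f : PP n) (hf : f.IsSymmetric) :
    repX w0 (pol f) = (algebraMap (PP n) (KX n) f) • 1 := by
  refine LinearMap.ext fun F => ?_
  funext u
  rw [repX_pol, hf u.symm]
  rfl

/-- Symmetric polynomials act by units. PROOF: `repX_pol`, rename u.symm f = f; the inverse is
multiplication by (algebraMap f)⁻¹. -/
theorem repX_unit (w0 : Wd D n) (s : R D n) (hs : s ∈ SymS D n) : IsUnit (repX w0 s) := by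
  obtain ⟨f, hf, hf0, rfl⟩ := hs
  have hne : f ≠ 0 := by
    rintro rfl
    exact hf0 (map_zero _)
  have hne' : algebraMap (PP n) (KX n) f ≠ 0 := by
    intro h
    exact hne ((IsFractionRing.injective (PP n) (KX n)) (h.trans (map_zero _).symm))
  rw [RLoc_smul w0 f hf]
  refine isUnit_iff_exists.2 ⟨(algebraMap (PP n) (KX n) f)⁻¹ • 1, ?_, ?_⟩
  · rw [smul_mul_smul_comm, mul_inv_cancel₀ hne', one_smul, one_mul]
  · rw [smul_mul_smul_comm, inv_mul_cancel₀ hne', one_smul, one_mul]

/-- The extension of `repX w0` to the localisation. -/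
noncomputable def rX (w0 : Wd D n) :
    (LB D n).B →ₐ[ℂ] Module.End (KX n) (Equiv.Perm (Fin n) → KX n) :=
  ((LB D n).lift _ (repX w0) (repX_unit w0)).choose

theorem rX_ι (w0 : Wd D n) (a : R D n) : rX w0 ((LB D n).ι a) = repX w0 a :=
  ((LB D n).lift _ (repX w0) (repX_unit w0)).choose_spec a

/-- PROOF: choose s, a with ι s * b = ι a (`CLoc.frac`); repX w0 a = repX w0 s * rX w0 b = 0 for all w0, so
a = 0 (`repX_faithful`), ι s * b = 0 and b = 0. -/
theorem rX_faithful (b : (LB D n).B) (h : ∀ w0 : Wd D n, rX w0 b = 0) : b = 0 := by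
  obtain ⟨s, hs, a, hab⟩ := (LB D n).frac b
  have ha : a = 0 := by
    refine repX_faithful a fun w0 => ?_
    rw [← rX_ι, ← hab, map_mul, h w0, mul_zero]
  rw [ha, map_zero] at hab
  exact (((LB D n).unit s hs).mul_right_eq_zero).1 hab

end CA1492.D8
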