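import Mathlib
import Pool.Agent.Lib.MP_ca1492_al.D8.RLoc

/-!
Polynomials and idempotents in the localised KLR algebra.
-/

namespace CA1492.D8

open MvPolynomial

variable {D : Dat} {n : ℕ}

/-- The localised algebra. -/
abbrev BB (D : Dat) (n : ℕ) : Type := (LB D n).B

/-- Polynomials in y. -/
noncomputable def pb (D : Dat) (n : ℕ) : PP n →ₐ[ℂ] BB D n := (LB D n).ι.comp pol

/-- Idempotents. -/
noncomputable def eb (w : Wd D n) : BB D n := (LB D n).ι (ew w)

/-- The generators psi. -/
noncomputable def sb (D : Dat) (n : ℕ) (r : ℕ) : BB D n := (LB D n).ι (ps r)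

/-- PROOF: images of the relations `ew_facts`, `pol_ew`. -/
theorem eb_facts : (∀ w w' : Wd D n, eb w * eb w' = if w = w' then eb w else 0) ∧
    (∑ w : Wd D n, eb w = 1) ∧ (∀ (f : PP n) (w : Wd D n), pb D n f * eb w = eb w * pb D n f) := by
  refine ⟨fun w w' => ?_, ?_, fun f w => ?_⟩
  · unfold eb
    rw [← map_mul, (ew_facts (D := D) (n := n)).1]
    split_ifs
    · rfl
    · rw [map_zero]
  · unfold eb
    rw [← map_sum, (ew_facts (D := D) (n := n)).2.1, map_one]
  · unfold eb pb
    rw [AlgHom.comp_apply, ← map_mul, ← map_mul, pol_ew]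

/-- Polynomials with non-zero constant term are units. PROOF. Let q = ∏_{σ ≠ 1} rename σ p (over
Perm (Fin n)), so g = p * q = ∏_σ rename σ p is symmetric, with constant term (constantCoeff p)^(n!) ≠ 0.
pb g is a unit (`CLoc.unit`), and pb p * pb q = pb g = pb q * pb p: so pb p is a unit
(`isUnit_of_mul_isUnit_left` works in commutative monoids; here use the inverse pb q * (pb g)⁻¹, and that
it is a two-sided inverse because (pb g)⁻¹ commutes with pb q). -/
theorem pb_unit (p : PP n) (hp : constantCoeff p ≠ 0) : IsUnit (pb D n p) := by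
  classical
  set g : PP n := ∏ σ : Equiv.Perm (Fin n), rename σ p with hg
  set q : PP n := ∏ σ ∈ (Finset.univ : Finset (Equiv.Perm (Fin n))).erase 1, rename σ p with hq
  have hgq : g = p * q := by
    rw [hg, hq, ← Finset.mul_prod_erase Finset.univ _ (Finset.mem_univ (1 : Equiv.Perm (Fin n)))]
    congr 1
    have h1 : ((1 : Equiv.Perm (Fin n)) : Fin n → Fin n) = id := rfl
    rw [h1, rename_id, AlgHom.id_apply]
  have hsym : g.IsSymmetric := by
    intro τ
    rw [hg, map_prod]
    refine Fintype.prod_equiv (Equiv.mulLeft τ) _ _ fun σ => ?_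
    rw [rename_rename]
    rfl
  have hcg : constantCoeff g ≠ 0 := by
    rw [hg, map_prod]
    refine Finset.prod_ne_zero_iff.2 fun σ _ => ?_
    rw [constantCoeff_rename]
    exact hp
  have hu : IsUnit (pb D n g) := (LB D n).unit (pol g) ⟨g, hsym, hcg, rfl⟩
  obtain ⟨u, hu⟩ := hu
  have h1 : pb D n p * pb D n q = u := by rw [hu, hgq, map_mul]
  have h2 : pb D n q * pb D n p = u := by rw [hu, hgq, mul_comm p q, map_mul]
  rw [isUnit_iff_exists_and_exists]
  refine ⟨⟨pb D n q * (u⁻¹ : (BB D n)ˣ), ?_⟩, ⟨(u⁻¹ : (BB D n)ˣ) * pb D n q, ?_⟩⟩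
  · rw [← mul_assoc, h1, Units.mul_inv]
  · rw [mul_assoc, h2, Units.inv_mul]

/-- The polynomial X r - X (r+1) + c. -/
noncomputable def alp (n : ℕ) (r : ℕ) (h : r + 1 < n) (c : ℂ) : PP n :=
  X ⟨r, by omega⟩ - X ⟨r + 1, h⟩ + C c

/-- The shift x ↦ y + val w. -/
noncomputable def shf (val : D.J → ℂ) (w : Wd D n) : PP n →ₐ[ℂ] PP n :=
  aeval (fun k => X k + C (val (w k)))

/-- PROOF: the map f ↦ ∑ w, eb w * pb (shf w f) is multiplicative, because the eb w are orthogonal
idempotents commuting with pb. (Construct the AlgHom with `AlgHom.ofLinearMap` or directly.) -/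
theorem exists_px (D : Dat) (n : ℕ) (val : D.J → ℂ) : ∃ px : PP n →ₐ[ℂ] BB D n,
    ∀ f, px f = ∑ w : Wd D n, eb w * pb D n (shf val w f) := by
  classical
  obtain ⟨h1, h2, h3⟩ := eb_facts (D := D) (n := n)
  let L : PP n →ₗ[ℂ] BB D n :=
    { toFun := fun f => ∑ w : Wd D n, eb w * pb D n (shf val w f)
      map_add' := by
        intro f g
        rw [← Finset.sum_add_distrib]
        refine Finset.sum_congr rfl fun w _ => ?_
        rw [map_add, map_add, mul_add]
      map_smul' := by
        intro c f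
        rw [RingHom.id_apply, Finset.smul_sum]
        refine Finset.sum_congr rfl fun w _ => ?_
        rw [map_smul, map_smul, mul_smul_comm] }
  refine ⟨AlgHom.ofLinearMap L ?_ ?_, fun f => rfl⟩
  · show ∑ w : Wd D n, eb w * pb D n (shf val w 1) = 1
    rw [← h2]
    refine Finset.sum_congr rfl fun w _ => ?_
    rw [map_one, map_one, mul_one]
  · intro f g
    show ∑ w : Wd D n, eb w * pb D n (shf val w (f * g)) =
      (∑ w : Wd D n, eb w * pb D n (shf val w f)) * ∑ w : Wd D n, eb w * pb D n (shf val w g)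
    rw [Finset.sum_mul]
    refine Finset.sum_congr rfl fun w _ => ?_
    rw [Finset.mul_sum, Finset.sum_eq_single w]
    · rw [mul_assoc (eb w) (pb D n (shf val w f)), ← mul_assoc (pb D n (shf val w f)) (eb w), h3,
        mul_assoc (eb w) (pb D n (shf val w f)), ← mul_assoc (eb w) (eb w), h1, if_pos rfl,
        map_mul, map_mul]
    · intro w' _ hw'
      rw [mul_assoc (eb w) (pb D n (shf val w f)), ← mul_assoc (pb D n (shf val w f)) (eb w'), h3,
        mul_assoc (eb w') (pb D n (shf val w f)), ← mul_assoc (eb w) (eb w'), h1,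
        if_neg (Ne.symm hw'), zero_mul]
    · intro h
      exact absurd (Finset.mem_univ w) h

/-- Polynomials in the x_k. -/
noncomputable def pxB (D : Dat) (n : ℕ) (val : D.J → ℂ) : PP n →ₐ[ℂ] BB D n :=
  (exists_px D n val).choose

theorem pxB_eq (val : D.J → ℂ) (f : PP n) :
    pxB D n val f = ∑ w : Wd D n, eb w * pb D n (shf val w f) := (exists_px D n val).choose_spec f

/-- PROOF: `pxB_eq`, `eb_facts`. -/
theorem pxB_eb (val : D.J → ℂ) (f : PP n) (w : Wd D n) :
    pxB D n val f * eb w = pb D n (shf val w f) * eb w ∧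
    eb w * pxB D n val f = eb w * pb D n (shf val w f) := by
  classical
  obtain ⟨h1, h2, h3⟩ := eb_facts (D := D) (n := n)
  rw [pxB_eq]
  refine ⟨?_, ?_⟩
  · rw [Finset.sum_mul, Finset.sum_eq_single w]
    · rw [mul_assoc, h3, ← mul_assoc, h1, if_pos rfl]
    · intro w' _ hw'
      rw [mul_assoc, h3, ← mul_assoc, h1, if_neg hw', zero_mul]
    · intro h
      exact absurd (Finset.mem_univ w) h
  · rw [Finset.mul_sum, Finset.sum_eq_single w]
    · rw [← mul_assoc, h1, if_pos rfl]
    · intro w' _ hw'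
      rw [← mul_assoc, h1, if_neg (Ne.symm hw'), zero_mul]
    · intro h
      exact absurd (Finset.mem_univ w) h

/-- The component of T_r at the word w (target). -/
noncomputable def tw (val : D.J → ℂ) (r : ℕ) (h : r + 1 < n) (w : Wd D n) : BB D n :=
  if w ⟨r, by omega⟩ = w ⟨r + 1, h⟩ then 1 - (1 + pb D n (alp n r h 0)) * sb D n r
  else Ring.inverse (pb D n (alp n r h (val (w ⟨r, by omega⟩) - val (w ⟨r + 1, h⟩)))) *
    ((if D.arr (w ⟨r, by omega⟩) (w ⟨r + 1, h⟩) = true then sb D n r
      else (1 + pb D n (alp n r h (val (w ⟨r, by omega⟩) - val (w ⟨r + 1, h⟩)))) * sb D n r) - 1)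

/-- The element T_r. -/
noncomputable def tB (val : D.J → ℂ) (r : ℕ) : BB D n :=
  if h : r + 1 < n then ∑ w : Wd D n, eb w * tw val r h w else 1

end CA1492.D8
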