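import Mathlib
import Pool.Agent.Lib.MP_ca1492_al.Alg.RepXb
import Pool.Agent.Lib.MP_ca1492_al.D8.HD

/-!
The operators of the degenerate affine Hecke algebra on functions Perm (Fin n) → K.
-/

namespace CA1492.D8

open MvPolynomial

variable {D : Dat} {n : ℕ}

/-- The variables x_a = val (w0 a) + y_a in the field. -/
noncomputable def xv (val : D.J → ℂ) (w0 : Wd D n) (a : Fin n) : KX n :=
  algebraMap (PP n) (KX n) (X a + C (val (w0 a)))

/-- PROOF: algebraMap is injective and X a + C _ ≠ X b + C _ for a ≠ b (compare the coefficient of X a). -/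
theorem xv_sub_ne (val : D.J → ℂ) (w0 : Wd D n) {a b : Fin n} (h : a ≠ b) :
    xv val w0 a - xv val w0 b ≠ 0 := by
  intro h0
  have h1 : xv val w0 a = xv val w0 b := sub_eq_zero.mp h0
  have h2 : (X a + C (val (w0 a)) : PP n) = X b + C (val (w0 b)) :=
    IsFractionRing.injective (MvPolynomial (Fin n) ℂ) (KX n) h1
  have h3 := congrArg (MvPolynomial.coeff (Finsupp.single a 1)) h2
  have e1 : (0 : Fin n →₀ ℕ) ≠ Finsupp.single a 1 := by
    intro e
    have := congrArg (fun f : Fin n →₀ ℕ => f a) e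
    simp at this
  have e2 : (Finsupp.single b 1 : Fin n →₀ ℕ) ≠ Finsupp.single a 1 := by
    intro e
    exact h (Finsupp.single_left_injective one_ne_zero e).symm
  rw [MvPolynomial.coeff_add, MvPolynomial.coeff_add, MvPolynomial.coeff_C, MvPolynomial.coeff_C,
    if_neg e1, if_neg e1, MvPolynomial.coeff_X', MvPolynomial.coeff_X', if_pos rfl, if_neg e2] at h3
  norm_num at h3

/-- Multiplication by x_k. -/
noncomputable def XX (val : D.J → ℂ) (w0 : Wd D n) (k : Fin n) :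
    Module.End (KX n) (Equiv.Perm (Fin n) → KX n) where
  toFun F u := xv val w0 (u.symm k) * F u
  map_add' F G := by
    funext u
    simp only [Pi.add_apply]
    ring
  map_smul' c F := by
    funext u
    simp only [Pi.smul_apply, smul_eq_mul, RingHom.id_apply]
    ring

/-- The operators T_r. -/
noncomputable def XT (val : D.J → ℂ) (w0 : Wd D n) (r : ℕ) :
    Module.End (KX n) (Equiv.Perm (Fin n) → KX n) where
  toFun F u := if h : r + 1 < n then
      ((xv val w0 (u.symm ⟨r, by omega⟩) - xv val w0 (u.symm ⟨r + 1, h⟩) + 1) /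
        (xv val w0 (u.symm ⟨r, by omega⟩) - xv val w0 (u.symm ⟨r + 1, h⟩))) * F (sw n r * u) -
      (1 / (xv val w0 (u.symm ⟨r, by omega⟩) - xv val w0 (u.symm ⟨r + 1, h⟩))) * F u
    else F u
  map_add' F G := by
    funext u
    simp only [Pi.add_apply]
    split_ifs <;> ring
  map_smul' c F := by
    funext u
    simp only [Pi.smul_apply, smul_eq_mul, RingHom.id_apply]
    split_ifs <;> ring

/-- The inverse of the difference. -/
noncomputable def TOp_iv (val : D.J → ℂ) (w0 : Wd D n) (a b : Fin n) : KX n :=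
  (xv val w0 a - xv val w0 b)⁻¹

lemma TOp_iv_symm (val : D.J → ℂ) (w0 : Wd D n) (a b : Fin n) :
    TOp_iv val w0 b a = -TOp_iv val w0 a b := by
  unfold TOp_iv
  rw [← inv_neg, neg_sub]

lemma TOp_iv_mul (val : D.J → ℂ) (w0 : Wd D n) {a b : Fin n} (h : a ≠ b) :
    TOp_iv val w0 a b * (xv val w0 a - xv val w0 b) = 1 :=
  inv_mul_cancel₀ (xv_sub_ne val w0 h)

lemma TOp_arnold (val : D.J → ℂ) (w0 : Wd D n) {a b c : Fin n} (hab : a ≠ b) (hbc : b ≠ c)
    (hac : a ≠ c) : TOp_iv val w0 b c * TOp_iv val w0 a c - TOp_iv val w0 a b * TOp_iv val w0 b c +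
      TOp_iv val w0 a c * TOp_iv val w0 a b = 0 := by
  unfold TOp_iv
  have e1 := xv_sub_ne val w0 hab
  have e2 := xv_sub_ne val w0 hbc
  have e3 := xv_sub_ne val w0 hac
  field_simp
  ring

lemma TOp_apply (val : D.J → ℂ) (w0 : Wd D n) (r : ℕ) (h : r + 1 < n)
    (F : Equiv.Perm (Fin n) → KX n) (u : Equiv.Perm (Fin n)) :
    XT val w0 r F u =
      (-TOp_iv val w0 (u.symm ⟨r, by omega⟩) (u.symm ⟨r + 1, h⟩)) * F u +
      (1 + TOp_iv val w0 (u.symm ⟨r, by omega⟩) (u.symm ⟨r + 1, h⟩)) * F (sw n r * u) := by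
  have hne : u.symm ⟨r, by omega⟩ ≠ u.symm ⟨r + 1, h⟩ := by
    intro e
    have := congrArg Fin.val (u.symm.injective e)
    simp at this
  have e1 := xv_sub_ne val w0 hne
  change (if h : r + 1 < n then
      ((xv val w0 (u.symm ⟨r, by omega⟩) - xv val w0 (u.symm ⟨r + 1, h⟩) + 1) /
        (xv val w0 (u.symm ⟨r, by omega⟩) - xv val w0 (u.symm ⟨r + 1, h⟩))) * F (sw n r * u) -
      (1 / (xv val w0 (u.symm ⟨r, by omega⟩) - xv val w0 (u.symm ⟨r + 1, h⟩))) * F u
    else F u) = _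
  rw [dif_pos h, add_div, div_self e1, one_div]
  unfold TOp_iv
  ring

/-- PROOF: `sw_mul_symm` (Alg/RepXa): at sw n r * u the difference α changes its sign; the coefficient of
F u is ((α+1)/α) ((-α+1)/(-α)) + 1/α² = 1 and that of F (sw n r * u) is
((α+1)/α)(-1/(-α)) - (1/α)((α+1)/α) = 0; `field_simp; ring`. -/
theorem XT_sq (val : D.J → ℂ) (w0 : Wd D n) (r : ℕ) (h : r + 1 < n) :
    XT val w0 r * XT val w0 r = 1 := by
  refine LinearMap.ext fun F => funext fun u => ?_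
  obtain ⟨h1, h2, -, h4⟩ := sw_mul_symm r h u
  rw [Module.End.mul_apply, Module.End.one_apply, TOp_apply val w0 r h, TOp_apply val w0 r h,
    TOp_apply val w0 r h, h1, h2, h4, TOp_iv_symm val w0 (u.symm ⟨r, by omega⟩)]
  ring

/-- PROOF: as `X_S_braid` (Alg/RepXb): with x, y, z the variables at the positions r, r+1, r+2 of u, both
sides are combinations of the values of F at the six elements; an identity of rational functions in x, y, z
(x ≠ y, x ≠ z, y ≠ z; use sw n r * sw n (r+1) * sw n r = sw n (r+1) * sw n r * sw n (r+1)). -/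
theorem XT_braid (val : D.J → ℂ) (w0 : Wd D n) (r : ℕ) (h : r + 2 < n) :
    XT val w0 (r + 1) * XT val w0 r * XT val w0 (r + 1) =
      XT val w0 r * XT val w0 (r + 1) * XT val w0 r := by
  refine LinearMap.ext fun F => funext fun u => ?_
  have hr : r + 1 < n := by omega
  have hr1 : r + 1 + 1 < n := h
  have key : ∀ v : Equiv.Perm (Fin n),
      (sw n r * v).symm ⟨r, by omega⟩ = v.symm ⟨r + 1, hr⟩ ∧
      (sw n r * v).symm ⟨r + 1, hr⟩ = v.symm ⟨r, by omega⟩ ∧
      (sw n r * v).symm ⟨r + 1 + 1, hr1⟩ = v.symm ⟨r + 1 + 1, hr1⟩ ∧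
      (sw n (r + 1) * v).symm ⟨r, by omega⟩ = v.symm ⟨r, by omega⟩ ∧
      (sw n (r + 1) * v).symm ⟨r + 1, hr⟩ = v.symm ⟨r + 1 + 1, hr1⟩ ∧
      (sw n (r + 1) * v).symm ⟨r + 1 + 1, hr1⟩ = v.symm ⟨r + 1, hr⟩ ∧
      sw n r * (sw n r * v) = v ∧ sw n (r + 1) * (sw n (r + 1) * v) = v := by
    intro v
    obtain ⟨a1, a2, a3, a4⟩ := sw_mul_symm r hr v
    obtain ⟨b1, b2, b3, b4⟩ := sw_mul_symm (r + 1) hr1 v
    exact ⟨a1, a2, a3 _ (by change r + 1 + 1 ≠ r; omega) (by change r + 1 + 1 ≠ r + 1; omega),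
      b3 _ (by change r ≠ r + 1; omega) (by change r ≠ r + 1 + 1; omega), b1, b2, a4, b4⟩
  have hne : ∀ {i j : Fin n}, i.val ≠ j.val → u.symm i ≠ u.symm j := fun hij e =>
    hij (congrArg Fin.val (u.symm.injective e))
  have hab : u.symm ⟨r, by omega⟩ ≠ u.symm ⟨r + 1, hr⟩ := hne (by change r ≠ r + 1; omega)
  have hbc : u.symm ⟨r + 1, hr⟩ ≠ u.symm ⟨r + 1 + 1, hr1⟩ :=
    hne (by change r + 1 ≠ r + 1 + 1; omega)
  have hac : u.symm ⟨r, by omega⟩ ≠ u.symm ⟨r + 1 + 1, hr1⟩ :=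
    hne (by change r ≠ r + 1 + 1; omega)
  have hA := TOp_arnold val w0 hab hbc hac
  simp only [Module.End.mul_apply, TOp_apply val w0 r hr, TOp_apply val w0 (r + 1) hr1, key,
    RepXb_braid r h]
  rw [TOp_iv_symm val w0 (u.symm ⟨r, by omega⟩) (u.symm ⟨r + 1, hr⟩),
    TOp_iv_symm val w0 (u.symm ⟨r + 1, hr⟩) (u.symm ⟨r + 1 + 1, hr1⟩)]
  generalize TOp_iv val w0 (u.symm ⟨r, by omega⟩) (u.symm ⟨r + 1, hr⟩) = x at *
  generalize TOp_iv val w0 (u.symm ⟨r + 1, hr⟩) (u.symm ⟨r + 1 + 1, hr1⟩) = y at *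
  generalize TOp_iv val w0 (u.symm ⟨r, by omega⟩) (u.symm ⟨r + 1 + 1, hr1⟩) = z at *
  linear_combination ((1 + x) * F (sw n r * u) - (1 + y) * F (sw n (r + 1) * u) +
    (y - x) * F u) * hA

/-- PROOF: as `X_S_far`. -/
theorem XT_far (val : D.J → ℂ) (w0 : Wd D n) (r s : ℕ) (h : r + 1 < s) (hs : s + 1 < n) :
    XT val w0 r * XT val w0 s = XT val w0 s * XT val w0 r := by
  have hr : r + 1 < n := by omega
  refine LinearMap.ext fun F => funext fun u => ?_
  rw [Module.End.mul_apply, Module.End.mul_apply]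
  obtain ⟨-, -, hr3, -⟩ := sw_mul_symm r hr u
  obtain ⟨-, -, hs3, -⟩ := sw_mul_symm s hs u
  rw [TOp_apply val w0 r hr (XT val w0 s F), TOp_apply val w0 s hs F u,
    TOp_apply val w0 s hs F (sw n r * u), TOp_apply val w0 s hs (XT val w0 r F),
    TOp_apply val w0 r hr F u, TOp_apply val w0 r hr F (sw n s * u), ← RepXb_comm r s h hs,
    hr3 ⟨s, by omega⟩ (by change s ≠ r; omega) (by change s ≠ r + 1; omega),
    hr3 ⟨s + 1, hs⟩ (by change s + 1 ≠ r; omega) (by change s + 1 ≠ r + 1; omega),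
    hs3 ⟨r, by omega⟩ (by change r ≠ s; omega) (by change r ≠ s + 1; omega),
    hs3 ⟨r + 1, hr⟩ (by change r + 1 ≠ s; omega) (by change r + 1 ≠ s + 1; omega)]
  ring

/-- PROOF: (sw n r * u).symm k = u.symm (sw n r k). k = r: with a = x at r, b = x at r+1, α = a - b:
((α+1)/α) b F(su) - (1/α) a F(u) = b (((α+1)/α) F(su) - (1/α) F(u)) - F u. k = r + 1: similar with + F u.
Other k: sw n r k = k. -/
theorem XT_XX (val : D.J → ℂ) (w0 : Wd D n) (r : ℕ) (h : r + 1 < n) (k : Fin n) :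
    XT val w0 r * XX val w0 k = XX val w0 (sw n r k) * XT val w0 r +
      (if k = ⟨r, by omega⟩ then (-1 : ℂ) else if k = ⟨r + 1, h⟩ then 1 else 0) • 1 := by
  refine LinearMap.ext fun F => funext fun u => ?_
  obtain ⟨c, hc⟩ : ∃ c : ℂ, c = (if k = ⟨r, by omega⟩ then (-1 : ℂ) else
    if k = ⟨r + 1, h⟩ then 1 else 0) := ⟨_, rfl⟩
  rw [← hc]
  change XT val w0 r (XX val w0 k F) u =
    xv val w0 (u.symm (sw n r k)) * XT val w0 r F u + c • F u
  rw [TOp_apply val w0 r h, TOp_apply val w0 r h]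
  change _ * (xv val w0 (u.symm k) * F u) +
    _ * (xv val w0 ((sw n r * u).symm k) * F (sw n r * u)) = _
  rw [repXa_symm_apply]
  have hne : u.symm ⟨r, by omega⟩ ≠ u.symm ⟨r + 1, h⟩ := by
    intro e
    have := congrArg Fin.val (u.symm.injective e)
    simp at this
  have h1 := TOp_iv_mul val w0 hne
  by_cases hk1 : k = ⟨r, by omega⟩
  · rw [if_pos hk1] at hc
    rw [hc, hk1, repXa_sw_left r h, neg_smul, one_smul]
    linear_combination (-F u) * h1
  · rw [if_neg hk1] at hc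
    by_cases hk2 : k = ⟨r + 1, h⟩
    · rw [if_pos hk2] at hc
      rw [hc, hk2, repXa_sw_right r h, one_smul]
      linear_combination (F u) * h1
    · rw [if_neg hk2] at hc
      rw [hc, zero_smul, add_zero, repXa_sw_other r k (fun h' => hk1 (Fin.ext h'))
        (fun h' => hk2 (Fin.ext h'))]
      ring

end CA1492.D8
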