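import Mathlib
import Pool.Agent.Lib.MP_ca1492_al.D8.TB
import Pool.Agent.Lib.MP_ca1492_al.D8.TOp

/-!
The images of the elements T_r and x_k in the representations.
-/

namespace CA1492.D8

open MvPolynomial

variable {D : Dat} {n : ℕ}

theorem TBb_eb (w0 w : Wd D n) (F : Equiv.Perm (Fin n) → KX n) (u : Equiv.Perm (Fin n)) :
    rX w0 (eb w) F u = if w0 ∘ u.symm = w then F u else 0 := by
  unfold eb
  rw [rX_ι, XSpan_ew]
  rfl

theorem TBb_pb (w0 : Wd D n) (f : PP n) (F : Equiv.Perm (Fin n) → KX n)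
    (u : Equiv.Perm (Fin n)) :
    rX w0 (pb D n f) F u = algebraMap (PP n) (KX n) (rename u.symm f) * F u := by
  have h : pb D n f = (LB D n).ι (pol f) := rfl
  rw [h, rX_ι, repX_pol]

theorem TBb_sb (w0 : Wd D n) (r : ℕ) : rX w0 (sb D n r) = XS w0 r := by
  unfold sb
  rw [rX_ι, XSpan_ps]

theorem TBb_sum (w0 : Wd D n) (b : Wd D n → BB D n) (F : Equiv.Perm (Fin n) → KX n)
    (u : Equiv.Perm (Fin n)) :
    rX w0 (∑ w : Wd D n, eb w * b w) F u = rX w0 (b (w0 ∘ u.symm)) F u := by
  rw [map_sum, LinearMap.sum_apply, Finset.sum_apply, Finset.sum_eq_single (w0 ∘ u.symm)]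
  · rw [map_mul, Module.End.mul_apply, TBb_eb, if_pos rfl]
  · intro w _ hw
    rw [map_mul, Module.End.mul_apply, TBb_eb, if_neg (fun h => hw h.symm)]
  · intro h
    exact absurd (Finset.mem_univ _) h

theorem TBb_ne (p : PP n) (hp : constantCoeff p ≠ 0) (u : Equiv.Perm (Fin n)) :
    algebraMap (PP n) (KX n) (rename u.symm p) ≠ 0 := by
  intro h
  have h1 : rename u.symm p = 0 := by
    apply IsFractionRing.injective (PP n) (KX n)
    rw [h, map_zero]
  apply hp
  have h2 := congrArg constantCoeff h1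
  rw [constantCoeff_rename, map_zero] at h2
  exact h2

theorem TBb_inv (w0 : Wd D n) (p : PP n) (hp : constantCoeff p ≠ 0)
    (F : Equiv.Perm (Fin n) → KX n) (u : Equiv.Perm (Fin n)) :
    rX w0 (Ring.inverse (pb D n p)) F u =
      (algebraMap (PP n) (KX n) (rename u.symm p))⁻¹ * F u := by
  have h1 : rX w0 (pb D n p) (rX w0 (Ring.inverse (pb D n p)) F) u = F u := by
    rw [← Module.End.mul_apply, ← map_mul, Ring.mul_inverse_cancel _ (pb_unit p hp), map_one]
    rfl
  rw [TBb_pb] at h1
  rw [← h1, ← mul_assoc, inv_mul_cancel₀ (TBb_ne p hp u), one_mul]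

theorem TBb_alp (r : ℕ) (h : r + 1 < n) (c : ℂ) (u : Equiv.Perm (Fin n)) :
    algebraMap (PP n) (KX n) (rename u.symm (alp n r h c)) =
      yv (u.symm ⟨r, by omega⟩) - yv (u.symm ⟨r + 1, h⟩) + algebraMap (PP n) (KX n) (C c) := by
  unfold alp yv
  simp only [map_add, map_sub, rename_X, rename_C]

theorem TBb_xv (val : D.J → ℂ) (w0 : Wd D n) (a : Fin n) :
    xv val w0 a = yv a + algebraMap (PP n) (KX n) (C (val (w0 a))) := by
  unfold xv yv
  rw [map_add]

/-- The image of T_r in the representation. PROOF. Apply both sides to F at u, with w = w0 ∘ u.symm: in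
∑ w, only this w contributes (`XSpan_ew`). Write a, b for the yv at u.symm r, u.symm (r+1) and
c = val (w r) - val (w (r+1)); rX (pb f) acts at u by algebraMap (rename u.symm f) (`repX_pol`, `rX_ι`), and
rX (Ring.inverse (pb α)) by its inverse (α has constant term c ≠ 0 by injectivity of val, `pb_unit`;
multiply by rX (pb α)). rX (sb r) = XS w0 r. Equal letters (c = 0): F u - (1 + a - b) (F u - F (su))/(a - b)
= ((a - b + 1)/(a - b)) F (su) - (1/(a-b)) F u. Arrow from w r to w (r+1): c = -1 (harr), XS gives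
(a - b) F (su), α = a - b - 1, so (1/α) ((a - b) F (su) - F u) with a - b = α + 1. Otherwise XS gives F (su)
and the value is (1/α) ((1 + α) F (su) - F u). In all cases α = xv .. - xv .. -/
theorem rX_tB (val : D.J → ℂ) (hinj : Function.Injective val)
    (harr : ∀ i j, D.arr i j = true ↔ val j = val i + 1) (w0 : Wd D n) (r : ℕ) :
    rX w0 (tB val r) = XT val w0 r := by
  refine LinearMap.ext fun F => funext fun u => ?_
  by_cases h : r + 1 < n
  · unfold tB
    rw [dif_pos h, TBb_sum]
    have hX : XT val w0 r F u =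
        ((xv val w0 (u.symm ⟨r, by omega⟩) - xv val w0 (u.symm ⟨r + 1, h⟩) + 1) /
          (xv val w0 (u.symm ⟨r, by omega⟩) - xv val w0 (u.symm ⟨r + 1, h⟩))) *
            F (sw n r * u) -
        (1 / (xv val w0 (u.symm ⟨r, by omega⟩) - xv val w0 (u.symm ⟨r + 1, h⟩))) * F u :=
      dif_pos h
    have hne : u.symm ⟨r, by omega⟩ ≠ u.symm ⟨r + 1, h⟩ := by
      intro he
      have h2 := u.symm.injective he
      rw [Fin.mk.injEq] at h2
      omega
    have hd := xv_sub_ne val w0 hne
    rw [hX]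
    unfold tw
    by_cases he : (w0 ∘ u.symm) ⟨r, by omega⟩ = (w0 ∘ u.symm) ⟨r + 1, h⟩
    · have he' : w0 (u.symm ⟨r, by omega⟩) = w0 (u.symm ⟨r + 1, h⟩) := he
      have hδ : xv val w0 (u.symm ⟨r, by omega⟩) - xv val w0 (u.symm ⟨r + 1, h⟩) =
          (yv (u.symm ⟨r, by omega⟩) - yv (u.symm ⟨r + 1, h⟩) : KX n) := by
        rw [TBb_xv, TBb_xv, he']
        ring
      rw [hδ] at hd
      rw [if_pos he, hδ, map_sub, map_one, map_mul, map_add, map_one, LinearMap.sub_apply,
        Pi.sub_apply, Module.End.mul_apply, LinearMap.add_apply, Pi.add_apply, TBb_pb, TBb_sb,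
        TBb_alp, Module.End.one_apply, Module.End.one_apply, repXa_XS_eq w0 r h F u he', map_zero,
        map_zero]
      field_simp
      ring
    · have he' : ¬ w0 (u.symm ⟨r, by omega⟩) = w0 (u.symm ⟨r + 1, h⟩) := he
      set κ : ℂ := val (w0 (u.symm ⟨r, by omega⟩)) - val (w0 (u.symm ⟨r + 1, h⟩)) with hκ
      have hκ0 : κ ≠ 0 := fun h0 => he' (hinj (sub_eq_zero.1 h0))
      have hα : algebraMap (PP n) (KX n) (rename u.symm (alp n r h κ)) =
          xv val w0 (u.symm ⟨r, by omega⟩) - xv val w0 (u.symm ⟨r + 1, h⟩) := by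
        rw [TBb_alp, TBb_xv, TBb_xv, hκ, map_sub, map_sub]
        ring
      have hcc : constantCoeff (alp n r h κ) ≠ 0 := by
        unfold alp
        rw [map_add, map_sub, constantCoeff_X, constantCoeff_X, constantCoeff_C, sub_zero,
          zero_add]
        exact hκ0
      rw [if_neg he]
      change rX w0 (Ring.inverse (pb D n (alp n r h κ)) * ((if D.arr (w0 (u.symm ⟨r, by omega⟩))
        (w0 (u.symm ⟨r + 1, h⟩)) = true then sb D n r
          else (1 + pb D n (alp n r h κ)) * sb D n r) - 1)) F u = _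
      rw [map_mul, Module.End.mul_apply, TBb_inv w0 _ hcc, map_sub, map_one, LinearMap.sub_apply,
        Pi.sub_apply, Module.End.one_apply, hα]
      by_cases ha : D.arr (w0 (u.symm ⟨r, by omega⟩)) (w0 (u.symm ⟨r + 1, h⟩)) = true
      · have hk1 : κ = -1 := by
          rw [hκ, (harr _ _).1 ha]
          ring
        have hδ : xv val w0 (u.symm ⟨r, by omega⟩) - xv val w0 (u.symm ⟨r + 1, h⟩) + 1 =
            (yv (u.symm ⟨r, by omega⟩) - yv (u.symm ⟨r + 1, h⟩) : KX n) := by
          rw [← hα, TBb_alp, hk1]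
          simp
        rw [if_pos ha, TBb_sb, repXa_XS_ne w0 r h F u he', if_pos ha, ← hδ]
        field_simp
      · rw [if_neg ha, map_mul, map_add, map_one, Module.End.mul_apply, LinearMap.add_apply,
          Pi.add_apply, TBb_pb, TBb_sb, Module.End.one_apply, hα, repXa_XS_ne w0 r h F u he',
          if_neg ha]
        field_simp
        ring
  · unfold tB
    rw [dif_neg h, map_one, Module.End.one_apply]
    have h1 : XT val w0 r F u = F u := dif_neg h
    exact h1.symm

/-- PROOF: `pxB_eq` for f = X k: at u only w = w0 ∘ u.symm contributes, shf w (X k) = X k + C (val (w k)),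
`repX_pol`. -/
theorem rX_pxB (val : D.J → ℂ) (w0 : Wd D n) (k : Fin n) :
    rX w0 (pxB D n val (X k)) = XX val w0 k := by
  refine LinearMap.ext fun F => funext fun u => ?_
  rw [pxB_eq, TBb_sum, TBb_pb]
  have h1 : rename u.symm (shf val (w0 ∘ u.symm) (X k)) =
      X (u.symm k) + C (val (w0 (u.symm k))) := by
    unfold shf
    rw [aeval_X, map_add, rename_X, rename_C]
    rfl
  rw [h1]
  rfl

end CA1492.D8
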