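import Mathlib
import Pool.Agent.Lib.MP_ca1492_al.D8.Cox
import Pool.Agent.Lib.MP_ca1492_al.D8.TBb

/-!
The relations for the elements T_r, x_k.
-/

namespace CA1492.D8

open MvPolynomial

variable {D : Dat} {n : ℕ}

theorem TBc_ext {a b : BB D n} (h : ∀ w0 : Wd D n, rX w0 a = rX w0 b) : a = b := by
  rw [← sub_eq_zero]
  refine rX_faithful (a - b) fun w0 => ?_
  rw [map_sub, h w0, sub_self]

/-- The group homomorphism. PROOF: `exists_permHom` for t r = tB val r; the relations hold by `rX_faithful`,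
`rX_tB` and `XT_sq`, `XT_braid`, `XT_far`. -/
theorem exists_rho (D : Dat) (n : ℕ) (val : D.J → ℂ) (hinj : Function.Injective val)
    (harr : ∀ i j, D.arr i j = true ↔ val j = val i + 1) :
    ∃ f : Equiv.Perm (Fin n) →* BB D n, ∀ r, r + 1 < n → f (sw n r) = tB val r := by
  refine exists_permHom (fun r => (tB val r : BB D n)) ?_ ?_ ?_
  · intro r hr
    refine TBc_ext fun w0 => ?_
    rw [map_mul, map_one, rX_tB val hinj harr, XT_sq val w0 r hr]
  · intro r hr
    refine TBc_ext fun w0 => ?_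
    rw [map_mul, map_mul, map_mul, map_mul, rX_tB val hinj harr, rX_tB val hinj harr,
      XT_braid val w0 r hr]
  · intro r s hrs hs
    refine TBc_ext fun w0 => ?_
    rw [map_mul, map_mul, rX_tB val hinj harr, rX_tB val hinj harr, XT_far val w0 r s hrs hs]

/-- PROOF: `rX_faithful`, `rX_tB`, `rX_pxB`, `XT_XX`. -/
theorem tB_px (val : D.J → ℂ) (hinj : Function.Injective val)
    (harr : ∀ i j, D.arr i j = true ↔ val j = val i + 1) (r : ℕ) (h : r + 1 < n) (k : Fin n) :
    tB val r * pxB D n val (X k) = pxB D n val (X (sw n r k)) * tB val r +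
      (if k = ⟨r, by omega⟩ then (-1 : ℂ) else if k = ⟨r + 1, h⟩ then 1 else 0) • 1 := by
  refine TBc_ext fun w0 => ?_
  rw [map_add, map_mul, map_mul, map_smul, map_one, rX_tB val hinj harr, rX_pxB, rX_pxB,
    XT_XX val w0 r h k]

end CA1492.D8
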