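import Mathlib
import Pool.Agent.Lib.MP_ca1492_al.D8.TBc

/-!
The elements T_σ span the localised KLR algebra (up to denominators).
-/

namespace CA1492.D8

open MvPolynomial

variable {D : Dat} {n : ℕ}

/-- A group homomorphism with rho (sw n r) = T_r. -/
noncomputable def rhoB (D : Dat) (n : ℕ) (val : D.J → ℂ) (hinj : Function.Injective val)
    (harr : ∀ i j, D.arr i j = true ↔ val j = val i + 1) : Equiv.Perm (Fin n) →* BB D n :=
  (exists_rho D n val hinj harr).choose

theorem rhoB_sw (val : D.J → ℂ) (hinj : Function.Injective val)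
    (harr : ∀ i j, D.arr i j = true ↔ val j = val i + 1) (r : ℕ) (h : r + 1 < n) :
    rhoB D n val hinj harr (sw n r) = tB val r := (exists_rho D n val hinj harr).choose_spec r h

/-- The elements that are, up to a denominator, left combinations of the rho σ. -/
def Lat (D : Dat) (n : ℕ) (val : D.J → ℂ) (hinj : Function.Injective val)
    (harr : ∀ i j, D.arr i j = true ↔ val j = val i + 1) : Set (BB D n) :=
  {b | ∃ s ∈ SymS D n, ∃ f : Equiv.Perm (Fin n) → Wd D n → PP n,
    (LB D n).ι s * b = ∑ σ, ∑ w, pb D n (f σ w) * eb w * rhoB D n val hinj harr σ}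

/-- the sums -/
noncomputable def TC_SG (D : Dat) (n : ℕ) (val : D.J → ℂ) (hinj : Function.Injective val)
    (harr : ∀ i j, D.arr i j = true ↔ val j = val i + 1)
    (f : Equiv.Perm (Fin n) → Wd D n → PP n) : BB D n :=
  ∑ σ, ∑ w, pb D n (f σ w) * eb w * rhoB D n val hinj harr σ

section
variable (val : D.J → ℂ) (hinj : Function.Injective val)
    (harr : ∀ i j, D.arr i j = true ↔ val j = val i + 1)

theorem TC_add (f g : Equiv.Perm (Fin n) → Wd D n → PP n) :
    TC_SG D n val hinj harr f + TC_SG D n val hinj harr g =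
      TC_SG D n val hinj harr (fun σ w => f σ w + g σ w) := by
  unfold TC_SG
  rw [← Finset.sum_add_distrib]
  refine Finset.sum_congr rfl fun σ _ => ?_
  rw [← Finset.sum_add_distrib]
  refine Finset.sum_congr rfl fun w _ => ?_
  rw [map_add, add_mul, add_mul]

theorem TC_pb (p : PP n) (f : Equiv.Perm (Fin n) → Wd D n → PP n) :
    pb D n p * TC_SG D n val hinj harr f = TC_SG D n val hinj harr (fun σ w => p * f σ w) := by
  unfold TC_SG
  rw [Finset.mul_sum]
  refine Finset.sum_congr rfl fun σ _ => ?_
  rw [Finset.mul_sum]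
  refine Finset.sum_congr rfl fun w _ => ?_
  rw [map_mul]
  simp only [mul_assoc]

theorem TC_eb (w0 : Wd D n) (f : Equiv.Perm (Fin n) → Wd D n → PP n) :
    eb w0 * TC_SG D n val hinj harr f =
      TC_SG D n val hinj harr (fun σ w => if w0 = w then f σ w else 0) := by
  unfold TC_SG
  rw [Finset.mul_sum]
  refine Finset.sum_congr rfl fun σ _ => ?_
  rw [Finset.mul_sum]
  refine Finset.sum_congr rfl fun w _ => ?_
  have h1 : eb w0 * (pb D n (f σ w) * eb w * rhoB D n val hinj harr σ) =
      pb D n (f σ w) * (eb w0 * eb w) * rhoB D n val hinj harr σ := by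
    rw [← mul_assoc, ← mul_assoc, ← (eb_facts (D := D) (n := n)).2.2 (f σ w) w0]
    simp only [mul_assoc]
  rw [h1, (eb_facts (D := D) (n := n)).1]
  by_cases h : w0 = w
  · subst h
    simp only [if_true]
  · simp only [if_neg h, map_zero, mul_zero, zero_mul]

theorem TC_mem_SG (f : Equiv.Perm (Fin n) → Wd D n → PP n) :
    TC_SG D n val hinj harr f ∈ Lat D n val hinj harr := by
  refine ⟨1, Submonoid.one_mem _, f, ?_⟩
  rw [map_one, one_mul]
  rfl

theorem TC_den (s : R D n) (b : BB D n) (hs : s ∈ SymS D n)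
    (h : (LB D n).ι s * b ∈ Lat D n val hinj harr) : b ∈ Lat D n val hinj harr := by
  obtain ⟨t, ht, f, hf⟩ := h
  refine ⟨t * s, Submonoid.mul_mem _ ht hs, f, ?_⟩
  rw [map_mul, mul_assoc, hf]

theorem TC_central (s : R D n) (hs : s ∈ SymS D n) (b : BB D n) :
    (LB D n).ι s * b = b * (LB D n).ι s :=
  (LB D n).central SymS_comm s hs b

theorem TC_exists (p : PP n) (hp : constantCoeff p ≠ 0) :
    ∃ q : PP n, (p * q).IsSymmetric ∧ constantCoeff (p * q) ≠ 0 := by
  classical
  have h1 : p * ∏ σ ∈ (Finset.univ : Finset (Equiv.Perm (Fin n))).erase 1, rename σ p =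
      ∏ σ : Equiv.Perm (Fin n), rename σ p := by
    rw [← Finset.mul_prod_erase Finset.univ (fun σ : Equiv.Perm (Fin n) => rename σ p)
      (Finset.mem_univ 1)]
    congr 1
    have h2 : ((1 : Equiv.Perm (Fin n)) : Fin n → Fin n) = id := rfl
    rw [h2, rename_id, AlgHom.id_apply]
  refine ⟨∏ σ ∈ (Finset.univ : Finset (Equiv.Perm (Fin n))).erase 1, rename σ p, ?_, ?_⟩
  · rw [h1]
    intro τ
    rw [map_prod]
    refine Fintype.prod_equiv (Equiv.mulLeft τ) _ _ fun σ => ?_
    rw [rename_rename]
    rfl
  · rw [h1, map_prod]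
    rw [Finset.prod_ne_zero_iff]
    intro σ _
    rw [constantCoeff_rename]
    exact hp

end

/-- PROOF. Sum: if ι s * b = Σ(f), ι s' * b' = Σ(f') with s = pol g, s' = pol g' then
ι (s * s') * (b + b') = pb g' * Σ(f) + pb g * Σ(f') (denominators are central: `CLoc.central`,
`SymS_comm`). 1 = ∑ eb w * rho 1. Left multiplication by pb p: pb p * Σ(f) = Σ(p f). By eb w: keep the
component w. By ι t⁻¹ (the inverse of a denominator): change s to s * t. By pb p for p with non-zero constant
term, the inverse is of the form (pb q) * (ι t)⁻¹ (see the proof of `pb_unit`). -/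
theorem Lat_facts (val : D.J → ℂ) (hinj : Function.Injective val)
    (harr : ∀ i j, D.arr i j = true ↔ val j = val i + 1) :
    (1 : BB D n) ∈ Lat D n val hinj harr ∧
    (∀ b b', b ∈ Lat D n val hinj harr → b' ∈ Lat D n val hinj harr → b + b' ∈ Lat D n val hinj harr) ∧
    (∀ p b, b ∈ Lat D n val hinj harr → pb D n p * b ∈ Lat D n val hinj harr) ∧
    (∀ w b, b ∈ Lat D n val hinj harr → eb w * b ∈ Lat D n val hinj harr) ∧
    (∀ p b, constantCoeff p ≠ 0 → pb D n p * b ∈ Lat D n val hinj harr → b ∈ Lat D n val hinj harr) ∧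
    (∀ (s : R D n) b, s ∈ SymS D n → (LB D n).ι s * b ∈ Lat D n val hinj harr →
      b ∈ Lat D n val hinj harr) := by
  refine ⟨?_, ?_, ?_, ?_, ?_, ?_⟩
  · have h : TC_SG D n val hinj harr (fun σ _ => if σ = 1 then 1 else 0) = 1 := by
      unfold TC_SG
      rw [Finset.sum_eq_single (1 : Equiv.Perm (Fin n))]
      · have h2 : ∀ w : Wd D n, pb D n (if (1 : Equiv.Perm (Fin n)) = 1 then (1 : PP n) else 0) *
            eb w * rhoB D n val hinj harr 1 = eb w := by
          intro w
          rw [if_pos rfl, map_one, map_one, one_mul, mul_one]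
        rw [Finset.sum_congr rfl fun w _ => h2 w]
        exact (eb_facts (D := D) (n := n)).2.1
      · intro σ _ hσ
        refine Finset.sum_eq_zero fun w _ => ?_
        simp only [if_neg hσ, map_zero, zero_mul]
      · intro h
        exact absurd (Finset.mem_univ _) h
    rw [← h]
    exact TC_mem_SG val hinj harr _
  · rintro b b' ⟨s, hs, f, hf⟩ ⟨s', hs', f', hf'⟩
    obtain ⟨g, hg, hg0, rfl⟩ := hs
    obtain ⟨g', hg', hg0', rfl⟩ := hs'
    have hs : pol g ∈ SymS D n := ⟨g, hg, hg0, rfl⟩
    have hs' : pol g' ∈ SymS D n := ⟨g', hg', hg0', rfl⟩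
    refine ⟨pol g * pol g', Submonoid.mul_mem _ hs hs',
      fun σ w => g' * f σ w + g * f' σ w, ?_⟩
    have h1 : (LB D n).ι (pol g * pol g') * (b + b') =
        pb D n g' * ((LB D n).ι (pol g) * b) + pb D n g * ((LB D n).ι (pol g') * b') := by
      rw [map_mul, mul_add, mul_assoc, mul_assoc]
      congr 1
      · rw [← mul_assoc, TC_central (pol g) hs, mul_assoc]
        rfl
    rw [h1, hf, hf']
    have h2 := TC_add val hinj harr (fun σ w => g' * f σ w) (fun σ w => g * f' σ w)
    rw [← TC_pb, ← TC_pb] at h2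
    exact h2
  · rintro p b ⟨s, hs, f, hf⟩
    refine ⟨s, hs, fun σ w => p * f σ w, ?_⟩
    rw [← mul_assoc, TC_central s hs, mul_assoc, hf]
    exact TC_pb val hinj harr p f
  · rintro w b ⟨s, hs, f, hf⟩
    refine ⟨s, hs, fun σ w' => if w = w' then f σ w' else 0, ?_⟩
    rw [← mul_assoc, TC_central s hs, mul_assoc, hf]
    exact TC_eb val hinj harr w f
  · rintro p b hp ⟨s, hs, f, hf⟩
    obtain ⟨q, hq1, hq2⟩ := TC_exists p hp
    refine TC_den val hinj harr (pol (p * q)) b ⟨p * q, hq1, hq2, rfl⟩ ?_
    refine ⟨s, hs, fun σ w => q * f σ w, ?_⟩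
    have h1 : (LB D n).ι (pol (p * q)) * b = pb D n q * (pb D n p * b) := by
      rw [← mul_assoc, ← map_mul, mul_comm q p]
      rfl
    rw [h1, ← mul_assoc, TC_central s hs, mul_assoc, hf]
    exact TC_pb val hinj harr q f
  · intro s b hs h
    exact TC_den val hinj harr s b hs h

section
variable (val : D.J → ℂ) (hinj : Function.Injective val)
    (harr : ∀ i j, D.arr i j = true ↔ val j = val i + 1)

theorem TC_neg (b : BB D n) (hb : b ∈ Lat D n val hinj harr) : -b ∈ Lat D n val hinj harr := by
  have h := (Lat_facts (D := D) (n := n) val hinj harr).2.2.1 (C (-1)) b hb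
  have h1 : pb D n (C (-1)) = -1 := by
    rw [map_neg, map_one, map_neg, map_one]
  rw [h1, neg_one_mul] at h
  exact h

theorem TC_zero : (0 : BB D n) ∈ Lat D n val hinj harr := by
  have h := (Lat_facts (D := D) (n := n) val hinj harr).2.2.1 0 1
    (Lat_facts (D := D) (n := n) val hinj harr).1
  rw [map_zero, zero_mul] at h
  exact h

theorem TC_sum {ι : Type} (s : Finset ι) (F : ι → BB D n)
    (h : ∀ i ∈ s, F i ∈ Lat D n val hinj harr) : ∑ i ∈ s, F i ∈ Lat D n val hinj harr := by
  classical
  induction s using Finset.induction_on with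
  | empty =>
    rw [Finset.sum_empty]
    exact TC_zero val hinj harr
  | insert a s ha ih =>
    rw [Finset.sum_insert ha]
    exact (Lat_facts (D := D) (n := n) val hinj harr).2.1 _ _ (h a (Finset.mem_insert_self a s))
      (ih fun i hi => h i (Finset.mem_insert_of_mem hi))

theorem TC_rho (σ : Equiv.Perm (Fin n)) : rhoB D n val hinj harr σ ∈ Lat D n val hinj harr := by
  have h : TC_SG D n val hinj harr (fun τ _ => if τ = σ then 1 else 0) =
      rhoB D n val hinj harr σ := by
    unfold TC_SG
    rw [Finset.sum_eq_single σ]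
    · have h2 : ∀ w : Wd D n, pb D n (if σ = σ then (1 : PP n) else 0) *
          eb w * rhoB D n val hinj harr σ = eb w * rhoB D n val hinj harr σ := by
        intro w
        rw [if_pos rfl, map_one, one_mul]
      rw [Finset.sum_congr rfl fun w _ => h2 w, ← Finset.sum_mul,
        (eb_facts (D := D) (n := n)).2.1, one_mul]
    · intro τ _ hτ
      refine Finset.sum_eq_zero fun w _ => ?_
      simp only [if_neg hτ, map_zero, zero_mul]
    · intro h
      exact absurd (Finset.mem_univ _) h
  rw [← h]
  exact TC_mem_SG val hinj harr _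

theorem TC_eb_tB (r : ℕ) (h : r + 1 < n) (w : Wd D n) :
    eb w * tB val r = eb w * tw val r h w := by
  unfold tB
  rw [dif_pos h, Finset.mul_sum, Finset.sum_eq_single w]
  · rw [← mul_assoc, (eb_facts (D := D) (n := n)).1, if_pos rfl]
  · intro w' _ hw'
    rw [← mul_assoc, (eb_facts (D := D) (n := n)).1, if_neg (Ne.symm hw'), zero_mul]
  · intro h
    exact absurd (Finset.mem_univ _) h

theorem TC_alp (r : ℕ) (h : r + 1 < n) (c : ℂ) : constantCoeff (alp n r h c) = c := by
  unfold alp
  simp

theorem TC_ebsb (r : ℕ) (h : r + 1 < n) (w : Wd D n) (σ : Equiv.Perm (Fin n)) :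
    eb w * sb D n r * rhoB D n val hinj harr σ ∈ Lat D n val hinj harr := by
  obtain ⟨-, Ladd, Lpb, Leb, Linv, -⟩ := Lat_facts (D := D) (n := n) val hinj harr
  have hcomm : ∀ p : PP n, pb D n p * eb w = eb w * pb D n p := fun p =>
    (eb_facts (D := D) (n := n)).2.2 p w
  have hT : tB val r * rhoB D n val hinj harr σ = rhoB D n val hinj harr (sw n r * σ) := by
    rw [map_mul, rhoB_sw val hinj harr r h]
  have hA : eb w * rhoB D n val hinj harr σ ∈ Lat D n val hinj harr :=
    Leb w _ (TC_rho val hinj harr σ)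
  have hB : eb w * tB val r * rhoB D n val hinj harr σ ∈ Lat D n val hinj harr := by
    rw [mul_assoc, hT]
    exact Leb w _ (TC_rho val hinj harr _)
  have hE := TC_eb_tB val r h w
  by_cases h1 : w ⟨r, by omega⟩ = w ⟨r + 1, h⟩
  · -- equal letters
    unfold tw at hE
    rw [if_pos h1] at hE
    have h2 : pb D n (1 + alp n r h 0) * (eb w * sb D n r * rhoB D n val hinj harr σ) =
        eb w * rhoB D n val hinj harr σ + -(eb w * tB val r * rhoB D n val hinj harr σ) := by
      rw [hE, map_add, map_one, ← mul_assoc, ← mul_assoc, add_mul, one_mul, hcomm]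
      noncomm_ring
    refine Linv (1 + alp n r h 0) _ ?_ ?_
    · rw [map_add, map_one, TC_alp]
      simp
    · rw [h2]
      exact Ladd _ _ hA (TC_neg val hinj harr _ hB)
  · have hc : val (w ⟨r, by omega⟩) - val (w ⟨r + 1, h⟩) ≠ 0 := by
      intro h3
      exact h1 (hinj (sub_eq_zero.1 h3))
    set α := alp n r h (val (w ⟨r, by omega⟩) - val (w ⟨r + 1, h⟩)) with hα
    have hα0 : constantCoeff α = val (w ⟨r, by omega⟩) - val (w ⟨r + 1, h⟩) := TC_alp r h _
    have hu : IsUnit (pb D n α) := pb_unit α (by rw [hα0]; exact hc)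
    have hinv : pb D n α * Ring.inverse (pb D n α) = 1 := Ring.mul_inverse_cancel _ hu
    unfold tw at hE
    rw [if_neg h1] at hE
    have hC : pb D n α * (eb w * tB val r * rhoB D n val hinj harr σ) ∈ Lat D n val hinj harr :=
      Lpb α _ hB
    have key : ∀ z : BB D n, eb w * tB val r = eb w * (Ring.inverse (pb D n α) * (z - 1)) →
        pb D n α * (eb w * tB val r * rhoB D n val hinj harr σ) =
          eb w * z * rhoB D n val hinj harr σ - eb w * rhoB D n val hinj harr σ := by
      intro z hz
      rw [hz, ← mul_assoc, ← mul_assoc, hcomm, mul_assoc (eb w) (pb D n α),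
        ← mul_assoc (pb D n α), hinv, one_mul]
      noncomm_ring
    by_cases h4 : D.arr (w ⟨r, by omega⟩) (w ⟨r + 1, h⟩) = true
    · rw [if_pos h4] at hE
      have h5 := key _ hE
      have h6 : eb w * sb D n r * rhoB D n val hinj harr σ =
          pb D n α * (eb w * tB val r * rhoB D n val hinj harr σ) +
            eb w * rhoB D n val hinj harr σ := by
        rw [h5]
        noncomm_ring
      rw [h6]
      exact Ladd _ _ hC hA
    · rw [if_neg h4] at hE
      have h5 := key _ hE
      have h6 : pb D n (1 + α) * (eb w * sb D n r * rhoB D n val hinj harr σ) =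
          pb D n α * (eb w * tB val r * rhoB D n val hinj harr σ) +
            eb w * rhoB D n val hinj harr σ := by
        rw [h5, map_add, map_one, ← mul_assoc, ← mul_assoc, add_mul, one_mul, hcomm]
        noncomm_ring
      refine Linv (1 + α) _ ?_ ?_
      · rw [map_add, map_one, hα0]
        intro h7
        apply h4
        rw [harr]
        linear_combination (-1 : ℂ) * h7
      · rw [h6]
        exact Ladd _ _ hC hA

end

/-- Left multiplication by psi_r. PROOF. By `Lat_facts` (sums, denominators: ι s is central) it is enough to treat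
b = pb p * eb w * rho σ. By `ps_pol` (image under ι), sb r * pb p * eb w = pb (rename (sw n r) p) * sb r * eb w
+ (0 or pb p') * eb w; and sb r * eb w = eb w' * sb r with w' = w ∘ sw n r (`isRep_R`, S_E). So it remains
to show eb w' * sb r * rho σ ∈ Lat for every word w'. From the definition of `tB`:
eb w' * tB r = eb w' * tw w'. Equal letters: eb w' * (1 + pb (alp 0)) * sb r = eb w' * (1 - tB r), and
1 + alp 0 has constant term 1. Arrow: eb w' * (sb r - 1) = eb w' * pb α * tB r (α = alp c, c ≠ 0, a unit, so
α * inverse = 1), so eb w' * sb r = eb w' * (pb α * tB r + 1). Otherwise: eb w' * (1 + pb α) * sb r =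
eb w' * (pb α * tB r + 1), and 1 + α has constant term 1 + c ≠ 0, because c = -1 would mean
val (w' (r+1)) = val (w' r) + 1, an arrow. Finally tB r * rho σ = rho (sw n r * σ) (`rhoB_sw`), so
eb w' * (pb α * tB r + 1) * rho σ is in Lat. r + 1 < n false: sb r = 0. -/
theorem Lat_sb (val : D.J → ℂ) (hinj : Function.Injective val)
    (harr : ∀ i j, D.arr i j = true ↔ val j = val i + 1) (r : ℕ) (b : BB D n)
    (hb : b ∈ Lat D n val hinj harr) : sb D n r * b ∈ Lat D n val hinj harr := by
  obtain ⟨-, Ladd, Lpb, Leb, Linv, Lden⟩ := Lat_facts (D := D) (n := n) val hinj harr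
  by_cases h : r + 1 < n
  · obtain ⟨s, hs, f, hf⟩ := hb
    refine Lden s _ hs ?_
    have h1 : (LB D n).ι s * (sb D n r * b) = sb D n r * ((LB D n).ι s * b) := by
      rw [← mul_assoc, TC_central s hs, mul_assoc]
    rw [h1, hf, Finset.mul_sum]
    refine TC_sum val hinj harr _ _ fun σ _ => ?_
    rw [Finset.mul_sum]
    refine TC_sum val hinj harr _ _ fun w _ => ?_
    obtain ⟨f', -, hf'⟩ := ps_pol (D := D) r h (f σ w)
    have h2 := congrArg (LB D n).ι (hf' w)
    have h3 : sb D n r * (pb D n (f σ w) * eb w * rhoB D n val hinj harr σ) =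
        pb D n (rename (sw n r) (f σ w)) *
          (eb (w ∘ sw n r) * sb D n r * rhoB D n val hinj harr σ) +
        (LB D n).ι (if w ⟨r, by omega⟩ = w ⟨r + 1, h⟩ then pol f' * ew w else 0) *
          rhoB D n val hinj harr σ := by
      have h4 : sb D n r * eb w = eb (w ∘ sw n r) * sb D n r := by
        unfold sb eb
        rw [← map_mul, ← map_mul, (isRep_R D n).S_E]
      have h5 : sb D n r * (pb D n (f σ w) * eb w * rhoB D n val hinj harr σ) =
          (LB D n).ι (ps r * pol (f σ w) * ew w) * rhoB D n val hinj harr σ := by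
        rw [map_mul, map_mul]
        change _ = sb D n r * pb D n (f σ w) * eb w * _
        simp only [mul_assoc]
      rw [h5, h2, map_add, add_mul, map_mul, map_mul, ← h4]
      congr 1
      change pb D n _ * sb D n r * eb w * _ = _
      simp only [mul_assoc]
    rw [h3]
    refine Ladd _ _ (Lpb _ _ (TC_ebsb val hinj harr r h _ σ)) ?_
    by_cases h6 : w ⟨r, by omega⟩ = w ⟨r + 1, h⟩
    · rw [if_pos h6, map_mul, mul_assoc]
      exact Lpb f' _ (Leb w _ (TC_rho val hinj harr σ))
    · rw [if_neg h6, map_zero, zero_mul]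
      exact TC_zero val hinj harr
  · have h0 : sb D n r = 0 := by
      unfold sb
      rw [(isRep_R D n).S_out r h, map_zero]
    rw [h0, zero_mul]
    exact TC_zero val hinj harr

/-- PROOF: the set of a ∈ R D n with ι a * Lat ⊆ Lat contains the generators (`Lat_facts`, `Lat_sb`;
yk k = pol (X k)) and is closed under sums and products (`R_induction`), so it is everything; 1 ∈ Lat. For
b with ι s * b = ι a use the last part of `Lat_facts`. -/
theorem Lat_top (val : D.J → ℂ) (hinj : Function.Injective val)
    (harr : ∀ i j, D.arr i j = true ↔ val j = val i + 1) (b : BB D n) :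
    b ∈ Lat D n val hinj harr := by
  obtain ⟨Lone, Ladd, Lpb, Leb, Linv, Lden⟩ := Lat_facts (D := D) (n := n) val hinj harr
  have key : ∀ a : R D n, ∀ b, b ∈ Lat D n val hinj harr →
      (LB D n).ι a * b ∈ Lat D n val hinj harr := by
    intro a
    induction a using R_induction with
    | hc c =>
      intro b hb
      have := Lpb (C c) b hb
      have h1 : pb D n (C c) = (LB D n).ι (algebraMap ℂ (R D n) c) := by
        rw [← MvPolynomial.algebraMap_eq, AlgHom.commutes, AlgHom.commutes]
      rwa [h1] at this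
    | he w => exact fun b hb => Leb w b hb
    | hy k =>
      intro b hb
      have := Lpb (X k) b hb
      have h1 : pb D n (X k) = (LB D n).ι (yk k) := by
        unfold pb
        rw [AlgHom.comp_apply, pol_X]
      rwa [h1] at this
    | hs r => exact fun b hb => Lat_sb val hinj harr r b hb
    | ha x y hx hy =>
      intro b hb
      rw [map_add, add_mul]
      exact Ladd _ _ (hx b hb) (hy b hb)
    | hm x y hx hy =>
      intro b hb
      rw [map_mul, mul_assoc]
      exact hx _ (hy b hb)
  obtain ⟨s, hs, a, ha⟩ := (LB D n).frac b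
  refine Lden s b hs ?_
  rw [ha, ← mul_one ((LB D n).ι a)]
  exact key a 1 Lone

end CA1492.D8
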