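import Mathlib
import Pool.Agent.Lib.MP_ca1492_al.D8.HXt
import Pool.Agent.Lib.MP_ca1492_al.D8.TC

/-!
Uniqueness of the coefficients.
-/

namespace CA1492.D8

open MvPolynomial

variable {D : Dat} {n : ℕ}

theorem TCb_ne (val : D.J → ℂ) (w0 : Wd D n) {a b : Fin n} (h : a ≠ b) :
    xv val w0 a - xv val w0 b + 1 ≠ 0 := by
  unfold xv
  intro h0
  have h1 : algebraMap (PP n) (KX n)
      (X a + C (val (w0 a)) - (X b + C (val (w0 b))) + 1) = 0 := by
    rw [map_add, map_sub, map_one]
    exact h0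
  have h2 : (X a + C (val (w0 a)) - (X b + C (val (w0 b))) + 1 : PP n) = 0 := by
    apply IsFractionRing.injective (PP n) (KX n)
    rw [h1, map_zero]
  have h3 := congrArg (eval (fun k : Fin n => if k = a then val (w0 b) - val (w0 a) else 0)) h2
  rw [map_add, map_sub, map_add, map_add, eval_X, eval_X, eval_C, eval_C, map_one, map_zero,
    if_pos rfl, if_neg (Ne.symm h)] at h3
  have h4 : val (w0 b) - val (w0 a) + val (w0 a) - (0 + val (w0 b)) + 1 = 1 := by ring
  rw [h4] at h3
  exact one_ne_zero h3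

/-- The functionals F ↦ (rX w0 b F) 1, b in the localised algebra, separate the functions F.
PROOF. Let V be the set of u such that (rX w0 b F) u = 0 for all b. 1 ∈ V by assumption. If u ∈ V and
r + 1 < n then sw n r * u ∈ V: for every b, 0 = (rX w0 (tB r * b) F) u = (XT w0 r (rX w0 b F)) u =
((α+1)/α) (rX w0 b F) (sw n r * u) - (1/α) (rX w0 b F) u, the last term is 0, and (α+1)/α ≠ 0
(α = xv a - xv b with a ≠ b; α + 1 ≠ 0 for the same reason as in `xv_sub_ne`). By `perm_ind` all u ∈ V;
take b = 1. -/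
theorem rX_separates (val : D.J → ℂ) (hinj : Function.Injective val)
    (harr : ∀ i j, D.arr i j = true ↔ val j = val i + 1) (w0 : Wd D n)
    (F : Equiv.Perm (Fin n) → KX n) (h : ∀ b : BB D n, rX w0 b F 1 = 0) : F = 0 := by
  have key : ∀ u : Equiv.Perm (Fin n), ∀ b : BB D n, rX w0 b F u = 0 := by
    intro u
    refine perm_ind (p := fun u => ∀ b : BB D n, rX w0 b F u = 0) h ?_ u
    intro r hr u hu b
    have h0 := hu (tB val r * b)
    rw [map_mul, rX_tB val hinj harr] at h0
    change (if h : r + 1 < n then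
      ((xv val w0 (u.symm ⟨r, by omega⟩) - xv val w0 (u.symm ⟨r + 1, h⟩) + 1) /
        (xv val w0 (u.symm ⟨r, by omega⟩) - xv val w0 (u.symm ⟨r + 1, h⟩))) *
          (rX w0 b F) (sw n r * u) -
      (1 / (xv val w0 (u.symm ⟨r, by omega⟩) - xv val w0 (u.symm ⟨r + 1, h⟩))) * (rX w0 b F) u
      else (rX w0 b F) u) = 0 at h0
    rw [dif_pos hr, hu b, mul_zero, sub_zero] at h0
    have hne : u.symm (⟨r, by omega⟩ : Fin n) ≠ u.symm ⟨r + 1, hr⟩ := by
      intro he
      have h1 := u.symm.injective he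
      have h2 := congrArg Fin.val h1
      simp at h2
    rcases mul_eq_zero.1 h0 with h1 | h1
    · exact absurd h1 (div_ne_zero (TCb_ne val w0 hne) (xv_sub_ne val w0 hne))
    · exact h1
  funext u
  have h1 := key u 1
  rw [map_one] at h1
  exact h1

theorem TCb_pb (w0 : Wd D n) (p : PP n) (b : BB D n) (F : Equiv.Perm (Fin n) → KX n) :
    rX w0 (pb D n p * b) F 1 = algebraMap (PP n) (KX n) p * rX w0 b F 1 := by
  rw [map_mul]
  change rX w0 ((LB D n).ι (pol p)) (rX w0 b F) 1 = _
  rw [rX_ι, repX_pol]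
  have h1 : (((1 : Equiv.Perm (Fin n)).symm : Equiv.Perm (Fin n)) : Fin n → Fin n) = id := rfl
  rw [h1, rename_id, AlgHom.id_apply]

theorem TCb_eb (w0 w : Wd D n) (b : BB D n) (F : Equiv.Perm (Fin n) → KX n) :
    rX w0 (eb w * b) F 1 = if w0 = w then rX w0 b F 1 else 0 := by
  rw [map_mul]
  change rX w0 ((LB D n).ι (ew w)) (rX w0 b F) 1 = _
  rw [rX_ι, XSpan_ew]
  rfl

theorem TCb_sum (val : D.J → ℂ) (hinj : Function.Injective val)
    (harr : ∀ i j, D.arr i j = true ↔ val j = val i + 1)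
    (f : Equiv.Perm (Fin n) → Wd D n → PP n) (w0 : Wd D n) (F : Equiv.Perm (Fin n) → KX n) :
    rX w0 (∑ σ, ∑ w, pb D n (f σ w) * eb w * rhoB D n val hinj harr σ) F 1 =
      ∑ σ, algebraMap (PP n) (KX n) (f σ w0) * rX w0 (rhoB D n val hinj harr σ) F 1 := by
  rw [map_sum, LinearMap.sum_apply, Finset.sum_apply]
  refine Finset.sum_congr rfl fun σ _ => ?_
  rw [map_sum, LinearMap.sum_apply, Finset.sum_apply, Finset.sum_eq_single w0]
  · rw [mul_assoc, TCb_pb, TCb_eb, if_pos rfl]
  · intro w _ hw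
    rw [mul_assoc, TCb_pb, TCb_eb, if_neg (Ne.symm hw), mul_zero]
  · intro h
    exact absurd (Finset.mem_univ w0) h

/-- The linear map F ↦ (σ ↦ (rX w0 (rho σ) F) 1). -/
noncomputable def TCb_L (val : D.J → ℂ) (hinj : Function.Injective val)
    (harr : ∀ i j, D.arr i j = true ↔ val j = val i + 1) (w0 : Wd D n) :
    (Equiv.Perm (Fin n) → KX n) →ₗ[KX n] (Equiv.Perm (Fin n) → KX n) where
  toFun F σ := rX w0 (rhoB D n val hinj harr σ) F 1
  map_add' F G := by
    funext σ
    rw [map_add]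
    rfl
  map_smul' c F := by
    funext σ
    rw [map_smul]
    rfl

theorem TCb_inj (val : D.J → ℂ) (hinj : Function.Injective val)
    (harr : ∀ i j, D.arr i j = true ↔ val j = val i + 1) (w0 : Wd D n) :
    Function.Injective (TCb_L (n := n) val hinj harr w0) := by
  rw [injective_iff_map_eq_zero]
  intro F hF
  refine rX_separates val hinj harr w0 F fun b => ?_
  obtain ⟨s, ⟨g, hg, hg0, rfl⟩, f, hf⟩ := Lat_top val hinj harr b
  have h1 : rX w0 (pb D n g * b) F 1 = 0 := by
    change rX w0 ((LB D n).ι (pol g) * b) F 1 = 0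
    rw [hf, TCb_sum]
    refine Finset.sum_eq_zero fun σ _ => ?_
    have h2 : rX w0 (rhoB D n val hinj harr σ) F 1 = 0 := congrFun hF σ
    rw [h2, mul_zero]
  rw [TCb_pb] at h1
  rcases mul_eq_zero.1 h1 with h2 | h2
  · exfalso
    have h3 : g = 0 := by
      apply IsFractionRing.injective (PP n) (KX n)
      rw [h2, map_zero]
    rw [h3, map_zero] at hg0
    exact hg0 rfl
  · exact h2

/-- Uniqueness. PROOF. Fix w0 and let ℓ σ be the KX n-linear functional F ↦ (rX w0 (rho σ) F) 1 on
V = (Perm (Fin n) → KX n). By `Lat_top` for every b there are s = pol g and f with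
ι s * b = ∑ pb (f σ w) * eb w * rho σ; evaluating rX w0 at F and u = 1 (only w = w0 contributes;
`repX_pol` at u = 1: multiplication by algebraMap f): algebraMap g * (rX w0 b F) 1 =
∑_σ algebraMap (f σ w0) * ℓ σ F, with algebraMap g ≠ 0. So if ℓ σ F = 0 for all σ then F = 0
(`rX_separates`). So the n! functionals ℓ σ have trivial common kernel in the space V of dimension n!, hence
they are linearly independent (the map V → (Perm → KX n), F ↦ (ℓ σ F)_σ is injective, hence bijective; if
∑ c σ • ℓ σ = 0 choose F with ℓ τ F = 1, the others 0). Now apply rX w0 to the given relation, at F and 1: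
∑_σ algebraMap (f σ w0) * ℓ σ F = 0 for all F, so f σ w0 = 0. -/
theorem Lat_uniq (val : D.J → ℂ) (hinj : Function.Injective val)
    (harr : ∀ i j, D.arr i j = true ↔ val j = val i + 1)
    (f : Equiv.Perm (Fin n) → Wd D n → PP n)
    (h : ∑ σ, ∑ w, pb D n (f σ w) * eb w * rhoB D n val hinj harr σ = 0) : f = 0 := by
  classical
  funext σ w0
  have hsurj : Function.Surjective (TCb_L (n := n) val hinj harr w0) :=
    LinearMap.injective_iff_surjective.1 (TCb_inj val hinj harr w0)
  obtain ⟨F, hF⟩ := hsurj (Pi.single σ 1)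
  have h1 := TCb_sum val hinj harr f w0 F
  rw [h, map_zero] at h1
  have h2 : ∀ τ, rX w0 (rhoB D n val hinj harr τ) F 1 = (Pi.single σ 1 : _ → KX n) τ :=
    fun τ => congrFun hF τ
  have h3 : (∑ τ, algebraMap (PP n) (KX n) (f τ w0) * rX w0 (rhoB D n val hinj harr τ) F 1) =
      algebraMap (PP n) (KX n) (f σ w0) := by
    rw [Finset.sum_eq_single σ]
    · rw [h2, Pi.single_eq_same, mul_one]
    · intro τ _ hτ
      rw [h2, Pi.single_eq_of_ne hτ, mul_zero]
    · intro hh
      exact absurd (Finset.mem_univ σ) hh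
  rw [h3] at h1
  apply IsFractionRing.injective (PP n) (KX n)
  rw [← h1]
  simp

end CA1492.D8
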