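import Mathlib
import Pool.Agent.Lib.MP_ca1492_al.D8.TB

/-!
The elements T_r and the idempotents.
-/

namespace CA1492.D8

open MvPolynomial

variable {D : Dat} {n : ℕ}

/-- The generators psi and the idempotents. -/
theorem TCc_sb_eb (r : ℕ) (w : Wd D n) : sb D n r * eb w = eb (w ∘ sw n r) * sb D n r := by
  unfold sb eb
  rw [← map_mul, ← map_mul]
  congr 1
  exact (isRep_R D n).S_E r w

theorem TCc_sw_eq (r : ℕ) (h : r + 1 < n) (w : Wd D n) (hw : w ⟨r, by omega⟩ = w ⟨r + 1, h⟩) :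
    w ∘ sw n r = w := by
  funext k
  have hsw : sw n r = Equiv.swap ⟨r, by omega⟩ ⟨r + 1, h⟩ := by
    unfold sw
    rw [dif_pos h]
  rw [hsw, Function.comp_apply]
  by_cases h1 : k = ⟨r, by omega⟩
  · rw [h1, Equiv.swap_apply_left, hw]
  · by_cases h2 : k = ⟨r + 1, h⟩
    · rw [h2, Equiv.swap_apply_right, hw]
    · rw [Equiv.swap_apply_of_ne_of_ne h1 h2]

theorem TCc_sw_ne (r : ℕ) (h : r + 1 < n) (w : Wd D n) (hw : w ⟨r, by omega⟩ ≠ w ⟨r + 1, h⟩) :
    w ≠ w ∘ sw n r := by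
  intro h0
  have hsw : sw n r = Equiv.swap ⟨r, by omega⟩ ⟨r + 1, h⟩ := by
    unfold sw
    rw [dif_pos h]
  have h1 := congrFun h0 ⟨r, by omega⟩
  rw [hsw, Function.comp_apply, Equiv.swap_apply_left] at h1
  exact hw h1

theorem TCc_inv (p : PP n) (hp : constantCoeff p ≠ 0) (w : Wd D n) :
    Ring.inverse (pb D n p) * eb w = eb w * Ring.inverse (pb D n p) := by
  obtain ⟨u, hu⟩ := pb_unit (D := D) p hp
  have h1 : Commute (u : BB D n) (eb w) := by
    rw [hu]
    exact (eb_facts (D := D) (n := n)).2.2 p w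
  rw [← hu, Ring.inverse_unit]
  exact h1.units_inv_left

/-- The components of T_r. -/
theorem TCc_tw (val : D.J → ℂ) (hinj : Function.Injective val) (r : ℕ) (h : r + 1 < n) (v : Wd D n) :
    ∃ A C : BB D n, (∀ w : Wd D n, A * eb w = eb w * A) ∧ (∀ w : Wd D n, C * eb w = eb w * C) ∧
      tw val r h v = A + C * sb D n r ∧
      (v ⟨r, by omega⟩ ≠ v ⟨r + 1, h⟩ → A = -Ring.inverse (pb D n (alp n r h
        (val (v ⟨r, by omega⟩) - val (v ⟨r + 1, h⟩))))) := by
  have hf := (eb_facts (D := D) (n := n)).2.2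
  unfold tw
  split_ifs with h1 h2
  · refine ⟨1, -(1 + pb D n (alp n r h 0)), fun w => ?_, fun w => ?_, ?_, fun h3 => absurd h1 h3⟩
    · rw [one_mul, mul_one]
    · rw [neg_mul, mul_neg, add_mul, mul_add, one_mul, mul_one, hf]
    · rw [neg_mul, sub_eq_add_neg]
  · have hc : constantCoeff (alp n r h (val (v ⟨r, by omega⟩) - val (v ⟨r + 1, h⟩))) ≠ 0 := by
      unfold alp
      rw [map_add, map_sub, constantCoeff_X, constantCoeff_X, constantCoeff_C, sub_zero, zero_add]
      exact fun h3 => h1 (hinj (sub_eq_zero.mp h3))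
    refine ⟨_, _, fun w => ?_, TCc_inv _ hc, ?_, fun _ => rfl⟩
    · rw [neg_mul, mul_neg, TCc_inv _ hc]
    · rw [mul_sub, mul_one, sub_eq_add_neg, add_comm]
  · have hc : constantCoeff (alp n r h (val (v ⟨r, by omega⟩) - val (v ⟨r + 1, h⟩))) ≠ 0 := by
      unfold alp
      rw [map_add, map_sub, constantCoeff_X, constantCoeff_X, constantCoeff_C, sub_zero, zero_add]
      exact fun h3 => h1 (hinj (sub_eq_zero.mp h3))
    refine ⟨_, Ring.inverse (pb D n (alp n r h (val (v ⟨r, by omega⟩) - val (v ⟨r + 1, h⟩)))) *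
      (1 + pb D n (alp n r h (val (v ⟨r, by omega⟩) - val (v ⟨r + 1, h⟩)))), fun w => ?_,
      fun w => ?_, ?_, fun _ => rfl⟩
    · rw [neg_mul, mul_neg, TCc_inv _ hc]
    · rw [mul_assoc, add_mul, one_mul, hf]
      conv_lhs => rw [show eb w + eb w * pb D n (alp n r h
        (val (v ⟨r, by omega⟩) - val (v ⟨r + 1, h⟩))) = eb w * (1 + pb D n (alp n r h
        (val (v ⟨r, by omega⟩) - val (v ⟨r + 1, h⟩)))) by rw [mul_add, mul_one]]
      rw [← mul_assoc, TCc_inv _ hc, mul_assoc]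
    · rw [mul_sub, mul_one, sub_eq_add_neg, add_comm, mul_assoc]

theorem TCc_left (val : D.J → ℂ) (r : ℕ) (h : r + 1 < n) (v : Wd D n) :
    eb v * tB val r = eb v * tw val r h v := by
  have hm := (eb_facts (D := D) (n := n)).1
  unfold tB
  rw [dif_pos h, Finset.mul_sum, Finset.sum_eq_single v]
  · rw [← mul_assoc, hm, if_pos rfl]
  · intro w _ hw
    rw [← mul_assoc, hm, if_neg (Ne.symm hw), zero_mul]
  · intro h0
    exact absurd (Finset.mem_univ _) h0

/-- The decomposition of T_r between idempotents. PROOF. eb v * tB r = eb v * tw v and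
tw v = A v + C v * sb r with A v, C v in the image of pb (or its inverses), which commute with the
idempotents; sb r * eb w = eb (w ∘ sw n r) * sb r. So eb v * tB r * eb w = eb v * A v * eb w +
eb v * C v * eb (w ∘ sw n r) * sb r. Equal letters at w: w ∘ sw n r = w and both sides are
eb w * tB r = tB r * eb w (for v ≠ w: 0). Different letters: w' = w ∘ sw n r ≠ w;
eb w * tB r * eb w = eb w * A w = - eb w * (pb α)⁻¹, and eb v * tB r * eb w = 0 for v ≠ w, w'. -/
theorem tB_eb (val : D.J → ℂ) (hinj : Function.Injective val)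
    (harr : ∀ i j, D.arr i j = true ↔ val j = val i + 1) (r : ℕ) (h : r + 1 < n) (w v : Wd D n) :
    (w ⟨r, by omega⟩ = w ⟨r + 1, h⟩ → tB val r * eb w = eb w * tB val r) ∧
    (w ⟨r, by omega⟩ ≠ w ⟨r + 1, h⟩ →
      eb w * tB val r * eb w = -(Ring.inverse (pb D n (alp n r h
        (val (w ⟨r, by omega⟩) - val (w ⟨r + 1, h⟩)))) * eb w)) ∧
    (v ≠ w → v ≠ w ∘ sw n r → eb v * tB val r * eb w = 0) := by
  have hm := (eb_facts (D := D) (n := n)).1
  have key : ∀ v : Wd D n, ∃ A C : BB D n, (∀ w : Wd D n, A * eb w = eb w * A) ∧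
      (∀ w : Wd D n, C * eb w = eb w * C) ∧
      eb v * tB val r = A * eb v + C * eb v * sb D n r ∧
      (v ⟨r, by omega⟩ ≠ v ⟨r + 1, h⟩ → A = -Ring.inverse (pb D n (alp n r h
        (val (v ⟨r, by omega⟩) - val (v ⟨r + 1, h⟩))))) ∧
      ∀ w : Wd D n, eb v * tB val r * eb w =
        A * (eb v * eb w) + C * (eb v * eb (w ∘ sw n r)) * sb D n r := by
    intro v
    obtain ⟨A, C, hA, hC, h1, h2⟩ := TCc_tw val hinj r h v
    have h3 : eb v * tB val r = A * eb v + C * eb v * sb D n r := by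
      rw [TCc_left val r h v, h1, mul_add, ← mul_assoc, ← hA, ← hC]
    refine ⟨A, C, hA, hC, h3, h2, fun w => ?_⟩
    rw [h3, add_mul, mul_assoc A, mul_assoc (C * eb v), TCc_sb_eb]
    congr 1
    simp only [mul_assoc]
  refine ⟨fun hw => ?_, fun hw => ?_, fun hv1 hv2 => ?_⟩
  · have hsw := TCc_sw_eq r h w hw
    have h0 : tB val r * eb w = ∑ v : Wd D n, eb v * tB val r * eb w := by
      rw [← Finset.sum_mul, ← Finset.sum_mul, (eb_facts (D := D) (n := n)).2.1, one_mul]
    rw [h0, Finset.sum_eq_single w]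
    · obtain ⟨A, C, hA, hC, h1, -, h2⟩ := key w
      rw [h2, h1, hsw, hm, if_pos rfl]
    · intro v _ hv
      obtain ⟨A, C, hA, hC, h1, -, h2⟩ := key v
      rw [h2, hsw, hm, if_neg hv, mul_zero, mul_zero, zero_mul, add_zero]
    · intro h3
      exact absurd (Finset.mem_univ _) h3
  · obtain ⟨A, C, hA, hC, h1, h2, h3⟩ := key w
    rw [h3, hm, if_pos rfl, hm, if_neg (TCc_sw_ne r h w hw), mul_zero, zero_mul, add_zero, h2 hw,
      neg_mul]
  · obtain ⟨A, C, hA, hC, h1, h2, h3⟩ := key v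
    rw [h3, hm, if_neg hv1, hm, if_neg hv2, mul_zero, mul_zero, zero_mul, add_zero]

end CA1492.D8
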