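import Mathlib
import Pool.Agent.Lib.MP_ca1492_al.D8.TCb
import Pool.Agent.Lib.MP_ca1492_al.D8.TCc

/-!
The abstract data for the localised KLR algebra.
-/

namespace CA1492.D8

open MvPolynomial

variable {D : Dat} {n : ℕ}

/-- An element commuting with a unit commutes with its inverse. -/
theorem TCd_inv_comm {A : Type*} [Ring A] {x y : A} (hx : IsUnit x) (h : x * y = y * x) :
    Ring.inverse x * y = y * Ring.inverse x := by
  have h1 : x * (Ring.inverse x * y) = x * (y * Ring.inverse x) := by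
    rw [Ring.mul_inverse_cancel_left _ _ hx, ← mul_assoc, h, mul_assoc,
      Ring.mul_inverse_cancel _ hx, mul_one]
  exact hx.mul_left_cancel h1

/-- The inverse shift. -/
noncomputable def TCd_ish (val : D.J → ℂ) (w : Wd D n) : PP n →ₐ[ℂ] PP n :=
  aeval (fun k => X k - C (val (w k)))

theorem TCd_shf_ish (val : D.J → ℂ) (w : Wd D n) (f : PP n) :
    shf val w (TCd_ish val w f) = f := by
  have h : (shf val w).comp (TCd_ish val w) = AlgHom.id ℂ (PP n) := by
    apply MvPolynomial.algHom_ext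
    intro k
    simp [shf, TCd_ish]
  exact DFunLike.congr_fun h f

theorem TCd_ish_shf (val : D.J → ℂ) (w : Wd D n) (f : PP n) :
    TCd_ish val w (shf val w f) = f := by
  have h : (TCd_ish val w).comp (shf val w) = AlgHom.id ℂ (PP n) := by
    apply MvPolynomial.algHom_ext
    intro k
    simp [shf, TCd_ish]
  exact DFunLike.congr_fun h f

theorem TCd_shf_inj (val : D.J → ℂ) (w : Wd D n) (f : PP n) (h : shf val w f = 0) : f = 0 := by
  rw [← TCd_ish_shf val w f, h, map_zero]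

theorem TCd_px_ish (val : D.J → ℂ) (w : Wd D n) (f : PP n) :
    pxB D n val (TCd_ish val w f) * eb w = pb D n f * eb w := by
  rw [(pxB_eb val _ w).1, TCd_shf_ish]

/-- The facts on the elements z. -/
theorem TCd_z (val : D.J → ℂ) (r : ℕ) (h : r + 1 < n) (w : Wd D n)
    (hw : val (w ⟨r, by omega⟩) - val (w ⟨r + 1, h⟩) ≠ 0) :
    eb w * (Ring.inverse (pb D n (alp n r h (val (w ⟨r, by omega⟩) - val (w ⟨r + 1, h⟩)))) * eb w) =
      Ring.inverse (pb D n (alp n r h (val (w ⟨r, by omega⟩) - val (w ⟨r + 1, h⟩)))) * eb w ∧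
    (Ring.inverse (pb D n (alp n r h (val (w ⟨r, by omega⟩) - val (w ⟨r + 1, h⟩)))) * eb w) * eb w =
      Ring.inverse (pb D n (alp n r h (val (w ⟨r, by omega⟩) - val (w ⟨r + 1, h⟩)))) * eb w ∧
    (pxB D n val (X ⟨r, by omega⟩) - pxB D n val (X ⟨r + 1, h⟩)) *
      (Ring.inverse (pb D n (alp n r h (val (w ⟨r, by omega⟩) - val (w ⟨r + 1, h⟩)))) * eb w) =
      eb w ∧
    (Ring.inverse (pb D n (alp n r h (val (w ⟨r, by omega⟩) - val (w ⟨r + 1, h⟩)))) * eb w) *
      (pxB D n val (X ⟨r, by omega⟩) - pxB D n val (X ⟨r + 1, h⟩)) = eb w := by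
  set c : ℂ := val (w ⟨r, by omega⟩) - val (w ⟨r + 1, h⟩) with hc
  set a : BB D n := pb D n (alp n r h c) with ha
  have hu : IsUnit a := by
    apply pb_unit
    simpa [alp] using hw
  have hcm : Ring.inverse a * eb w = eb w * Ring.inverse a :=
    TCd_inv_comm hu (eb_facts.2.2 _ w)
  have hee : (eb w : BB D n) * eb w = eb w := by
    rw [eb_facts.1 w w, if_pos rfl]
  have hsh : shf val w (X ⟨r, by omega⟩ - X ⟨r + 1, h⟩) = alp n r h c := by
    simp only [shf, alp, map_sub, aeval_X, hc]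
    ring
  have hp1 : (pxB D n val (X ⟨r, by omega⟩) - pxB D n val (X ⟨r + 1, h⟩)) * eb w = a * eb w := by
    rw [← map_sub, (pxB_eb val _ w).1, hsh]
  have hp2 : eb w * (pxB D n val (X ⟨r, by omega⟩) - pxB D n val (X ⟨r + 1, h⟩)) = eb w * a := by
    rw [← map_sub, (pxB_eb val _ w).2, hsh]
  refine ⟨?_, ?_, ?_, ?_⟩
  · rw [hcm, ← mul_assoc, hee]
  · rw [mul_assoc, hee]
  · rw [hcm, ← mul_assoc, hp1, eb_facts.2.2, mul_assoc, Ring.mul_inverse_cancel _ hu, mul_one]
  · rw [mul_assoc, hp2, ← eb_facts.2.2, ← mul_assoc, Ring.inverse_mul_cancel _ hu, one_mul]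

theorem TCd_sw_r (r : ℕ) (h : r + 1 < n) (w : Wd D n) :
    (w ∘ sw n r) ⟨r, by omega⟩ = w ⟨r + 1, h⟩ := by
  simp [sw, h]

theorem TCd_sw_r1 (r : ℕ) (h : r + 1 < n) (w : Wd D n) :
    (w ∘ sw n r) ⟨r + 1, h⟩ = w ⟨r, by omega⟩ := by
  simp [sw, h]

theorem TCd_sw_sw (r : ℕ) (h : r + 1 < n) (w : Wd D n) : (w ∘ sw n r) ∘ sw n r = w := by
  funext k
  simp [sw, h]

/-- Two terms of a sum of components. -/
theorem TCd_two (val : D.J → ℂ) (hinj : Function.Injective val)
    (harr : ∀ i j, D.arr i j = true ↔ val j = val i + 1) (r : ℕ) (h : r + 1 < n) (w : Wd D n)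
    (hne : w ∘ sw n r ≠ w) :
    tB val r * eb w = eb w * tB val r * eb w + eb (w ∘ sw n r) * tB val r * eb w ∧
    eb (w ∘ sw n r) * tB val r = eb (w ∘ sw n r) * tB val r * eb (w ∘ sw n r) +
      eb (w ∘ sw n r) * tB val r * eb w := by
  constructor
  · have h1 : tB val r * eb w = ∑ v, eb v * tB val r * eb w := by
      rw [← Finset.sum_mul, ← Finset.sum_mul, eb_facts.2.1, one_mul]
    refine h1.trans ?_
    refine Finset.sum_eq_add (f := fun v => eb v * tB val r * eb w) w (w ∘ sw n r) hne.symm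
      ?_ ?_ ?_
    · rintro v - ⟨hv1, hv2⟩
      exact (tB_eb val hinj harr r h w v).2.2 hv1 hv2
    · intro h2
      exact absurd (Finset.mem_univ _) h2
    · intro h2
      exact absurd (Finset.mem_univ _) h2
  · have h1 : eb (w ∘ sw n r) * tB val r = ∑ v, eb (w ∘ sw n r) * tB val r * eb v := by
      rw [← Finset.mul_sum, eb_facts.2.1, mul_one]
    refine h1.trans ?_
    refine Finset.sum_eq_add (f := fun v => eb (w ∘ sw n r) * tB val r * eb v) (w ∘ sw n r) w hne
      ?_ ?_ ?_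
    · rintro v - ⟨hv1, hv2⟩
      refine (tB_eb val hinj harr r h v (w ∘ sw n r)).2.2 (fun h2 => hv1 h2.symm) (fun h2 => hv2 ?_)
      have h3 := congrArg (fun u : Wd D n => u ∘ sw n r) h2
      simp only [TCd_sw_sw r h] at h3
      exact h3.symm
    · intro h2
      exact absurd (Finset.mem_univ _) h2
    · intro h2
      exact absurd (Finset.mem_univ _) h2

/-- The separation property. -/
theorem TCd_sep (val : D.J → ℂ) (hinj : Function.Injective val)
    (harr : ∀ i j, D.arr i j = true ↔ val j = val i + 1) (r : ℕ) (h : r + 1 < n) (i : Wd D n) :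
    (tB val r * eb i = eb i * tB val r) ∨
    ∃ (i' : Wd D n) (z z' : BB D n), i' ≠ i ∧
      eb i * z = z ∧ z * eb i = z ∧
      (pxB D n val (X ⟨r, by omega⟩) - pxB D n val (X ⟨r + 1, h⟩)) * z = eb i ∧
      z * (pxB D n val (X ⟨r, by omega⟩) - pxB D n val (X ⟨r + 1, h⟩)) = eb i ∧
      eb i' * z' = z' ∧ z' * eb i' = z' ∧
      (pxB D n val (X ⟨r, by omega⟩) - pxB D n val (X ⟨r + 1, h⟩)) * z' = eb i' ∧
      z' * (pxB D n val (X ⟨r, by omega⟩) - pxB D n val (X ⟨r + 1, h⟩)) = eb i' ∧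
      tB val r * eb i = -z + eb i' * tB val r * eb i ∧
      eb i' * tB val r * eb i = eb i' * tB val r + z' := by
  by_cases hi : i ⟨r, by omega⟩ = i ⟨r + 1, h⟩
  · exact Or.inl ((tB_eb val hinj harr r h i i).1 hi)
  · right
    have hv : val (i ⟨r, by omega⟩) - val (i ⟨r + 1, h⟩) ≠ 0 := by
      intro h1
      exact hi (hinj (sub_eq_zero.1 h1))
    have hi' : (i ∘ sw n r) ⟨r, by omega⟩ ≠ (i ∘ sw n r) ⟨r + 1, h⟩ := by
      rw [TCd_sw_r r h, TCd_sw_r1 r h]
      exact fun h1 => hi h1.symm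
    have hv' : val ((i ∘ sw n r) ⟨r, by omega⟩) - val ((i ∘ sw n r) ⟨r + 1, h⟩) ≠ 0 := by
      intro h1
      exact hi' (hinj (sub_eq_zero.1 h1))
    have hne : i ∘ sw n r ≠ i := by
      intro h1
      have h2 := congrFun h1 ⟨r, by omega⟩
      rw [TCd_sw_r r h] at h2
      exact hi h2.symm
    obtain ⟨a1, a2, a3, a4⟩ := TCd_z val r h i hv
    obtain ⟨b1, b2, b3, b4⟩ := TCd_z val r h (i ∘ sw n r) hv'
    obtain ⟨t1, t2⟩ := TCd_two val hinj harr r h i hne
    refine ⟨i ∘ sw n r, _, _, hne, a1, a2, a3, a4, b1, b2, b3, b4, ?_, ?_⟩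
    · rw [← (tB_eb val hinj harr r h i i).2.1 hi]
      exact t1
    · rw [(tB_eb val hinj harr r h (i ∘ sw n r) (i ∘ sw n r)).2.1 hi'] at t2
      generalize Ring.inverse (pb D n (alp n r h
        (val ((i ∘ sw n r) ⟨r, by omega⟩) - val ((i ∘ sw n r) ⟨r + 1, h⟩)))) * eb (i ∘ sw n r) = z
        at t2 ⊢
      have h3 : eb (i ∘ sw n r) * tB val r * eb i =
          z + (-z + eb (i ∘ sw n r) * tB val r * eb i) := by
        rw [← add_assoc, add_neg_cancel, zero_add]
      rw [h3, ← t2, add_comm]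

/-- The abstract data. PROOF. rho = rhoB, px = pxB, e = eb, S = (SymS D n).map (LB D n).ι.
rho_x: `tB_px`, `rhoB_sw`. e_mul, e_sum: `eb_facts`. e_x: `pxB_eb`. S_comm: `CLoc.central`. S_unit:
`CLoc.unit`. S_lat: for s = ι (pol f), q = aeval (fun k => X k - C (val (w k))) f: shf val w q = f, so
pxB q * eb w = pb f * eb w. span: `Lat_top`, with pb p * eb w = pxB (aeval (fun k => X k - C (val (w k))) p) * eb w.
uniq: `Lat_uniq` for the polynomials shf val w (f σ w), and shf val w is injective (it has the inverse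
above). sep: for a word w: equal letters: first alternative by `tB_eb`. Otherwise i' = w ∘ sw n r,
z = (pb α)⁻¹ * eb w, z' = (pb α')⁻¹ * eb w', where α = alp (val (w r) - val (w (r+1))), α' the same for
w' = w ∘ sw n r (so its constant is the negative). One has (px (X r) - px (X (r+1))) * eb w = pb α * eb w
(`pxB_eb`, shf val w (X r - X (r+1)) = α). s e_w = ∑_v e_v s e_w = e_w s e_w + e_w' s e_w = -z + e_w' s e_w;
e_w' s = ∑_v e_w' s e_v = e_w' s e_w' + e_w' s e_w = -z' + e_w' s e_w (w' ∘ sw n r = w; for v ≠ w, w' the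
term e_w' s e_v is 0 by `tB_eb` as w' ≠ v and w' ≠ v ∘ sw n r). -/
theorem exists_hd (D : Dat) (n : ℕ) (val : D.J → ℂ) (hinj : Function.Injective val)
    (harr : ∀ i j, D.arr i j = true ↔ val j = val i + 1) : Nonempty (HD n (BB D n) (Wd D n)) := by
  refine ⟨{
    rho := rhoB D n val hinj harr
    px := pxB D n val
    e := fun w => eb w
    S := (SymS D n).map (LB D n).ι
    rho_x := ?_
    e_mul := eb_facts.1
    e_sum := eb_facts.2.1
    e_x := ?_
    S_comm := ?_
    S_unit := ?_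
    S_lat := ?_
    span := ?_
    uniq := ?_
    sep := ?_ }⟩
  · intro r h k
    rw [rhoB_sw val hinj harr r h]
    exact tB_px val hinj harr r h k
  · intro i k
    rw [(pxB_eb val _ i).1, (pxB_eb val _ i).2, eb_facts.2.2]
  · rintro s hs b
    obtain ⟨s, hs', rfl⟩ := Submonoid.mem_map.1 hs
    exact CLoc.central (LB D n) SymS_comm s hs' b
  · rintro s hs
    obtain ⟨s, hs', rfl⟩ := Submonoid.mem_map.1 hs
    exact (LB D n).unit s hs'
  · rintro s hs i
    obtain ⟨s, hs', rfl⟩ := Submonoid.mem_map.1 hs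
    obtain ⟨f, _, _, rfl⟩ := hs'
    refine ⟨TCd_ish val i f, ?_⟩
    rw [TCd_px_ish]
    rfl
  · intro b
    obtain ⟨s, hs, f, hf⟩ := Lat_top val hinj harr b
    refine ⟨(LB D n).ι s, Submonoid.mem_map.2 ⟨s, hs, rfl⟩, fun σ w => TCd_ish val w (f σ w), ?_⟩
    rw [hf]
    refine Finset.sum_congr rfl (fun σ _ => Finset.sum_congr rfl (fun w _ => ?_))
    rw [TCd_px_ish]
  · intro f hf
    have h1 := Lat_uniq val hinj harr (fun σ w => shf val w (f σ w)) (by
      rw [← hf]
      refine Finset.sum_congr rfl (fun σ _ => Finset.sum_congr rfl (fun w _ => ?_))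
      rw [(pxB_eb val _ w).1])
    funext σ w
    have h2 := congrFun (congrFun h1 σ) w
    exact TCd_shf_inj val w (f σ w) h2
  · intro r h i
    rw [rhoB_sw val hinj harr r h]
    exact TCd_sep val hinj harr r h i

end CA1492.D8
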