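import Mathlib
import Pool.Agent.Lib.MP_ca1492_al.D8.CExt
import Pool.Agent.Lib.MP_ca1492_al.D8.ExtFin
import Pool.Agent.Lib.MP_ca1492_al.D8.HMain
import Pool.Agent.Lib.MP_ca1492_al.D8.RMod
import Pool.Agent.Lib.MP_ca1492_al.D8.RNoeth
import Pool.Agent.Lib.MP_ca1492_al.D8.TCd

/-!
MP_ca1492_al, D8: finiteness of Ext between finite dimensional nilpotent modules over `R D n`.
-/

namespace CA1492.D8

open CategoryTheory CategoryTheory.Abelian

/-- Transport of the vanishing of Ext along isomorphisms. -/
theorem Fin_iso {C : Type*} [Category C] [Abelian C] [HasExt.{0} C] {X X' Y Y' : C}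
    (e : X ≅ X') (f : Y ≅ Y') (i : ℕ) (h : Subsingleton (Ext.{0} X Y i)) :
    Subsingleton (Ext.{0} X' Y' i) := by
  have key : ∀ z : Ext.{0} X' Y' i, z = (Ext.mk₀ e.inv).comp
      ((((Ext.mk₀ e.hom).comp z (zero_add i)).comp (Ext.mk₀ f.inv) (add_zero i)).comp
        (Ext.mk₀ f.hom) (add_zero i)) (zero_add i) := by
    intro z
    rw [Ext.comp_assoc_of_third_deg_zero, Ext.mk₀_comp_mk₀, f.inv_hom_id, Ext.comp_mk₀_id,
      ← Ext.comp_assoc _ _ _ (zero_add 0) (zero_add i) (by omega), Ext.mk₀_comp_mk₀, e.inv_hom_id,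
      Ext.mk₀_id_comp]
  refine ⟨fun a b => ?_⟩
  rw [key a, key b]
  congr 2
  exact Subsingleton.elim _ _

variable {A : Type} [Ring A] [Algebra ℂ A] {S : Submonoid A}

/-- The restriction of a module over the localisation. -/
noncomputable def Fin_res (L : CLoc A S) (V : Type) [AddCommGroup V] [Module A V] [Module L.B V]
    (c : ∀ (a : A) (v : V), L.ι a • v = a • v) :
    L.res.obj (ModuleCat.of L.B V) ≅ ModuleCat.of A V where
  hom := ModuleCat.ofHom (X := L.res.obj (ModuleCat.of L.B V)) (Y := V)
    { toFun := fun v => v, map_add' := fun _ _ => rfl, map_smul' := fun a v => c a v }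
  inv := ModuleCat.ofHom (X := V) (Y := L.res.obj (ModuleCat.of L.B V))
    { toFun := fun v => v, map_add' := fun _ _ => rfl, map_smul' := fun a v => (c a v).symm }
  hom_inv_id := rfl
  inv_hom_id := rfl

/-- The scalar structure through `A` is the given one. -/
theorem Fin_hY (V : Type) [AddCommGroup V] [Module ℂ V] [Module A V] [IsScalarTower ℂ A V]
    [Module.Finite ℂ V] : letI := Module.compHom V (algebraMap ℂ A); Module.Finite ℂ V := by
  have hm : (Module.compHom V (algebraMap ℂ A)) = (inferInstance : Module ℂ V) :=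
    Module.ext' _ _ fun c v => algebraMap_smul A c v
  rw [hm]
  infer_instance

variable {D : Dat} {n : ℕ}

/-- FINITENESS. PROOF. V is a finitely generated R D n-module (finite dimensional over ℂ), so
`R_noeth`, `ext_finite` give the first part. For the second: V and W are modules over `BB D n`
(`CLoc.exists_module`, `SymS_bij`), compatible with the module structures over R D n; `HD.pd` (for the data of
`exists_hd`) gives HasProjectiveDimensionLT (ModuleCat.of (BB D n) V) (n+1), so Ext^i over BB D n vanishes for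
i ≥ n + 1, and by `CLoc.ext_vanish` Ext^i over R D n between the restrictions vanishes; the restrictions
are isomorphic to ModuleCat.of (R D n) V and W (identity maps). -/
theorem fin_ext (val : D.J → ℂ) (hinj : Function.Injective val)
    (harr : ∀ i j, D.arr i j = true ↔ val j = val i + 1)
    (V W : Type) [AddCommGroup V] [Module ℂ V] [Module (R D n) V] [IsScalarTower ℂ (R D n) V]
    [FiniteDimensional ℂ V]
    [AddCommGroup W] [Module ℂ W] [Module (R D n) W] [IsScalarTower ℂ (R D n) W]
    [FiniteDimensional ℂ W]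
    (hV : ∀ k : Fin n, ∃ N : ℕ, ∀ v : V, ((yk k : R D n) ^ N) • v = 0)
    (hW : ∀ k : Fin n, ∃ N : ℕ, ∀ v : W, ((yk k : R D n) ^ N) • v = 0) :
    ExtT.FinExt.{0} (ModuleCat.of (R D n) V) (ModuleCat.of (R D n) W) (n + 1) := by
  refine ⟨fun i => ?_, fun i hi => ?_⟩
  · have hN : IsNoetherianRing (R D n) := R_noeth D n
    have hfV : Module.Finite (R D n) (ModuleCat.of (R D n) V) :=
      Module.Finite.of_restrictScalars_finite ℂ (R D n) V
    exact ext_finite i _ _ (Fin_hY W)
  · obtain ⟨H⟩ := exists_hd D n val hinj harr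
    obtain ⟨iV, tV, cV⟩ := (LB D n).exists_module V (fun s hs => SymS_bij V hV s hs)
    obtain ⟨iW, tW, cW⟩ := (LB D n).exists_module W (fun s hs => SymS_bij W hW s hs)
    have hpd : HasProjectiveDimensionLT (ModuleCat.of (BB D n) V) (n + 1) := H.pd V
    obtain ⟨k, rfl⟩ : ∃ k, i = k + 1 := ⟨i - 1, by omega⟩
    have h1 : Subsingleton (Ext.{0} (ModuleCat.of (BB D n) V) (ModuleCat.of (BB D n) W) (k + 1)) :=
      HasProjectiveDimensionLT.subsingleton (ModuleCat.of (BB D n) V) (n + 1) (k + 1) hi _
    have h2 := (LB D n).ext_vanish SymS_comm k _ _ h1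
    exact Fin_iso (Fin_res (LB D n) V cV) (Fin_res (LB D n) W cW) (k + 1) h2

end CA1492.D8
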