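import Mathlib
import Pool.Agent.Lib.MP_ca1492_al.D8.Fin
import Pool.Agent.Lib.MP_ca1492_al.Mod.DatS
import Pool.Agent.Lib.MP_ca1492_al.Mod.LSet

/-!
MP_ca1492_al, D8: finiteness of Ext for the quivers `datS S` and the objects `FObj`.
-/

namespace CA1492.D8

open CategoryTheory CategoryTheory.Abelian

/-- The letters of `datS S` as complex numbers, with val j = val i + 1 exactly for the arrows. -/
theorem exists_val {Λ : Type} [DecidableEq Λ] (S : Finset (Λ × ℤ)) :
    ∃ val : (datS S).J → ℂ, Function.Injective val ∧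
      ∀ i j, (datS S).arr i j = true ↔ val j = val i + 1 := by
  classical
  let T : Finset Λ := S.image Prod.fst
  let m : ℕ := T.card + 1
  have hT : ∀ x : (datS S).J, (ltr x).1 ∈ T := fun x =>
    Finset.mem_image_of_mem Prod.fst (show ltr x ∈ S from x.2)
  let a : (datS S).J → ℕ := fun x => (T.equivFin ⟨(ltr x).1, hT x⟩).val
  have ha : ∀ x, a x < m := fun x => Nat.lt_succ_of_lt (T.equivFin ⟨(ltr x).1, hT x⟩).isLt
  have hinj : ∀ x y, a x = a y → (ltr x).1 = (ltr y).1 := by
    intro x y h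
    have h1 : T.equivFin ⟨(ltr x).1, hT x⟩ = T.equivFin ⟨(ltr y).1, hT y⟩ := Fin.ext h
    have h2 := T.equivFin.injective h1
    exact congrArg Subtype.val h2
  have hcong : ∀ x y, (ltr x).1 = (ltr y).1 → a x = a y := by
    intro x y h
    have : (⟨(ltr x).1, hT x⟩ : T) = ⟨(ltr y).1, hT y⟩ := Subtype.ext h
    show (T.equivFin ⟨(ltr x).1, hT x⟩).val = (T.equivFin ⟨(ltr y).1, hT y⟩).val
    rw [this]
  let N : (datS S).J → ℤ := fun x => (a x : ℤ) + (m : ℤ) * (ltr x).2
  have hm : (0 : ℤ) < m := by positivity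
  have hdiv : ∀ x, N x / (m : ℤ) = (ltr x).2 := by
    intro x
    show ((a x : ℤ) + (m : ℤ) * (ltr x).2) / (m : ℤ) = (ltr x).2
    rw [Int.add_mul_ediv_left _ _ hm.ne', Int.ediv_eq_zero_of_lt (by positivity)
      (by exact_mod_cast ha x), zero_add]
  have hmod : ∀ x, N x % (m : ℤ) = (a x : ℤ) := by
    intro x
    show ((a x : ℤ) + (m : ℤ) * (ltr x).2) % (m : ℤ) = (a x : ℤ)
    rw [Int.add_mul_emod_self_left]
    exact Int.emod_eq_of_lt (by positivity) (by exact_mod_cast ha x)
  have hmC : (m : ℂ) ≠ 0 := by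
    exact_mod_cast (Nat.succ_ne_zero T.card)
  refine ⟨fun x => (N x : ℂ) / (m : ℂ), ?_, ?_⟩
  · intro x y h
    have h1 : (N x : ℂ) = N y := by
      have h2 : (N x : ℂ) / (m : ℂ) = (N y : ℂ) / (m : ℂ) := h
      field_simp at h2
      exact h2
    have h3 : N x = N y := by exact_mod_cast h1
    apply ltr_injective
    refine Prod.ext (hinj x y ?_) ?_
    · have := congrArg (fun z => z % (m : ℤ)) h3
      simp only [hmod] at this
      exact_mod_cast this
    · have := congrArg (fun z => z / (m : ℤ)) h3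
      simp only [hdiv] at this
      exact this
  · intro x y
    rw [datS_arr]
    have key : ((N y : ℂ) / (m : ℂ) = (N x : ℂ) / (m : ℂ) + 1) ↔ N y = N x + m := by
      constructor
      · intro h
        have h2 : (N y : ℂ) = (N x : ℂ) + m := by
          field_simp at h
          exact h
        exact_mod_cast h2
      · intro h
        have h2 : (N y : ℂ) = (N x : ℂ) + m := by exact_mod_cast h
        rw [h2, add_div, div_self hmC]
    show _ ↔ (N y : ℂ) / (m : ℂ) = (N x : ℂ) / (m : ℂ) + 1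
    rw [key]
    constructor
    · rintro ⟨h1, h2⟩
      show (a y : ℤ) + (m : ℤ) * (ltr y).2 = (a x : ℤ) + (m : ℤ) * (ltr x).2 + m
      rw [hcong y x h1, h2]
      ring
    · intro h
      have h1 := congrArg (fun z => z % (m : ℤ)) h
      have h2 := congrArg (fun z => z / (m : ℤ)) h
      simp only [hmod, hdiv, Int.add_emod_right] at h1 h2
      rw [Int.add_ediv_of_dvd_right (dvd_refl _), hdiv, Int.ediv_self hm.ne'] at h2
      exact ⟨hinj y x (by exact_mod_cast h1), h2⟩

/-- FINITENESS for the objects `FObj`. -/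
theorem fin_FObj {Λ : Type} [DecidableEq Λ] {S : Finset (Λ × ℤ)} {n : ℕ} (lam : ℂˣ) (hl : PosNe lam)
    (A B : FObj (datS S) n lam) :
    ExtT.FinExt.{0} (ModuleCat.of (R (datS S) n) A.V) (ModuleCat.of (R (datS S) n) B.V) (n + 1) := by
  obtain ⟨val, hinj, harr⟩ := exists_val S
  have hn : ∀ M : FObj (datS S) n lam, ∀ k : Fin n, ∃ N : ℕ, ∀ v : M.V,
      ((yk k : R (datS S) n) ^ N) • v = 0 := by
    intro M k
    obtain ⟨N, hN⟩ := yk_nilpotent hl M k
    refine ⟨N, fun v => ?_⟩
    have h1 : act M.V ((yk k : R (datS S) n) ^ N) = 0 := by rw [map_pow, hN]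
    have h2 := LinearMap.congr_fun h1 v
    rwa [act_apply, LinearMap.zero_apply] at h2
  exact fin_ext val hinj harr A.V B.V (hn A) (hn B)

end CA1492.D8
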